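import Pool.Agent.SBQ.StmtsB

/-!
# SBQ, module AC: accumulation points of the zero set
-/

namespace Pool.Agent.SBQ

open MvPolynomial (eval aeval C)

namespace AC_

theorem isCompact_sph : IsCompact {v : Fin 4 → ℝ | ∑ j, v j ^ 2 = 1} := by
  apply Metric.isCompact_of_isClosed_isBounded
  · exact isClosed_eq (by fun_prop) continuous_const
  · rw [Metric.isBounded_iff_subset_closedBall 0]
    refine ⟨1, fun v hv => ?_⟩
    rw [Metric.mem_closedBall, dist_pi_le_iff zero_le_one]
    intro j
    rw [Real.dist_eq, Pi.zero_apply, sub_zero]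
    have h1 : v j ^ 2 ≤ ∑ j, v j ^ 2 :=
      Finset.single_le_sum (f := fun j => v j ^ 2) (fun i _ => sq_nonneg _) (Finset.mem_univ j)
    have h2 : ∑ j, v j ^ 2 = 1 := hv
    rw [h2] at h1
    exact abs_le_one_iff_mul_self_le_one.mpr (by nlinarith)

theorem li {p v : Fin 4 → ℝ} (hp : ∑ j, p j ^ 2 = 1) (hv : ∑ j, v j ^ 2 = 1) (h1 : v ≠ p)
    (h2 : v ≠ -p) : LinearIndependent ℝ ![p, v] := by
  rw [LinearIndependent.pair_iff]
  intro s t hst
  have h3 : ∀ j, s * p j = -(t * v j) := by
    intro j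
    have := congrFun hst j
    simp only [Pi.add_apply, Pi.smul_apply, smul_eq_mul, Pi.zero_apply] at this
    linarith
  have h4 : s ^ 2 = t ^ 2 := by
    have h5 : ∑ j, (s * p j) ^ 2 = ∑ j, (t * v j) ^ 2 := by
      apply Finset.sum_congr rfl
      intro j _
      rw [h3 j]; ring
    simp only [mul_pow, ← Finset.mul_sum] at h5
    rw [hp, hv] at h5
    linarith
  have ht : t = 0 := by
    by_contra hne
    rcases sq_eq_sq_iff_eq_or_eq_neg.mp h4 with h | h
    · apply h2
      funext j
      have := h3 j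
      rw [h] at this
      have h6 : t * (v j + p j) = 0 := by linarith
      have h7 := (mul_eq_zero.mp h6).resolve_left hne
      rw [Pi.neg_apply]; linarith
    · apply h1
      funext j
      have := h3 j
      rw [h] at this
      have h6 : t * (v j - p j) = 0 := by linarith
      have h7 := (mul_eq_zero.mp h6).resolve_left hne
      linarith
  refine ⟨?_, ht⟩
  rw [ht] at h4
  nlinarith [sq_nonneg s, sq_eq_zero_iff.mp (show s ^ 2 = 0 by rw [h4]; norm_num)]

end AC_

open AC_ in
theorem ac_proof : Stmt_AC := by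
  intro F hF hinf
  set S : Set (Fin 4 → ℝ) := {v : Fin 4 → ℝ | eval v F = 0 ∧ ∑ j, v j ^ 2 = 1} with hS
  have hSinf : S.Infinite := hinf
  have hSK : S ⊆ {v : Fin 4 → ℝ | ∑ j, v j ^ 2 = 1} := fun v hv => hv.2
  obtain ⟨p, hpK, hacc⟩ := hSinf.exists_accPt_of_subset_isCompact isCompact_sph hSK
  have hclosed : IsClosed S := by
    have h1 : IsClosed {v : Fin 4 → ℝ | eval v F = 0} :=
      isClosed_eq (MvPolynomial.continuous_eval F) continuous_const
    exact h1.inter isCompact_sph.isClosed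
  have hpS : p ∈ S := by
    have h1 := hacc.clusterPt
    have h2 : p ∈ closure S := mem_closure_iff_clusterPt.mpr h1
    rwa [hclosed.closure_eq] at h2
  have hp1 : ∑ j, p j ^ 2 = 1 := hpK
  refine ⟨p, ?_, hpS.1, fun δ hδ => ?_⟩
  · rintro rfl
    simp at hp1
  rw [accPt_iff_nhds] at hacc
  obtain ⟨v, ⟨hvU, hvS⟩, hvp⟩ := hacc (Metric.ball p (min δ 1)) (Metric.ball_mem_nhds p (by positivity))
  have hb : ∀ j, |v j - p j| < min δ 1 := by
    rw [Metric.mem_ball, dist_pi_lt_iff (by positivity)] at hvU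
    intro j
    have := hvU j
    rwa [Real.dist_eq] at this
  refine ⟨v, hvS.1, li hp1 hvS.2 hvp ?_, fun j => lt_of_lt_of_le (hb j) (min_le_left _ _)⟩
  intro hneg
  have h3 : ∀ j, p j ^ 2 < 1 / 4 := by
    intro j
    have h4 := lt_of_lt_of_le (hb j) (min_le_right _ _)
    rw [hneg, Pi.neg_apply] at h4
    have h5 : |p j| < 1 / 2 := by
      have : -p j - p j = -(2 * p j) := by ring
      rw [this, abs_neg, abs_mul] at h4
      norm_num at h4
      linarith
    have h6 := abs_lt.mp h5
    nlinarith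
  have h7 : ∑ j, p j ^ 2 < ∑ _j : Fin 4, (1 / 4 : ℝ) :=
    Finset.sum_lt_sum_of_nonempty Finset.univ_nonempty fun j _ => h3 j
  rw [hp1] at h7
  norm_num at h7

end Pool.Agent.SBQ
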