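import Pool.Agent.SBQ.StmtsA

/-!
# SBQ.AX: linear conditions along arcs
-/

namespace Pool.Agent.SBQ

open MvPolynomial (eval aeval C)

namespace AX_

/-- the coefficient functionals -/
noncomputable def lam {n : ℕ} {ι : Type} (γ : ι → Fin n → U1) (e : ι → ℕ) :
    MvPolynomial (Fin n) ℝ →ₗ[ℝ] ((Σ a, Fin (e a)) → ℝ) :=
  LinearMap.pi fun q => (Polynomial.lcoeff ℝ (q.2 : ℕ)).comp
    (aeval (γ q.1) : MvPolynomial (Fin n) ℝ →ₐ[ℝ] U1).toLinearMap

theorem lam_zero {n : ℕ} {ι : Type} (γ : ι → Fin n → U1) (e : ι → ℕ)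
    (h : MvPolynomial (Fin n) ℝ) (hh : lam γ e h = 0) (a : ι) :
    (Polynomial.X : U1) ^ (e a) ∣ comp (γ a) h := by
  rw [Polynomial.X_pow_dvd_iff]
  intro j hj
  have := congrFun hh ⟨a, ⟨j, hj⟩⟩
  simpa [lam, comp] using this

end AX_

open AX_ in
theorem ax_proof : Stmt_AX := by
  intro n W ι _ γ e hW
  set Λ : W →ₗ[ℝ] ((Σ a, Fin (e a)) → ℝ) := (lam γ e).comp W.subtype with hΛ
  have hrank := LinearMap.finrank_range_add_finrank_ker Λ
  have hr : Module.finrank ℝ (LinearMap.range Λ) ≤ ∑ a, e a := by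
    refine (Submodule.finrank_le _).trans ?_
    rw [Module.finrank_fintype_fun_eq_card, Fintype.card_sigma]
    simp
  refine ⟨fun hlt => ?_, fun hlt c => ?_⟩
  · have hpos : 0 < Module.finrank ℝ (LinearMap.ker Λ) := by omega
    have : Nontrivial (LinearMap.ker Λ) := Module.finrank_pos_iff.1 hpos
    obtain ⟨⟨h, hh⟩, hne⟩ := exists_ne (0 : LinearMap.ker Λ)
    refine ⟨h.1, h.2, ?_, fun a => ?_⟩
    · intro h0
      apply hne
      ext1
      ext1
      exact h0
    · exact lam_zero γ e _ (LinearMap.mem_ker.1 hh) a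
  · by_contra hcon
    push Not at hcon
    have hle : (LinearMap.ker Λ).map W.subtype ≤ Submodule.span ℝ {c} := by
      rintro _ ⟨h, hh, rfl⟩
      by_contra hns
      have h1 : ∀ s : ℝ, (h : MvPolynomial (Fin n) ℝ) ≠ C s * c := by
        intro s hs
        apply hns
        rw [Submodule.mem_span_singleton]
        refine ⟨s, ?_⟩
        rw [MvPolynomial.smul_eq_C_mul]
        exact hs.symm
      obtain ⟨a, ha⟩ := hcon h.1 h.2 h1
      exact ha (lam_zero γ e _ (LinearMap.mem_ker.1 hh) a)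
    have h2 : Module.finrank ℝ (LinearMap.ker Λ) ≤ 1 := by
      have h3 : Module.finrank ℝ ((LinearMap.ker Λ).map W.subtype) =
          Module.finrank ℝ (LinearMap.ker Λ) :=
        (Submodule.equivMapOfInjective W.subtype W.injective_subtype _).finrank_eq.symm
      rw [← h3]
      have h4 := Submodule.finrank_mono hle
      have h5 : Module.finrank ℝ (Submodule.span ℝ {c}) ≤ 1 := by
        have := finrank_span_finset_le_card (R := ℝ) ({c} : Finset (MvPolynomial (Fin n) ℝ))
        rw [Finset.coe_singleton, Finset.card_singleton] at this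
        exact this
      omega
    omega

end Pool.Agent.SBQ
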