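import Pool.Agent.SBQ.StmtsA

set_option autoImplicit false

/-!
# SBQ, BZ: Bezout
-/

namespace Pool.Agent.SBQ

theorem bz_proof (h1 : Stmt_PG) (h2 : Stmt_W5) : Stmt_BZ := by
  intro ε f g ι _ γ i k hf hfull hprime hF h9 hk hg hfI hgI
  by_contra hdvd
  obtain ⟨N0, hN0⟩ := h2 ε f g (2 * k) k ι γ i hprime hg hdvd hk hF hfI hgI
  have h3 := hN0 (N0 + 4) (by omega)
  have h4 := h1 ε f hf hfull N0
  have h5 := h1 ε f hf hfull (N0 + 2 * k)
  rw [show N0 + 4 + 2 * k = N0 + 2 * k + 4 by ring, h5, h4] at h3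
  have h6 : 2 * k * 9 ≤ 2 * k * ∑ a, i a := Nat.mul_le_mul_left _ h9
  nlinarith

end Pool.Agent.SBQ
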