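import Pool.Agent.SBQ.StmtsA

/-!
# SBQ, module E1: `PN N` surjects onto a finite-dimensional quotient for large `N`
-/

set_option autoImplicit false

namespace Pool.Agent.SBQ

open MvPolynomial (eval aeval C)

theorem e1_proof (h1 : Stmt_PA) : Stmt_E1 := by
  intro ε J hJ
  obtain ⟨hmono, _, _, _, _, _, hex⟩ := h1 ε
  obtain ⟨S, hS⟩ := (Module.Finite.fg_top : (⊤ : Submodule ℝ (R2 ⧸ J)).FG)
  have hl : ∀ x : R2 ⧸ J, ∃ N : ℕ, x ∈ (PN ε N).map J.mkQ := by
    intro x
    obtain ⟨h, rfl⟩ := Submodule.mkQ_surjective J x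
    obtain ⟨N, hN⟩ := hex h
    exact ⟨N, Submodule.mem_map_of_mem hN⟩
  choose f hf using hl
  refine ⟨S.sup f, fun N hN => ?_⟩
  have htop : (PN ε N).map J.mkQ = ⊤ := by
    rw [eq_top_iff, ← hS, Submodule.span_le]
    intro x hx
    have h2 : f x ≤ N := (Finset.le_sup (f := f) hx).trans hN
    exact Submodule.map_mono (hmono _ _ h2) (hf x)
  have h3 := Submodule.comap_map_mkQ J (PN ε N)
  rw [htop, Submodule.comap_top] at h3
  rw [sup_comm]
  exact h3.symm

end Pool.Agent.SBQ
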