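import Pool.Agent.SBQ.StmtsA

set_option autoImplicit false

namespace Pool.Agent.SBQ

open MvPolynomial (eval aeval C)

namespace FS_

/-- slope bounds are monotone -/
theorem SL_mono {ε : ℝ} {c : R2} {s s' : ℕ} (h : SL ε c s) (hs : s' ≤ s) : SL ε c s' := by
  obtain ⟨K, hK⟩ := h
  refine ⟨K, fun N => ?_⟩
  have h1 := hK N
  have h2 : s' * N ≤ s * N := Nat.mul_le_mul_right N hs
  omega

theorem SL_one (hPU : Stmt_PU) {ε : ℝ} {c : R2} (h0 : c ≠ 0) (hu : ¬ IsUnit c) : SL ε c 1 := by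
  refine ⟨0, fun N => ?_⟩
  have := hPU ε c N h0 hu
  omega

theorem dc_le (hPD : Stmt_PD) (ε : ℝ) (c : R2) (N : ℕ) : dc ε c N ≤ (N + 1) ^ 2 := by
  obtain ⟨hfin, hrk⟩ := hPD ε N
  rw [← hrk]
  unfold dc
  exact Submodule.finrank_mono inf_le_left

/-- the main estimate -/
theorem key (hPD : Stmt_PD) (hO1 : Stmt_O1) (hO3 : Stmt_O3) (hW5 : Stmt_W5) (hNM : Stmt_NM)
    (ε : ℝ) (c : R2) (ι : Type) [Fintype ι] (γ : ι → Fin 2 → U1) (i : ι → ℕ)
    (hp : Prime c) (hpsd : Psd c) (hfam : Fam γ i)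
    (hord : ∀ a, (Polynomial.X : U1) ^ (2 * i a) ∣ comp (γ a) c)
    (r : ℕ) (hr : 1 ≤ r) (e : ι → ℕ) (he : ∀ a, e a ≤ i a) (h : R2) (hh : h ∈ PN ε r)
    (hc : ¬ c ∣ h) (hdiv : ∀ a, (Polynomial.X : U1) ^ (e a) ∣ comp (γ a) h) :
    ∃ K : ℕ, ∀ N, (2 * ∑ a, e a) * N + r * dc ε c N ≤ r * (N + 1) ^ 2 + K := by
  classical
  let ι' : Type := {a : ι // 1 ≤ e a}
  have hsum : ∑ a : ι', e a.1 = ∑ a, e a := by
    have h1 : ∑ a ∈ Finset.univ.filter (fun a => 1 ≤ e a), e a = ∑ a : ι', e a.1 :=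
      Finset.sum_subtype _ (by simp) e
    rw [← h1]
    apply Finset.sum_filter_of_ne
    intro a _ ha
    omega
  have hfam' : Fam (fun a : ι' => γ a.1) (fun a : ι' => e a.1) := by
    refine ⟨fun a => a.2, fun a => hfam.imm a.1, fun a b hab => hfam.dist a.1 b.1 ?_⟩
    intro hcon
    exact hab (Subtype.ext hcon)
  obtain ⟨N0, hN0⟩ := hW5 ε c h r 1 ι' (fun a => γ a.1) (fun a => e a.1) hp hh hc le_rfl hfam'
    (fun a => hO1 c (γ a.1) (i a.1) (e a.1) hpsd (hord a.1) (he a.1))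
    (fun a => by
      have := hO3 h (γ a.1) (e a.1) (hdiv a.1)
      simpa using this)
  rw [hsum] at hN0
  obtain ⟨K, hK⟩ := hNM r (2 * ∑ a, e a) N0 (dc ε c) hr (dc_le hPD ε c) (fun N hN => by
    have := hN0 N hN
    simpa using this)
  exact ⟨K, hK⟩

theorem exists_h (hPD : Stmt_PD) (hAX : Stmt_AX) (ε : ℝ) (ι : Type) [Fintype ι]
    (γ : ι → Fin 2 → U1) (i : ι → ℕ) (r n' : ℕ) (hn : n' ≤ ∑ a, i a) (hr : n' < (r + 1) ^ 2) :
    ∃ e : ι → ℕ, (∀ a, e a ≤ i a) ∧ ∑ a, e a = n' ∧ ∃ h ∈ PN ε r, h ≠ 0 ∧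
      ∀ a, (Polynomial.X : U1) ^ (e a) ∣ comp (γ a) h := by
  obtain ⟨e, he, hs⟩ := exists_sub ι i n' hn
  obtain ⟨hfin, hrk⟩ := hPD ε r
  refine ⟨e, he, hs, ?_⟩
  exact (hAX 2 (PN ε r) ι γ e hfin).1 (by rw [hrk, hs]; exact hr)

end FS_

theorem fs_proof (_hPA : Stmt_PA) (hPD : Stmt_PD) (hPT : Stmt_PT) (hPU : Stmt_PU) (hPH : Stmt_PH)
    (hAX : Stmt_AX) (hO1 : Stmt_O1) (hO3 : Stmt_O3) (hW5 : Stmt_W5) (hNM : Stmt_NM) :
    Stmt_FS := by
  intro ε c ι _ γ i hirr hpsd hfam hord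
  have hc0 : c ≠ 0 := hirr.ne_zero
  have hcu : ¬ IsUnit c := hirr.not_isUnit
  have hp : Prime c := UniqueFactorizationMonoid.irreducible_iff_prime.mp hirr
  have hkey := FS_.key hPD hO1 hO3 hW5 hNM ε c ι γ i hp hpsd hfam hord
  set n := ∑ a, i a with hn
  -- slope one
  have h1 : SL ε c 1 := FS_.SL_one hPU hc0 hcu
  rcases Nat.eq_zero_or_pos n with hn0 | hnpos
  · have : max 1 (min n 8) = 1 := by omega
    rw [this]; exact h1
  obtain ⟨e, he, hs, h, hh, hh0, hdiv⟩ := FS_.exists_h hPD hAX ε ι γ i 1 (min n 3)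
    (min_le_left _ _) (by norm_num)
  by_cases hch : c ∣ h
  · -- `c` is in `PN 1`
    obtain ⟨a, ha⟩ := hPT ε c h hpsd hcu hch hh hh0
    have ha0 : a ≠ 0 := by
      intro h0
      apply hh0
      rw [ha, h0]; simp
    have hcP : c ∈ PN ε 1 := by
      have : c = a⁻¹ • h := by
        rw [ha, MvPolynomial.smul_eq_C_mul, ← mul_assoc, ← MvPolynomial.C_mul,
          inv_mul_cancel₀ ha0]
        simp
      rw [this]
      exact Submodule.smul_mem _ _ hh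
    have hn1 : n ≤ 1 := by
      by_contra hcon
      push Not at hcon
      obtain ⟨e', he', hs'⟩ := exists_sub ι i 2 (by omega)
      obtain ⟨hfin, hrk⟩ := hPD ε 1
      obtain ⟨h', hh', hne, hdiv'⟩ := (hAX 2 (PN ε 1) ι γ e' hfin).2 (by
        rw [hrk, hs']; norm_num) c
      have hh'0 : h' ≠ 0 := by
        have := hne 0
        simpa using this
      have hnd : ¬ c ∣ h' := by
        intro hd
        obtain ⟨a', ha'⟩ := hPT ε c h' hpsd hcu hd hh' hh'0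
        exact hne a' ha'
      obtain ⟨K, hK⟩ := hkey 1 le_rfl e' he' h' hh' hnd hdiv'
      have hq := hPH ε 1 (K + 1) c c dvd_rfl hcP hc0
      have hK' := hK (K + 1 + 1)
      rw [hs'] at hK'
      nlinarith
    have : max 1 (min n 8) = 1 := by omega
    rw [this]; exact h1
  · obtain ⟨K, hK⟩ := hkey 1 le_rfl e he h hh hch hdiv
    rw [hs] at hK
    have hSL : SL ε c (2 * min n 3) := ⟨K, fun N => by have := hK N; omega⟩
    by_cases hn6 : n ≤ 6
    · exact FS_.SL_mono hSL (by omega)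
    · push Not at hn6
      have hSL6 : SL ε c 6 := FS_.SL_mono hSL (by omega)
      obtain ⟨e', he', hs', h', hh', hh'0, hdiv'⟩ := FS_.exists_h hPD hAX ε ι γ i 2 (min n 8)
        (min_le_left _ _) (by omega)
      have hnd : ¬ c ∣ h' := by
        intro hd
        obtain ⟨K', hK'⟩ := hSL6
        have hq := hPH ε 2 K' c h' hd hh' hh'0
        have := hK' (K' + 2)
        nlinarith
      obtain ⟨K', hK'⟩ := hkey 2 (by norm_num) e' he' h' hh' hnd hdiv'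
      rw [hs'] at hK'
      have hSL8 : SL ε c (min n 8) := by
        refine ⟨K', fun N => ?_⟩
        have := hK' N
        nlinarith
      exact FS_.SL_mono hSL8 (by omega)

end Pool.Agent.SBQ
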