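import Pool.Agent.SBQ.StmtsA

/-!
# SBQ, module IR: irreducibility
-/

namespace Pool.Agent.SBQ

open MvPolynomial (eval aeval C)

namespace IR_

theorem SL_mono {ε : ℝ} {c : R2} {σ σ' : ℕ} (h : SL ε c σ) (hle : σ' ≤ σ) : SL ε c σ' := by
  obtain ⟨K, hK⟩ := h
  refine ⟨K, fun N => ?_⟩
  have h1 := hK N
  have h2 : σ' * N ≤ σ * N := Nat.mul_le_mul_right N hle
  omega

theorem at0_ray (p u : Fin 2 → ℝ) : at0 (ray p u) = p := by
  funext j
  simp [at0, ray]

theorem ray_dvd (c : R2) (hc : Psd c) (p u : Fin 2 → ℝ) (h0 : eval p c = 0) :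
    (Polynomial.X : U1) ^ 2 ∣ comp (ray p u) c := by
  have h1 : (Polynomial.X : U1) ^ (2 * 0 + 1) ∣ comp (ray p u) c := by
    rw [show 2 * 0 + 1 = 1 from rfl, pow_one, Polynomial.X_dvd_iff, comp_coeff_zero, at0_ray]
    exact h0
  have h2 := even_order (comp (ray p u) c) 0 1 one_pos
    (fun t _ => by rw [eval_comp]; exact hc _) h1
  exact h2

theorem no_two (f c c' : R2) (hf : f = c * c') (hc : Psd c) (hc' : Psd c') (p : Fin 2 → ℝ)
    (hu : ∃ u : Fin 2 → ℝ, ¬ (Polynomial.X : U1) ^ 3 ∣ comp (ray p u) f)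
    (h0 : eval p c = 0) (h0' : eval p c' = 0) : False := by
  obtain ⟨u, hu⟩ := hu
  apply hu
  rw [hf, comp_mul]
  have h1 := mul_dvd_mul (ray_dvd c hc p u h0) (ray_dvd c' hc' p u h0')
  rw [← pow_add] at h1
  exact (pow_dvd_pow _ (by norm_num)).trans h1

theorem psd_mul {a b : R2} (ha : Psd a) (hb : Psd b) : Psd (a * b) := fun v => by
  rw [map_mul]; exact mul_nonneg (ha v) (hb v)

theorem totalDegree_pos {c : R2} (h0 : c ≠ 0) (hc : ¬ IsUnit c) : 1 ≤ c.totalDegree := by
  by_contra hlt
  have h1 : c.totalDegree = 0 := by omega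
  rw [MvPolynomial.totalDegree_eq_zero_iff_eq_C] at h1
  apply hc
  rw [h1]
  apply IsUnit.map
  rw [isUnit_iff_ne_zero]
  intro hz
  apply h0
  rw [h1, hz, map_zero]

theorem main (h1 : Stmt_FS) (h2 : Stmt_SM) (h4 : Stmt_SG) (ε : ℝ) (f : R2) (ι : Type)
    [Fintype ι] [DecidableEq ι] (γ : ι → Fin 2 → U1) (i : ι → ℕ) (hf0 : f ≠ 0)
    (hfin : {v : Fin 2 → ℝ | eval v f = 0}.Finite) (hfam : Fam γ i)
    (hord : ∀ a, (Polynomial.X : U1) ^ (2 * i a) ∣ comp (γ a) f)
    (hray : ∀ a, ∃ u : Fin 2 → ℝ, ¬ (Polynomial.X : U1) ^ 3 ∣ comp (ray (at0 (γ a)) u) f) :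
    ∀ (d : ℕ) (c c' : R2), c.totalDegree = d → ¬ IsUnit c → Psd c → Psd c' → f = c * c' →
      ∀ S : Finset ι, (∀ a, a ∈ S ↔ eval (at0 (γ a)) c = 0) →
      SL ε c (max 1 (min (∑ a ∈ S, i a) 8)) := by
  intro d
  induction d using Nat.strong_induction_on with
  | _ d ih =>
    intro c c' hd hcu hc hc' hf S hS
    have hc0 : c ≠ 0 := by
      rintro rfl
      apply hf0
      rw [hf, zero_mul]
    by_cases hirr : Irreducible c
    · -- irreducible case
      have hsum : ∑ a ∈ S, i a = ∑ a : {a // a ∈ S}, i a.1 := (Finset.sum_coe_sort S i).symm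
      rw [hsum]
      apply h1 ε c {a // a ∈ S} (fun a => γ a.1) (fun a => i a.1) hirr hc
      · exact ⟨fun a => hfam.one_le a.1, fun a => hfam.imm a.1,
          fun a b hab => hfam.dist a.1 b.1 fun h => hab (Subtype.ext h)⟩
      · intro a
        have ha : eval (at0 (γ a.1)) c = 0 := (hS a.1).mp a.2
        have hne : eval (at0 (γ a.1)) c' ≠ 0 := fun h0' =>
          no_two f c c' hf hc hc' _ (hray a.1) ha h0'
        have hdv := hord a.1
        rw [hf, comp_mul] at hdv
        apply Polynomial.prime_X.pow_dvd_of_dvd_mul_right _ _ hdv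
        rw [Polynomial.X_dvd_iff, comp_coeff_zero]
        exact hne
    · -- reducible case
      have hex : ∃ c1 c2 : R2, c = c1 * c2 ∧ ¬ IsUnit c1 ∧ ¬ IsUnit c2 := by
        by_contra hcon
        apply hirr
        rw [irreducible_iff]
        refine ⟨hcu, fun a b hab => ?_⟩
        by_contra hno
        push Not at hno
        exact hcon ⟨a, b, hab, hno.1, hno.2⟩
      have hex2 : ∃ c1 c2 : R2, c = c1 * c2 ∧ ¬ IsUnit c1 ∧ ¬ IsUnit c2 ∧ Psd c1 ∧ Psd c2 := by
        obtain ⟨c1, c2, h12, hu1, hu2⟩ := hex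
        have hfinc : {v : Fin 2 → ℝ | eval v c = 0}.Finite := by
          apply hfin.subset
          intro v hv
          change eval v f = 0
          have hv : eval v c = 0 := hv
          rw [hf, map_mul, hv, zero_mul]
        rcases h4 c c1 c2 h12 hc hc0 hfinc with ⟨hp1, hp2⟩ | ⟨hp1, hp2⟩
        · exact ⟨c1, c2, h12, hu1, hu2, hp1, hp2⟩
        · refine ⟨-c1, -c2, by rw [h12]; ring, ?_, ?_, hp1, hp2⟩
          · rw [IsUnit.neg_iff]; exact hu1
          · rw [IsUnit.neg_iff]; exact hu2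
      obtain ⟨c1, c2, h12, hu1, hu2, hp1, hp2⟩ := hex2
      have h10 : c1 ≠ 0 := by
        rintro rfl
        apply hc0
        rw [h12, zero_mul]
      have h20 : c2 ≠ 0 := by
        rintro rfl
        apply hc0
        rw [h12, mul_zero]
      have hdeg : c1.totalDegree + c2.totalDegree = d := by
        rw [← hd, h12, MvPolynomial.totalDegree_mul_of_isDomain h10 h20]
      have hd1 := totalDegree_pos h10 hu1
      have hd2 := totalDegree_pos h20 hu2
      classical
      have hs1 := ih c1.totalDegree (by omega) c1 (c2 * c') rfl hu1 hp1 (psd_mul hp2 hc')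
        (by rw [hf, h12]; ring) (Finset.univ.filter fun a => eval (at0 (γ a)) c1 = 0)
        (fun a => by simp)
      have hs2 := ih c2.totalDegree (by omega) c2 (c1 * c') rfl hu2 hp2 (psd_mul hp1 hc')
        (by rw [hf, h12]; ring) (Finset.univ.filter fun a => eval (at0 (γ a)) c2 = 0)
        (fun a => by simp)
      have hs := h2 ε c1 c2 _ _ h10 hs1 hs2
      rw [← h12] at hs
      apply SL_mono hs
      have hle : ∑ a ∈ S, i a ≤ ∑ a ∈ Finset.univ.filter (fun a => eval (at0 (γ a)) c1 = 0), i a +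
          ∑ a ∈ Finset.univ.filter (fun a => eval (at0 (γ a)) c2 = 0), i a := by
        have hsub : S ⊆ (Finset.univ.filter fun a => eval (at0 (γ a)) c1 = 0) ∪
            (Finset.univ.filter fun a => eval (at0 (γ a)) c2 = 0) := by
          intro a ha
          have h := (hS a).mp ha
          rw [h12, map_mul] at h
          rcases mul_eq_zero.mp h with h | h
          · exact Finset.mem_union_left _ (by simp [h])
          · exact Finset.mem_union_right _ (by simp [h])
        refine (Finset.sum_le_sum_of_subset hsub).trans ?_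
        rw [← Finset.sum_union_inter]
        exact Nat.le_add_right _ _
      omega

end IR_

theorem ir_proof (h1 : Stmt_FS) (h2 : Stmt_SM) (h3 : Stmt_S8) (h4 : Stmt_SG) : Stmt_IR := by
  intro ε f ι _ γ i hfP hfull hpsd hfin hfam hsum hord hray
  classical
  have hne : Nonempty ι := by
    by_contra hcon
    rw [not_nonempty_iff] at hcon
    have : ∑ a, i a = 0 := Finset.sum_eq_zero fun a _ => (hcon.false a).elim
    omega
  have hzero : ∀ a, eval (at0 (γ a)) f = 0 := by
    intro a
    have h := hord a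
    have h5 : (Polynomial.X : U1) ∣ comp (γ a) f := by
      refine Dvd.dvd.trans ?_ h
      exact dvd_pow_self _ (by have := hfam.one_le a; omega)
    rw [Polynomial.X_dvd_iff, comp_coeff_zero] at h5
    exact h5
  have hf0 : f ≠ 0 := by
    obtain ⟨a⟩ := hne
    obtain ⟨u, hu⟩ := hray a
    rintro rfl
    apply hu
    simp [comp]
  rw [irreducible_iff]
  constructor
  · intro hun
    obtain ⟨a⟩ := hne
    have := hun.map (eval (at0 (γ a)))
    rw [hzero a] at this
    exact not_isUnit_zero this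
  · intro b1 b2 hb
    by_contra hcon
    push Not at hcon
    have hex2 : ∃ c1 c2 : R2, f = c1 * c2 ∧ ¬ IsUnit c1 ∧ ¬ IsUnit c2 ∧ Psd c1 ∧ Psd c2 := by
      rcases h4 f b1 b2 hb hpsd hf0 hfin with ⟨hp1, hp2⟩ | ⟨hp1, hp2⟩
      · exact ⟨b1, b2, hb, hcon.1, hcon.2, hp1, hp2⟩
      · refine ⟨-b1, -b2, by rw [hb]; ring, ?_, ?_, hp1, hp2⟩
        · rw [IsUnit.neg_iff]; exact hcon.1
        · rw [IsUnit.neg_iff]; exact hcon.2
    obtain ⟨c1, c2, h12, hu1, hu2, hp1, hp2⟩ := hex2
    have h10 : c1 ≠ 0 := by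
      rintro rfl
      apply hf0
      rw [h12, zero_mul]
    have hs1 := IR_.main h1 h2 h4 ε f ι γ i hf0 hfin hfam hord hray _ c1 c2 rfl hu1 hp1 hp2 h12
      (Finset.univ.filter fun a => eval (at0 (γ a)) c1 = 0) (fun a => by simp)
    have hs2 := IR_.main h1 h2 h4 ε f ι γ i hf0 hfin hfam hord hray _ c2 c1 rfl hu2 hp2 hp1
      (by rw [h12]; ring)
      (Finset.univ.filter fun a => eval (at0 (γ a)) c2 = 0) (fun a => by simp)
    have hs := h2 ε c1 c2 _ _ h10 hs1 hs2
    rw [← h12] at hs
    have h8 := h3 ε f _ hfP hfull hs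
    have hle : ∑ a, i a ≤ ∑ a ∈ Finset.univ.filter (fun a => eval (at0 (γ a)) c1 = 0), i a +
        ∑ a ∈ Finset.univ.filter (fun a => eval (at0 (γ a)) c2 = 0), i a := by
      have hsub : (Finset.univ : Finset ι) ⊆
          (Finset.univ.filter fun a => eval (at0 (γ a)) c1 = 0) ∪
          (Finset.univ.filter fun a => eval (at0 (γ a)) c2 = 0) := by
        intro a _
        have h := hzero a
        rw [h12, map_mul] at h
        rcases mul_eq_zero.mp h with h | h
        · exact Finset.mem_union_left _ (by simp [h])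
        · exact Finset.mem_union_right _ (by simp [h])
      refine (Finset.sum_le_sum_of_subset hsub).trans ?_
      rw [← Finset.sum_union_inter]
      exact Nat.le_add_right _ _
    omega

end Pool.Agent.SBQ
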