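import Pool.Agent.SBQ.StmtsA

/-!
# SBQ, module NM: a numeric recursion
-/

namespace Pool.Agent.SBQ

theorem nm_proof : Stmt_NM := by
  intro r τ N0 D hr hD hrec
  refine ⟨τ * (N0 + r), ?_⟩
  intro N
  induction N using Nat.strong_induction_on with
  | _ N ih =>
    by_cases hN : N < N0 + r
    · have h1 : τ * N ≤ τ * (N0 + r) := Nat.mul_le_mul_left _ hN.le
      have h2 : r * D N ≤ r * (N + 1) ^ 2 := Nat.mul_le_mul_left _ (hD N)
      omega
    · obtain ⟨M, rfl⟩ : ∃ M, N = M + r := ⟨N - r, by omega⟩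
      have h1 := ih M (by omega)
      have h2 := hrec M (by omega)
      have h3 : r * (D (M + r) + (M + 1) ^ 2 + τ) ≤ r * ((M + r + 1) ^ 2 + D M) :=
        Nat.mul_le_mul_left _ h2
      have e1 : r * (D (M + r) + (M + 1) ^ 2 + τ) =
          r * D (M + r) + r * (M + 1) ^ 2 + r * τ := by ring
      have e2 : r * ((M + r + 1) ^ 2 + D M) = r * (M + r + 1) ^ 2 + r * D M := by ring
      have e3 : τ * (M + r) = τ * M + r * τ := by ring
      omega

end Pool.Agent.SBQ
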