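import Pool.Agent.SBQ.StmtsA

set_option autoImplicit false

/-!
# SBQ, module O1
-/

namespace Pool.Agent.SBQ

open MvPolynomial (eval aeval C)

theorem o1_proof (hT1 : Stmt_T1) : Stmt_O1 := by
  intro c γ i i' hc hd hi
  rw [mem_Iw]
  set δ : Fin 2 → U1 := ![Polynomial.C (-(γ 1).coeff 1) * Polynomial.X ^ i',
    Polynomial.C ((γ 0).coeff 1) * Polynomial.X ^ i'] with hδ
  have h1 : (Polynomial.X : U1) ^ (2 * i') ∣ comp γ c :=
    (pow_dvd_pow _ (by omega)).trans hd
  have h2 : ∀ j, (Polynomial.X : U1) ^ i' ∣ δ j := by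
    intro j
    fin_cases j
    · simp [hδ]
    · simp [hδ]
  have h3 := hT1 2 c γ δ i' hc h1 h2
  have h4 : (fun j => (γ j).map Polynomial.C +
      Polynomial.C Polynomial.X * (δ j).map Polynomial.C : Fin 2 → Polynomial U1) =
      ![(γ 0).map Polynomial.C -
        Polynomial.C (Polynomial.C ((γ 1).coeff 1) * Polynomial.X) * Polynomial.X ^ i',
      (γ 1).map Polynomial.C +
        Polynomial.C (Polynomial.C ((γ 0).coeff 1) * Polynomial.X) * Polynomial.X ^ i'] := by
    funext j
    fin_cases j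
    · simp [hδ]
      ring
    · simp [hδ]
      ring
  rw [h4] at h3
  exact h3

end Pool.Agent.SBQ
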