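import Pool.Agent.SBQ.StmtsA

set_option autoImplicit false

namespace Pool.Agent.SBQ

open MvPolynomial (eval aeval C)

namespace O2_

/-- the arc obtained by specialising the parameter `u` to `u0` -/
noncomputable def arc (γ : Fin 2 → U1) (i : ℕ) (u0 : ℝ) : Fin 2 → U1 :=
  ![γ 0 - Polynomial.C ((γ 1).coeff 1 * u0) * Polynomial.X ^ i,
    γ 1 + Polynomial.C ((γ 0).coeff 1 * u0) * Polynomial.X ^ i]

theorem spec (γ : Fin 2 → U1) (i : ℕ) (u0 : ℝ) (h : R2) :
    (Phi γ i h).map (Polynomial.evalRingHom u0) = comp (arc γ i u0) h := by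
  have hext : ((Polynomial.mapRingHom (Polynomial.evalRingHom u0)).comp
      (Phi γ i).toRingHom) = (aeval (arc γ i u0) : R2 →ₐ[ℝ] U1).toRingHom := by
    apply MvPolynomial.ringHom_ext
    · intro a
      simp only [RingHom.comp_apply, AlgHom.toRingHom_eq_coe, RingHom.coe_coe,
        MvPolynomial.algHom_C]
      simp [Polynomial.algebraMap_apply]
    · intro j
      fin_cases j
      · simp only [RingHom.comp_apply, AlgHom.toRingHom_eq_coe, RingHom.coe_coe, Phi, arc]
        simp [Polynomial.map_map]
        have : (Polynomial.evalRingHom u0).comp Polynomial.C = RingHom.id ℝ := by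
          ext a; simp
        rw [this, Polynomial.map_id]
      · simp only [RingHom.comp_apply, AlgHom.toRingHom_eq_coe, RingHom.coe_coe, Phi, arc]
        simp [Polynomial.map_map]
        have : (Polynomial.evalRingHom u0).comp Polynomial.C = RingHom.id ℝ := by
          ext a; simp
        rw [this, Polynomial.map_id]
  exact DFunLike.congr_fun hext h

end O2_

theorem o2_proof : Stmt_O2 := by
  intro f g γ i k hle hf
  rw [mem_Iw] at hf ⊢
  have hmain : ∀ u0 : ℝ, (Polynomial.X : U1) ^ (k * i) ∣ comp (O2_.arc γ i u0) g := by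
    intro u0
    have h1 : (Polynomial.X : U1) ^ (2 * i) ∣ comp (O2_.arc γ i u0) f := by
      rw [← O2_.spec]
      have := map_dvd (Polynomial.mapRingHom (Polynomial.evalRingHom u0)) hf
      simpa using this
    apply dvd_of_sq_le _ ((comp (O2_.arc γ i u0) f) ^ k) (k * i) 1 1 one_pos
    · intro t _ _
      rw [one_mul, Polynomial.eval_pow, eval_comp, eval_comp]
      exact hle _
    · have h2 := pow_dvd_pow_of_dvd h1 k
      rw [← pow_mul] at h2
      have h3 : 2 * i * k = 2 * (k * i) := by ring
      rwa [h3] at h2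
  rw [Polynomial.X_pow_dvd_iff]
  intro d hd
  apply Polynomial.funext
  intro u0
  have h4 := (Polynomial.X_pow_dvd_iff.mp (hmain u0)) d hd
  rw [← O2_.spec, Polynomial.coeff_map] at h4
  simpa using h4

end Pool.Agent.SBQ
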