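import Pool.Agent.SBQ.StmtsA

set_option autoImplicit false

/-!
# SBQ, module O3
-/

namespace Pool.Agent.SBQ

open MvPolynomial (eval aeval C)

namespace O3_

/-- `Phi γ i h` agrees with `h ∘ γ` modulo `t ^ i`. -/
theorem Phi_congr (γ : Fin 2 → U1) (i : ℕ) (h : R2) :
    (Polynomial.X : Polynomial U1) ^ i ∣ Phi γ i h - (comp γ h).map Polynomial.C := by
  induction h using MvPolynomial.induction_on with
  | C a =>
    have h1 : Phi γ i (C a) = Polynomial.C (Polynomial.C a) := by
      unfold Phi
      rw [MvPolynomial.aeval_C]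
      rfl
    rw [h1, comp_C]
    simp
  | add p q hp hq =>
    have : Phi γ i (p + q) - (comp γ (p + q)).map Polynomial.C =
        (Phi γ i p - (comp γ p).map Polynomial.C) + (Phi γ i q - (comp γ q).map Polynomial.C) := by
      rw [map_add, comp_add, Polynomial.map_add]; ring
    rw [this]
    exact dvd_add hp hq
  | mul_X p j hp =>
    have hX : (Polynomial.X : Polynomial U1) ^ i ∣
        Phi γ i (MvPolynomial.X j) - (γ j).map Polynomial.C := by
      fin_cases j
      · refine ⟨-(Polynomial.C (Polynomial.C ((γ 1).coeff 1) * Polynomial.X)), ?_⟩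
        simp [Phi]
        ring
      · refine ⟨Polynomial.C (Polynomial.C ((γ 0).coeff 1) * Polynomial.X), ?_⟩
        simp [Phi]
        ring
    have : Phi γ i (p * MvPolynomial.X j) - (comp γ (p * MvPolynomial.X j)).map Polynomial.C =
        (Phi γ i p - (comp γ p).map Polynomial.C) * Phi γ i (MvPolynomial.X j) +
        (comp γ p).map Polynomial.C *
          (Phi γ i (MvPolynomial.X j) - (γ j).map Polynomial.C) := by
      rw [map_mul, comp_mul, comp_X, Polynomial.map_mul]; ring
    rw [this]
    exact dvd_add (Dvd.dvd.mul_right hp _) (Dvd.dvd.mul_left hX _)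

end O3_

theorem o3_proof : Stmt_O3 := by
  intro h γ i hi
  rw [mem_Iw]
  have h1 := O3_.Phi_congr γ i h
  have h2 : (Polynomial.X : Polynomial U1) ^ i ∣ (comp γ h).map Polynomial.C := by
    obtain ⟨q, hq⟩ := hi
    refine ⟨q.map Polynomial.C, ?_⟩
    rw [hq, Polynomial.map_mul, Polynomial.map_pow, Polynomial.map_X]
  have := dvd_add h1 h2
  simpa using this

end Pool.Agent.SBQ
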