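import Pool.Agent.SBQ.StmtsA

/-!
# SBQ: elementary facts on the spaces `PN`
-/

namespace Pool.Agent.SBQ

open MvPolynomial (eval aeval C)

namespace PA_

theorem gen_mem {ε : ℝ} {δ b c N : ℕ} (hδ : δ ≤ 1) (h : δ + b + c ≤ N) : gen ε δ b c ∈ PN ε N :=
  Submodule.subset_span ⟨δ, b, c, hδ, h, rfl⟩

theorem mono {ε : ℝ} {N N' : ℕ} (h : N ≤ N') : PN ε N ≤ PN ε N' := by
  refine Submodule.span_mono ?_
  rintro _ ⟨δ, b, c, hδ, hN, rfl⟩
  exact ⟨δ, b, c, hδ, hN.trans h, rfl⟩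

theorem gen_mul {ε : ℝ} {δ b c N δ' b' c' N' : ℕ} (hδ : δ ≤ 1) (h : δ + b + c ≤ N)
    (hδ' : δ' ≤ 1) (h' : δ' + b' + c' ≤ N') : gen ε δ b c * gen ε δ' b' c' ∈ PN ε (N + N') := by
  by_cases hs : δ + δ' ≤ 1
  · have : gen ε δ b c * gen ε δ' b' c' = gen ε (δ + δ') (b + b') (c + c') := by
      unfold gen
      rw [pow_add, pow_add, pow_add]
      ring
    rw [this]
    exact gen_mem hs (by omega)
  · have h1 : δ = 1 := by omega
    have h2 : δ' = 1 := by omega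
    subst h1 h2
    have : gen ε 1 b c * gen ε 1 b' c' =
        gen ε 0 (b + b') (c + c' + 1) - ε • gen ε 0 (b + b' + 2) (c + c') := by
      rw [MvPolynomial.smul_eq_C_mul]
      have hM : Mq ε = MvPolynomial.X 0 ^ 2 + C ε * MvPolynomial.X 1 ^ 2 := rfl
      unfold gen
      rw [pow_succ (Mq ε) (c + c')]
      nth_rw 4 [hM]
      ring
    rw [this]
    exact Submodule.sub_mem _ (gen_mem (by omega) (by omega))
      (Submodule.smul_mem _ _ (gen_mem (by omega) (by omega)))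

theorem mul_mem {ε : ℝ} {N N' : ℕ} {h h' : R2} (hh : h ∈ PN ε N) (hh' : h' ∈ PN ε N') :
    h * h' ∈ PN ε (N + N') := by
  have key : PN ε N * PN ε N' ≤ PN ε (N + N') := by
    rw [show PN ε N = Submodule.span ℝ {h | ∃ δ b c : ℕ, δ ≤ 1 ∧ δ + b + c ≤ N ∧
      h = gen ε δ b c} from rfl, show PN ε N' = Submodule.span ℝ {h | ∃ δ b c : ℕ, δ ≤ 1 ∧
      δ + b + c ≤ N' ∧ h = gen ε δ b c} from rfl, Submodule.span_mul_span, Submodule.span_le]
    rintro _ ⟨_, ⟨δ, b, c, hδ, hN, rfl⟩, _, ⟨δ', b', c', hδ', hN', rfl⟩, rfl⟩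
    exact gen_mul hδ hN hδ' hN'
  exact key (Submodule.mul_mem_mul hh hh')

theorem C_mem (ε a : ℝ) : (C a : R2) ∈ PN ε 0 := by
  have : (C a : R2) = a • gen ε 0 0 0 := by
    rw [MvPolynomial.smul_eq_C_mul]
    simp [gen]
  rw [this]
  exact Submodule.smul_mem _ _ (gen_mem (by omega) (by omega))

theorem X0_mem (ε : ℝ) : (MvPolynomial.X 0 : R2) ∈ PN ε 1 := by
  have : (MvPolynomial.X 0 : R2) = gen ε 1 0 0 := by simp [gen]
  rw [this]
  exact gen_mem (by omega) (by omega)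

theorem X1_mem (ε : ℝ) : (MvPolynomial.X 1 : R2) ∈ PN ε 1 := by
  have : (MvPolynomial.X 1 : R2) = gen ε 0 1 0 := by simp [gen]
  rw [this]
  exact gen_mem (by omega) (by omega)

theorem M_mem (ε : ℝ) : Mq ε ∈ PN ε 1 := by
  have : Mq ε = gen ε 0 0 1 := by simp [gen]
  rw [this]
  exact gen_mem (by omega) (by omega)

end PA_

theorem pa_proof : Stmt_PA := by
  intro ε
  refine ⟨fun N N' h => PA_.mono h, fun N N' h h' hh hh' => PA_.mul_mem hh hh', PA_.C_mem ε,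
    PA_.X0_mem ε, PA_.X1_mem ε, PA_.M_mem ε, fun h => ?_⟩
  induction h using MvPolynomial.induction_on with
  | C a => exact ⟨0, PA_.C_mem ε a⟩
  | add p q hp hq =>
    obtain ⟨N, hN⟩ := hp
    obtain ⟨N', hN'⟩ := hq
    exact ⟨max N N', Submodule.add_mem _ (PA_.mono (le_max_left _ _) hN)
      (PA_.mono (le_max_right _ _) hN')⟩
  | mul_X p i hp =>
    obtain ⟨N, hN⟩ := hp
    refine ⟨N + 1, PA_.mul_mem hN ?_⟩
    fin_cases i
    · exact PA_.X0_mem ε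
    · exact PA_.X1_mem ε

end Pool.Agent.SBQ
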