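import Pool.Agent.SBQ.StmtsA

/-!
# SBQ, module PD: dimension of the spaces `PN`
-/

namespace Pool.Agent.SBQ

open MvPolynomial (eval aeval C)

namespace PD_

/-- pairs with sum less than `K` -/
def T (K : ℕ) : Finset (ℕ × ℕ) := 
  (Finset.range K).biUnion fun l => Finset.HasAntidiagonal.antidiagonal l

theorem mem_T {K : ℕ} {q : ℕ × ℕ} : q ∈ T K ↔ q.1 + q.2 < K := by
  simp [T]

theorem card_T (K : ℕ) : (T K).card = ∑ l ∈ Finset.range K, (l + 1) := by
  unfold T
  rw [Finset.card_biUnion]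
  · exact Finset.sum_congr rfl fun l _ => Finset.Nat.card_antidiagonal l
  · intro x _ y _ hxy
    refine Finset.disjoint_left.2 ?_
    intro q hq hq'
    have hq1 := Finset.HasAntidiagonal.mem_antidiagonal.1 hq
    have hq2 := Finset.HasAntidiagonal.mem_antidiagonal.1 hq'
    exact hxy (hq1.symm.trans hq2)

theorem sum_two (N : ℕ) :
    ∑ l ∈ Finset.range (N + 1), (l + 1) + ∑ l ∈ Finset.range N, (l + 1) = (N + 1) ^ 2 := by
  induction N with
  | zero => simp
  | succ n ih =>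
    rw [Finset.sum_range_succ] at ih
    rw [Finset.sum_range_succ, Finset.sum_range_succ _ n]
    have : (n + 1 + 1) ^ 2 = (n + 1) ^ 2 + (2 * n + 3) := by ring
    omega

/-- the index set -/
def I (N : ℕ) : Finset (Fin 2 × ℕ × ℕ) := ({0} : Finset (Fin 2)) ×ˢ T (N + 1) ∪ {1} ×ˢ T N

theorem card_I (N : ℕ) : (I N).card = (N + 1) ^ 2 := by
  unfold I
  rw [Finset.card_union_of_disjoint, Finset.card_product, Finset.card_product,
    Finset.card_singleton, Finset.card_singleton, one_mul, one_mul, card_T, card_T, sum_two]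
  rw [Finset.disjoint_left]
  rintro ⟨a, q⟩ h1 h2
  simp only [Finset.mem_product, Finset.mem_singleton] at h1 h2
  rw [h1.1] at h2
  exact absurd h2.1 (by decide)

theorem mem_I {N : ℕ} {p : Fin 2 × ℕ × ℕ} : p ∈ I N ↔ (p.1 : ℕ) + p.2.1 + p.2.2 ≤ N := by
  obtain ⟨a, b, c⟩ := p
  unfold I
  simp only [Finset.mem_union, Finset.mem_product, Finset.mem_singleton, mem_T]
  fin_cases a
  · simp
    try omega
  · simp
    try omega

theorem PN_eq (ε : ℝ) (N : ℕ) : PN ε N = Submodule.span ℝ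
    (Set.range fun p : {p // p ∈ I N} => gen ε (p.1.1 : ℕ) p.1.2.1 p.1.2.2) := by
  unfold PN
  congr 1
  ext h
  constructor
  · rintro ⟨δ, b, c, hδ, hN, rfl⟩
    exact ⟨⟨(⟨δ, by omega⟩, b, c), mem_I.2 hN⟩, rfl⟩
  · rintro ⟨⟨⟨a, b, c⟩, hp⟩, rfl⟩
    exact ⟨a, b, c, by have := a.2; omega, mem_I.1 hp, rfl⟩

end PD_

open PD_ in
theorem pd_proof (h1 : Stmt_PI) : Stmt_PD := by
  intro ε N
  rw [PN_eq]
  have hli : LinearIndependent ℝ
      (fun p : {p // p ∈ I N} => gen ε (p.1.1 : ℕ) p.1.2.1 p.1.2.2) :=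
    (h1 ε).comp (fun p : {p // p ∈ I N} => p.1) Subtype.val_injective
  refine ⟨Module.Finite.span_of_finite ℝ (Set.finite_range _), ?_⟩
  rw [finrank_span_eq_card hli, Fintype.card_coe, card_I]

end Pool.Agent.SBQ
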