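import Pool.Agent.SBQ.StmtsA

/-!
# SBQ.PF: multiplication by a Full element (level argument)
-/

namespace Pool.Agent.SBQ

open MvPolynomial (eval aeval C)

namespace PF_

/-- index set of the generators -/
abbrev Ix := Fin 2 × ℕ × ℕ

/-- level of a generator -/
def lev (p : Ix) : ℕ := (p.1 : ℕ) + p.2.1 + p.2.2

/-- the generator with index `p` -/
noncomputable def g (ε : ℝ) (p : Ix) : R2 := gen ε (p.1 : ℕ) p.2.1 p.2.2

theorem gen_mul_M4 (ε : ℝ) (δ b c : ℕ) : Mq ε ^ 4 * gen ε δ b c = gen ε δ b (c + 4) := by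
  simp only [gen, pow_add]; ring

theorem gen_mul_gen (ε : ℝ) (δ b c δ' b' c' : ℕ) :
    gen ε δ' b' c' * gen ε δ b c = gen ε (δ' + δ) (b' + b) (c' + c) := by
  simp only [gen, pow_add]; ring

theorem gen_one_one (ε : ℝ) (b c b' c' : ℕ) :
    gen ε 1 b' c' * gen ε 1 b c = gen ε 0 (b' + b) (c' + c + 1) -
      ε • gen ε 0 (b' + b + 2) (c' + c) := by
  rw [MvPolynomial.smul_eq_C_mul]
  simp only [gen, pow_add, Mq]
  ring

theorem main (hPA : Stmt_PA) (hPI : Stmt_PI) (ε : ℝ) (f : R2) (hf : Full ε f) (e : R2)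
    (he : e ≠ 0) : ∃ L : ℕ, e ∈ PN ε L ∧ ∀ N : ℕ, f * e ∈ PN ε N → L + 4 ≤ N := by
  classical
  have hspan : ⊤ ≤ Submodule.span ℝ (Set.range (fun p : Ix => gen ε (p.1 : ℕ) p.2.1 p.2.2)) := by
    intro h _
    obtain ⟨N, hN⟩ := (hPA ε).2.2.2.2.2.2 h
    refine Submodule.span_mono ?_ hN
    rintro _ ⟨δ, b, c, hδ, -, rfl⟩
    exact ⟨(⟨δ, by omega⟩, b, c), rfl⟩
  let bs : Module.Basis Ix ℝ R2 := Module.Basis.mk (hPI ε) hspan
  have hbs : ∀ p : Ix, bs p = gen ε (p.1 : ℕ) p.2.1 p.2.2 := fun p => Module.Basis.mk_apply _ _ p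
  have hgen : ∀ (δ b c : ℕ) (hδ : δ < 2), gen ε δ b c = bs (⟨δ, hδ⟩, b, c) := fun δ b c hδ =>
    (hbs (⟨δ, hδ⟩, b, c)).symm
  -- membership in PN
  have hPN : ∀ (N : ℕ) (h : R2), h ∈ PN ε N → ∀ p : Ix, N < lev p → bs.repr h p = 0 := by
    intro N h hh p hp
    have hle : PN ε N ≤ LinearMap.ker (bs.coord p) := by
      unfold PN
      rw [Submodule.span_le]
      rintro _ ⟨δ, b, c, hδ, hl, rfl⟩
      rw [SetLike.mem_coe, LinearMap.mem_ker, hgen δ b c (by omega), Module.Basis.coord_apply,
        Module.Basis.repr_self, Finsupp.single_apply, if_neg]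
      intro hcon
      rw [← hcon] at hp
      simp only [lev] at hp
      omega
    exact hle hh
  -- the support of `e`
  have hsupp : (bs.repr e).support.Nonempty := by
    rw [Finsupp.support_nonempty_iff]
    intro h0
    exact he ((LinearEquiv.map_eq_zero_iff _).1 h0)
  set S := (bs.repr e).support with hS
  set L := S.sup' hsupp lev with hL
  have hSL : ∀ p ∈ S, lev p ≤ L := fun p hp => Finset.le_sup' lev hp
  obtain ⟨p1, hp1, hp1L⟩ := Finset.exists_mem_eq_sup' hsupp lev
  have hT : (S.filter fun p => lev p = L).Nonempty :=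
    ⟨p1, Finset.mem_filter.2 ⟨hp1, hp1L.symm⟩⟩
  set T := S.filter fun p => lev p = L with hTdef
  obtain ⟨p0, hp0, hp0c⟩ := Finset.exists_mem_eq_sup' hT fun p => p.2.2
  have hTc : ∀ p ∈ T, p.2.2 ≤ p0.2.2 := fun p hp => hp0c ▸ Finset.le_sup' (fun p => p.2.2) hp
  have hp0S : p0 ∈ S := (Finset.mem_filter.1 hp0).1
  have hp0L : lev p0 = L := (Finset.mem_filter.1 hp0).2
  have hexp : e = ∑ p ∈ S, bs.repr e p • bs p := by
    conv_lhs => rw [← bs.linearCombination_repr e]
    rw [Finsupp.linearCombination_apply, Finsupp.sum]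
  refine ⟨L, ?_, ?_⟩
  · rw [hexp]
    refine Submodule.sum_mem _ fun p hp => Submodule.smul_mem _ _ ?_
    rw [hbs p]
    refine Submodule.subset_span ⟨p.1, p.2.1, p.2.2, by omega, ?_, rfl⟩
    have := hSL p hp
    exact this
  · intro N hN
    by_contra hlt
    push Not at hlt
    set q0 : Ix := (p0.1, p0.2.1, p0.2.2 + 4) with hq0
    have hq0lev : lev q0 = L + 4 := by
      rw [← hp0L]; simp only [lev, hq0]; ring
    have h0 : bs.repr (f * e) q0 = 0 := hPN N _ hN q0 (by rw [hq0lev]; exact hlt)
    obtain ⟨a, ha, hr⟩ := hf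
    -- the leading part
    have h1 : bs.repr (Mq ε ^ 4 * e) q0 = bs.repr e p0 := by
      conv_lhs => rw [hexp]
      rw [Finset.mul_sum, map_sum, Finsupp.finset_sum_apply]
      rw [Finset.sum_eq_single p0]
      · rw [mul_smul_comm, hbs p0, gen_mul_M4, map_smul, Finsupp.smul_apply,
          hgen _ _ _ p0.1.2, Module.Basis.repr_self, Finsupp.single_apply, if_pos rfl,
          smul_eq_mul, mul_one]
      · intro p _ hp
        rw [mul_smul_comm, hbs p, gen_mul_M4, map_smul, Finsupp.smul_apply,
          hgen _ _ _ p.1.2, Module.Basis.repr_self, Finsupp.single_apply, if_neg, smul_zero]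
        intro hcon
        apply hp
        rw [hq0, Prod.mk.injEq, Prod.mk.injEq] at hcon
        obtain ⟨c1, c2, c3⟩ := hcon
        ext
        · rw [← c1]
        · exact c2
        · simpa using c3
      · intro hp; exact absurd hp0S hp
    -- the rest
    have h2 : ∀ r ∈ Submodule.span ℝ {h | ∃ δ b c : ℕ, δ ≤ 1 ∧ δ + b + c ≤ 4 ∧ c ≤ 3 ∧
        h = gen ε δ b c}, bs.repr (r * e) q0 = 0 := by
      intro r hr
      have hle : Submodule.span ℝ {h | ∃ δ b c : ℕ, δ ≤ 1 ∧ δ + b + c ≤ 4 ∧ c ≤ 3 ∧
          h = gen ε δ b c} ≤ LinearMap.ker ((bs.coord q0).comp (LinearMap.mulRight ℝ e)) := by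
        rw [Submodule.span_le]
        rintro _ ⟨δ', b', c', hδ', hl', hc', rfl⟩
        rw [SetLike.mem_coe, LinearMap.mem_ker, LinearMap.comp_apply, LinearMap.mulRight_apply,
          Module.Basis.coord_apply]
        conv_lhs => rw [hexp]
        rw [Finset.mul_sum, map_sum, Finsupp.finset_sum_apply]
        refine Finset.sum_eq_zero fun p hp => ?_
        rw [mul_smul_comm, map_smul, Finsupp.smul_apply]
        have hpl := hSL p hp
        have hpc : lev p = L → p.2.2 ≤ p0.2.2 := fun h =>
          hTc p (Finset.mem_filter.2 ⟨hp, h⟩)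
        have hz : bs.repr (gen ε δ' b' c' * bs p) q0 = 0 := by
          rw [hbs p]
          obtain ⟨⟨δ, hδ⟩, b, c⟩ := p
          simp only [lev] at hpl hpc hq0lev hp0L
          simp only
          by_cases h11 : δ' + δ < 2
          · rw [gen_mul_gen, hgen _ _ _ h11, Module.Basis.repr_self, Finsupp.single_apply, if_neg]
            intro hcon
            rw [hq0, Prod.mk.injEq, Prod.mk.injEq] at hcon
            obtain ⟨c1, c2, c3⟩ := hcon
            have c1' := congrArg (fun x : Fin 2 => (x : ℕ)) c1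
            simp only at c1'
            have : δ + b + c = L := by omega
            have := hpc this
            omega
          · have e1 : δ' = 1 := by omega
            have e2 : δ = 1 := by omega
            subst e1 e2
            rw [gen_one_one, map_sub, map_smul, Finsupp.sub_apply, Finsupp.smul_apply,
              hgen 0 _ _ (by norm_num), hgen 0 _ _ (by norm_num), Module.Basis.repr_self,
              Module.Basis.repr_self, Finsupp.single_apply, Finsupp.single_apply, if_neg, if_neg,
              smul_zero, sub_zero]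
            · intro hcon
              rw [hq0, Prod.mk.injEq, Prod.mk.injEq] at hcon
              obtain ⟨c1, c2, c3⟩ := hcon
              have c1' := congrArg (fun x : Fin 2 => (x : ℕ)) c1
              simp only at c1'
              have : 1 + b + c = L := by omega
              have := hpc this
              omega
            · intro hcon
              rw [hq0, Prod.mk.injEq, Prod.mk.injEq] at hcon
              obtain ⟨c1, c2, c3⟩ := hcon
              have c1' := congrArg (fun x : Fin 2 => (x : ℕ)) c1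
              simp only at c1'
              omega
        rw [hz, smul_zero]
      exact hle hr
    have h3 := h2 _ hr
    rw [sub_mul, map_sub, Finsupp.sub_apply, h0, mul_assoc, ← MvPolynomial.smul_eq_C_mul,
      map_smul, Finsupp.smul_apply, h1, zero_sub, neg_eq_zero, smul_eq_mul] at h3
    rcases mul_eq_zero.1 h3 with h | h
    · exact ha h
    · exact (Finsupp.mem_support_iff.1 hp0S) h

end PF_

theorem pf_proof (h1 : Stmt_PA) (h2 : Stmt_PI) : Stmt_PF := by
  intro ε f hf
  have h3 : ∀ e : R2, f * e ∈ PN ε 3 → e = 0 := by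
    intro e he
    by_contra hne
    obtain ⟨L, -, hL⟩ := PF_.main h1 h2 ε f hf e hne
    have := hL 3 he
    omega
  refine ⟨?_, ?_, h3⟩
  · rintro rfl
    have := h3 1 (by rw [zero_mul]; exact Submodule.zero_mem _)
    exact one_ne_zero this
  · intro N e he
    by_cases hne : e = 0
    · rw [hne]; exact Submodule.zero_mem _
    · obtain ⟨L, hL1, hL2⟩ := PF_.main h1 h2 ε f hf e hne
      have := hL2 _ he
      exact (h1 ε).1 L N (by omega) hL1

end Pool.Agent.SBQ
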