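import Pool.Agent.SBQ.StmtsA

/-!
# SBQ, module PG: the multiples of a full quartic
-/

set_option autoImplicit false

namespace Pool.Agent.SBQ

open MvPolynomial (eval aeval C)

theorem pg_proof (hPA : Stmt_PA) (hPD : Stmt_PD) (hPF : Stmt_PF) : Stmt_PG := by
  intro ε f hf hfull N
  obtain ⟨hf0, hN, -⟩ := hPF ε f hfull
  obtain ⟨-, hmul, -⟩ := hPA ε
  have hset : PN ε (N + 4) ⊓ (Ideal.span {f}).restrictScalars ℝ =
      (PN ε N).map (LinearMap.mulLeft ℝ f) := by
    ext h
    simp only [Submodule.mem_inf, Submodule.restrictScalars_mem, Ideal.mem_span_singleton,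
      Submodule.mem_map, LinearMap.mulLeft_apply]
    constructor
    · rintro ⟨h1, e, rfl⟩
      exact ⟨e, hN N e h1, rfl⟩
    · rintro ⟨e, he, rfl⟩
      refine ⟨?_, dvd_mul_right f e⟩
      rw [add_comm N 4]
      exact hmul 4 N f e hf he
  have hinj : Function.Injective (LinearMap.mulLeft ℝ f) := by
    intro a b hab
    exact mul_left_cancel₀ hf0 hab
  unfold dc
  rw [hset, ← (hPD ε N).2]
  exact (Submodule.equivMapOfInjective _ hinj (PN ε N)).finrank_eq.symm

end Pool.Agent.SBQ
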