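import Pool.Agent.SBQ.StmtsA

/-!
# PH: lower bound for the dimension of the space of multiples
-/

namespace Pool.Agent.SBQ

open MvPolynomial (eval aeval C)

theorem ph_proof (h1 : Stmt_PA) (h2 : Stmt_PD) : Stmt_PH := by
  intro ε r N c h hch hr h0
  obtain ⟨-, hmul, -, -, -, -, -⟩ := h1 ε
  obtain ⟨hfinN, hrank⟩ := h2 ε N
  have hfin := (h2 ε (N + r)).1
  have hmem : ∀ e ∈ PN ε N, h * e ∈ PN ε (N + r) ⊓ (Ideal.span {c}).restrictScalars ℝ := by
    intro e he
    refine Submodule.mem_inf.2 ⟨?_, ?_⟩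
    · rw [add_comm N r]
      exact hmul r N h e hr he
    · rw [Submodule.restrictScalars_mem]
      exact Ideal.mem_span_singleton.2 (Dvd.dvd.mul_right hch e)
  let T : PN ε N →ₗ[ℝ] ↥(PN ε (N + r) ⊓ (Ideal.span {c}).restrictScalars ℝ) :=
    ((LinearMap.mulLeft ℝ h).domRestrict (PN ε N)).codRestrict _
      (fun e => hmem e.1 e.2)
  have hinj : Function.Injective T := by
    intro e e' hee
    have h3 : h * (e : R2) = h * (e' : R2) := congrArg Subtype.val hee
    exact Subtype.ext (mul_left_cancel₀ h0 h3)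
  have hfin2 : Module.Finite ℝ ↥(PN ε (N + r) ⊓ (Ideal.span {c}).restrictScalars ℝ) :=
    Submodule.finiteDimensional_of_le inf_le_left
  unfold dc
  rw [← hrank]
  exact LinearMap.finrank_le_finrank_of_injective hinj

end Pool.Agent.SBQ
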