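import Pool.Agent.SBQ.StmtsA

/-!
# SBQ, module PI: the generators `gen` are linearly independent
-/

namespace Pool.Agent.SBQ

open MvPolynomial (eval aeval C)

namespace PI_

/-- the map to `ℝ[z][y]` -/
noncomputable def phi : R2 →ₐ[ℝ] Polynomial U1 :=
  aeval ![Polynomial.X, Polynomial.C Polynomial.X]

theorem phi_gen (ε : ℝ) (δ b c : ℕ) : phi (gen ε δ b c) =
    Polynomial.C (Polynomial.X ^ b) * (Polynomial.X ^ δ *
      (Polynomial.X ^ 2 + Polynomial.C (Polynomial.C ε * Polynomial.X ^ 2)) ^ c) := by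
  have h0 : phi (MvPolynomial.X 0) = Polynomial.X := by simp [phi]
  have h1 : phi (MvPolynomial.X 1) = Polynomial.C Polynomial.X := by simp [phi]
  have h2 : phi (C ε) = Polynomial.C (Polynomial.C ε) := by
    have := phi.commutes ε
    rw [MvPolynomial.algebraMap_eq] at this
    rw [this]
    rfl
  unfold gen Mq
  rw [map_mul, map_mul, map_pow, map_pow, map_pow, map_add, map_mul, map_pow, map_pow, h0, h1, h2]
  rw [map_mul, map_pow, map_pow]
  ring

theorem monic_nat (e : U1) (δ c : ℕ) :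
    (Polynomial.X ^ δ * (Polynomial.X ^ 2 + Polynomial.C e) ^ c : Polynomial U1).Monic ∧
    (Polynomial.X ^ δ * (Polynomial.X ^ 2 + Polynomial.C e) ^ c : Polynomial U1).natDegree =
      δ + 2 * c := by
  have hm : (Polynomial.X ^ 2 + Polynomial.C e : Polynomial U1).Monic :=
    Polynomial.monic_X_pow_add_C _ (by norm_num)
  have hd : (Polynomial.X ^ 2 + Polynomial.C e : Polynomial U1).natDegree = 2 :=
    Polynomial.natDegree_X_pow_add_C
  constructor
  · exact (Polynomial.monic_X_pow δ).mul (hm.pow c)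
  · rw [(Polynomial.monic_X_pow δ).natDegree_mul (hm.pow c), hm.natDegree_pow, hd,
      Polynomial.natDegree_X_pow]
    ring

theorem coeff_gen (ε : ℝ) (δ b c D b' : ℕ) (h : δ + 2 * c ≤ D) :
    ((phi (gen ε δ b c)).coeff D).coeff b' = if δ + 2 * c = D ∧ b = b' then 1 else 0 := by
  obtain ⟨hm, hd⟩ := monic_nat (Polynomial.C ε * Polynomial.X ^ 2) δ c
  rw [phi_gen, Polynomial.coeff_C_mul]
  rcases lt_or_eq_of_le h with hlt | heq
  · have h0 : (Polynomial.X ^ δ * (Polynomial.X ^ 2 +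
        Polynomial.C (Polynomial.C ε * Polynomial.X ^ 2)) ^ c : Polynomial U1).coeff D = 0 :=
      Polynomial.coeff_eq_zero_of_natDegree_lt (by rw [hd]; exact hlt)
    rw [h0, mul_zero, Polynomial.coeff_zero, if_neg]
    intro hh
    omega
  · have h1 : (Polynomial.X ^ δ * (Polynomial.X ^ 2 +
        Polynomial.C (Polynomial.C ε * Polynomial.X ^ 2)) ^ c : Polynomial U1).coeff D = 1 := by
      rw [← heq, ← hd]
      exact hm.coeff_natDegree
    rw [h1, mul_one, Polynomial.coeff_X_pow]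
    by_cases hb : b' = b
    · rw [if_pos hb, if_pos ⟨heq, hb.symm⟩]
    · rw [if_neg hb, if_neg]
      intro hh
      exact hb hh.2.symm

end PI_

theorem pi_proof : Stmt_PI := by
  intro ε
  rw [linearIndependent_iff']
  intro s g hsum
  by_contra hcon
  push Not at hcon
  obtain ⟨p₀, hp₀, hgp₀⟩ := hcon
  obtain ⟨p, hp, hmax⟩ := Finset.exists_max_image (s.filter fun p => g p ≠ 0)
    (fun p => (p.1 : ℕ) + 2 * p.2.2) ⟨p₀, Finset.mem_filter.2 ⟨hp₀, hgp₀⟩⟩
  rw [Finset.mem_filter] at hp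
  have h1 := congrArg (fun h : R2 => ((PI_.phi h).coeff ((p.1 : ℕ) + 2 * p.2.2)).coeff p.2.1) hsum
  simp only [map_sum, map_zero, map_smul, Polynomial.coeff_zero, Polynomial.finsetSum_coeff,
    Polynomial.coeff_smul, smul_eq_mul] at h1
  have h2 : ∀ x ∈ s, g x * ((PI_.phi (gen ε (x.1 : ℕ) x.2.1 x.2.2)).coeff
      ((p.1 : ℕ) + 2 * p.2.2)).coeff p.2.1 = if x = p then g p else 0 := by
    intro x hx
    by_cases hgx : g x = 0
    · rw [hgx, zero_mul]
      split_ifs with hxp
      · rw [← hxp, hgx]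
      · rfl
    · have hle := hmax x (Finset.mem_filter.2 ⟨hx, hgx⟩)
      rw [PI_.coeff_gen ε _ _ _ _ _ hle]
      by_cases hxp : x = p
      · rw [if_pos hxp, hxp, if_pos ⟨rfl, rfl⟩, mul_one]
      · rw [if_neg hxp, if_neg, mul_zero]
        rintro ⟨ha, hb⟩
        apply hxp
        have hx2 := x.1.2
        have hp2 := p.1.2
        have e1 : (x.1 : ℕ) = p.1 := by omega
        have e2 : x.2.2 = p.2.2 := by omega
        exact Prod.ext (Fin.ext e1) (Prod.ext hb e2)
  rw [Finset.sum_congr rfl h2, Finset.sum_ite_eq' s p, if_pos hp.1] at h1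
  exact hp.2 h1

end Pool.Agent.SBQ
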