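import Pool.Agent.SBQ.StmtsA

/-!
# SBQ.PM: dimension of the multiples of a product
-/

namespace Pool.Agent.SBQ

open MvPolynomial (eval aeval C)

theorem pm_proof (hPA : Stmt_PA) (hPD : Stmt_PD) : Stmt_PM := by
  intro ε s N c c' hc hc0
  have hfin : ∀ M, Module.Finite ℝ (PN ε M) := fun M => (hPD ε M).1
  set m : R2 →ₗ[ℝ] R2 := LinearMap.mulLeft ℝ c with hm
  have hinj : Function.Injective m := by
    intro a b hab
    simp only [hm, LinearMap.mulLeft_apply] at hab
    exact mul_left_cancel₀ hc0 hab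
  set V : Submodule ℝ R2 := PN ε (N + s) ⊓ (Ideal.span {c}).restrictScalars ℝ with hV
  set W : Submodule ℝ R2 := PN ε (N + s) ⊓ (Ideal.span {c * c'}).restrictScalars ℝ with hW
  set U : Submodule ℝ R2 := (PN ε N).map m with hU
  set Z : Submodule ℝ R2 := PN ε N ⊓ (Ideal.span {c'}).restrictScalars ℝ with hZ
  have i1 : Module.Finite ℝ (PN ε (N + s)) := hfin _
  have i2 : Module.Finite ℝ (PN ε N) := hfin _
  have fV : FiniteDimensional ℝ V := Submodule.finiteDimensional_of_le (inf_le_left : V ≤ PN ε (N + s))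
  have fW : FiniteDimensional ℝ W := Submodule.finiteDimensional_of_le (inf_le_left : W ≤ PN ε (N + s))
  have fZ : FiniteDimensional ℝ Z := Submodule.finiteDimensional_of_le (inf_le_left : Z ≤ PN ε N)
  have fU : FiniteDimensional ℝ U := inferInstance
  have hmap : ∀ Y : Submodule ℝ R2, Module.finrank ℝ (Y.map m) = Module.finrank ℝ Y := fun Y =>
    (Submodule.equivMapOfInjective m hinj Y).finrank_eq.symm
  have hUV : U ≤ V := by
    rintro _ ⟨e, he, rfl⟩
    refine ⟨?_, ?_⟩
    · rw [hm, LinearMap.mulLeft_apply, add_comm N s]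
      exact (hPA ε).2.1 s N c e hc he
    · rw [hm, LinearMap.mulLeft_apply]
      exact Ideal.mem_span_singleton.2 (dvd_mul_right c e)
  have hWV : W ≤ V := by
    rintro h ⟨h1, h2⟩
    refine ⟨h1, ?_⟩
    exact Ideal.mem_span_singleton.2 ((dvd_mul_right c c').trans (Ideal.mem_span_singleton.1 h2))
  have hUW : U ⊓ W ≤ Z.map m := by
    rintro _ ⟨⟨e, he, rfl⟩, h2⟩
    refine ⟨e, ⟨he, ?_⟩, rfl⟩
    have h3 := Ideal.mem_span_singleton.1 h2.2
    rw [hm, LinearMap.mulLeft_apply] at h3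
    exact Ideal.mem_span_singleton.2 ((mul_dvd_mul_iff_left hc0).1 h3)
  have r1 : Module.finrank ℝ U = (N + 1) ^ 2 := by
    rw [hU, hmap]
    exact (hPD ε N).2
  have r2 : Module.finrank ℝ (Z.map m) = Module.finrank ℝ Z :=
    hmap Z
  have r3 : Module.finrank ℝ ↥(U ⊓ W) ≤ Module.finrank ℝ Z := by
    rw [← r2]; exact Submodule.finrank_mono hUW
  have r4 : Module.finrank ℝ ↥(U ⊔ W) ≤ Module.finrank ℝ V :=
    Submodule.finrank_mono (sup_le hUV hWV)
  have r5 := Submodule.finrank_sup_add_finrank_inf_eq U W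
  show Module.finrank ℝ W + (N + 1) ^ 2 ≤ Module.finrank ℝ V + Module.finrank ℝ Z
  omega

end Pool.Agent.SBQ
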