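import Pool.Agent.SBQ.StmtsA

/-!
# SBQ, module PT: a psd divisor of an element of `PN 1`
-/

set_option autoImplicit false

namespace Pool.Agent.SBQ

open MvPolynomial (eval aeval C)

namespace PT_

theorem deg_Mq (ε : ℝ) : (Mq ε).totalDegree ≤ 2 := by
  unfold Mq
  refine (MvPolynomial.totalDegree_add _ _).trans (max_le ?_ ?_)
  · exact (MvPolynomial.totalDegree_X_pow _ _).le
  · refine (MvPolynomial.totalDegree_mul _ _).trans ?_
    rw [MvPolynomial.totalDegree_C, zero_add]
    exact (MvPolynomial.totalDegree_X_pow _ _).le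

theorem deg_gen (ε : ℝ) (δ b c : ℕ) (h : δ + b + c ≤ 1) : (gen ε δ b c).totalDegree ≤ 2 := by
  unfold gen
  have h1 : (MvPolynomial.X 0 ^ δ : R2).totalDegree ≤ δ :=
    (MvPolynomial.totalDegree_X_pow _ _).le
  have h2 : (MvPolynomial.X 1 ^ b : R2).totalDegree ≤ b :=
    (MvPolynomial.totalDegree_X_pow _ _).le
  have h3 : (Mq ε ^ c).totalDegree ≤ c * 2 :=
    (MvPolynomial.totalDegree_pow _ _).trans (Nat.mul_le_mul_left _ (deg_Mq ε))
  have h4 := MvPolynomial.totalDegree_mul (MvPolynomial.X 0 ^ δ * MvPolynomial.X 1 ^ b : R2)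
    (Mq ε ^ c)
  have h5 := MvPolynomial.totalDegree_mul (MvPolynomial.X 0 ^ δ : R2) (MvPolynomial.X 1 ^ b)
  omega

theorem deg_PN {ε : ℝ} {h : R2} (hh : h ∈ PN ε 1) : h.totalDegree ≤ 2 := by
  unfold PN at hh
  induction hh using Submodule.span_induction with
  | mem x hx =>
    obtain ⟨δ, b, c, _, h2, rfl⟩ := hx
    exact deg_gen ε δ b c h2
  | zero => simp
  | add x y _ _ hx hy => exact (MvPolynomial.totalDegree_add _ _).trans (max_le hx hy)
  | smul a x _ hx => exact (MvPolynomial.totalDegree_smul_le _ _).trans hx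

theorem deg_psd {c : R2} (hc : Psd c) (h : c.totalDegree ≤ 1) : c.totalDegree = 0 := by
  by_contra hne
  have h1 : c.totalDegree = 1 := by omega
  have hsum : c = MvPolynomial.homogeneousComponent 0 c + MvPolynomial.homogeneousComponent 1 c := by
    have := MvPolynomial.sum_homogeneousComponent c
    rw [h1, Finset.sum_range_succ, Finset.sum_range_succ, Finset.sum_range_zero, zero_add] at this
    exact this.symm
  rw [MvPolynomial.homogeneousComponent_zero] at hsum
  set c1 := MvPolynomial.homogeneousComponent 1 c with hc1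
  set a0 := MvPolynomial.coeff 0 c with ha0
  have hc1ne : c1 ≠ 0 := by
    intro h0
    rw [h0, add_zero] at hsum
    rw [hsum, MvPolynomial.totalDegree_C] at h1
    omega
  have hhom : c1.IsHomogeneous 1 := MvPolynomial.homogeneousComponent_isHomogeneous 1 c
  obtain ⟨v, hv⟩ : ∃ v : Fin 2 → ℝ, eval v c1 ≠ 0 := by
    by_contra hcon
    push Not at hcon
    apply hc1ne
    refine MvPolynomial.funext fun v => ?_
    rw [hcon v, map_zero]
  set t : ℝ := -(a0 + 1) / eval v c1 with ht
  have h2 := hc (t • v)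
  have h3 := hom_smul hhom t v
  have h4 : eval (t • v) c = a0 + eval (t • v) c1 := by
    conv_lhs => rw [hsum]
    rw [map_add, MvPolynomial.eval_C]
  rw [h4, h3, pow_one, ht, div_mul_cancel₀ _ hv] at h2
  linarith

end PT_

open PT_ in
theorem pt_proof : Stmt_PT := by
  intro ε c h hc hu hdvd hh hne
  obtain ⟨e, rfl⟩ := hdvd
  have hc0 : c ≠ 0 := left_ne_zero_of_mul hne
  have he0 : e ≠ 0 := right_ne_zero_of_mul hne
  have hdeg : c.totalDegree + e.totalDegree ≤ 2 := by
    rw [← MvPolynomial.totalDegree_mul_of_isDomain hc0 he0]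
    exact deg_PN hh
  have hcdeg : ¬ c.totalDegree ≤ 1 := by
    intro hle
    have h0 := deg_psd hc hle
    rw [MvPolynomial.totalDegree_eq_zero_iff_eq_C] at h0
    apply hu
    rw [h0]
    refine IsUnit.map (C : ℝ →+* R2) (isUnit_iff_ne_zero.2 fun h1 => ?_)
    rw [h1, map_zero] at h0
    exact hc0 h0
  have he : e.totalDegree = 0 := by omega
  rw [MvPolynomial.totalDegree_eq_zero_iff_eq_C] at he
  refine ⟨MvPolynomial.coeff 0 e, ?_⟩
  rw [mul_comm, ← he]

end Pool.Agent.SBQ
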