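import Pool.Agent.SBQ.StmtsA

/-!
# SBQ, module S8: the slope of a full element is at most 8
-/

namespace Pool.Agent.SBQ

theorem s8_proof (h1 : Stmt_PG) : Stmt_S8 := by
  intro ε f σ hf hfull hSL
  obtain ⟨K, hK⟩ := hSL
  by_contra hcon
  have h9 : 9 ≤ σ := by omega
  have h2 := hK (K + 4)
  rw [h1 ε f hf hfull K] at h2
  have h3 : 9 * (K + 4) ≤ σ * (K + 4) := Nat.mul_le_mul_right _ h9
  nlinarith

end Pool.Agent.SBQ
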