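import Pool.Agent.SBQ.StmtsA

/-!
# SBQ: signs of factors of a nonnegative polynomial with finitely many zeros
-/

namespace Pool.Agent.SBQ

open MvPolynomial (eval aeval C)

namespace SG_

theorem conn {s : Set (Fin 2 → ℝ)} (hs : s.Finite) : IsPreconnected sᶜ := by
  have hr : 1 < Module.rank ℝ (Fin 2 → ℝ) := by
    rw [rank_fin_fun]
    exact_mod_cast (by norm_num : 1 < 2)
  exact (hs.countable.isPathConnected_compl_of_one_lt_rank hr).isConnected.isPreconnected

/-- a continuous function without zeros on a preconnected set has a constant sign -/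
theorem sgn {s : Set (Fin 2 → ℝ)} (hs : IsPreconnected s) {g : (Fin 2 → ℝ) → ℝ}
    (hg : Continuous g) (h0 : ∀ v ∈ s, g v ≠ 0) : (∀ v ∈ s, 0 < g v) ∨ ∀ v ∈ s, g v < 0 := by
  by_contra hc
  push Not at hc
  obtain ⟨⟨v, hv, hv'⟩, ⟨w, hw, hw'⟩⟩ := hc
  have hI := (hs.image g hg.continuousOn).ordConnected
  have := hI.out (Set.mem_image_of_mem g hv) (Set.mem_image_of_mem g hw) ⟨hv', hw'⟩
  obtain ⟨u, hu, hu'⟩ := this
  exact h0 u hu hu'

theorem psd_of_dense {s : Set (Fin 2 → ℝ)} (hs : s.Finite) {c : R2}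
    (h : ∀ v ∈ sᶜ, 0 < eval v c) : Psd c := by
  have hd : Dense sᶜ := hs.countable.dense_compl ℝ
  have hcl : IsClosed {v : Fin 2 → ℝ | 0 ≤ eval v c} :=
    isClosed_le continuous_const (MvPolynomial.continuous_eval c)
  intro v
  have : closure sᶜ ⊆ {v : Fin 2 → ℝ | 0 ≤ eval v c} :=
    closure_minimal (fun v hv => (h v hv).le) hcl
  exact this (by rw [hd.closure_eq]; trivial)

end SG_

theorem sg_proof : Stmt_SG := by
  intro f c c' hf hpsd _ hfin
  have hU := SG_.conn hfin
  have hne : ∀ v ∈ {v : Fin 2 → ℝ | eval v f = 0}ᶜ, 0 < eval v c * eval v c' := by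
    intro v hv
    have h1 : eval v f = eval v c * eval v c' := by rw [hf, map_mul]
    have h2 : eval v f ≠ 0 := hv
    rw [← h1]
    exact lt_of_le_of_ne (hpsd v) (Ne.symm h2)
  rcases SG_.sgn hU (MvPolynomial.continuous_eval c)
    (fun v hv h0 => by have := hne v hv; rw [h0, zero_mul] at this; exact lt_irrefl _ this)
    with h | h
  · left
    exact ⟨SG_.psd_of_dense hfin h, SG_.psd_of_dense hfin fun v hv =>
      (pos_iff_pos_of_mul_pos (hne v hv)).mp (h v hv)⟩
  · right
    refine ⟨SG_.psd_of_dense hfin fun v hv => ?_, SG_.psd_of_dense hfin fun v hv => ?_⟩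
    · rw [map_neg]
      exact neg_pos.mpr (h v hv)
    · rw [map_neg]
      have h1 := hne v hv
      have h2 := h v hv
      by_contra hc
      have h3 : 0 ≤ eval v c' := by linarith
      nlinarith
end Pool.Agent.SBQ
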