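import Pool.Agent.SBQ.StmtsA

/-!
# SBQ, module SM: slopes add
-/

set_option autoImplicit false

namespace Pool.Agent.SBQ

open MvPolynomial (eval aeval C)

namespace SM_

lemma dc_le (h3 : Stmt_PD) (ε : ℝ) (c : R2) (N : ℕ) : dc ε c N ≤ (N + 1) ^ 2 := by
  obtain ⟨hf, hr⟩ := h3 ε N
  rw [← hr]
  unfold dc
  exact Submodule.finrank_mono inf_le_left

end SM_

open SM_

theorem sm_proof (h1 : Stmt_PA) (h2 : Stmt_PM) (h3 : Stmt_PD) : Stmt_SM := by
  intro ε c c' σ σ' hc hσ hσ'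
  obtain ⟨_, _, _, _, _, _, h7⟩ := h1 ε
  obtain ⟨s, hs⟩ := h7 c
  obtain ⟨K, hK⟩ := hσ
  obtain ⟨K', hK'⟩ := hσ'
  refine ⟨K + K' + σ' * s + (σ + σ') * s, fun M => ?_⟩
  rcases lt_or_ge M s with hM | hM
  · have e1 := dc_le h3 ε (c * c') M
    have e2 : (σ + σ') * M ≤ (σ + σ') * s := Nat.mul_le_mul_left _ hM.le
    omega
  · obtain ⟨N, rfl⟩ := Nat.exists_eq_add_of_le' hM
    have e1 := h2 ε s N c c' hs hc
    have e2 := hK (N + s)
    have e3 := hK' N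
    have e4 : (σ + σ') * (N + s) = σ * (N + s) + (σ' * N + σ' * s) := by ring
    rw [e4]
    omega

end Pool.Agent.SBQ
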