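import Pool.Agent.SBQ.StmtsA

/-!
# SBQ, module T1: nonnegative polynomials along perturbed arcs
-/

set_option autoImplicit false

namespace Pool.Agent.SBQ

open MvPolynomial (eval aeval C)

namespace T1_

/-- the perturbed substitution -/
noncomputable def PF {n : ℕ} (γ δ : Fin n → U1) : MvPolynomial (Fin n) ℝ →ₐ[ℝ] Polynomial U1 :=
  aeval (fun j => (γ j).map Polynomial.C + Polynomial.C Polynomial.X * (δ j).map Polynomial.C)

lemma expand {n : ℕ} (γ δ' : Fin n → U1) (i : ℕ) (F : MvPolynomial (Fin n) ℝ) :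
    ∃ (K : U1) (R : Polynomial U1),
      PF γ (fun j => Polynomial.X ^ i * δ' j) F =
        (comp γ F).map Polynomial.C +
          Polynomial.C Polynomial.X * (Polynomial.X ^ i * K : U1).map Polynomial.C +
          Polynomial.X ^ (2 * i) * R := by
  induction F using MvPolynomial.induction_on with
  | C a =>
    refine ⟨0, 0, ?_⟩
    rw [comp_C]
    simp [PF]
  | add F G hF hG =>
    obtain ⟨K, R, h⟩ := hF
    obtain ⟨K', R', h'⟩ := hG
    refine ⟨K + K', R + R', ?_⟩
    rw [map_add, h, h', comp_add]
    simp only [Polynomial.map_add, Polynomial.map_mul, Polynomial.map_pow, Polynomial.map_X]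
    ring
  | mul_X F j hF =>
    obtain ⟨K, R, h⟩ := hF
    refine ⟨K * γ j + comp γ F * δ' j, Polynomial.C (Polynomial.X ^ 2) *
      K.map Polynomial.C * (δ' j).map Polynomial.C + R * (γ j).map Polynomial.C +
      Polynomial.C Polynomial.X * Polynomial.X ^ i * R * (δ' j).map Polynomial.C, ?_⟩
    rw [map_mul, h, comp_mul, comp_X]
    have e : PF γ (fun j => Polynomial.X ^ i * δ' j) (MvPolynomial.X j) =
        (γ j).map Polynomial.C +
          Polynomial.C Polynomial.X * (Polynomial.X ^ i * δ' j : U1).map Polynomial.C := by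
      unfold PF
      rw [MvPolynomial.aeval_X]
    rw [e]
    simp only [Polynomial.map_add, Polynomial.map_mul, Polynomial.map_pow, Polynomial.map_X,
      Polynomial.C_pow]
    ring

lemma spec {n : ℕ} (γ δ : Fin n → U1) (s : ℝ) (F : MvPolynomial (Fin n) ℝ) :
    (PF γ δ F).map (Polynomial.evalRingHom s) =
      comp (fun j => γ j + Polynomial.C s * δ j) F := by
  induction F using MvPolynomial.induction_on with
  | C a =>
    rw [comp_C]
    unfold PF
    rw [MvPolynomial.aeval_C]
    have : (algebraMap ℝ (Polynomial U1)) a = Polynomial.C (Polynomial.C a) := rfl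
    rw [this]
    simp
  | add F G hF hG =>
    rw [map_add, Polynomial.map_add, hF, hG, comp_add]
  | mul_X F j hF =>
    rw [map_mul, Polynomial.map_mul, hF, comp_mul, comp_X]
    unfold PF
    rw [MvPolynomial.aeval_X, Polynomial.map_add, Polynomial.map_mul, Polynomial.map_C,
      Polynomial.map_map, Polynomial.map_map]
    have e : (Polynomial.evalRingHom s).comp Polynomial.C = RingHom.id ℝ := by
      ext x
      simp
    rw [e, Polynomial.map_id, Polynomial.map_id]
    simp

end T1_

open T1_

theorem t1_proof : Stmt_T1 := by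
  intro n F γ δ i hF hγ hδ
  choose δ' hδ' using hδ
  have hδe : δ = fun j => Polynomial.X ^ i * δ' j := funext hδ'
  obtain ⟨K, R, hK⟩ := expand γ δ' i F
  rw [← hδe] at hK
  change Polynomial.X ^ (2 * i) ∣ PF γ δ F
  -- evaluation of the inner variable
  have hs : ∀ s : ℝ, comp (fun j => γ j + Polynomial.C s * δ j) F =
      comp γ F + Polynomial.C s * (Polynomial.X ^ i * K) +
        Polynomial.X ^ (2 * i) * R.map (Polynomial.evalRingHom s) := by
    intro s
    rw [← spec, hK]
    have e : (Polynomial.evalRingHom s).comp Polynomial.C = RingHom.id ℝ := by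
      ext x
      simp
    simp only [Polynomial.map_add, Polynomial.map_mul, Polynomial.map_pow, Polynomial.map_X,
      Polynomial.map_C, Polynomial.map_map, e, Polynomial.map_id]
    simp
  have hpos : ∀ s t : ℝ, 0 ≤ (comp γ F).eval t + s * (Polynomial.X ^ i * K : U1).eval t +
      (Polynomial.X ^ (2 * i) * R.map (Polynomial.evalRingHom s) : U1).eval t := by
    intro s t
    have h := congrArg (Polynomial.eval t) (hs s)
    rw [eval_comp] at h
    have h2 := hF (fun j => (γ j + Polynomial.C s * δ j).eval t)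
    rw [h] at h2
    simpa only [Polynomial.eval_add, Polynomial.eval_mul, Polynomial.eval_C] using h2
  obtain ⟨K0, hK0, hb0⟩ := bound_of_dvd (comp γ F) _ hγ
  obtain ⟨K1, hK1, hb1⟩ := bound_of_dvd (Polynomial.X ^ (2 * i) *
    R.map (Polynomial.evalRingHom (1 : ℝ))) (2 * i) (dvd_mul_right _ _)
  obtain ⟨K2, hK2, hb2⟩ := bound_of_dvd (Polynomial.X ^ (2 * i) *
    R.map (Polynomial.evalRingHom (-1 : ℝ))) (2 * i) (dvd_mul_right _ _)
  have hdvd : (Polynomial.X : U1) ^ (2 * i) ∣ Polynomial.X ^ i * K := by
    refine dvd_of_bound _ _ (K0 + K1 + K2) 1 one_pos fun t ht0 ht1 => ?_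
    have habs : |t| ≤ 1 := by
      rw [abs_of_pos ht0]
      exact ht1.le
    have a0 := hb0 t habs
    have a1 := hb1 t habs
    have a2 := hb2 t habs
    rw [abs_of_pos ht0] at a0 a1 a2
    have p1 := hpos 1 t
    have p2 := hpos (-1) t
    have q0 := le_abs_self ((comp γ F).eval t)
    have q1 := le_abs_self ((Polynomial.X ^ (2 * i) *
      R.map (Polynomial.evalRingHom (1 : ℝ)) : U1).eval t)
    have q2 := le_abs_self ((Polynomial.X ^ (2 * i) *
      R.map (Polynomial.evalRingHom (-1 : ℝ)) : U1).eval t)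
    have hp : 0 ≤ t ^ (2 * i) := pow_nonneg ht0.le _
    have m1 : 0 ≤ K1 * t ^ (2 * i) := mul_nonneg hK1 hp
    have m2 : 0 ≤ K2 * t ^ (2 * i) := mul_nonneg hK2 hp
    rw [abs_le]
    constructor
    · linarith
    · linarith
  rw [hK]
  refine dvd_add (dvd_add ?_ ?_) (dvd_mul_right _ _)
  · have := Polynomial.map_dvd (Polynomial.C : ℝ →+* U1) hγ
    rwa [Polynomial.map_pow, Polynomial.map_X] at this
  · have := Polynomial.map_dvd (Polynomial.C : ℝ →+* U1) hdvd
    rw [Polynomial.map_pow, Polynomial.map_X] at this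
    exact this.mul_left _

end Pool.Agent.SBQ
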