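import Pool.Agent.SBQ.StmtsA

/-!
# SBQ, module T2: nonnegative polynomials along perturbed arcs
-/

namespace Pool.Agent.SBQ

open MvPolynomial (eval aeval C)

theorem t2_proof (h1 : Stmt_T1) : Stmt_T2 := by
  intro n F γ δ i hF hγ hδ
  have h2 := h1 n F γ δ i hF hγ hδ
  let ψ : Polynomial U1 →ₐ[ℝ] U1 :=
    Polynomial.mapAlgHom (Polynomial.aeval (1 : ℝ) : U1 →ₐ[ℝ] ℝ)
  have h3 := map_dvd ψ h2
  have e1 : ψ ((Polynomial.X : Polynomial U1) ^ (2 * i)) = Polynomial.X ^ (2 * i) := by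
    simp [ψ]
  have e2 : ∀ g : U1, ψ (g.map Polynomial.C) = g := by
    intro g
    have : ψ (g.map Polynomial.C) =
        (g.map Polynomial.C).map ((Polynomial.aeval (1 : ℝ) : U1 →ₐ[ℝ] ℝ) : U1 →+* ℝ) := rfl
    rw [this, Polynomial.map_map]
    convert Polynomial.map_id
    ext x
    simp
  rw [e1, MvPolynomial.comp_aeval_apply] at h3
  have e3 : (fun j => ψ ((γ j).map Polynomial.C +
      Polynomial.C Polynomial.X * (δ j).map Polynomial.C)) = fun j => γ j + δ j := by
    funext j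
    rw [map_add, map_mul, e2, e2]
    simp [ψ]
  rw [e3] at h3
  exact h3

end Pool.Agent.SBQ
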