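import Pool.Agent.SBQ.StmtsA

set_option autoImplicit false

namespace Pool.Agent.SBQ

open MvPolynomial (eval aeval C)

theorem tw_proof (hPA : Stmt_PA) (hPF : Stmt_PF) (hO1 : Stmt_O1) (hO2 : Stmt_O2) (hIR : Stmt_IR)
    (hBZ : Stmt_BZ) : Stmt_TW := by
  intro ε f ι _ γ i hf4 hfull hpsd hfin hfam h9 hord hray
  have hirr : Irreducible f := hIR ε f ι γ i hf4 hfull hpsd hfin hfam h9 hord hray
  have hp : Prime f := UniqueFactorizationMonoid.irreducible_iff_prime.mp hirr
  obtain ⟨hf0, hPF2, hPF3⟩ := hPF ε f hfull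
  have hfI : ∀ a, f ∈ Iw (γ a) (i a) (2 * i a) := fun a =>
    hO1 f (γ a) (i a) (i a) hpsd (hord a) le_rfl
  -- divisibility
  have hdvd : ∀ (k m : ℕ) (g : Fin m → R2), 1 ≤ k → (∀ j, g j ∈ PN ε (2 * k)) →
      f ^ k = ∑ j, g j ^ 2 → ∀ j, f ∣ g j := by
    intro k m g hk hg hsum j
    apply hBZ ε f (g j) ι γ i k hf4 hfull hp hfam h9 hk (hg j) hfI
    intro a
    apply hO2 f (g j) (γ a) (i a) k _ (hfI a)
    intro v
    rw [← map_pow, ← map_pow, hsum, map_sum]
    apply Finset.single_le_sum (f := fun j => eval v (g j ^ 2)) _ (Finset.mem_univ j)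
    intro j' _
    simp only [map_pow]
    positivity
  have hmain : ∀ (l m : ℕ) (g : Fin m → R2), (∀ j, g j ∈ PN ε (2 * (2 * l + 1))) →
      f ^ (2 * l + 1) ≠ ∑ j, g j ^ 2 := by
    intro l
    induction l with
    | zero =>
      intro m g hg hsum
      have hd := hdvd _ m g (by norm_num) hg hsum
      have hz : ∀ j, g j = 0 := by
        intro j
        obtain ⟨e, he⟩ := hd j
        have h3 : f * e ∈ PN ε 3 := by
          rw [← he]
          exact (hPA ε).1 _ 3 (by norm_num) (hg j)
        rw [he, hPF3 e h3, mul_zero]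
      rw [Finset.sum_eq_zero (fun j _ => by rw [hz j]; simp)] at hsum
      exact hf0 (by simpa using hsum)
    | succ l ih =>
      intro m g hg hsum
      have hd := hdvd _ m g (by omega) hg hsum
      choose e he using hd
      apply ih m e
      · intro j
        apply hPF2
        rw [← he j]
        have := hg j
        have h2 : 2 * (2 * (l + 1) + 1) = 2 * (2 * l + 1) + 4 := by ring
        rwa [h2] at this
      · have h1 : f ^ 2 * f ^ (2 * l + 1) = f ^ 2 * ∑ j, e j ^ 2 := by
          rw [← pow_add, Finset.mul_sum]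
          have h3 : 2 + (2 * l + 1) = 2 * (l + 1) + 1 := by ring
          rw [h3, hsum]
          apply Finset.sum_congr rfl
          intro j _
          conv_lhs => rw [he j]
          ring
        exact mul_left_cancel₀ (pow_ne_zero 2 hf0) h1
  intro k m g hk hg
  obtain ⟨l, rfl⟩ := hk
  exact hmain l m g hg

end Pool.Agent.SBQ
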