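import Pool.Agent.SBQ.StmtsA

/-!
# SBQ.W1: the dimension of `R2 / Iw`
-/

namespace Pool.Agent.SBQ

open MvPolynomial (eval aeval C)

namespace W1_

/-- small exponents -/
abbrev Ix (i m : ℕ) : Type := Σ a : Fin (m + 1), Fin (m - i * a)

/-- the exponent of an index -/
noncomputable def dd {i m : ℕ} (x : Ix i m) : Fin 2 →₀ ℕ :=
  Finsupp.single 0 (x.2 : ℕ) + Finsupp.single 1 (x.1 : ℕ)

theorem dd_zero {i m : ℕ} (x : Ix i m) : dd x 0 = (x.2 : ℕ) := by
  simp [dd]

theorem dd_one {i m : ℕ} (x : Ix i m) : dd x 1 = (x.1 : ℕ) := by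
  simp [dd]

theorem dd_inj {i m : ℕ} : Function.Injective (dd : Ix i m → (Fin 2 →₀ ℕ)) := by
  rintro ⟨a, b⟩ ⟨a', b'⟩ h
  have h1 : (a : ℕ) = (a' : ℕ) := by
    have := DFunLike.congr_fun h 1
    rwa [dd_one, dd_one] at this
  have h0 : (b : ℕ) = (b' : ℕ) := by
    have := DFunLike.congr_fun h 0
    rwa [dd_zero, dd_zero] at this
  have h2 : a = a' := Fin.ext h1
  subst h2
  have h3 : b = b' := Fin.ext h0
  subst h3
  rfl

theorem dd_surj {i m : ℕ} (hi : 1 ≤ i) (d : Fin 2 →₀ ℕ) (hd : d 0 + i * d 1 < m) :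
    ∃ x : Ix i m, dd x = d := by
  have h1 : d 1 < m + 1 := by
    have : d 1 ≤ i * d 1 := Nat.le_mul_of_pos_left _ hi
    omega
  have h0 : d 0 < m - i * ((⟨d 1, h1⟩ : Fin (m + 1)) : ℕ) := by
    change d 0 < m - i * d 1
    omega
  refine ⟨⟨⟨d 1, h1⟩, ⟨d 0, h0⟩⟩, ?_⟩
  ext j
  fin_cases j
  · exact dd_zero _
  · exact dd_one _

theorem dd_lt {i m : ℕ} (x : Ix i m) : dd x 0 + i * dd x 1 < m := by
  rw [dd_zero, dd_one]
  have := x.2.isLt
  omega

/-- the small coefficients -/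
noncomputable def co (θ : R2 ≃ₐ[ℝ] R2) (i m : ℕ) : R2 →ₗ[ℝ] (Ix i m → ℝ) where
  toFun h := fun x => MvPolynomial.coeff (dd x) (θ.symm h)
  map_add' a b := by
    funext x
    simp
  map_smul' r a := by
    funext x
    simp

theorem co_apply (θ : R2 ≃ₐ[ℝ] R2) (i m : ℕ) (h : R2) (x : Ix i m) :
    co θ i m h x = MvPolynomial.coeff (dd x) (θ.symm h) := rfl

theorem co_surj (θ : R2 ≃ₐ[ℝ] R2) (i m : ℕ) : Function.Surjective (co θ i m) := by
  classical
  intro f
  refine ⟨θ (∑ x, MvPolynomial.monomial (dd x) (f x)), ?_⟩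
  funext y
  rw [co_apply, AlgEquiv.symm_apply_apply, MvPolynomial.coeff_sum]
  rw [Finset.sum_eq_single y]
  · rw [MvPolynomial.coeff_monomial, if_pos rfl]
  · intro x _ hxy
    rw [MvPolynomial.coeff_monomial, if_neg]
    intro h
    exact hxy (dd_inj h)
  · intro h
    exact absurd (Finset.mem_univ y) h

end W1_

open W1_

theorem w1_proof (h1 : Stmt_WN) : Stmt_W1 := by
  intro γ i m hγ hi
  obtain ⟨θ, hθ⟩ := h1 γ i m hγ hi
  have hker : LinearMap.ker (co θ i m) =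
      LinearMap.ker (Ideal.Quotient.mkₐ ℝ (Iw γ i m)).toLinearMap := by
    ext h
    rw [LinearMap.mem_ker, LinearMap.mem_ker]
    have h2 : (Ideal.Quotient.mkₐ ℝ (Iw γ i m)).toLinearMap h = 0 ↔ h ∈ Iw γ i m := by
      change Ideal.Quotient.mk (Iw γ i m) h = 0 ↔ _
      exact Ideal.Quotient.eq_zero_iff_mem
    rw [h2]
    have h3 := hθ (θ.symm h)
    rw [AlgEquiv.apply_symm_apply] at h3
    rw [h3]
    constructor
    · intro h4 d hd
      by_contra h5
      obtain ⟨x, hx⟩ := dd_surj hi d (not_le.mp h5)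
      have h6 := congrFun h4 x
      rw [co_apply, hx] at h6
      exact (MvPolynomial.mem_support_iff.mp hd) h6
    · intro h4
      funext x
      rw [co_apply]
      by_contra h5
      have h6 := h4 (dd x) (MvPolynomial.mem_support_iff.mpr h5)
      exact absurd (dd_lt x) (not_lt.mpr h6)
  have hsurj : Function.Surjective (Ideal.Quotient.mkₐ ℝ (Iw γ i m)).toLinearMap :=
    Ideal.Quotient.mk_surjective
  let e : (R2 ⧸ Iw γ i m) ≃ₗ[ℝ] (Ix i m → ℝ) :=
    ((LinearMap.quotKerEquivOfSurjective _ hsurj).symm.trans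
      (Submodule.quotEquivOfEq _ _ hker.symm)).trans
      (LinearMap.quotKerEquivOfSurjective _ (co_surj θ i m))
  refine ⟨Module.Finite.equiv e.symm, ?_⟩
  rw [e.finrank_eq, Module.finrank_fintype_fun_eq_card, Fintype.card_sigma]
  simp only [Fintype.card_fin]
  exact Fin.sum_univ_eq_sum_range (fun a => m - i * a) (m + 1)

end Pool.Agent.SBQ
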