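import Pool.Agent.SBQ.StmtsA

/-!
# SBQ, module W2: comaximality of the arc ideals
-/

namespace Pool.Agent.SBQ

open MvPolynomial (eval aeval C)

namespace W2_

theorem coeff_Phi_X (γ : Fin 2 → U1) {i : ℕ} (hi : 1 ≤ i) (j : Fin 2) :
    (Phi γ i (MvPolynomial.X j)).coeff 0 = Polynomial.C (at0 γ j) := by
  have h0 : ((Polynomial.X : Polynomial U1) ^ i).coeff 0 = 0 := by
    rw [Polynomial.coeff_X_pow, if_neg (by omega)]
  fin_cases j <;>
    simp [Phi, at0, Polynomial.coeff_map, Polynomial.mul_coeff_zero, h0]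

theorem coeff_Phi_affine (γ : Fin 2 → U1) {i : ℕ} (hi : 1 ≤ i) (j : Fin 2) (s a : ℝ) :
    (Phi γ i (C s * (MvPolynomial.X j - C a))).coeff 0 = Polynomial.C (s * (at0 γ j - a)) := by
  have hC : ∀ c : ℝ, Phi γ i (C c) = Polynomial.C (Polynomial.C c) := by
    intro c
    rw [show (C c : R2) = algebraMap ℝ R2 c from rfl, AlgHom.commutes]
    rfl
  rw [map_mul, map_sub, hC, hC, Polynomial.mul_coeff_zero, Polynomial.coeff_sub,
    coeff_Phi_X γ hi j, Polynomial.coeff_C_zero, Polynomial.coeff_C_zero]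
  simp

theorem mem_pow {γ : Fin 2 → U1} {i : ℕ} {h : R2} (hh : (Phi γ i h).coeff 0 = 0) (m : ℕ) :
    h ^ m ∈ Iw γ i m := by
  rw [mem_Iw, map_pow]
  exact pow_dvd_pow_of_dvd (Polynomial.X_dvd_iff.2 hh) m

end W2_

open W2_ in
theorem w2_proof : Stmt_W2 := by
  intro γ γ' i i' m m' hi hi' hne
  obtain ⟨j, hj⟩ := Function.ne_iff.1 hne
  set a := at0 γ j with ha
  set b := at0 γ' j with hb
  have hba : b - a ≠ 0 := sub_ne_zero.2 (Ne.symm hj)
  set h : R2 := C ((b - a)⁻¹) * (MvPolynomial.X j - C a) with hh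
  have h1 : (Phi γ i h).coeff 0 = 0 := by
    rw [hh, coeff_Phi_affine γ hi j, ← ha, sub_self, mul_zero, map_zero]
  have h2 : (Phi γ' i' (1 - h)).coeff 0 = 0 := by
    rw [map_sub, map_one, Polynomial.coeff_sub, Polynomial.coeff_one_zero, hh,
      coeff_Phi_affine γ' hi' j, ← hb, inv_mul_cancel₀ hba, map_one, sub_self]
  have hcop : IsCoprime (h ^ m) ((1 - h) ^ m') :=
    IsCoprime.pow (⟨1, 1, by ring⟩ : IsCoprime h (1 - h))
  obtain ⟨u, v, huv⟩ := hcop
  rw [Ideal.eq_top_iff_one, ← huv]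
  exact Submodule.add_mem_sup (Ideal.mul_mem_left _ _ (mem_pow h1 m))
    (Ideal.mul_mem_left _ _ (mem_pow h2 m'))

end Pool.Agent.SBQ
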