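import Pool.Agent.SBQ.StmtsA

set_option autoImplicit false

/-!
# SBQ, W3: Chinese remainder for a family of arcs
-/

namespace Pool.Agent.SBQ.W3_

open MvPolynomial (eval aeval C)
open Pool.Agent.SBQ

noncomputable section

/-- Chinese remainder, as an isomorphism of algebras. -/
def crt {ι : Type} [Finite ι] (I : ι → Ideal R2)
    (hI : Pairwise (Function.onFun IsCoprime I)) :
    (R2 ⧸ ⨅ a, I a) ≃ₐ[ℝ] (∀ a, R2 ⧸ I a) :=
  AlgEquiv.ofRingEquiv (f := Ideal.quotientInfRingEquivPiQuotient I hI) (fun _ => rfl)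

end

end Pool.Agent.SBQ.W3_

namespace Pool.Agent.SBQ

open W3_

theorem w3_proof (h1 : Stmt_W1) (h2 : Stmt_W2) : Stmt_W3 := by
  intro ι _ γ i m hF
  let I : ι → Ideal R2 := fun a => Iw (γ a) (i a) (m a)
  have hI : Pairwise (Function.onFun IsCoprime I) := by
    intro a b hab
    change IsCoprime (I a) (I b)
    rw [Ideal.isCoprime_iff_sup_eq]
    exact h2 (γ a) (γ b) (i a) (i b) (m a) (m b) (hF.one_le a) (hF.one_le b) (hF.dist a b hab)
  have hfin : ∀ a, Module.Finite ℝ (R2 ⧸ I a) := fun a =>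
    (h1 (γ a) (i a) (m a) (hF.imm a) (hF.one_le a)).1
  have hrk : ∀ a, Module.finrank ℝ (R2 ⧸ I a) =
      ∑ b ∈ Finset.range (m a + 1), (m a - i a * b) := fun a =>
    (h1 (γ a) (i a) (m a) (hF.imm a) (hF.one_le a)).2
  let e := (crt I hI).toLinearEquiv
  refine ⟨Module.Finite.equiv e.symm, ?_⟩
  change Module.finrank ℝ (R2 ⧸ ⨅ a, I a) = _
  rw [e.finrank_eq, Module.finrank_pi_fintype]
  exact Finset.sum_congr rfl fun a _ => hrk a

end Pool.Agent.SBQ
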