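import Pool.Agent.SBQ.StmtsA

/-!
# SBQ: module W4
-/

namespace Pool.Agent.SBQ

open MvPolynomial (eval aeval C)

namespace W4_

/-- the sum of the dimensions -/
theorem sum_formula (i n : ℕ) (hi : 1 ≤ i) :
    2 * ∑ b ∈ Finset.range (n * i + 1), (n * i - i * b) = n * (n + 1) * i := by
  have h1 : ∑ b ∈ Finset.range (n * i + 1), (n * i - i * b) =
      ∑ b ∈ Finset.range (n + 1), (n * i - i * b) := by
    symm
    apply Finset.sum_subset
    · intro b hb
      rw [Finset.mem_range] at hb ⊢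
      nlinarith
    · intro b _ hb
      rw [Finset.mem_range, not_lt] at hb
      apply Nat.sub_eq_zero_of_le
      nlinarith
  rw [h1]
  have h2 : ∀ m : ℕ, 2 * ∑ b ∈ Finset.range (m + 1), (m * i - i * b) = m * (m + 1) * i := by
    intro m
    induction m with
    | zero => simp
    | succ m ih =>
      rw [Finset.sum_range_succ']
      have h3 : ∀ b ∈ Finset.range (m + 1), ((m + 1) * i - i * (b + 1)) = (m * i - i * b) := by
        intro b _
        have e1 : (m + 1) * i = m * i + i := by ring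
        have e2 : i * (b + 1) = i * b + i := by ring
        omega
      rw [Finset.sum_congr rfl h3, mul_add, ih]
      have e3 : (m + 1) * i - i * 0 = (m + 1) * i := by simp
      rw [e3]
      ring
  exact h2 n

/-- the linear algebra behind the estimate -/
theorem lin (I K1 K2 J : Ideal R2) (c h : R2) (hJ : J = Ideal.span {c, h} ⊔ I)
    (h1 : ∀ e ∈ K1, c * e ∈ I) (h2 : ∀ e ∈ K2, h * e ∈ I)
    (fI : Module.Finite ℝ (R2 ⧸ I)) (f1 : Module.Finite ℝ (R2 ⧸ K1))
    (f2 : Module.Finite ℝ (R2 ⧸ K2)) :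
    Module.Finite ℝ (R2 ⧸ J) ∧
      Module.finrank ℝ (R2 ⧸ I) ≤ Module.finrank ℝ (R2 ⧸ J) +
        Module.finrank ℝ (R2 ⧸ K1) + Module.finrank ℝ (R2 ⧸ K2) := by
  have hIJ : I ≤ J := by rw [hJ]; exact le_sup_right
  let P : (R2 ⧸ K1) →ₗ[ℝ] (R2 ⧸ I) :=
    (Submodule.mapQ K1 I (LinearMap.mulLeft R2 c) (fun e he => h1 e he)).restrictScalars ℝ
  let Q : (R2 ⧸ K2) →ₗ[ℝ] (R2 ⧸ I) :=
    (Submodule.mapQ K2 I (LinearMap.mulLeft R2 h) (fun e he => h2 e he)).restrictScalars ℝ
  let π : (R2 ⧸ I) →ₗ[ℝ] (R2 ⧸ J) :=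
    (Submodule.mapQ I J LinearMap.id (fun e he => hIJ he)).restrictScalars ℝ
  have hπ : Function.Surjective π := by
    intro y
    obtain ⟨r, rfl⟩ := Submodule.mkQ_surjective J y
    exact ⟨Submodule.mkQ I r, rfl⟩
  have hfin : Module.Finite ℝ (R2 ⧸ J) := Module.Finite.of_surjective π hπ
  refine ⟨hfin, ?_⟩
  have hker : LinearMap.ker π ≤ LinearMap.range P ⊔ LinearMap.range Q := by
    intro x hx
    obtain ⟨r, rfl⟩ := Submodule.mkQ_surjective I x
    have hr : r ∈ J := by
      have h5 : Submodule.mkQ J r = 0 := hx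
      exact (Submodule.Quotient.mk_eq_zero J).1 h5
    rw [hJ, Submodule.mem_sup] at hr
    obtain ⟨s, hs, t, ht, hst⟩ := hr
    rw [Ideal.mem_span_pair] at hs
    obtain ⟨a, b, hab⟩ := hs
    have hr2 : Submodule.mkQ I r = P (Submodule.mkQ K1 a) + Q (Submodule.mkQ K2 b) := by
      have e1 : P (Submodule.mkQ K1 a) = Submodule.mkQ I (c * a) := rfl
      have e2 : Q (Submodule.mkQ K2 b) = Submodule.mkQ I (h * b) := rfl
      have e3 : Submodule.mkQ I t = 0 := (Submodule.Quotient.mk_eq_zero I).2 ht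
      rw [e1, e2, ← hst, ← hab, map_add, map_add, e3, add_zero, mul_comm a c, mul_comm b h]
    rw [hr2]
    exact Submodule.add_mem_sup (LinearMap.mem_range_self P _) (LinearMap.mem_range_self Q _)
  have hrk := LinearMap.finrank_range_add_finrank_ker π
  rw [LinearMap.range_eq_top.2 hπ, finrank_top] at hrk
  have hk1 : Module.finrank ℝ (LinearMap.ker π) ≤
      Module.finrank ℝ ↥(LinearMap.range P ⊔ LinearMap.range Q) :=
    Submodule.finrank_mono hker
  have hk2 : Module.finrank ℝ ↥(LinearMap.range P ⊔ LinearMap.range Q) ≤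
      Module.finrank ℝ (LinearMap.range P) + Module.finrank ℝ (LinearMap.range Q) :=
    Submodule.finrank_add_le_finrank_add_finrank _ _
  have hk3 : Module.finrank ℝ (LinearMap.range P) ≤ Module.finrank ℝ (R2 ⧸ K1) :=
    LinearMap.finrank_range_le P
  have hk4 : Module.finrank ℝ (LinearMap.range Q) ≤ Module.finrank ℝ (R2 ⧸ K2) :=
    LinearMap.finrank_range_le Q
  omega

end W4_

open W4_ in
theorem w4_proof (_h1 : Stmt_W1) (h3 : Stmt_W3) : Stmt_W4 := by
  intro ι _ γ i k c h hF hk hc hh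
  have A := h3 ι γ i (fun a => (k + 1) * i a) hF
  have B := h3 ι γ i (fun a => (k - 1) * i a) hF
  have D := h3 ι γ i (fun a => 1 * i a) hF
  have L := lin (⨅ a, Iw (γ a) (i a) ((k + 1) * i a)) (⨅ a, Iw (γ a) (i a) ((k - 1) * i a))
    (⨅ a, Iw (γ a) (i a) (1 * i a)) _ c h rfl (by
      intro e he
      rw [Submodule.mem_iInf] at he ⊢
      intro a
      have := Iw_mul (γ a) (i a) (hc a) (he a)
      have e1 : 2 * i a + (k - 1) * i a = (k + 1) * i a := by
        rw [← add_mul]
        congr 1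
        omega
      rwa [e1] at this) (by
      intro e he
      rw [Submodule.mem_iInf] at he ⊢
      intro a
      have := Iw_mul (γ a) (i a) (hh a) (he a)
      have e1 : k * i a + 1 * i a = (k + 1) * i a := by
        rw [← add_mul]
      rwa [e1] at this) A.1 B.1 D.1
  refine ⟨L.1, ?_⟩
  have L2 := L.2
  rw [A.2, B.2, D.2] at L2
  have sA : 2 * ∑ a, ∑ b ∈ Finset.range ((k + 1) * i a + 1), ((k + 1) * i a - i a * b) =
      ((k + 1) * (k + 2)) * ∑ a, i a := by
    rw [Finset.mul_sum, Finset.mul_sum]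
    refine Finset.sum_congr rfl (fun a _ => ?_)
    rw [sum_formula (i a) (k + 1) (hF.one_le a)]
  have sB : 2 * ∑ a, ∑ b ∈ Finset.range ((k - 1) * i a + 1), ((k - 1) * i a - i a * b) =
      ((k - 1) * k) * ∑ a, i a := by
    rw [Finset.mul_sum, Finset.mul_sum]
    refine Finset.sum_congr rfl (fun a _ => ?_)
    rw [sum_formula (i a) (k - 1) (hF.one_le a)]
    have : k - 1 + 1 = k := by omega
    rw [this]
  have sD : 2 * ∑ a, ∑ b ∈ Finset.range (1 * i a + 1), (1 * i a - i a * b) =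
      2 * ∑ a, i a := by
    rw [Finset.mul_sum, Finset.mul_sum]
    refine Finset.sum_congr rfl (fun a _ => ?_)
    rw [sum_formula (i a) 1 (hF.one_le a)]
  obtain ⟨j, rfl⟩ : ∃ j, k = j + 1 := ⟨k - 1, by omega⟩
  have e5 : j + 1 - 1 = j := by omega
  rw [e5] at sB L2
  nlinarith [L2, sA, sB, sD]

end Pool.Agent.SBQ
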