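import Pool.Agent.SBQ.StmtsA

/-!
# SBQ module W5: the intersection inequality
-/

namespace Pool.Agent.SBQ

open MvPolynomial (eval aeval C)

namespace W5_

/-- multiplication by `h` -/
noncomputable def mul (h : R2) : R2 →ₗ[ℝ] R2 := LinearMap.mulLeft ℝ h

theorem mul_apply (h e : R2) : mul h e = h * e := rfl

theorem mul_inj {h : R2} (hh : h ≠ 0) : Function.Injective (mul h) := by
  intro a b hab
  exact mul_left_cancel₀ hh hab

theorem finrank_map {h : R2} (hh : h ≠ 0) (S : Submodule ℝ R2) :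
    Module.finrank ℝ (S.map (mul h)) = Module.finrank ℝ S :=
  (LinearEquiv.finrank_eq (Submodule.equivMapOfInjective (mul h) (mul_inj hh) S)).symm

theorem codim (P J : Submodule ℝ R2) [Module.Finite ℝ P] (hPJ : P ⊔ J = ⊤) :
    Module.finrank ℝ (R2 ⧸ J) + Module.finrank ℝ ↥(P ⊓ J) = Module.finrank ℝ P := by
  have h1 := LinearMap.finrank_range_add_finrank_ker (J.mkQ.comp P.subtype)
  have hr : LinearMap.range (J.mkQ.comp P.subtype) = ⊤ := by
    rw [LinearMap.range_comp, Submodule.range_subtype]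
    have h2 : Submodule.map J.mkQ (P ⊔ J) = ⊤ := by
      rw [hPJ, Submodule.map_top, Submodule.range_mkQ]
    rw [Submodule.map_sup, Submodule.mkQ_map_self, sup_bot_eq] at h2
    exact h2
  have hk : Module.finrank ℝ (LinearMap.ker (J.mkQ.comp P.subtype)) =
      Module.finrank ℝ ↥(P ⊓ J) := by
    rw [LinearMap.ker_comp, Submodule.ker_mkQ, ← Submodule.map_comap_subtype,
      Submodule.finrank_map_subtype_eq]
  rw [hr, hk, finrank_top] at h1
  exact h1

end W5_

theorem w5_proof (h1 : Stmt_PA) (h2 : Stmt_PD) (h3 : Stmt_W4) (h4 : Stmt_E1) : Stmt_W5 := by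
  intro ε c h r k ι _ γ i hc hh hch hk hF hcI hhI
  obtain ⟨hfin, hdim⟩ := h3 ι γ i k c h hF hk hcI hhI
  set J : Ideal R2 := Ideal.span {c, h} ⊔ ⨅ a, Iw (γ a) (i a) ((k + 1) * i a) with hJ
  have hfin' : Module.Finite ℝ (R2 ⧸ J.restrictScalars ℝ) :=
    Module.Finite.equiv (Submodule.Quotient.restrictScalarsEquiv ℝ J).symm
  have hdim' : Module.finrank ℝ (R2 ⧸ J.restrictScalars ℝ) = Module.finrank ℝ (R2 ⧸ J) :=
    LinearEquiv.finrank_eq (Submodule.Quotient.restrictScalarsEquiv ℝ J)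
  obtain ⟨N0, hN0⟩ := h4 ε (J.restrictScalars ℝ) hfin'
  refine ⟨N0, fun N hN => ?_⟩
  have hh0 : h ≠ 0 := fun h0 => hch (h0 ▸ dvd_zero c)
  obtain ⟨hPf, hPd⟩ := h2 ε (N + r)
  obtain ⟨hQf, hQd⟩ := h2 ε N
  have hcod := W5_.codim (PN ε (N + r)) (J.restrictScalars ℝ) (hN0 (N + r) (by omega))
  have hcJ : c ∈ J := Ideal.mem_sup_left (Ideal.subset_span (by simp))
  have hhJ : h ∈ J := Ideal.mem_sup_left (Ideal.subset_span (by simp))
  have hAB : (PN ε (N + r) ⊓ (Ideal.span {c}).restrictScalars ℝ) ⊔ (PN ε N).map (W5_.mul h) ≤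
      PN ε (N + r) ⊓ J.restrictScalars ℝ := by
    apply sup_le
    · apply inf_le_inf_left
      intro x hx
      have hx' : x ∈ Ideal.span {c} := hx
      exact (Ideal.span_singleton_le_iff_mem J).mpr hcJ hx'
    · rintro x ⟨e, he, rfl⟩
      refine ⟨?_, ?_⟩
      · rw [W5_.mul_apply, mul_comm]
        exact (h1 ε).2.1 N r e h he hh
      · change W5_.mul h e ∈ J
        rw [W5_.mul_apply]
        exact Ideal.mul_mem_right e J hhJ
  have hinf : (PN ε (N + r) ⊓ (Ideal.span {c}).restrictScalars ℝ) ⊓ (PN ε N).map (W5_.mul h) =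
      (PN ε N ⊓ (Ideal.span {c}).restrictScalars ℝ).map (W5_.mul h) := by
    apply le_antisymm
    · rintro x ⟨⟨_, hxc⟩, ⟨e, he, rfl⟩⟩
      refine ⟨e, ⟨he, ?_⟩, rfl⟩
      have hx' : W5_.mul h e ∈ Ideal.span {c} := hxc
      rw [W5_.mul_apply, Ideal.mem_span_singleton] at hx'
      change e ∈ Ideal.span {c}
      rw [Ideal.mem_span_singleton]
      exact (hc.dvd_or_dvd hx').resolve_left hch
    · rintro x ⟨e, ⟨he, hec⟩, rfl⟩
      have hec' : e ∈ Ideal.span {c} := hec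
      refine ⟨⟨?_, ?_⟩, ⟨e, he, rfl⟩⟩
      · rw [W5_.mul_apply, mul_comm]
        exact (h1 ε).2.1 N r e h he hh
      · change W5_.mul h e ∈ Ideal.span {c}
        rw [W5_.mul_apply]
        exact Ideal.mul_mem_left _ h hec'
  haveI : FiniteDimensional ℝ ↥(PN ε (N + r) ⊓ J.restrictScalars ℝ) :=
    Submodule.finiteDimensional_inf_left _ _
  haveI : FiniteDimensional ℝ ↥(PN ε (N + r) ⊓ (Ideal.span {c}).restrictScalars ℝ) :=
    Submodule.finiteDimensional_inf_left _ _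
  have hsum := Submodule.finrank_sup_add_finrank_inf_eq
    (PN ε (N + r) ⊓ (Ideal.span {c}).restrictScalars ℝ) ((PN ε N).map (W5_.mul h))
  have hle := Submodule.finrank_mono hAB
  rw [hinf, W5_.finrank_map hh0, W5_.finrank_map hh0, hQd] at hsum
  rw [hPd, hdim'] at hcod
  change Module.finrank ℝ ↥(PN ε (N + r) ⊓ (Ideal.span {c}).restrictScalars ℝ) + (N + 1) ^ 2 +
      2 * k * ∑ a, i a ≤ (N + r + 1) ^ 2 +
      Module.finrank ℝ ↥(PN ε N ⊓ (Ideal.span {c}).restrictScalars ℝ)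
  omega

end Pool.Agent.SBQ
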