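import Pool.Agent.SBQ.StmtsA

/-!
# SBQ, module WN: normal form of `Iw` by an automorphism of the plane
-/

namespace Pool.Agent.SBQ

open MvPolynomial (eval aeval C)

namespace WN_

/-- successive approximation: every polynomial is a polynomial in `τ` modulo `X ^ m` -/
theorem approx (τ σ ω : U1) (hτ : τ = Polynomial.X * ω) (hω : ω.coeff 0 = 1) (m : ℕ) :
    ∃ s : U1, (Polynomial.X : U1) ^ m ∣ σ - s.comp τ := by
  induction m with
  | zero => exact ⟨0, by simp⟩
  | succ m ih =>
    obtain ⟨s, r, hr⟩ := ih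
    refine ⟨s + Polynomial.C (r.coeff 0) * Polynomial.X ^ m, ?_⟩
    have h1 : σ - (s + Polynomial.C (r.coeff 0) * Polynomial.X ^ m).comp τ =
        Polynomial.X ^ m * (r - Polynomial.C (r.coeff 0) * ω ^ m) := by
      simp only [Polynomial.add_comp, Polynomial.mul_comp, Polynomial.C_comp,
        Polynomial.pow_comp, Polynomial.X_comp]
      rw [← sub_sub, hr, hτ, mul_pow]
      ring
    rw [h1, pow_succ]
    refine mul_dvd_mul_left _ ?_
    rw [Polynomial.X_dvd_iff, Polynomial.coeff_sub, Polynomial.coeff_C_mul]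
    have h2 : (ω ^ m).coeff 0 = 1 := by
      rw [Polynomial.coeff_zero_eq_eval_zero, Polynomial.eval_pow,
        ← Polynomial.coeff_zero_eq_eval_zero, hω, one_pow]
    rw [h2]
    ring

/-- a triangular composed with an affine automorphism -/
theorem auto (a b p q y0 z0 : ℝ) (h1 : p * a + q * b = 1) (h2 : p * b = q * a) (s : U1) :
    ∃ θ : R2 ≃ₐ[ℝ] R2,
      θ (MvPolynomial.X 0) = C a * (MvPolynomial.X 0 - C y0) + C b * (MvPolynomial.X 1 - C z0) ∧
      θ (MvPolynomial.X 1) =
        -C b * (MvPolynomial.X 0 - C y0) + C a * (MvPolynomial.X 1 - C z0) -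
        Polynomial.aeval (C a * (MvPolynomial.X 0 - C y0) + C b * (MvPolynomial.X 1 - C z0) : R2)
          s := by
  set l1 : R2 := C a * (MvPolynomial.X 0 - C y0) + C b * (MvPolynomial.X 1 - C z0) with hl1
  set l2 : R2 := -C b * (MvPolynomial.X 0 - C y0) + C a * (MvPolynomial.X 1 - C z0) with hl2
  set f : R2 →ₐ[ℝ] R2 := aeval ![l1, l2 - Polynomial.aeval l1 s] with hf
  set W : R2 := MvPolynomial.X 1 + Polynomial.aeval (MvPolynomial.X 0 : R2) s with hW
  set g : R2 →ₐ[ℝ] R2 := aeval ![C y0 + C p * MvPolynomial.X 0 - C q * W,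
    C z0 + C q * MvPolynomial.X 0 + C p * W] with hg
  have H1 : (C p : R2) * C a + C q * C b = 1 := by
    rw [← map_mul, ← map_mul, ← map_add, h1, map_one]
  have H2 : (C p : R2) * C b = C q * C a := by
    rw [← map_mul, ← map_mul, h2]
  have hf0 : f (MvPolynomial.X 0) = l1 := by simp [hf]
  have hf1 : f (MvPolynomial.X 1) = l2 - Polynomial.aeval l1 s := by simp [hf]
  have hg0 : g (MvPolynomial.X 0) = C y0 + C p * MvPolynomial.X 0 - C q * W := by simp [hg]
  have hg1 : g (MvPolynomial.X 1) = C z0 + C q * MvPolynomial.X 0 + C p * W := by simp [hg]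
  have hC : ∀ (F : R2 →ₐ[ℝ] R2) (c : ℝ), F (C c) = C c := fun F c => by
    have := F.commutes c
    rwa [MvPolynomial.algebraMap_eq] at this
  have hgl1 : g l1 = MvPolynomial.X 0 := by
    rw [hl1, map_add, map_mul, map_mul, map_sub, map_sub, hC, hC, hC, hC, hg0, hg1]
    linear_combination (MvPolynomial.X 0 : R2) * H1 + W * H2
  have hgl2 : g l2 = W := by
    rw [hl2, map_add, map_mul, map_mul, map_sub, map_sub, map_neg, hC, hC, hC, hC, hg0, hg1]
    linear_combination W * H1 - (MvPolynomial.X 0 : R2) * H2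
  have e1 : g.comp f = AlgHom.id ℝ R2 := by
    apply MvPolynomial.algHom_ext
    intro i
    fin_cases i
    · show g (f (MvPolynomial.X 0)) = MvPolynomial.X 0
      rw [hf0, hgl1]
    · show g (f (MvPolynomial.X 1)) = MvPolynomial.X 1
      rw [hf1, map_sub, hgl2, ← Polynomial.aeval_algHom_apply, hgl1, hW]
      ring
  have hfW : f W = l2 := by
    rw [hW, map_add, hf1, ← Polynomial.aeval_algHom_apply, hf0]
    ring
  have e2 : f.comp g = AlgHom.id ℝ R2 := by
    apply MvPolynomial.algHom_ext
    intro i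
    fin_cases i
    · show f (g (MvPolynomial.X 0)) = MvPolynomial.X 0
      rw [hg0, map_sub, map_add, map_mul, map_mul, hC, hC, hC, hfW, hf0, hl1, hl2]
      linear_combination (MvPolynomial.X 0 - C y0 : R2) * H1 + (MvPolynomial.X 1 - C z0 : R2) * H2
    · show f (g (MvPolynomial.X 1)) = MvPolynomial.X 1
      rw [hg1, map_add, map_add, map_mul, map_mul, hC, hC, hC, hfW, hf0, hl1, hl2]
      linear_combination (MvPolynomial.X 1 - C z0 : R2) * H1 - (MvPolynomial.X 0 - C y0 : R2) * H2
  refine ⟨AlgEquiv.ofAlgHom f g e2 e1, ?_, ?_⟩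
  · show f (MvPolynomial.X 0) = l1
    exact hf0
  · show f (MvPolynomial.X 1) = l2 - Polynomial.aeval l1 s
    exact hf1

/-- two substitutions which agree modulo `X ^ m` -/
theorem congr_mod (F G : R2 →ₐ[ℝ] Polynomial U1) (m : ℕ)
    (h0 : (Polynomial.X : Polynomial U1) ^ m ∣ F (MvPolynomial.X 0) - G (MvPolynomial.X 0))
    (h1 : (Polynomial.X : Polynomial U1) ^ m ∣ F (MvPolynomial.X 1) - G (MvPolynomial.X 1))
    (h : R2) : (Polynomial.X : Polynomial U1) ^ m ∣ F h - G h := by
  induction h using MvPolynomial.induction_on with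
  | C a =>
    have e1 : F (C a) = G (C a) := by
      have a1 := F.commutes a
      have a2 := G.commutes a
      rw [MvPolynomial.algebraMap_eq] at a1 a2
      rw [a1, a2]
    rw [e1, sub_self]
    exact dvd_zero _
  | add p q hp hq =>
    rw [map_add, map_add]
    have : F p + F q - (G p + G q) = (F p - G p) + (F q - G q) := by ring
    rw [this]
    exact dvd_add hp hq
  | mul_X p n hp =>
    rw [map_mul, map_mul]
    have e2 : F p * F (MvPolynomial.X n) - G p * G (MvPolynomial.X n) =
        F p * (F (MvPolynomial.X n) - G (MvPolynomial.X n)) +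
          (F p - G p) * G (MvPolynomial.X n) := by ring
    rw [e2]
    refine dvd_add (Dvd.dvd.mul_left ?_ _) (Dvd.dvd.mul_right hp _)
    fin_cases n
    · exact h0
    · exact h1

/-- the monomial case -/
theorem mono (ω : Polynomial U1) (hω : ω.coeff 0 = 1) (i m : ℕ) (G : R2 →ₐ[ℝ] Polynomial U1)
    (h0 : G (MvPolynomial.X 0) = Polynomial.X * ω)
    (h1 : G (MvPolynomial.X 1) = Polynomial.C Polynomial.X * Polynomial.X ^ i) (h : R2) :
    (Polynomial.X : Polynomial U1) ^ m ∣ G h ↔ ∀ d ∈ h.support, m ≤ d 0 + i * d 1 := by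
  have hG : G h = ∑ d ∈ h.support, Polynomial.C (Polynomial.C (h.coeff d)) *
      (Polynomial.X ^ (d 0 + i * d 1) * (ω ^ (d 0) * Polynomial.C (Polynomial.X ^ (d 1)))) := by
    have e0 : G = aeval (fun j => G (MvPolynomial.X j)) := by
      apply MvPolynomial.algHom_ext
      intro j
      simp
    rw [e0, MvPolynomial.aeval_def, MvPolynomial.eval₂_eq']
    refine Finset.sum_congr rfl fun d _ => ?_
    rw [Fin.prod_univ_two]
    rw [h0, h1]
    have e1 : (algebraMap ℝ (Polynomial U1)) (h.coeff d) =
        Polynomial.C (Polynomial.C (h.coeff d)) := rfl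
    rw [e1, mul_pow, mul_pow, ← pow_mul, pow_add, map_pow]
    ring
  constructor
  · intro hdvd
    by_contra hcon
    push Not at hcon
    obtain ⟨d₁, hd₁, hlt₁⟩ := hcon
    -- an element of minimal weight
    obtain ⟨d, hd, hmin⟩ := Finset.exists_min_image h.support (fun d => d 0 + i * d 1) ⟨d₁, hd₁⟩
    have hw : d 0 + i * d 1 < m := lt_of_le_of_lt (hmin d₁ hd₁) hlt₁
    have hz := (Polynomial.X_pow_dvd_iff.1 hdvd) _ hw
    have hz2 := congrArg (fun P : U1 => P.coeff (d 1)) hz
    simp only [Polynomial.coeff_zero] at hz2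
    rw [hG, Polynomial.finsetSum_coeff, Polynomial.finsetSum_coeff] at hz2
    have hterm : ∀ e ∈ h.support, (((Polynomial.C (Polynomial.C (h.coeff e)) *
        (Polynomial.X ^ (e 0 + i * e 1) * (ω ^ (e 0) * Polynomial.C (Polynomial.X ^ (e 1)))) :
          Polynomial U1).coeff (d 0 + i * d 1)).coeff (d 1)) =
        if e = d then h.coeff d else 0 := by
      intro e he
      have hle := hmin e he
      rw [Polynomial.coeff_C_mul, Polynomial.coeff_X_pow_mul', Polynomial.coeff_C_mul]
      split_ifs with c1 c2 c2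
      · subst c2
        rw [Nat.sub_self, Polynomial.coeff_mul_C, Polynomial.coeff_zero_eq_eval_zero,
          Polynomial.eval_pow, ← Polynomial.coeff_zero_eq_eval_zero, hω, one_pow, one_mul,
          Polynomial.coeff_X_pow_self, mul_one]
      · have hwe : e 0 + i * e 1 = d 0 + i * d 1 := le_antisymm c1 hle
        rw [hwe, Nat.sub_self, Polynomial.coeff_mul_C, Polynomial.coeff_zero_eq_eval_zero,
          Polynomial.eval_pow, ← Polynomial.coeff_zero_eq_eval_zero, hω, one_pow, one_mul,
          Polynomial.coeff_X_pow]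
        split_ifs with c3
        · exfalso
          apply c2
          ext j
          fin_cases j
          · show e 0 = d 0
            rw [c3] at hwe
            omega
          · exact c3.symm
        · simp
      · exfalso
        apply c1
        rw [c2]
      · simp
    rw [Finset.sum_congr rfl hterm, Finset.sum_ite_eq' h.support d] at hz2
    rw [if_pos hd] at hz2
    exact (MvPolynomial.mem_support_iff.1 hd) hz2
  · intro hall
    rw [hG]
    refine Finset.dvd_sum fun d hd => ?_
    refine Dvd.dvd.mul_left ?_ _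
    exact Dvd.dvd.mul_right (pow_dvd_pow _ (hall d hd)) _

end WN_

theorem wn_proof : Stmt_WN := by
  intro γ i m himm hi
  set p : ℝ := (γ 0).coeff 1 with hp
  set q : ℝ := (γ 1).coeff 1 with hq
  set y0 : ℝ := (γ 0).coeff 0 with hy0
  set z0 : ℝ := (γ 1).coeff 0 with hz0
  have hn : 0 < p ^ 2 + q ^ 2 := by
    rcases himm with h | h
    · have : 0 < p ^ 2 := by positivity
      positivity
    · have : 0 < q ^ 2 := by positivity
      positivity
  set a : ℝ := p / (p ^ 2 + q ^ 2) with ha
  set b : ℝ := q / (p ^ 2 + q ^ 2) with hb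
  have hab : p * a + q * b = 1 := by
    rw [ha, hb]
    field_simp
  have hab2 : p * b = q * a := by
    rw [ha, hb]
    ring
  set τ : U1 := Polynomial.C a * (γ 0 - Polynomial.C y0) + Polynomial.C b * (γ 1 - Polynomial.C z0)
    with hτ
  set σ : U1 := -Polynomial.C b * (γ 0 - Polynomial.C y0) +
    Polynomial.C a * (γ 1 - Polynomial.C z0) with hσ
  have hτ0 : τ.coeff 0 = 0 := by
    rw [hτ]
    simp [Polynomial.coeff_sub, hy0, hz0]
  have hτ1 : τ.coeff 1 = 1 := by
    rw [hτ]
    simp only [Polynomial.coeff_add, Polynomial.coeff_C_mul, Polynomial.coeff_sub,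
      Polynomial.coeff_C_succ, sub_zero]
    rw [← hp, ← hq]
    linarith
  obtain ⟨ω, hω⟩ : (Polynomial.X : U1) ∣ τ := Polynomial.X_dvd_iff.2 hτ0
  have hω0 : ω.coeff 0 = 1 := by
    rw [← hτ1, hω, Polynomial.coeff_X_mul]
  obtain ⟨s, r, hr⟩ := WN_.approx τ σ ω hω hω0 m
  obtain ⟨θ, hθ0, hθ1⟩ := WN_.auto a b p q y0 z0 hab hab2 s
  refine ⟨θ, fun h => ?_⟩
  rw [mem_Iw]
  -- the substitution `Phi ∘ θ`
  set F : R2 →ₐ[ℝ] Polynomial U1 := (Phi γ i).comp (θ : R2 →ₐ[ℝ] R2) with hF
  have hPC : ∀ c : ℝ, (Phi γ i) (C c) = Polynomial.C (Polynomial.C c) := by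
    intro c
    have := (Phi γ i).commutes c
    rw [MvPolynomial.algebraMap_eq] at this
    rw [this]
    rfl
  have hP0 : (Phi γ i) (MvPolynomial.X 0) = (γ 0).map Polynomial.C -
      Polynomial.C (Polynomial.C q * Polynomial.X) * Polynomial.X ^ i := by
    simp [Phi, hq]
  have hP1 : (Phi γ i) (MvPolynomial.X 1) = (γ 1).map Polynomial.C +
      Polynomial.C (Polynomial.C p * Polynomial.X) * Polynomial.X ^ i := by
    simp [Phi, hp]
  have HH1 : (Polynomial.C (Polynomial.C p) : Polynomial U1) * Polynomial.C (Polynomial.C a) +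
      Polynomial.C (Polynomial.C q) * Polynomial.C (Polynomial.C b) = 1 := by
    rw [← map_mul, ← map_mul, ← map_mul, ← map_mul, ← map_add, ← map_add, hab, map_one, map_one]
  have HH2 : (Polynomial.C (Polynomial.C p) : Polynomial U1) * Polynomial.C (Polynomial.C b) =
      Polynomial.C (Polynomial.C q) * Polynomial.C (Polynomial.C a) := by
    rw [← map_mul, ← map_mul, ← map_mul, ← map_mul, hab2]
  have hF0 : F (MvPolynomial.X 0) = τ.map Polynomial.C := by
    show (Phi γ i) (θ (MvPolynomial.X 0)) = _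
    rw [hθ0, map_add, map_mul, map_mul, map_sub, map_sub, hPC, hPC, hPC, hPC, hP0, hP1, hτ]
    simp only [Polynomial.map_add, Polynomial.map_mul, Polynomial.map_sub, Polynomial.map_C,
      map_mul]
    linear_combination (Polynomial.C Polynomial.X * Polynomial.X ^ i : Polynomial U1) * HH2
  have hF1 : F (MvPolynomial.X 1) = (σ - s.comp τ).map Polynomial.C +
      Polynomial.C Polynomial.X * Polynomial.X ^ i := by
    show (Phi γ i) (θ (MvPolynomial.X 1)) = _
    have e1 : (Phi γ i) (Polynomial.aeval (C a * (MvPolynomial.X 0 - C y0) +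
        C b * (MvPolynomial.X 1 - C z0) : R2) s) = (s.comp τ).map Polynomial.C := by
      rw [← Polynomial.aeval_algHom_apply, ← hθ0]
      have e2 : (Phi γ i) (θ (MvPolynomial.X 0)) = τ.map Polynomial.C := hF0
      rw [e2, Polynomial.map_comp, Polynomial.aeval_def, Polynomial.comp,
        Polynomial.eval₂_map]
      rfl
    rw [hθ1, map_sub, e1, map_add, map_mul, map_mul, map_sub, map_sub, map_neg, hPC, hPC, hPC,
      hPC, hP0, hP1, hσ]
    simp only [Polynomial.map_add, Polynomial.map_mul, Polynomial.map_sub, Polynomial.map_neg,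
      Polynomial.map_C, map_mul]
    linear_combination (Polynomial.C Polynomial.X * Polynomial.X ^ i : Polynomial U1) * HH1
  set G : R2 →ₐ[ℝ] Polynomial U1 := aeval ![Polynomial.X * ω.map Polynomial.C,
    Polynomial.C Polynomial.X * Polynomial.X ^ i] with hG
  have hG0 : G (MvPolynomial.X 0) = Polynomial.X * ω.map Polynomial.C := by simp [hG]
  have hG1 : G (MvPolynomial.X 1) = Polynomial.C Polynomial.X * Polynomial.X ^ i := by
    simp [hG]
  have hcong : (Polynomial.X : Polynomial U1) ^ m ∣ F h - G h := by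
    refine WN_.congr_mod F G m ?_ ?_ h
    · rw [hF0, hG0, hω, Polynomial.map_mul, Polynomial.map_X, sub_self]
      exact dvd_zero _
    · rw [hF1, hG1, add_sub_cancel_right, hr, Polynomial.map_mul, Polynomial.map_pow,
        Polynomial.map_X]
      exact dvd_mul_right _ _
  have hmono := WN_.mono (ω.map Polynomial.C) (by rw [Polynomial.coeff_map, hω0, map_one]) i m G
    hG0 hG1 h
  rw [← hmono]
  show (Polynomial.X : Polynomial U1) ^ m ∣ F h ↔ _
  constructor
  · intro h1
    have := dvd_sub h1 hcong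
    rwa [sub_sub_cancel] at this
  · intro h1
    have := dvd_add hcong h1
    rwa [sub_add_cancel] at this

end Pool.Agent.SBQ
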