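import Pool.Agent.SBQ.AX
import Pool.Agent.SBQ.BZ
import Pool.Agent.SBQ.E1
import Pool.Agent.SBQ.FS
import Pool.Agent.SBQ.IR
import Pool.Agent.SBQ.NM
import Pool.Agent.SBQ.O1
import Pool.Agent.SBQ.O2
import Pool.Agent.SBQ.O3
import Pool.Agent.SBQ.PA
import Pool.Agent.SBQ.PD
import Pool.Agent.SBQ.PF
import Pool.Agent.SBQ.PG
import Pool.Agent.SBQ.PH
import Pool.Agent.SBQ.PI
import Pool.Agent.SBQ.PM
import Pool.Agent.SBQ.PT
import Pool.Agent.SBQ.PU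
import Pool.Agent.SBQ.S8
import Pool.Agent.SBQ.SG
import Pool.Agent.SBQ.SM
import Pool.Agent.SBQ.T1
import Pool.Agent.SBQ.T2
import Pool.Agent.SBQ.TW
import Pool.Agent.SBQ.W1
import Pool.Agent.SBQ.W2
import Pool.Agent.SBQ.W3
import Pool.Agent.SBQ.W4
import Pool.Agent.SBQ.W5
import Pool.Agent.SBQ.WN

/-!
# SBQ: assembly of part A
-/

namespace Pool.Agent.SBQ

theorem tPA : Stmt_PA := pa_proof
theorem tPI : Stmt_PI := pi_proof
theorem tPD : Stmt_PD := pd_proof tPI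
theorem tPF : Stmt_PF := pf_proof tPA tPI
theorem tPT : Stmt_PT := pt_proof
theorem tPU : Stmt_PU := pu_proof tPA tPD
theorem tPM : Stmt_PM := pm_proof tPA tPD
theorem tPH : Stmt_PH := ph_proof tPA tPD
theorem tPG : Stmt_PG := pg_proof tPA tPD tPF
theorem tSM : Stmt_SM := sm_proof tPA tPM tPD
theorem tS8 : Stmt_S8 := s8_proof tPG
theorem tT1 : Stmt_T1 := t1_proof
theorem tT2 : Stmt_T2 := t2_proof tT1
theorem tO1 : Stmt_O1 := o1_proof tT1
theorem tO2 : Stmt_O2 := o2_proof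
theorem tO3 : Stmt_O3 := o3_proof
theorem tWN : Stmt_WN := wn_proof
theorem tW1 : Stmt_W1 := w1_proof tWN
theorem tW2 : Stmt_W2 := w2_proof
theorem tW3 : Stmt_W3 := w3_proof tW1 tW2
theorem tW4 : Stmt_W4 := w4_proof tW1 tW3
theorem tE1 : Stmt_E1 := e1_proof tPA
theorem tW5 : Stmt_W5 := w5_proof tPA tPD tW4 tE1
theorem tNM : Stmt_NM := nm_proof
theorem tAX : Stmt_AX := ax_proof
theorem tSG : Stmt_SG := sg_proof
theorem tFS : Stmt_FS := fs_proof tPA tPD tPT tPU tPH tAX tO1 tO3 tW5 tNM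
theorem tIR : Stmt_IR := ir_proof tFS tSM tS8 tSG
theorem tBZ : Stmt_BZ := bz_proof tPG tW5
theorem tTW : Stmt_TW := tw_proof tPA tPF tO1 tO2 tIR tBZ

end Pool.Agent.SBQ
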