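import Pool.Agent.SBQ.StmtsB

/-!
# SBQ, module BF: two ternary forms without common factor have finitely many common zeros
-/

namespace Pool.Agent.SBQ

open MvPolynomial (eval aeval C)

namespace BF_

/-- elimination of the coordinate `i` -/
theorem elim (hEL : Stmt_EL) (P Q : P3) (a b : ℕ) (hP : P.IsHomogeneous a)
    (hQ : Q.IsHomogeneous b) (hirr : Irreducible P) (hdvd : ¬ P ∣ Q) (i : Fin 3) :
    ∃ R : MvPolynomial (Fin 2) ℝ, R ≠ 0 ∧ ∀ v : Fin 3 → ℝ, eval v P = 0 → eval v Q = 0 →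
      ∀ s : ℝ, eval (fun j : Fin 2 => s * v (Equiv.swap 0 i (Fin.succ j))) R = 0 := by
  set σ : Equiv.Perm (Fin 3) := Equiv.swap 0 i with hσ
  have hσσ : ∀ j, σ (σ j) = j := fun j => Equiv.swap_apply_self 0 i j
  set e : P3 ≃ₐ[ℝ] P3 := MvPolynomial.renameEquiv ℝ σ with he
  have hirr' : Irreducible (e P) := (MulEquiv.irreducible_iff (e : P3 ≃* P3)).mpr hirr
  have hdvd' : ¬ e P ∣ e Q := fun h => hdvd ((map_dvd_iff e).mp h)
  obtain ⟨R, c, d, hR, hid⟩ := hEL 2 (e P) (e Q) hirr' hdvd'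
  refine ⟨R, hR, fun v hv1 hv2 s => ?_⟩
  have hev : ∀ F : P3, eval (s • (v ∘ σ)) (e F) = eval (s • v) F := by
    intro F
    show eval (s • (v ∘ σ)) (MvPolynomial.rename σ F) = _
    rw [MvPolynomial.eval_rename]
    congr 1
    apply congrArg
    funext j
    simp [hσσ]
  have h1 := congrArg (eval (s • (v ∘ σ))) hid
  rw [MvPolynomial.eval_rename, map_add, map_mul, map_mul, hev, hev, hom_smul hP, hom_smul hQ,
    hv1, hv2] at h1
  simpa [Function.comp_def] using h1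

theorem ratio1 (R : MvPolynomial (Fin 2) ℝ) (hR : R ≠ 0) :
    {t : ℝ | ∀ s : ℝ, eval ![s, s * t] R = 0}.Finite := by
  have h1 : (MvPolynomial.X 0 * R : MvPolynomial (Fin 2) ℝ) ≠ 0 :=
    mul_ne_zero (MvPolynomial.X_ne_zero 0) hR
  have h2 : ∃ w : Fin 2 → ℝ, eval w (MvPolynomial.X 0 * R) ≠ 0 := by
    by_contra hcon
    push Not at hcon
    exact h1 (MvPolynomial.funext fun w => by rw [hcon w]; simp)
  obtain ⟨w, hw⟩ := h2
  rw [map_mul, MvPolynomial.eval_X] at hw
  have hw0 : w 0 ≠ 0 := left_ne_zero_of_mul hw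
  have hw1 : eval w R ≠ 0 := right_ne_zero_of_mul hw
  set g : U1 := comp ![Polynomial.C (w 0), Polynomial.C (w 0) * Polynomial.X] R with hg
  have hev : ∀ t : ℝ, g.eval t = eval ![w 0, w 0 * t] R := by
    intro t
    rw [hg, eval_comp]
    congr 1
    apply congrArg
    funext j
    fin_cases j <;> simp
  have hg0 : g ≠ 0 := by
    intro h0
    apply hw1
    have := hev (w 1 / w 0)
    rw [h0, Polynomial.eval_zero, mul_div_cancel₀ _ hw0] at this
    have h3 : w = ![w 0, w 1] := by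
      funext j
      fin_cases j <;> simp
    rw [h3]
    exact this.symm
  apply (g.roots.toFinset.finite_toSet).subset
  intro t ht
  rw [Finset.mem_coe, Multiset.mem_toFinset, Polynomial.mem_roots hg0, Polynomial.IsRoot, hev]
  exact ht (w 0)

theorem ratio2 (R : MvPolynomial (Fin 2) ℝ) (hR : R ≠ 0) :
    {t : ℝ | ∀ s : ℝ, eval ![s * t, s] R = 0}.Finite := by
  have h1 : (MvPolynomial.X 1 * R : MvPolynomial (Fin 2) ℝ) ≠ 0 :=
    mul_ne_zero (MvPolynomial.X_ne_zero 1) hR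
  have h2 : ∃ w : Fin 2 → ℝ, eval w (MvPolynomial.X 1 * R) ≠ 0 := by
    by_contra hcon
    push Not at hcon
    exact h1 (MvPolynomial.funext fun w => by rw [hcon w]; simp)
  obtain ⟨w, hw⟩ := h2
  rw [map_mul, MvPolynomial.eval_X] at hw
  have hw0 : w 1 ≠ 0 := left_ne_zero_of_mul hw
  have hw1 : eval w R ≠ 0 := right_ne_zero_of_mul hw
  set g : U1 := comp ![Polynomial.C (w 1) * Polynomial.X, Polynomial.C (w 1)] R with hg
  have hev : ∀ t : ℝ, g.eval t = eval ![w 1 * t, w 1] R := by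
    intro t
    rw [hg, eval_comp]
    congr 1
    apply congrArg
    funext j
    fin_cases j <;> simp
  have hg0 : g ≠ 0 := by
    intro h0
    apply hw1
    have := hev (w 0 / w 1)
    rw [h0, Polynomial.eval_zero, mul_div_cancel₀ _ hw0] at this
    have h3 : w = ![w 0, w 1] := by
      funext j
      fin_cases j <;> simp
    rw [h3]
    exact this.symm
  apply (g.roots.toFinset.finite_toSet).subset
  intro t ht
  rw [Finset.mem_coe, Multiset.mem_toFinset, Polynomial.mem_roots hg0, Polynomial.IsRoot, hev]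
  exact ht (w 1)

theorem unitline (w : Fin 3 → ℝ) :
    {v : Fin 3 → ℝ | (∃ r : ℝ, v = r • w) ∧ ∑ j, v j ^ 2 = 1}.Finite := by
  set c : ℝ := ∑ j, w j ^ 2 with hc
  apply ((Set.finite_singleton (-(Real.sqrt (1 / c)) • w)).insert
    (Real.sqrt (1 / c) • w)).subset
  rintro v ⟨⟨r, rfl⟩, hv⟩
  have h1 : r ^ 2 * c = 1 := by
    rw [← hv, hc, Finset.mul_sum]
    refine Finset.sum_congr rfl fun j _ => ?_
    simp only [Pi.smul_apply, smul_eq_mul]; ring
  have hc0 : c ≠ 0 := by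
    rintro h0
    rw [h0, mul_zero] at h1
    exact zero_ne_one h1
  have hcp : 0 ≤ 1 / c := by
    have : 0 ≤ c := Finset.sum_nonneg fun j _ => sq_nonneg _
    positivity
  have h2 : r ^ 2 = Real.sqrt (1 / c) ^ 2 := by
    rw [Real.sq_sqrt hcp]
    field_simp
    exact h1
  rcases sq_eq_sq_iff_eq_or_eq_neg.mp h2 with h | h
  · left
    rw [h]
  · right
    rw [Set.mem_singleton_iff, h]

end BF_

open BF_ in
theorem bf_proof (hEL : Stmt_EL) : Stmt_BF := by
  intro P Q a b hP hQ hirr hdvd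
  obtain ⟨R0, hR0, h0⟩ := elim hEL P Q a b hP hQ hirr hdvd 0
  obtain ⟨R1, hR1, h1⟩ := elim hEL P Q a b hP hQ hirr hdvd 1
  obtain ⟨R2, hR2, h2⟩ := elim hEL P Q a b hP hQ hirr hdvd 2
  -- elimination of 0: (v1, v2); of 1: (v0, v2); of 2: (v1, v0)
  have k0 : ∀ v : Fin 3 → ℝ, eval v P = 0 → eval v Q = 0 → ∀ s : ℝ,
      eval ![s * v 1, s * v 2] R0 = 0 := by
    intro v hv1 hv2 s
    have := h0 v hv1 hv2 s
    have he : (fun j : Fin 2 => s * v (Equiv.swap 0 0 (Fin.succ j))) =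
        ![s * v 1, s * v 2] := by
      funext j
      fin_cases j <;> simp
    rwa [he] at this
  have k1 : ∀ v : Fin 3 → ℝ, eval v P = 0 → eval v Q = 0 → ∀ s : ℝ,
      eval ![s * v 0, s * v 2] R1 = 0 := by
    intro v hv1 hv2 s
    have := h1 v hv1 hv2 s
    have he : (fun j : Fin 2 => s * v (Equiv.swap 0 1 (Fin.succ j))) =
        ![s * v 0, s * v 2] := by
      funext j
      have e0 : (Equiv.swap (0 : Fin 3) 1) (Fin.succ 0) = 0 := by decide
      have e1 : (Equiv.swap (0 : Fin 3) 1) (Fin.succ 1) = 2 := by decide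
      fin_cases j
      · show s * v ((Equiv.swap (0 : Fin 3) 1) (Fin.succ 0)) = s * v 0
        rw [e0]
      · show s * v ((Equiv.swap (0 : Fin 3) 1) (Fin.succ 1)) = s * v 2
        rw [e1]
    rwa [he] at this
  have k2 : ∀ v : Fin 3 → ℝ, eval v P = 0 → eval v Q = 0 → ∀ s : ℝ,
      eval ![s * v 1, s * v 0] R2 = 0 := by
    intro v hv1 hv2 s
    have := h2 v hv1 hv2 s
    have he : (fun j : Fin 2 => s * v (Equiv.swap 0 2 (Fin.succ j))) =
        ![s * v 1, s * v 0] := by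
      funext j
      have e0 : (Equiv.swap (0 : Fin 3) 2) (Fin.succ 0) = 1 := by decide
      have e1 : (Equiv.swap (0 : Fin 3) 2) (Fin.succ 1) = 0 := by decide
      fin_cases j
      · show s * v ((Equiv.swap (0 : Fin 3) 2) (Fin.succ 0)) = s * v 1
        rw [e0]
      · show s * v ((Equiv.swap (0 : Fin 3) 2) (Fin.succ 1)) = s * v 0
        rw [e1]
    rwa [he] at this
  have f0 := ratio1 R0 hR0
  have f1 := ratio1 R1 hR1
  have f2 := ratio2 R2 hR2
  have F1 : (⋃ p ∈ {t : ℝ | ∀ s : ℝ, eval ![s * t, s] R2 = 0} ×ˢ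
      {t : ℝ | ∀ s : ℝ, eval ![s, s * t] R1 = 0},
      {v : Fin 3 → ℝ | (∃ r : ℝ, v = r • ![1, p.1, p.2]) ∧ ∑ j, v j ^ 2 = 1}).Finite :=
    Set.Finite.biUnion (f2.prod f1) fun p _ => unitline _
  have F2 : (⋃ c ∈ {t : ℝ | ∀ s : ℝ, eval ![s, s * t] R0 = 0},
      {v : Fin 3 → ℝ | (∃ r : ℝ, v = r • ![0, 1, c]) ∧ ∑ j, v j ^ 2 = 1}).Finite :=
    Set.Finite.biUnion f0 fun c _ => unitline _
  have F3 := unitline ![0, 0, 1]
  refine ((F1.union F2).union F3).subset ?_
  rintro v ⟨hv1, hv2, hv3⟩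
  by_cases hx : v 0 = 0
  · by_cases hy : v 1 = 0
    · right
      refine ⟨⟨v 2, ?_⟩, hv3⟩
      funext j
      fin_cases j <;> simp [hx, hy]
    · left; right
      rw [Set.mem_iUnion₂]
      refine ⟨v 2 / v 1, fun s => ?_, ⟨⟨v 1, ?_⟩, hv3⟩⟩
      · have := k0 v hv1 hv2 (s / v 1)
        have he : (![s / v 1 * v 1, s / v 1 * v 2] : Fin 2 → ℝ) = ![s, s * (v 2 / v 1)] := by
          rw [div_mul_cancel₀ _ hy]
          congr 2
          ring
        rwa [he] at this
      · funext j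
        fin_cases j
        · simp [hx]
        · simp
        · show v 2 = v 1 * (v 2 / v 1)
          rw [mul_div_cancel₀ _ hy]
  · left; left
    rw [Set.mem_iUnion₂]
    refine ⟨(v 1 / v 0, v 2 / v 0), ⟨fun s => ?_, fun s => ?_⟩, ⟨⟨v 0, ?_⟩, hv3⟩⟩
    · have := k2 v hv1 hv2 (s / v 0)
      have he : (![s / v 0 * v 1, s / v 0 * v 0] : Fin 2 → ℝ) = ![s * (v 1 / v 0), s] := by
        rw [div_mul_cancel₀ _ hx]
        congr 1
        ring
      rwa [he] at this
    · have := k1 v hv1 hv2 (s / v 0)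
      have he : (![s / v 0 * v 0, s / v 0 * v 2] : Fin 2 → ℝ) = ![s, s * (v 2 / v 0)] := by
        rw [div_mul_cancel₀ _ hx]
        congr 2
        ring
      rwa [he] at this
    · funext j
      fin_cases j
      · simp
      · show v 1 = v 0 * (v 1 / v 0)
        rw [mul_div_cancel₀ _ hx]
      · show v 2 = v 0 * (v 2 / v 0)
        rw [mul_div_cancel₀ _ hx]

end Pool.Agent.SBQ
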