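import Pool.Agent.SBQ.StmtsB

namespace Pool.Agent.SBQ

open MvPolynomial (eval aeval C)

namespace CA_

theorem disc {a p f : ℝ} (h : ∀ s : ℝ, 0 ≤ s ^ 2 * a + 2 * s * p + f) : p ^ 2 ≤ a * f := by
  have h1 : ∀ s : ℝ, 0 ≤ a * (s * s) + (2 * p) * s + f := by
    intro s
    have := h s
    nlinarith
  have h2 := discrim_le_zero h1
  unfold discrim at h2
  nlinarith

theorem disc_zero {p f : ℝ} (h : ∀ s : ℝ, 0 ≤ 2 * s * p + f) : p = 0 := by
  have h1 : p ^ 2 ≤ 0 * f := disc (a := 0) (fun s => by have := h s; linarith)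
  rw [zero_mul] at h1
  exact pow_eq_zero_iff (two_ne_zero) |>.mp (le_antisymm h1 (sq_nonneg _))

theorem lim_nonneg {a b c : ℝ} (h : ∀ e : ℝ, e ≠ 0 → 0 ≤ a + b * e + c * e ^ 2) : 0 ≤ a := by
  have hcl : IsClosed {e : ℝ | 0 ≤ a + b * e + c * e ^ 2} :=
    isClosed_le continuous_const (by fun_prop)
  have hsub : ({0}ᶜ : Set ℝ) ⊆ {e : ℝ | 0 ≤ a + b * e + c * e ^ 2} := fun e he => h e he
  have h1 : closure ({0}ᶜ : Set ℝ) ⊆ {e : ℝ | 0 ≤ a + b * e + c * e ^ 2} :=
    closure_minimal hsub hcl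
  rw [(dense_compl_singleton (0 : ℝ)).closure_eq] at h1
  have h2 : (0 : ℝ) ∈ {e : ℝ | 0 ≤ a + b * e + c * e ^ 2} := h1 (Set.mem_univ _)
  have h3 : 0 ≤ a + b * 0 + c * 0 ^ 2 := h2
  linarith

end CA_

open CA_ in
theorem ca_proof : Stmt_CA := by
  rintro n A B D hA hB hD hpos ⟨u, v0, s0, t0, hst, hz, hne⟩
  have hN : 0 < s0 ^ 2 + t0 ^ 2 := by
    rcases hst with h | h
    · have : 0 < s0 ^ 2 := by positivity
      nlinarith [sq_nonneg t0]
    · have : 0 < t0 ^ 2 := by positivity
      nlinarith [sq_nonneg s0]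
  set N := s0 ^ 2 + t0 ^ 2 with hNdef
  set al := eval u A with hal
  set be := eval u B with hbe
  set ga := eval u D with hga
  have h1 : s0 * al + t0 * be = 0 := by
    apply disc_zero (f := al)
    intro s
    have := hpos u (s * s0 + 1) (s * t0)
    rw [← hal, ← hbe, ← hga] at this
    have e : (s * s0 + 1) ^ 2 * al + 2 * (s * s0 + 1) * (s * t0) * be + (s * t0) ^ 2 * ga =
        2 * s * (s0 * al + t0 * be) + al := by linear_combination s ^ 2 * hz
    rw [e] at this
    exact this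
  have h2 : s0 * be + t0 * ga = 0 := by
    apply disc_zero (f := ga)
    intro s
    have := hpos u (s * s0) (s * t0 + 1)
    rw [← hal, ← hbe, ← hga] at this
    have e : (s * s0) ^ 2 * al + 2 * (s * s0) * (s * t0 + 1) * be + (s * t0 + 1) ^ 2 * ga =
        2 * s * (s0 * be + t0 * ga) + ga := by linear_combination s ^ 2 * hz
    rw [e] at this
    exact this
  have hal0 : 0 ≤ al := by have := hpos u 1 0; rw [← hal, ← hbe, ← hga] at this; linarith
  have hga0 : 0 ≤ ga := by have := hpos u 0 1; rw [← hal, ← hbe, ← hga] at this; linarith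
  -- the form at `u`
  have hu : ∀ s t : ℝ, N * (s ^ 2 * al + 2 * s * t * be + t ^ 2 * ga) =
      (al + ga) * (s0 * t - t0 * s) ^ 2 := by
    intro s t
    rw [hNdef]
    linear_combination (s ^ 2 * s0 + 2 * s * t * t0 - t ^ 2 * s0) * h1 +
      (t ^ 2 * t0 + 2 * s * t * s0 - s ^ 2 * t0) * h2
  -- Cauchy-Schwarz
  have hCS : ∀ (X : Fin n → ℝ) (s t : ℝ),
      (s ^ 2 * pol A u X + 2 * s * t * pol B u X + t ^ 2 * pol D u X) ^ 2 ≤
      (s ^ 2 * al + 2 * s * t * be + t ^ 2 * ga) *
        (s ^ 2 * eval X A + 2 * s * t * eval X B + t ^ 2 * eval X D) := by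
    intro X s t
    apply disc
    intro r
    have := hpos (r • u + (1 : ℝ) • X) s t
    rw [hom2_add hA, hom2_add hB, hom2_add hD, ← hal, ← hbe, ← hga] at this
    nlinarith
  have hP0 : ∀ X : Fin n → ℝ,
      s0 ^ 2 * pol A u X + 2 * s0 * t0 * pol B u X + t0 ^ 2 * pol D u X = 0 := by
    intro X
    have := hCS X s0 t0
    rw [hal, hbe, hga, hz, zero_mul] at this
    exact pow_eq_zero_iff (two_ne_zero) |>.mp (le_antisymm this (sq_nonneg _))
  obtain ⟨lA, hlA, hlA'⟩ := pol_hom1 hA u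
  obtain ⟨lB, hlB, hlB'⟩ := pol_hom1 hB u
  obtain ⟨lD, hlD, hlD'⟩ := pol_hom1 hD u
  -- values of the two linear forms (not normalised)
  have hfac : ∀ (X : Fin n → ℝ) (s t : ℝ),
      N * (s ^ 2 * pol A u X + 2 * s * t * pol B u X + t ^ 2 * pol D u X) =
      (s0 * t - t0 * s) * (s * (2 * s0 * pol B u X + t0 * (pol D u X - pol A u X)) +
        t * (s0 * (pol D u X - pol A u X) - 2 * t0 * pol B u X)) := by
    intro X s t
    rw [hNdef]
    linear_combination (s ^ 2 + t ^ 2) * hP0 X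
  have hPne : ∃ (X : Fin n → ℝ) (s t : ℝ),
      s ^ 2 * pol A u X + 2 * s * t * pol B u X + t ^ 2 * pol D u X ≠ 0 := by
    by_contra hcon
    push Not at hcon
    have e1 := hcon v0 1 0
    have e2 := hcon v0 0 1
    have e3 := hcon v0 1 1
    rcases hne with h | h | h
    · apply h; linarith
    · apply h; linarith
    · apply h; linarith
  have hcpos : 0 < al + ga := by
    rcases (add_nonneg hal0 hga0).lt_or_eq with h | h
    · exact h
    · exfalso
      obtain ⟨X, s, t, hX⟩ := hPne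
      apply hX
      have hz1 : s ^ 2 * al + 2 * s * t * be + t ^ 2 * ga = 0 := by
        have := hu s t
        rw [← h, zero_mul] at this
        rcases mul_eq_zero.mp this with h' | h'
        · exact absurd h' hN.ne'
        · exact h'
      have := hCS X s t
      rw [hz1, zero_mul] at this
      exact pow_eq_zero_iff (two_ne_zero) |>.mp (le_antisymm this (sq_nonneg _))
  -- the inequality for the unnormalised forms
  have hmain : ∀ (X : Fin n → ℝ) (s t : ℝ),
      (s * (2 * s0 * pol B u X + t0 * (pol D u X - pol A u X)) +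
        t * (s0 * (pol D u X - pol A u X) - 2 * t0 * pol B u X)) ^ 2 ≤
      ((al + ga) * N) * (s ^ 2 * eval X A + 2 * s * t * eval X B + t ^ 2 * eval X D) := by
    intro X
    have off : ∀ s t : ℝ, s0 * t - t0 * s ≠ 0 →
      (s * (2 * s0 * pol B u X + t0 * (pol D u X - pol A u X)) +
        t * (s0 * (pol D u X - pol A u X) - 2 * t0 * pol B u X)) ^ 2 ≤
      ((al + ga) * N) * (s ^ 2 * eval X A + 2 * s * t * eval X B + t ^ 2 * eval X D) := by
      intro s t hne0
      have hsq : 0 < (s0 * t - t0 * s) ^ 2 := by positivity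
      refine le_of_mul_le_mul_left ?_ hsq
      have e1 := hCS X s t
      have e2 := mul_le_mul_of_nonneg_left e1 (sq_nonneg N)
      have e3 : N ^ 2 * (s ^ 2 * pol A u X + 2 * s * t * pol B u X + t ^ 2 * pol D u X) ^ 2 =
          (s0 * t - t0 * s) ^ 2 * (s * (2 * s0 * pol B u X + t0 * (pol D u X - pol A u X)) +
            t * (s0 * (pol D u X - pol A u X) - 2 * t0 * pol B u X)) ^ 2 := by
        rw [← mul_pow, hfac X s t, mul_pow]
      have e4 : N ^ 2 * ((s ^ 2 * al + 2 * s * t * be + t ^ 2 * ga) *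
          (s ^ 2 * eval X A + 2 * s * t * eval X B + t ^ 2 * eval X D)) =
          (s0 * t - t0 * s) ^ 2 * ((al + ga) * N *
            (s ^ 2 * eval X A + 2 * s * t * eval X B + t ^ 2 * eval X D)) := by
        have := hu s t
        linear_combination (N * (s ^ 2 * eval X A + 2 * s * t * eval X B +
          t ^ 2 * eval X D)) * this
      rw [e3, e4] at e2
      exact e2
    intro s t
    rw [← sub_nonneg]
    by_cases hst0 : s0 * t - t0 * s = 0
    · set b1 := 2 * s0 * pol B u X + t0 * (pol D u X - pol A u X) with hb1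
      set b2 := s0 * (pol D u X - pol A u X) - 2 * t0 * pol B u X with hb2
      apply lim_nonneg (b := ((al + ga) * N) * (-(2 * s * t0) * eval X A +
          2 * (s * s0 - t0 * t) * eval X B + 2 * t * s0 * eval X D) -
          2 * (s * b1 + t * b2) * (-(t0 * b1) + s0 * b2))
        (c := ((al + ga) * N) * (t0 ^ 2 * eval X A - 2 * t0 * s0 * eval X B +
          s0 ^ 2 * eval X D) - (-(t0 * b1) + s0 * b2) ^ 2)
      intro e he
      have hne1 : s0 * (t + e * s0) - t0 * (s - e * t0) ≠ 0 := by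
        have : s0 * (t + e * s0) - t0 * (s - e * t0) = e * N := by
          rw [hNdef]; linear_combination hst0
        rw [this]
        exact mul_ne_zero he hN.ne'
      have := off (s - e * t0) (t + e * s0) hne1
      rw [← sub_nonneg] at this
      nlinarith [this]
    · exact sub_nonneg.mpr (off s t hst0)
  set c := (al + ga) * N with hc
  have hc0 : 0 < c := mul_pos hcpos hN
  have hsc : 0 < Real.sqrt c := Real.sqrt_pos.mpr hc0
  have hev : ∀ X, eval X (C (Real.sqrt c)⁻¹ * (C (2 * s0) * lB + C t0 * (lD - lA))) =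
      (Real.sqrt c)⁻¹ * (2 * s0 * pol B u X + t0 * (pol D u X - pol A u X)) := by
    intro X
    simp only [map_mul, map_add, map_sub, MvPolynomial.eval_C, hlA', hlB', hlD']
  have hev2 : ∀ X, eval X (C (Real.sqrt c)⁻¹ * (C s0 * (lD - lA) - C (2 * t0) * lB)) =
      (Real.sqrt c)⁻¹ * (s0 * (pol D u X - pol A u X) - 2 * t0 * pol B u X) := by
    intro X
    simp only [map_mul, map_sub, MvPolynomial.eval_C, hlA', hlB', hlD']
  have hCmul : ∀ (r : ℝ) (p : MvPolynomial (Fin n) ℝ), p.IsHomogeneous 1 →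
      (C r * p).IsHomogeneous 1 := by
    intro r p hp
    have := (MvPolynomial.isHomogeneous_C (Fin n) r).mul hp
    rwa [zero_add] at this
  refine ⟨C (Real.sqrt c)⁻¹ * (C (2 * s0) * lB + C t0 * (lD - lA)),
    C (Real.sqrt c)⁻¹ * (C s0 * (lD - lA) - C (2 * t0) * lB),
    hCmul _ _ ((hCmul _ _ hlB).add (hCmul _ _ (hlD.sub hlA))),
    hCmul _ _ ((hCmul _ _ (hlD.sub hlA)).sub (hCmul _ _ hlB)), ?_, ?_⟩
  · by_contra hcon
    push Not at hcon
    obtain ⟨X, s, t, hX⟩ := hPne
    have e1 := hev X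
    have e2 := hev2 X
    rw [hcon.1, map_zero] at e1
    rw [hcon.2, map_zero] at e2
    have f1 := (mul_eq_zero.mp e1.symm).resolve_left (inv_pos.mpr hsc).ne'
    have f2 := (mul_eq_zero.mp e2.symm).resolve_left (inv_pos.mpr hsc).ne'
    have := hfac X s t
    rw [f1, f2, mul_zero, mul_zero, add_zero, mul_zero] at this
    exact hX ((mul_eq_zero.mp this).resolve_left hN.ne')
  · intro X s t
    rw [hev, hev2]
    have e1 : s * ((Real.sqrt c)⁻¹ * (2 * s0 * pol B u X + t0 * (pol D u X - pol A u X))) +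
        t * ((Real.sqrt c)⁻¹ * (s0 * (pol D u X - pol A u X) - 2 * t0 * pol B u X)) =
        (Real.sqrt c)⁻¹ * (s * (2 * s0 * pol B u X + t0 * (pol D u X - pol A u X)) +
        t * (s0 * (pol D u X - pol A u X) - 2 * t0 * pol B u X)) := by ring
    rw [e1, mul_pow, inv_pow, Real.sq_sqrt hc0.le, inv_mul_le_iff₀ hc0]
    exact hmain X s t

end Pool.Agent.SBQ
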