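import Pool.Agent.SBQ.StmtsB

set_option autoImplicit false

/-!
# SBQ: CB, biquadratic forms whose zeros are all in the radical
-/

namespace Pool.Agent.SBQ

open MvPolynomial (eval aeval C)

namespace CB_

theorem pol_add_left {n : ℕ} {A : MvPolynomial (Fin n) ℝ} (hA : A.IsHomogeneous 2)
    (u v w : Fin n → ℝ) : pol A (u + v) w = pol A u w + pol A v w := by
  rw [pol_comm A (u + v) w, pol_add_right hA, pol_comm A w u, pol_comm A w v]

theorem pol_smul_left {n : ℕ} {A : MvPolynomial (Fin n) ℝ} (hA : A.IsHomogeneous 2)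
    (s : ℝ) (u v : Fin n → ℝ) : pol A (s • u) v = s * pol A u v := by
  rw [pol_comm A (s • u) v, pol_smul_right hA, pol_comm A v u]

theorem pol_zero_left {n : ℕ} {A : MvPolynomial (Fin n) ℝ} (hA : A.IsHomogeneous 2)
    (v : Fin n → ℝ) : pol A 0 v = 0 := by
  have := pol_smul_left hA 0 0 v
  rw [zero_smul, zero_mul] at this
  exact this

/-- the common radical -/
def Rad {n : ℕ} {A B D : MvPolynomial (Fin n) ℝ} (hA : A.IsHomogeneous 2)
    (hB : B.IsHomogeneous 2) (hD : D.IsHomogeneous 2) : Submodule ℝ (Fin n → ℝ) where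
  carrier := {u | ∀ v, pol A u v = 0 ∧ pol B u v = 0 ∧ pol D u v = 0}
  add_mem' := by
    intro a b ha hb v
    obtain ⟨a1, a2, a3⟩ := ha v
    obtain ⟨b1, b2, b3⟩ := hb v
    exact ⟨by rw [pol_add_left hA, a1, b1, add_zero], by rw [pol_add_left hB, a2, b2, add_zero],
      by rw [pol_add_left hD, a3, b3, add_zero]⟩
  zero_mem' := fun v => ⟨pol_zero_left hA v, pol_zero_left hB v, pol_zero_left hD v⟩
  smul_mem' := by
    intro c a ha v
    obtain ⟨a1, a2, a3⟩ := ha v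
    exact ⟨by rw [pol_smul_left hA, a1, mul_zero], by rw [pol_smul_left hB, a2, mul_zero],
      by rw [pol_smul_left hD, a3, mul_zero]⟩

theorem eval_add_rad {n : ℕ} {A : MvPolynomial (Fin n) ℝ} (hA : A.IsHomogeneous 2)
    (r w : Fin n → ℝ) (hr : ∀ v, pol A r v = 0) : eval (r + w) A = eval w A := by
  have h := hom2_add hA 1 1 r w
  rw [one_smul, one_smul, hr w] at h
  have h2 : eval r A = 0 := by rw [← pol_self hA, hr r]
  rw [h, h2]; ring

theorem lin_sq_le {n : ℕ} (φ : (Fin n → ℝ) →ₗ[ℝ] ℝ) (v : Fin n → ℝ) :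
    φ v ^ 2 ≤ (∑ j, φ (Pi.single j 1) ^ 2) * ∑ j, v j ^ 2 := by
  have hv : v = ∑ j, v j • (Pi.single j (1 : ℝ) : Fin n → ℝ) := by
    funext k
    simp [Finset.sum_apply, Pi.single_apply]
  have h1 : φ v = ∑ j, φ (Pi.single j 1) * v j := by
    conv_lhs => rw [hv]
    rw [map_sum]
    exact Finset.sum_congr rfl fun j _ => by rw [map_smul, smul_eq_mul, mul_comm]
  rw [h1]
  exact Finset.sum_mul_sq_le_sq_mul_sq _ _ _

/-- the biquadratic form -/
noncomputable def Ph {n : ℕ} (A B D : MvPolynomial (Fin n) ℝ) (v : Fin n → ℝ) (s t : ℝ) : ℝ :=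
  s ^ 2 * eval v A + 2 * s * t * eval v B + t ^ 2 * eval v D

theorem ph_smul {n : ℕ} {A B D : MvPolynomial (Fin n) ℝ} (hA : A.IsHomogeneous 2)
    (hB : B.IsHomogeneous 2) (hD : D.IsHomogeneous 2) (a b : ℝ) (v : Fin n → ℝ) (s t : ℝ) :
    Ph A B D (a • v) (b * s) (b * t) = a ^ 2 * b ^ 2 * Ph A B D v s t := by
  unfold Ph
  rw [hom_smul hA, hom_smul hB, hom_smul hD]
  ring

theorem lower {n : ℕ} {A B D : MvPolynomial (Fin n) ℝ} (hA : A.IsHomogeneous 2)
    (hB : B.IsHomogeneous 2) (hD : D.IsHomogeneous 2)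
    (hp : ∀ (v : Fin n → ℝ) (s t : ℝ), 0 ≤ Ph A B D v s t)
    (W : Submodule ℝ (Fin n → ℝ))
    (hW : ∀ (v : Fin n → ℝ) (s t : ℝ), v ∈ W → v ≠ 0 → (s ≠ 0 ∨ t ≠ 0) → Ph A B D v s t ≠ 0) :
    ∃ c : ℝ, 0 < c ∧ ∀ (v : Fin n → ℝ) (s t : ℝ), v ∈ W →
      c * (∑ j, v j ^ 2) * (s ^ 2 + t ^ 2) ≤ Ph A B D v s t := by
  set K : Set ((Fin n → ℝ) × ℝ × ℝ) :=
    {p | p.1 ∈ W ∧ ∑ j, p.1 j ^ 2 = 1 ∧ p.2.1 ^ 2 + p.2.2 ^ 2 = 1} with hK
  have hclosed : IsClosed K := by
    have h1 : IsClosed {p : (Fin n → ℝ) × ℝ × ℝ | p.1 ∈ W} :=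
      (Submodule.closed_of_finiteDimensional W).preimage continuous_fst
    have h2 : IsClosed {p : (Fin n → ℝ) × ℝ × ℝ | ∑ j, p.1 j ^ 2 = 1} :=
      isClosed_eq (by fun_prop) continuous_const
    have h3 : IsClosed {p : (Fin n → ℝ) × ℝ × ℝ | p.2.1 ^ 2 + p.2.2 ^ 2 = 1} :=
      isClosed_eq (by fun_prop) continuous_const
    exact h1.inter (h2.inter h3)
  have hsub : K ⊆ Metric.closedBall (0 : (Fin n → ℝ) × ℝ × ℝ) 1 := by
    rintro ⟨v, s, t⟩ ⟨_, h2, h3⟩
    simp only at h2 h3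
    rw [mem_closedBall_zero_iff, Prod.norm_def, Prod.norm_def]
    refine max_le ?_ (max_le ?_ ?_)
    · rw [pi_norm_le_iff_of_nonneg zero_le_one]
      intro j
      rw [Real.norm_eq_abs, ← sq_le_one_iff_abs_le_one, ← h2]
      exact Finset.single_le_sum (f := fun j => v j ^ 2) (fun i _ => sq_nonneg (v i))
        (Finset.mem_univ j)
    · rw [Real.norm_eq_abs, ← sq_le_one_iff_abs_le_one]
      simp only
      nlinarith [sq_nonneg t]
    · rw [Real.norm_eq_abs, ← sq_le_one_iff_abs_le_one]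
      simp only
      nlinarith [sq_nonneg s]
  have hcomp : IsCompact K := (isCompact_closedBall _ _).of_isClosed_subset hclosed hsub
  have hcont : Continuous (fun p : (Fin n → ℝ) × ℝ × ℝ => Ph A B D p.1 p.2.1 p.2.2) := by
    unfold Ph
    have hc : ∀ P : MvPolynomial (Fin n) ℝ,
        Continuous (fun p : (Fin n → ℝ) × ℝ × ℝ => eval p.1 P) := fun P =>
      (MvPolynomial.continuous_eval P).comp continuous_fst
    have h1 := hc A
    have h2 := hc B
    have h3 := hc D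
    fun_prop
  obtain ⟨c, hc, hcl⟩ := hcomp.exists_forall_le' hcont.continuousOn (a := 0) (by
    rintro ⟨v, s, t⟩ ⟨h1, h2, h3⟩
    simp only at h1 h2 h3
    refine lt_of_le_of_ne (hp v s t) (Ne.symm (hW v s t h1 ?_ ?_))
    · rintro rfl
      simp at h2
    · by_contra hcon
      push Not at hcon
      rw [hcon.1, hcon.2] at h3
      norm_num at h3)
  refine ⟨c, hc, fun v s t hv => ?_⟩
  set N := ∑ j, v j ^ 2 with hN
  have hN0 : 0 ≤ N := Finset.sum_nonneg fun j _ => sq_nonneg _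
  rcases hN0.eq_or_lt with hN1 | hN1
  · rw [← hN1, mul_zero, zero_mul]; exact hp v s t
  have hM0 : 0 ≤ s ^ 2 + t ^ 2 := by positivity
  rcases hM0.eq_or_lt with hM1 | hM1
  · rw [← hM1, mul_zero]; exact hp v s t
  have h1 := hcl (((Real.sqrt N)⁻¹ • v), ((Real.sqrt (s ^ 2 + t ^ 2))⁻¹ * s),
    ((Real.sqrt (s ^ 2 + t ^ 2))⁻¹ * t)) (by
      refine ⟨W.smul_mem _ hv, ?_, ?_⟩
      · simp only [Pi.smul_apply, smul_eq_mul, mul_pow, ← Finset.mul_sum, inv_pow,
          Real.sq_sqrt hN0]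
        rw [← hN]
        exact inv_mul_cancel₀ hN1.ne'
      · simp only [mul_pow, ← mul_add, inv_pow, Real.sq_sqrt hM0]
        exact inv_mul_cancel₀ hM1.ne')
  simp only at h1
  rw [ph_smul hA hB hD, inv_pow, inv_pow, Real.sq_sqrt hN0, Real.sq_sqrt hM0] at h1
  have h2 : N⁻¹ * (s ^ 2 + t ^ 2)⁻¹ * Ph A B D v s t * (N * (s ^ 2 + t ^ 2)) =
      Ph A B D v s t := by
    field_simp
  have h3 : c * (N * (s ^ 2 + t ^ 2)) ≤
      N⁻¹ * (s ^ 2 + t ^ 2)⁻¹ * Ph A B D v s t * (N * (s ^ 2 + t ^ 2)) :=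
    mul_le_mul_of_nonneg_right h1 (by positivity)
  rw [h2] at h3
  calc c * N * (s ^ 2 + t ^ 2) = c * (N * (s ^ 2 + t ^ 2)) := by ring
    _ ≤ _ := h3

end CB_

open CB_

theorem cb_proof : Stmt_CB := by
  intro n A B D hA hB hD hp hne hz
  have hp' : ∀ (v : Fin n → ℝ) (s t : ℝ), 0 ≤ Ph A B D v s t := hp
  have hlt : Rad hA hB hD < ⊤ := by
    rw [lt_top_iff_ne_top]
    intro htop
    have hall : ∀ u v, pol A u v = 0 ∧ pol B u v = 0 ∧ pol D u v = 0 := by
      intro u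
      have : u ∈ Rad hA hB hD := by rw [htop]; trivial
      exact this
    rcases hne with h | h | h
    · apply h
      apply MvPolynomial.funext
      intro v
      rw [← pol_self hA, (hall v v).1, map_zero]
    · apply h
      apply MvPolynomial.funext
      intro v
      rw [← pol_self hB, (hall v v).2.1, map_zero]
    · apply h
      apply MvPolynomial.funext
      intro v
      rw [← pol_self hD, (hall v v).2.2, map_zero]
  obtain ⟨φ, hφ0, hφ⟩ := Submodule.exists_le_ker_of_lt_top _ hlt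
  obtain ⟨W, hW⟩ := Submodule.exists_isCompl (Rad hA hB hD)
  obtain ⟨c, hc, hcl⟩ := lower hA hB hD hp' W (by
    intro v s t hv hv0 hst h0
    apply hv0
    have h1 : v ∈ Rad hA hB hD := fun w => hz v w s t hst h0
    have h2 : v ∈ Rad hA hB hD ⊓ W := ⟨h1, hv⟩
    rw [hW.inf_eq_bot] at h2
    exact h2)
  set E := ∑ j, φ (Pi.single j 1) ^ 2 with hE
  have hE0 : 0 ≤ E := Finset.sum_nonneg fun j _ => sq_nonneg _
  have hq : 0 < c / (E + 1) := by positivity
  obtain ⟨l, hl, hl2⟩ := exists_hom1 (Real.sqrt (c / (E + 1)) • φ)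
  refine ⟨l, 0, hl, MvPolynomial.isHomogeneous_zero _ _ _, Or.inl ?_, ?_⟩
  · rintro rfl
    apply hφ0
    ext j
    have := hl2 (Pi.single j 1)
    rw [map_zero, LinearMap.smul_apply, smul_eq_mul] at this
    have h3 := (mul_eq_zero.mp this.symm).resolve_left (Real.sqrt_pos.mpr hq).ne'
    simpa using h3
  · intro v s t
    have hsup : v ∈ Rad hA hB hD ⊔ W := by rw [hW.sup_eq_top]; trivial
    obtain ⟨r, hr, w, hw, rfl⟩ := Submodule.mem_sup.mp hsup
    have e1 : eval (r + w) A = eval w A := eval_add_rad hA r w fun v => (hr v).1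
    have e2 : eval (r + w) B = eval w B := eval_add_rad hB r w fun v => (hr v).2.1
    have e3 : eval (r + w) D = eval w D := eval_add_rad hD r w fun v => (hr v).2.2
    have e4 : φ (r + w) = φ w := by
      rw [map_add]
      have : φ r = 0 := hφ hr
      rw [this, zero_add]
    rw [hl2, LinearMap.smul_apply, smul_eq_mul, e1, e2, e3, e4, map_zero, mul_zero, add_zero]
    have h1 := hcl w s t hw
    unfold Ph at h1
    refine le_trans ?_ h1
    have h2 := lin_sq_le φ w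
    rw [← hE] at h2
    set N := ∑ j, w j ^ 2 with hN
    have hN0 : 0 ≤ N := Finset.sum_nonneg fun j _ => sq_nonneg _
    rw [mul_pow, mul_pow, Real.sq_sqrt hq.le]
    have h3 : c / (E + 1) * φ w ^ 2 ≤ c * N := by
      have h4 : φ w ^ 2 ≤ (E + 1) * N := by nlinarith
      calc c / (E + 1) * φ w ^ 2 ≤ c / (E + 1) * ((E + 1) * N) :=
            mul_le_mul_of_nonneg_left h4 hq.le
        _ = c * N := by field_simp
    have h5 : 0 ≤ c * N := by positivity
    calc s ^ 2 * (c / (E + 1) * φ w ^ 2) ≤ s ^ 2 * (c * N) :=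
          mul_le_mul_of_nonneg_left h3 (sq_nonneg s)
      _ ≤ c * N * (s ^ 2 + t ^ 2) := by nlinarith [mul_nonneg h5 (sq_nonneg t)]

end Pool.Agent.SBQ
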