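import Pool.Agent.SBQ.StmtsB

/-!
# SBQ, module CL: squares below biquadratic forms
-/

set_option autoImplicit false

namespace Pool.Agent.SBQ

open MvPolynomial (eval aeval C)

theorem cl_proof (hCA : Stmt_CA) (hCB : Stmt_CB) : Stmt_CL := by
  intro n A B D hA hB hD hpos hne
  by_cases h : ∃ (u v : Fin n → ℝ) (s t : ℝ), (s ≠ 0 ∨ t ≠ 0) ∧
    s ^ 2 * eval u A + 2 * s * t * eval u B + t ^ 2 * eval u D = 0 ∧
    (pol A u v ≠ 0 ∨ pol B u v ≠ 0 ∨ pol D u v ≠ 0)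
  · exact hCA n A B D hA hB hD hpos h
  · refine hCB n A B D hA hB hD hpos hne fun u v s t hst h0 => ?_
    by_contra hcon
    refine h ⟨u, v, s, t, hst, h0, ?_⟩
    by_contra hcon2
    push Not at hcon2
    exact hcon ⟨hcon2.1, hcon2.2.1, hcon2.2.2⟩

end Pool.Agent.SBQ
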