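import Pool.Agent.SBQ.StmtsB

/-!
# SBQ: module CO (the univariate core)
-/

set_option autoImplicit false

namespace Pool.Agent.SBQ

open MvPolynomial (eval aeval C)

namespace CO_

/-- The order of `D (η t)` is the multiplicity if `η' 0 ≠ 0`. -/
theorem ord {D η : U1} (hD : D ≠ 0) (hη : η.coeff 1 ≠ 0) {n : ℕ}
    (h : (Polynomial.X : U1) ^ n ∣ D.comp η) :
    (Polynomial.X - Polynomial.C (η.coeff 0)) ^ n ∣ D := by
  set r := η.coeff 0 with hr
  obtain ⟨D1, hD1, hnd⟩ := Polynomial.exists_eq_pow_rootMultiplicity_mul_and_not_dvd D hD r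
  set k := D.rootMultiplicity r with hk
  have hD1r : D1.eval r ≠ 0 := by
    intro h0
    exact hnd (Polynomial.dvd_iff_isRoot.mpr h0)
  have hu : η - Polynomial.C r = Polynomial.X * η.divX := by
    have := Polynomial.X_mul_divX_add η
    rw [hr]
    linear_combination (-1 : U1) * this
  have hu0 : η.divX.coeff 0 ≠ 0 := by
    rw [Polynomial.coeff_divX]
    exact hη
  have hcomp : D.comp η = Polynomial.X ^ k * (η.divX ^ k * D1.comp η) := by
    conv_lhs => rw [hD1]
    rw [Polynomial.mul_comp, Polynomial.pow_comp, Polynomial.sub_comp, Polynomial.X_comp,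
      Polynomial.C_comp, hu, mul_pow, mul_assoc]
  have hv : (η.divX ^ k * D1.comp η).coeff 0 ≠ 0 := by
    rw [Polynomial.coeff_zero_eq_eval_zero, Polynomial.eval_mul, Polynomial.eval_pow,
      Polynomial.eval_comp]
    refine mul_ne_zero (pow_ne_zero _ ?_) ?_
    · rwa [← Polynomial.coeff_zero_eq_eval_zero]
    · rwa [← Polynomial.coeff_zero_eq_eval_zero, ← hr]
  have hnk : n ≤ k := by
    by_contra hcon
    push Not at hcon
    rw [hcomp, Polynomial.X_pow_dvd_iff] at h
    have := h k hcon
    rw [Polynomial.coeff_X_pow_mul', if_pos le_rfl, Nat.sub_self] at this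
    exact hv this
  rw [hD1]
  exact (pow_dvd_pow _ hnk).trans (dvd_mul_right _ _)

/-- double zeros of nonnegative polynomials -/
theorem sq_dvd {D : U1} (hD : D ≠ 0) (hpos : ∀ x : ℝ, 0 ≤ D.eval x) {r : ℝ}
    (hr : D.eval r = 0) : (Polynomial.X - Polynomial.C r) ^ 2 ∣ D := by
  have h1 : (Polynomial.X : U1) ^ (2 * 0 + 1) ∣ D.comp (Polynomial.X + Polynomial.C r) := by
    rw [mul_zero, zero_add, pow_one, Polynomial.X_dvd_iff, Polynomial.coeff_zero_eq_eval_zero,
      Polynomial.eval_comp]
    simpa using hr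
  have h2 := even_order _ 0 1 one_pos (fun t _ => by
    rw [Polynomial.eval_comp]
    exact hpos _) h1
  have h3 : (Polynomial.X + Polynomial.C r : U1).coeff 1 ≠ 0 := by
    simp [Polynomial.coeff_C]
  have h4 := ord hD h3 h2
  have h5 : (Polynomial.X + Polynomial.C r : U1).coeff 0 = r := by simp
  rwa [h5] at h4

theorem X_dvd_comp {D η : U1} {n : ℕ} (hn : n ≠ 0) (h : (Polynomial.X : U1) ^ n ∣ D.comp η) :
    D.eval (η.coeff 0) = 0 := by
  have h1 : (Polynomial.X : U1) ∣ D.comp η := (dvd_pow_self _ hn).trans h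
  rw [Polynomial.X_dvd_iff, Polynomial.coeff_zero_eq_eval_zero, Polynomial.eval_comp,
    ← Polynomial.coeff_zero_eq_eval_zero] at h1
  exact h1

theorem quad_facts {a b c : ℝ} (h : ∀ w : ℝ, 0 ≤ w ^ 2 * a + 2 * w * b + c) :
    0 ≤ a ∧ 0 ≤ c ∧ b ^ 2 ≤ a * c := by
  have hd : b ^ 2 ≤ a * c := by
    have h1 := discrim_le_zero (a := a) (b := 2 * b) (c := c) (fun x => by
      have := h x
      nlinarith)
    unfold discrim at h1
    nlinarith
  have hc : 0 ≤ c := by
    have := h 0
    simpa using this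
  refine ⟨?_, hc, hd⟩
  rcases hc.lt_or_eq with hc' | hc'
  · by_contra hcon
    push Not at hcon
    have := mul_neg_of_neg_of_pos hcon hc'
    nlinarith [sq_nonneg b]
  · have hb : b = 0 := by
      rw [← hc', mul_zero] at hd
      exact pow_eq_zero_iff (two_ne_zero) |>.mp (le_antisymm hd (sq_nonneg b))
    have := h 1
    rw [hb, ← hc'] at this
    simpa using this

end CO_

open CO_ in
theorem co_proof : Stmt_CO := by
  intro ι _ a b c m W η i Z η₀ e hpsd hΔ hdeg hcom hdist him hdvd hbase
  classical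
  have hfacts : ∀ x : ℝ, 0 ≤ a.eval x ∧ 0 ≤ c.eval x ∧ (b.eval x) ^ 2 ≤ a.eval x * c.eval x :=
    fun x => quad_facts fun w => hpsd w x
  set Δ : U1 := a * c - b ^ 2 with hΔdef
  have hΔpos : ∀ x : ℝ, 0 ≤ Δ.eval x := by
    intro x
    rw [hΔdef, Polynomial.eval_sub, Polynomial.eval_mul, Polynomial.eval_pow]
    linarith [(hfacts x).2.2]
  -- division for the arcs
  have hj : ∀ j, (Polynomial.X - Polynomial.C ((η j).coeff 0)) ^ (2 * i j) ∣ Δ := by
    intro j
    by_cases h0 : i j = 0
    · rw [h0, mul_zero, pow_zero]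
      exact one_dvd _
    have hcomp : (Polynomial.X : U1) ^ (2 * i j) ∣ Δ.comp (η j) := by
      refine dvd_of_le _ ((a.comp (η j) + c.comp (η j)) *
        (W j ^ 2 * a.comp (η j) + 2 * W j * b.comp (η j) + c.comp (η j))) _ 1 1 one_pos
        (fun t _ _ => ⟨?_, ?_⟩) ((hdvd j).mul_left _)
      · rw [Polynomial.eval_comp]
        exact hΔpos _
      · rw [hΔdef]
        simp only [Polynomial.eval_comp, Polynomial.eval_sub, Polynomial.eval_mul,
          Polynomial.eval_pow, Polynomial.eval_add, Polynomial.eval_ofNat]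
        set A := a.eval ((η j).eval t)
        set B := b.eval ((η j).eval t)
        set D := c.eval ((η j).eval t)
        set w := (W j).eval t
        have h1 := (hfacts ((η j).eval t)).2.2
        have h2 : 0 ≤ w ^ 2 * (A * D - B ^ 2) := mul_nonneg (sq_nonneg _) (by linarith)
        have key : (A + D) * (w ^ 2 * A + 2 * w * B + D) =
          (w * A + B) ^ 2 + (w * B + D) ^ 2 + (1 + w ^ 2) * (A * D - B ^ 2) := by ring
        rw [key]
        nlinarith [sq_nonneg (w * A + B), sq_nonneg (w * B + D)]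
    rcases him j with h1 | h1
    · have h2 : i j = 1 := by omega
      rw [h2, mul_one]
      exact sq_dvd hΔ hΔpos (X_dvd_comp (by omega) hcomp)
    · exact ord hΔ h1 hcomp
  -- the base
  have hbase2 : e = 0 ∨ ((Polynomial.X - Polynomial.C (η₀.coeff 0)) ^ (2 * e) ∣ Δ ∧
      a.eval (η₀.coeff 0) = 0) := by
    rcases hbase with h0 | ⟨hZ, hd⟩
    · exact Or.inl h0
    by_cases he0 : e = 0
    · exact Or.inl he0
    right
    have hZe : Z.eval 0 ≠ 0 := by
      rwa [← Polynomial.coeff_zero_eq_eval_zero]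
    have hcomp : (Polynomial.X : U1) ^ (2 * e) ∣ Δ.comp η₀ := by
      have h1 : (Polynomial.X : U1) ^ (2 * e) ∣ (Z ^ 2 + Polynomial.X ^ 2) * Δ.comp η₀ := by
        refine dvd_of_le _ ((a.comp η₀ + c.comp η₀) *
          (Z ^ 2 * a.comp η₀ + 2 * Z * Polynomial.X * b.comp η₀ +
            Polynomial.X ^ 2 * c.comp η₀)) _ 1 1 one_pos
          (fun t _ _ => ⟨?_, ?_⟩) (hd.mul_left _)
        · rw [Polynomial.eval_mul, Polynomial.eval_comp]
          refine mul_nonneg ?_ (hΔpos _)
          simp only [Polynomial.eval_add, Polynomial.eval_pow, Polynomial.eval_X]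
          positivity
        · rw [hΔdef]
          simp only [Polynomial.eval_comp, Polynomial.eval_sub, Polynomial.eval_mul,
            Polynomial.eval_pow, Polynomial.eval_add, Polynomial.eval_ofNat, Polynomial.eval_X]
          set A := a.eval (η₀.eval t)
          set B := b.eval (η₀.eval t)
          set D := c.eval (η₀.eval t)
          set z := Z.eval t
          have key : (A + D) * (z ^ 2 * A + 2 * z * t * B + t ^ 2 * D) =
            (z * A + t * B) ^ 2 + (z * B + t * D) ^ 2 + (z ^ 2 + t ^ 2) * (A * D - B ^ 2) := by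
            ring
          rw [key]
          nlinarith [sq_nonneg (z * A + t * B), sq_nonneg (z * B + t * D)]
      have hX : Prime (Polynomial.X : U1) := Polynomial.prime_X
      refine hX.pow_dvd_of_dvd_mul_left _ ?_ h1
      rw [Polynomial.X_dvd_iff, Polynomial.coeff_zero_eq_eval_zero, Polynomial.eval_add,
        Polynomial.eval_pow, Polynomial.eval_pow, Polynomial.eval_X]
      intro h2
      apply hZe
      nlinarith
    -- a vanishes at r₀
    have ha0 : a.eval (η₀.coeff 0) = 0 := by
      have h1 : (Polynomial.X : U1) ∣ Z ^ 2 * a.comp η₀ + 2 * Z * Polynomial.X * b.comp η₀ +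
          Polynomial.X ^ 2 * c.comp η₀ := (dvd_pow_self _ (by omega)).trans hd
      rw [Polynomial.X_dvd_iff, Polynomial.coeff_zero_eq_eval_zero] at h1
      simp only [Polynomial.eval_comp, Polynomial.eval_mul, Polynomial.eval_pow,
        Polynomial.eval_add, Polynomial.eval_ofNat, Polynomial.eval_X, mul_zero, zero_mul,
        add_zero, ne_eq, OfNat.ofNat_ne_zero, not_false_eq_true, zero_pow] at h1
      rw [← Polynomial.coeff_zero_eq_eval_zero η₀] at h1
      exact (mul_eq_zero.mp h1).resolve_left (pow_ne_zero 2 hZe)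
    have hb0 : b.eval (η₀.coeff 0) = 0 := by
      have h1 := (hfacts (η₀.coeff 0)).2.2
      rw [ha0, zero_mul] at h1
      exact pow_eq_zero_iff (two_ne_zero) |>.mp (le_antisymm h1 (sq_nonneg _))
    refine ⟨?_, ha0⟩
    by_cases he1 : e = 1
    · rw [he1, mul_one]
      exact sq_dvd hΔ hΔpos (X_dvd_comp (by omega) hcomp)
    have he2 : 2 ≤ e := by omega
    refine ord hΔ ?_ hcomp
    intro hη1
    -- contradiction: c vanishes too
    have hu : (Polynomial.X : U1) ^ 2 ∣ η₀ - Polynomial.C (η₀.coeff 0) := by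
      rw [Polynomial.X_pow_dvd_iff]
      intro d hd2
      interval_cases d
      · simp
      · rw [Polynomial.coeff_sub, hη1, Polynomial.coeff_C_succ, sub_zero]
    have hane : a ≠ 0 := by
      intro h0
      apply hΔ
      have hbz : b = 0 := by
        apply Polynomial.funext
        intro x
        have h1 := (hfacts x).2.2
        rw [h0, Polynomial.eval_zero, zero_mul] at h1
        rw [Polynomial.eval_zero]
        exact pow_eq_zero_iff (two_ne_zero) |>.mp (le_antisymm h1 (sq_nonneg _))
      rw [hΔdef, h0, hbz]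
      ring
    have ha4 : (Polynomial.X : U1) ^ 4 ∣ a.comp η₀ := by
      obtain ⟨a1, ha1⟩ := sq_dvd hane (fun x => (hfacts x).1) ha0
      have h1 : a.comp η₀ = (η₀ - Polynomial.C (η₀.coeff 0)) ^ 2 * a1.comp η₀ := by
        conv_lhs => rw [ha1]
        rw [Polynomial.mul_comp, Polynomial.pow_comp, Polynomial.sub_comp, Polynomial.X_comp,
          Polynomial.C_comp]
      rw [h1]
      have h2 := pow_dvd_pow_of_dvd hu 2
      rw [← pow_mul] at h2
      exact h2.mul_right _
    have hb2 : (Polynomial.X : U1) ^ 2 ∣ b.comp η₀ := by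
      obtain ⟨b1, hb1⟩ := Polynomial.dvd_iff_isRoot.mpr hb0
      have h1 : b.comp η₀ = (η₀ - Polynomial.C (η₀.coeff 0)) * b1.comp η₀ := by
        conv_lhs => rw [hb1]
        rw [Polynomial.mul_comp, Polynomial.sub_comp, Polynomial.X_comp, Polynomial.C_comp]
      rw [h1]
      exact hu.mul_right _
    have h3 : (Polynomial.X : U1) ^ 3 ∣ Polynomial.X ^ 2 * c.comp η₀ := by
      have e1 : (Polynomial.X : U1) ^ 3 ∣ Z ^ 2 * a.comp η₀ +
          2 * Z * Polynomial.X * b.comp η₀ + Polynomial.X ^ 2 * c.comp η₀ :=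
        (pow_dvd_pow _ (by omega)).trans hd
      have e2 : (Polynomial.X : U1) ^ 3 ∣ Z ^ 2 * a.comp η₀ :=
        ((pow_dvd_pow _ (by norm_num)).trans ha4).mul_left _
      have e3 : (Polynomial.X : U1) ^ 3 ∣ 2 * Z * Polynomial.X * b.comp η₀ := by
        obtain ⟨b2, hb2⟩ := hb2
        rw [hb2]
        exact ⟨2 * Z * b2, by ring⟩
      have e4 := dvd_sub e1 (dvd_add e2 e3)
      have e5 : Z ^ 2 * a.comp η₀ + 2 * Z * Polynomial.X * b.comp η₀ +
          Polynomial.X ^ 2 * c.comp η₀ - (Z ^ 2 * a.comp η₀ + 2 * Z * Polynomial.X * b.comp η₀) =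
          Polynomial.X ^ 2 * c.comp η₀ := by ring
      rwa [e5] at e4
    have h4 : c.eval (η₀.coeff 0) = 0 := by
      rw [Polynomial.X_pow_dvd_iff] at h3
      have h5 := h3 2 (by norm_num)
      rw [Polynomial.coeff_X_pow_mul', if_pos le_rfl, Nat.sub_self,
        Polynomial.coeff_zero_eq_eval_zero, Polynomial.eval_comp,
        ← Polynomial.coeff_zero_eq_eval_zero] at h5
      exact h5
    rcases hcom (η₀.coeff 0) with h | h | h
    · exact h ha0
    · exact h hb0
    · exact h h4
  -- the product over the arcs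
  have hpw : ((Finset.univ : Finset ι) : Set ι).Pairwise
      (Function.onFun IsCoprime fun j =>
        (Polynomial.X - Polynomial.C ((η j).coeff 0)) ^ (2 * i j)) := by
    intro j _ k _ hjk
    refine IsCoprime.pow ?_
    refine Polynomial.isCoprime_X_sub_C_of_isUnit_sub ?_
    exact (sub_ne_zero.mpr (hdist j k hjk)).isUnit
  have hprod : (∏ j, (Polynomial.X - Polynomial.C ((η j).coeff 0)) ^ (2 * i j)) ∣ Δ :=
    Finset.prod_dvd_of_coprime hpw fun j _ => hj j
  have hmon : ∀ (r : ℝ) (k : ℕ), ((Polynomial.X - Polynomial.C r : U1) ^ k).Monic :=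
    fun r k => (Polynomial.monic_X_sub_C r).pow k
  have hnd : ∀ (r : ℝ) (k : ℕ), ((Polynomial.X - Polynomial.C r : U1) ^ k).natDegree = k := by
    intro r k
    rw [(Polynomial.monic_X_sub_C r).natDegree_pow, Polynomial.natDegree_X_sub_C, mul_one]
  have hdegprod : (∏ j, (Polynomial.X - Polynomial.C ((η j).coeff 0)) ^ (2 * i j)).natDegree =
      ∑ j, 2 * i j := by
    rw [Polynomial.natDegree_prod_of_monic _ _ fun j _ => hmon _ _]
    exact Finset.sum_congr rfl fun j _ => hnd _ _
  rcases hbase2 with he | ⟨hb, ha0⟩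
  · have h1 := Polynomial.natDegree_le_of_dvd hprod hΔ
    rw [hdegprod, ← Finset.mul_sum] at h1
    omega
  · by_cases he : e = 0
    · have h1 := Polynomial.natDegree_le_of_dvd hprod hΔ
      rw [hdegprod, ← Finset.mul_sum] at h1
      omega
    have hcop : IsCoprime (∏ j, (Polynomial.X - Polynomial.C ((η j).coeff 0)) ^ (2 * i j))
        ((Polynomial.X - Polynomial.C (η₀.coeff 0)) ^ (2 * e)) := by
      refine IsCoprime.prod_left fun j _ => ?_
      by_cases hij : i j = 0
      · rw [hij, mul_zero, pow_zero]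
        exact isCoprime_one_left
      refine IsCoprime.pow ?_
      refine Polynomial.isCoprime_X_sub_C_of_isUnit_sub ?_
      refine (sub_ne_zero.mpr ?_).isUnit
      intro heq
      -- common zero
      have hb0 : b.eval (η₀.coeff 0) = 0 := by
        have h1 := (hfacts (η₀.coeff 0)).2.2
        rw [ha0, zero_mul] at h1
        exact pow_eq_zero_iff (two_ne_zero) |>.mp (le_antisymm h1 (sq_nonneg _))
      have h1 : (Polynomial.X : U1) ∣ W j ^ 2 * a.comp (η j) + 2 * W j * b.comp (η j) +
          c.comp (η j) := (dvd_pow_self _ (by omega)).trans (hdvd j)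
      rw [Polynomial.X_dvd_iff, Polynomial.coeff_zero_eq_eval_zero] at h1
      simp only [Polynomial.eval_comp, Polynomial.eval_mul, Polynomial.eval_pow,
        Polynomial.eval_add, Polynomial.eval_ofNat] at h1
      rw [← Polynomial.coeff_zero_eq_eval_zero (η j), heq, ha0, hb0, mul_zero, mul_zero,
        zero_add, zero_add] at h1
      rcases hcom (η₀.coeff 0) with h | h | h
      · exact h ha0
      · exact h hb0
      · exact h h1
    have h1 := Polynomial.natDegree_le_of_dvd (hcop.mul_dvd hprod hb) hΔ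
    rw [(Polynomial.monic_prod_of_monic _ _ fun j _ => hmon _ _).natDegree_mul (hmon _ _),
      hdegprod, hnd, ← Finset.mul_sum] at h1
    omega

end Pool.Agent.SBQ
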