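import Pool.Agent.SBQ.StmtsB

/-! # SBQ : transfer of arcs to the plane chart -/

namespace Pool.Agent.SBQ

open MvPolynomial (eval aeval C)

namespace CT_

theorem coeff_zero_of_dvd {p : U1} {m : ℕ} (hm : 1 ≤ m) (h : (Polynomial.X : U1) ^ m ∣ p) :
    p.coeff 0 = 0 := by
  rw [Polynomial.X_pow_dvd_iff] at h
  exact h 0 (by omega)

theorem coeff_one_of_dvd {p : U1} {m : ℕ} (hm : 2 ≤ m) (h : (Polynomial.X : U1) ^ m ∣ p) :
    p.coeff 1 = 0 := by
  rw [Polynomial.X_pow_dvd_iff] at h
  exact h 1 (by omega)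

theorem comp_Qe (ε : ℝ) (γ : Fin 4 → U1) :
    comp γ (Qe ε) = γ 0 * γ 3 - γ 1 ^ 2 - Polynomial.C ε * γ 2 ^ 2 := by
  simp [Qe, comp_sub, comp_mul, comp_pow, comp_X, comp_C]

theorem psd_chart {F : P4} (hF : Psd F) (ε : ℝ) : Psd (chart ε F) := by
  intro v
  rw [eval_chart]
  exact hF _

end CT_

open CT_ in
theorem ct_proof (h1 : Stmt_T2) : Stmt_CT := by
  intro F ε γ i hF hP hi hli hp0 hordF hordQ
  have hp0' : (γ 0).coeff 0 ≠ 0 := hp0
  rcases Nat.lt_or_ge i 2 with hlt | hge
  · -- i = 1
    have hi1 : i = 1 := by omega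
    subst hi1
    set y : ℝ := (at0 γ) 1 / (at0 γ) 0 with hy
    set z : ℝ := (at0 γ) 2 / (at0 γ) 0 with hz
    refine ⟨ray ![y, z] ![1, 0], ?_, ?_, ?_⟩
    · left
      simp [ray]
    · have hat : at0 (ray ![y, z] ![1, 0]) = ![y, z] := at0_ray _ _
      have hev : eval (at0 (ray ![y, z] ![1, 0])) (chart ε F) = 0 := by
        rw [hat, eval_chart]
        have hF0 : eval (at0 γ) F = 0 := by
          rw [← comp_coeff_zero]
          exact coeff_zero_of_dvd (by norm_num) hordF
        have hQ0 : (at0 γ) 0 * (at0 γ) 3 - (at0 γ) 1 ^ 2 - ε * (at0 γ) 2 ^ 2 = 0 := by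
          have h0 : eval (at0 γ) (Qe ε) = 0 := by
            rw [← comp_coeff_zero]
            exact coeff_zero_of_dvd (by norm_num) hordQ
          simpa [Qe] using h0
        have hvec : (![1, (![y, z] : Fin 2 → ℝ) 0, (![y, z] : Fin 2 → ℝ) 1,
            (![y, z] : Fin 2 → ℝ) 0 ^ 2 + ε * (![y, z] : Fin 2 → ℝ) 1 ^ 2] : Fin 4 → ℝ) =
            ((at0 γ) 0)⁻¹ • at0 γ := by
          have e3 : y ^ 2 + ε * z ^ 2 = ((at0 γ) 0)⁻¹ * (at0 γ) 3 := by
            rw [hy, hz]
            field_simp
            linarith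
          funext j
          fin_cases j
          · simp [hp0]
          · simp [hy, div_eq_inv_mul]
          · simp [hz, div_eq_inv_mul]
          · simpa using e3
        rw [hvec, hom_smul hF, hF0, mul_zero]
      have := sq_dvd_comp (psd_chart hP ε) (ray ![y, z] ![1, 0]) hev
      simpa using this
    · exact at0_ray _ _
  · -- i ≥ 2
    obtain ⟨u, hu⟩ := exists_trunc_inv (γ 0) hp0' (2 * i)
    have hu0 : u.coeff 0 * (γ 0).coeff 0 = 1 := by
      have := coeff_zero_of_dvd (by omega) hu
      rw [Polynomial.coeff_sub, Polynomial.mul_coeff_zero, Polynomial.coeff_one_zero] at this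
      linarith
    have hu1 : (u * γ 0).coeff 1 = 0 := by
      have := coeff_one_of_dvd (by omega) hu
      rw [Polynomial.coeff_sub, Polynomial.coeff_one] at this
      simpa using this
    have hd3 : (Polynomial.X : U1) ^ i ∣
        (u * γ 1) ^ 2 + Polynomial.C ε * (u * γ 2) ^ 2 - u * γ 3 := by
      have e : (u * γ 1) ^ 2 + Polynomial.C ε * (u * γ 2) ^ 2 - u * γ 3 =
          (u * γ 0 - 1) * (u * γ 3) - u ^ 2 * comp γ (Qe ε) := by
        rw [comp_Qe]
        ring
      rw [e]
      refine dvd_sub ?_ ?_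
      · exact ((pow_dvd_pow _ (by omega)).trans hu).mul_right _
      · exact hordQ.mul_left _
    refine ⟨![u * γ 1, u * γ 2], ?_, ?_, ?_⟩
    · by_contra hcon
      have hcon' : (u * γ 1).coeff 1 = 0 ∧ (u * γ 2).coeff 1 = 0 := by
        simp only [Imm, not_or, not_not] at hcon
        exact hcon
      obtain ⟨c1, c2⟩ := hcon'
      have c3 : (u * γ 3).coeff 1 = 0 := by
        have h5 := coeff_one_of_dvd hge hd3
        rw [Polynomial.coeff_sub, Polynomial.coeff_add, Polynomial.coeff_C_mul, pow_two, pow_two,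
          Polynomial.mul_coeff_one, Polynomial.mul_coeff_one (u * γ 2) (u * γ 2), c1, c2] at h5
        linarith
      have hz : u.coeff 1 • at0 γ + u.coeff 0 • vel γ = 0 := by
        funext j
        have key : ∀ j, (u * γ j).coeff 1 = 0 → u.coeff 1 * (γ j).coeff 0 +
            u.coeff 0 * (γ j).coeff 1 = 0 := by
          intro j hj
          rw [Polynomial.mul_coeff_one] at hj
          linarith
        show u.coeff 1 * (γ j).coeff 0 + u.coeff 0 * (γ j).coeff 1 = 0
        apply key
        fin_cases j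
        · exact hu1
        · exact c1
        · exact c2
        · exact c3
      have hpair := LinearIndependent.pair_iff.mp hli (u.coeff 1) (u.coeff 0) hz
      rw [hpair.2, zero_mul] at hu0
      exact zero_ne_one hu0
    · rw [comp_chart]
      have hF' : (Polynomial.X : U1) ^ (2 * i) ∣ comp (fun j => u * γ j) F := by
        rw [comp_smul_arc hF]
        exact hordF.mul_left _
      have h6 := h1 4 F (fun j => u * γ j)
        ![1 - u * γ 0, 0, 0, (u * γ 1) ^ 2 + Polynomial.C ε * (u * γ 2) ^ 2 - u * γ 3] i hP hF'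
        (by
          intro j
          fin_cases j
          · have h7 : (Polynomial.X : U1) ^ i ∣ u * γ 0 - 1 := (pow_dvd_pow _ (by omega)).trans hu
            have h8 : (1 - u * γ 0 : U1) = -(u * γ 0 - 1) := by ring
            simp only [Fin.zero_eta, Matrix.cons_val_zero]
            rw [h8]
            exact (dvd_neg).mpr h7
          · simp
          · simp
          · simpa using hd3)
      have h9 : (fun j => u * γ j + (![1 - u * γ 0, 0, 0,
          (u * γ 1) ^ 2 + Polynomial.C ε * (u * γ 2) ^ 2 - u * γ 3] : Fin 4 → U1) j) =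
          ![1, (![u * γ 1, u * γ 2] : Fin 2 → U1) 0, (![u * γ 1, u * γ 2] : Fin 2 → U1) 1,
            (![u * γ 1, u * γ 2] : Fin 2 → U1) 0 ^ 2 +
              Polynomial.C ε * (![u * γ 1, u * γ 2] : Fin 2 → U1) 1 ^ 2] := by
        funext j
        fin_cases j <;> simp
      rw [h9] at h6
      exact h6
    · have hinv : u.coeff 0 = ((γ 0).coeff 0)⁻¹ := eq_inv_of_mul_eq_one_left hu0
      funext j
      fin_cases j
      · show (u * γ 1).coeff 0 = (γ 1).coeff 0 / (γ 0).coeff 0
        rw [Polynomial.mul_coeff_zero, hinv]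
        ring
      · show (u * γ 2).coeff 0 = (γ 2).coeff 0 / (γ 0).coeff 0
        rw [Polynomial.mul_coeff_zero, hinv]
        ring

end Pool.Agent.SBQ
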