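import Pool.Agent.SBQ.StmtsB

/-!
# SBQ, module DQ : the dimension of the space of quaternary quadratic forms
-/

namespace Pool.Agent.SBQ

open MvPolynomial (eval aeval C)

namespace DQ_

/-- ordered pairs -/
abbrev OP : Type := {p : Fin 4 × Fin 4 // p.1 ≤ p.2}

/-- the exponent of a pair -/
noncomputable def ex (p : OP) : Fin 4 →₀ ℕ := Finsupp.single p.1.1 1 + Finsupp.single p.1.2 1

theorem ex_inj : Function.Injective ex := by
  rintro ⟨⟨a, b⟩, hab⟩ ⟨⟨c, d⟩, hcd⟩ h
  simp only [ex] at h
  rw [Finsupp.single_add_single_eq_single_add_single one_ne_zero one_ne_zero] at h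
  simp only at hab hcd
  rcases h with ⟨rfl, rfl⟩ | ⟨_, rfl, rfl⟩ | ⟨h, _, _⟩
  · rfl
  · have h1 : a = b := le_antisymm hab hcd
    subst h1
    rfl
  · omega

/-- the monomials of degree two -/
noncomputable def fam (p : OP) : MvPolynomial.homogeneousSubmodule (Fin 4) ℝ 2 :=
  ⟨MvPolynomial.monomial (ex p) 1, by
    rw [MvPolynomial.mem_homogeneousSubmodule]
    apply MvPolynomial.isHomogeneous_monomial
    simp [ex]⟩

theorem fam_li : LinearIndependent ℝ fam := by
  apply LinearIndependent.of_comp (Submodule.subtype _)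
  have h := (MvPolynomial.basisMonomials (Fin 4) ℝ).linearIndependent.comp ex ex_inj
  have h2 : (Submodule.subtype (MvPolynomial.homogeneousSubmodule (Fin 4) ℝ 2)) ∘ fam =
      (MvPolynomial.basisMonomials (Fin 4) ℝ) ∘ ex := by
    funext p
    simp [fam]
  rw [h2]
  exact h

end DQ_

open DQ_

theorem dq_proof : Stmt_DQ := by
  have hf : Module.Finite ℝ (MvPolynomial.homogeneousSubmodule (Fin 4) ℝ 2) :=
    Module.Finite.iff_fg.mpr (MvPolynomial.homogeneousSubmodule_fg (Fin 4) ℝ 2)
  refine ⟨hf, ?_⟩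
  have h := fam_li.fintype_card_le_finrank
  have hc : Fintype.card OP = 10 := by decide
  rw [hc] at h
  exact h

end Pool.Agent.SBQ
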