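import Pool.Agent.SBQ.StmtsB

/-!
# SBQ, module EL: elimination (Gauss lemma)
-/

namespace Pool.Agent.SBQ

namespace EL_


/-- elimination over a factorial domain -/
theorem core {K : Type} [CommRing K] [IsDomain K] [UniqueFactorizationMonoid K]
    (P Q : Polynomial K) (hP : Irreducible P) (hPQ : ¬ P ∣ Q) :
    ∃ (r : K) (a b : Polynomial K), r ≠ 0 ∧ Polynomial.C r = a * P + b * Q := by
  by_cases hd : P.natDegree = 0
  · obtain ⟨c, hc⟩ := Polynomial.natDegree_eq_zero.1 hd
    refine ⟨c, 1, 0, ?_, ?_⟩
    · intro h0
      apply hP.ne_zero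
      rw [← hc, h0, map_zero]
    · rw [one_mul, zero_mul, add_zero, hc]
  · have hprim : P.IsPrimitive := hP.isPrimitive hd
    have h1 : Irreducible (P.map (algebraMap K (FractionRing K))) :=
      (hprim.irreducible_iff_irreducible_map_fraction_map).1 hP
    have h2 : ¬ P.map (algebraMap K (FractionRing K)) ∣ Q.map (algebraMap K (FractionRing K)) :=
      fun h => hPQ (hprim.dvd_of_fraction_map_dvd_fraction_map h)
    obtain ⟨a, b, hab⟩ := h1.coprime_iff_not_dvd.2 h2
    obtain ⟨d, hd1, hd2⟩ := IsLocalization.integerNormalization_spec (nonZeroDivisors K) a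
    obtain ⟨e, he1, he2⟩ := IsLocalization.integerNormalization_spec (nonZeroDivisors K) b
    refine ⟨d * e, Polynomial.C e * IsLocalization.integerNormalization (nonZeroDivisors K) a,
      Polynomial.C d * IsLocalization.integerNormalization (nonZeroDivisors K) b, ?_, ?_⟩
    · exact mul_ne_zero (nonZeroDivisors.ne_zero hd1) (nonZeroDivisors.ne_zero he1)
    · apply Polynomial.map_injective (algebraMap K (FractionRing K))
        (IsFractionRing.injective K (FractionRing K))
      rw [Algebra.smul_def, Polynomial.algebraMap_apply] at hd2 he2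
      simp only [Polynomial.map_add, Polynomial.map_mul, Polynomial.map_C, map_mul]
      rw [hd2, he2]
      have h3 : (Polynomial.C (algebraMap K (FractionRing K) d) *
          Polynomial.C (algebraMap K (FractionRing K) e) : Polynomial (FractionRing K)) =
          Polynomial.C (algebraMap K (FractionRing K) d) *
          Polynomial.C (algebraMap K (FractionRing K) e) *
          (a * P.map (algebraMap K (FractionRing K)) +
            b * Q.map (algebraMap K (FractionRing K))) := by
        rw [hab, mul_one]
      rw [h3]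
      ring

/-- `finSuccEquiv` of a renamed polynomial -/
theorem fin_rename {n : ℕ} (R : MvPolynomial (Fin n) ℝ) :
    MvPolynomial.finSuccEquiv ℝ n (MvPolynomial.rename Fin.succ R) = Polynomial.C R := by
  induction R using MvPolynomial.induction_on with
  | C a =>
    rw [MvPolynomial.rename_C, MvPolynomial.finSuccEquiv_apply, MvPolynomial.eval₂Hom_C,
      RingHom.comp_apply]
  | add p q hp hq => rw [map_add, map_add, hp, hq, map_add]
  | mul_X p i hp =>
    rw [map_mul, map_mul, hp, MvPolynomial.rename_X, MvPolynomial.finSuccEquiv_X_succ, map_mul]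

end EL_

theorem el_proof : Stmt_EL := by
  intro n P Q hP hPQ
  have h1 : Irreducible (MvPolynomial.finSuccEquiv ℝ n P) :=
    (MulEquiv.irreducible_iff (MvPolynomial.finSuccEquiv ℝ n)).2 hP
  have h2 : ¬ MvPolynomial.finSuccEquiv ℝ n P ∣ MvPolynomial.finSuccEquiv ℝ n Q := by
    intro h
    exact hPQ ((map_dvd_iff (MvPolynomial.finSuccEquiv ℝ n)).1 h)
  obtain ⟨r, a, b, hr, hab⟩ := EL_.core _ _ h1 h2
  refine ⟨r, (MvPolynomial.finSuccEquiv ℝ n).symm a, (MvPolynomial.finSuccEquiv ℝ n).symm b,
    hr, ?_⟩
  apply (MvPolynomial.finSuccEquiv ℝ n).injective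
  rw [EL_.fin_rename, map_add, map_mul, map_mul, AlgEquiv.apply_symm_apply,
    AlgEquiv.apply_symm_apply]
  exact hab

end Pool.Agent.SBQ
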