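import Pool.Agent.SBQ.StmtsB

/-!
# SBQ: module FN (Finsler's lemma)
-/

namespace Pool.Agent.SBQ.FN_

variable {n : ℕ}

theorem quad_line (Q : QuadraticForm ℝ (Fin n → ℝ)) (a b : Fin n → ℝ) (τ : ℝ) :
    Q (a + τ • b) = Q a + τ * QuadraticMap.polar Q a b + τ ^ 2 * Q b := by
  have h1 : Q (a + τ • b) = Q a + Q (τ • b) + QuadraticMap.polar Q a (τ • b) :=
    QuadraticMap.map_add Q a (τ • b)
  rw [h1, QuadraticMap.map_smul, QuadraticMap.polar_smul_right, smul_eq_mul, smul_eq_mul]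
  ring

theorem key (P Q : QuadraticForm ℝ (Fin n → ℝ)) (h : ∀ v, Q v = 0 → 0 ≤ P v)
    (a b : Fin n → ℝ) (ha : 0 < Q a) (hb : Q b < 0) : 0 ≤ P b * Q a - P a * Q b := by
  obtain ⟨q, hq⟩ : ∃ q, q = QuadraticMap.polar Q a b := ⟨_, rfl⟩
  obtain ⟨p, hp⟩ : ∃ p, p = QuadraticMap.polar P a b := ⟨_, rfl⟩
  obtain ⟨A, hA⟩ : ∃ A, A = Q a := ⟨_, rfl⟩
  obtain ⟨B, hB⟩ : ∃ B, B = Q b := ⟨_, rfl⟩
  have hlQ : ∀ τ : ℝ, Q (a + τ • b) = A + τ * q + τ ^ 2 * B := by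
    intro τ
    rw [quad_line, hA, hB, hq]
  have hlP : ∀ τ : ℝ, P (a + τ • b) = P a + τ * p + τ ^ 2 * P b := by
    intro τ
    rw [quad_line, hp]
  rw [← hA] at ha
  rw [← hB] at hb
  rw [← hA, ← hB]
  have hAB : A * B < 0 := mul_neg_of_pos_of_neg ha hb
  have hd : 0 < q ^ 2 - 4 * (A * B) := by nlinarith [sq_nonneg q]
  obtain ⟨s, hs⟩ : ∃ s, s = Real.sqrt (q ^ 2 - 4 * (A * B)) := ⟨_, rfl⟩
  have hs2 : s ^ 2 = q ^ 2 - 4 * (A * B) := by
    rw [hs]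
    exact Real.sq_sqrt hd.le
  have hs0 : 0 < s := by
    rw [hs]
    exact Real.sqrt_pos.2 hd
  have hqs : |q| < s := by
    apply abs_lt_of_sq_lt_sq _ hs0.le
    rw [hs2]
    linarith
  obtain ⟨h1, h2⟩ := abs_lt.1 hqs
  have hB2 : (2 * B) < 0 := by linarith
  have hB0 : B ≠ 0 := hb.ne
  -- the two roots
  obtain ⟨t1, ht1⟩ : ∃ t, t = (-q - s) / (2 * B) := ⟨_, rfl⟩
  obtain ⟨t2, ht2⟩ : ∃ t, t = (-q + s) / (2 * B) := ⟨_, rfl⟩
  have ht1p : 0 < t1 := by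
    rw [ht1]
    exact div_pos_of_neg_of_neg (by linarith) hB2
  have ht2n : t2 < 0 := by
    rw [ht2]
    exact div_neg_of_pos_of_neg (by linarith) hB2
  have hprod : t1 * t2 * B = A := by
    have : t1 * t2 * B = (q ^ 2 - s ^ 2) / (4 * B) := by
      rw [ht1, ht2]
      field_simp
      ring
    rw [this, hs2]
    field_simp
    ring
  have hr1 : A + t1 * q + t1 ^ 2 * B = 0 := by
    have e : t1 * (2 * B) = -q - s := by
      rw [ht1]
      field_simp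
    have e2 : 4 * B * (A + t1 * q + t1 ^ 2 * B) = 0 := by
      have e3 : 4 * B * (A + t1 * q + t1 ^ 2 * B) =
          4 * (A * B) + 2 * q * (t1 * (2 * B)) + (t1 * (2 * B)) ^ 2 := by ring
      rw [e3, e]
      nlinarith [hs2]
    rcases mul_eq_zero.1 e2 with e4 | e4
    · exact absurd e4 (by simpa using hB0)
    · exact e4
  have hr2 : A + t2 * q + t2 ^ 2 * B = 0 := by
    have e : t2 * (2 * B) = -q + s := by
      rw [ht2]
      field_simp
    have e2 : 4 * B * (A + t2 * q + t2 ^ 2 * B) = 0 := by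
      have e3 : 4 * B * (A + t2 * q + t2 ^ 2 * B) =
          4 * (A * B) + 2 * q * (t2 * (2 * B)) + (t2 * (2 * B)) ^ 2 := by ring
      rw [e3, e]
      nlinarith [hs2]
    rcases mul_eq_zero.1 e2 with e4 | e4
    · exact absurd e4 (by simpa using hB0)
    · exact e4
  have g1 : 0 ≤ P a + t1 * p + t1 ^ 2 * P b := by
    rw [← hlP]
    apply h
    rw [hlQ, hr1]
  have g2 : 0 ≤ P a + t2 * p + t2 ^ 2 * P b := by
    rw [← hlP]
    apply h
    rw [hlQ, hr2]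
  have g3 : 0 ≤ (t1 - t2) * (P a - t1 * t2 * P b) := by
    have e1 := mul_nonneg (neg_nonneg.2 ht2n.le) g1
    have e2 := mul_nonneg ht1p.le g2
    have e3 : (t1 - t2) * (P a - t1 * t2 * P b) =
        -t2 * (P a + t1 * p + t1 ^ 2 * P b) + t1 * (P a + t2 * p + t2 ^ 2 * P b) := by ring
    rw [e3]
    exact add_nonneg e1 e2
  have g4 : 0 ≤ P a - t1 * t2 * P b := by
    have e1 : 0 < t1 - t2 := by linarith
    exact (mul_nonneg_iff_of_pos_left e1).1 g3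
  have g5 : P b * A - P a * B = -B * (P a - t1 * t2 * P b) := by
    rw [← hprod]
    ring
  rw [g5]
  exact mul_nonneg (by linarith) g4

end Pool.Agent.SBQ.FN_

namespace Pool.Agent.SBQ

/-- FN: Finsler's lemma. -/
theorem fn_proof : Stmt_FN := by
  intro n P Q h ⟨a0, ha0⟩ ⟨b0, hb0⟩
  obtain ⟨S, hS⟩ : ∃ S : Set ℝ, S = {x | ∃ a, 0 < Q a ∧ x = -P a / Q a} := ⟨_, rfl⟩
  have hne : S.Nonempty := by
    rw [hS]
    exact ⟨_, a0, ha0, rfl⟩
  have hub : ∀ b, Q b < 0 → ∀ x ∈ S, x ≤ P b / (-Q b) := by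
    intro b hb x hx
    rw [hS] at hx
    obtain ⟨a, ha, rfl⟩ := hx
    rw [div_le_div_iff₀ ha (by linarith)]
    have := FN_.key P Q h a b ha hb
    linarith
  have hbdd : BddAbove S := ⟨_, fun x hx => hub b0 hb0 x hx⟩
  refine ⟨sSup S, ?_⟩
  intro v
  rcases lt_trichotomy (Q v) 0 with hv | hv | hv
  · have h1 : sSup S ≤ P v / (-Q v) := csSup_le hne (hub v hv)
    rw [le_div_iff₀ (by linarith)] at h1
    linarith
  · rw [hv, mul_zero, add_zero]
    exact h v hv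
  · have h1 : -P v / Q v ≤ sSup S := by
      apply le_csSup hbdd
      rw [hS]
      exact ⟨v, hv, rfl⟩
    rw [div_le_iff₀ hv] at h1
    linarith

end Pool.Agent.SBQ
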