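import Pool.Agent.SBQ.StmtsB

/-!
# SBQ, module FU: restrictions of quaternary forms to the chart
-/

set_option autoImplicit false

namespace Pool.Agent.SBQ

open MvPolynomial (eval aeval C)

namespace FU_

theorem chart_sum (ε : ℝ) (F : P4) :
    chart ε F = ∑ d ∈ F.support, C (F.coeff d) *
      (MvPolynomial.X 0 ^ d 1 * MvPolynomial.X 1 ^ d 2 * Mq ε ^ d 3) := by
  unfold chart
  rw [MvPolynomial.aeval_def, MvPolynomial.eval₂_eq']
  refine Finset.sum_congr rfl fun d _ => ?_
  rw [Fin.prod_univ_four]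
  simp [MvPolynomial.algebraMap_eq]

theorem deg4 {F : P4} {N : ℕ} (hF : F.IsHomogeneous N) {d : Fin 4 →₀ ℕ} (hd : d ∈ F.support) :
    d 0 + d 1 + d 2 + d 3 = N := by
  have hdeg : d.degree = N := by
    by_contra hne
    exact (MvPolynomial.mem_support_iff.mp hd) (hF.coeff_eq_zero hne)
  rw [Finsupp.degree_eq_sum, Fin.sum_univ_four] at hdeg
  exact hdeg

theorem pow_mem (h1 : Stmt_PA) (ε : ℝ) (h : R2) (hh : h ∈ PN ε 1) (k : ℕ) : h ^ k ∈ PN ε k := by
  obtain ⟨_, hmul, hC, _⟩ := h1 ε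
  induction k with
  | zero => simpa using hC 1
  | succ k ih =>
    rw [pow_succ]
    exact hmul k 1 _ _ ih hh

/-- the target of the reduction -/
noncomputable def SP (ε : ℝ) : Submodule ℝ R2 :=
  Submodule.span ℝ {h | ∃ δ b c : ℕ, δ ≤ 1 ∧ δ + b + c ≤ 4 ∧ c ≤ 3 ∧ h = gen ε δ b c}

theorem red (ε : ℝ) : ∀ j k l : ℕ, j + k + l ≤ 4 → l ≤ 3 →
    (MvPolynomial.X 0 ^ j * MvPolynomial.X 1 ^ k * Mq ε ^ l : R2) ∈ SP ε := by
  intro j
  induction j using Nat.strong_induction_on with
  | _ j ih =>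
    intro k l h1 h2
    by_cases hj : j ≤ 1
    · exact Submodule.subset_span ⟨j, k, l, hj, h1, h2, rfl⟩
    · obtain ⟨i, rfl⟩ : ∃ i, j = i + 2 := ⟨j - 2, by omega⟩
      have e : (MvPolynomial.X 0 ^ (i + 2) * MvPolynomial.X 1 ^ k * Mq ε ^ l : R2) =
          MvPolynomial.X 0 ^ i * MvPolynomial.X 1 ^ k * Mq ε ^ (l + 1) -
            ε • (MvPolynomial.X 0 ^ i * MvPolynomial.X 1 ^ (k + 2) * Mq ε ^ l) := by
        rw [MvPolynomial.smul_eq_C_mul]
        unfold Mq
        ring
      rw [e]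
      refine Submodule.sub_mem _ (ih i (by omega) k (l + 1) (by omega) (by omega)) ?_
      exact Submodule.smul_mem _ _ (ih i (by omega) (k + 2) l (by omega) h2)

end FU_

open FU_ in
theorem fu_proof (h1 : Stmt_PA) : Stmt_FU := by
  constructor
  · intro F ε N hF
    obtain ⟨hmono, hmul, hC, hy, hz, hM, _⟩ := h1 ε
    rw [chart_sum]
    refine Submodule.sum_mem _ fun d hd => ?_
    have hdeg := deg4 hF hd
    rw [← MvPolynomial.smul_eq_C_mul]
    refine Submodule.smul_mem _ _ (hmono (d 1 + d 2 + d 3) N (by omega) ?_)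
    exact hmul _ _ _ _ (hmul _ _ _ _ (pow_mem h1 ε _ hy _) (pow_mem h1 ε _ hz _))
      (pow_mem h1 ε _ hM _)
  · intro F ε hF hne
    classical
    set d₀ : Fin 4 →₀ ℕ := Finsupp.single 3 4 with hd₀
    have key : ∀ d ∈ F.support, d ≠ d₀ → d 3 ≤ 3 := by
      intro d hd hdne
      by_contra hlt
      have hdeg := deg4 hF hd
      apply hdne
      rw [hd₀]
      ext i
      fin_cases i
      · simp; omega
      · simp; omega
      · simp; omega
      · simp; omega
    have heval : eval (Pi.single 3 1 : Fin 4 → ℝ) F = F.coeff d₀ := by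
      rw [MvPolynomial.eval_eq']
      rw [Finset.sum_eq_single d₀]
      · rw [Fin.prod_univ_four, hd₀]
        simp
      · intro d hd hdne
        have h3 := key d hd hdne
        have hdeg := deg4 hF hd
        have : ∏ i, (Pi.single 3 1 : Fin 4 → ℝ) i ^ d i = 0 := by
          rw [Fin.prod_univ_four]
          by_cases h0 : d 0 = 0
          · by_cases h1 : d 1 = 0
            · have h2 : d 2 ≠ 0 := by omega
              simp [h2]
            · simp [h1]
          · simp [h0]
        rw [this, mul_zero]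
      · intro h
        rw [MvPolynomial.notMem_support_iff.mp h, zero_mul]
    rw [heval] at hne
    refine ⟨F.coeff d₀, hne, ?_⟩
    have hmem : d₀ ∈ F.support := MvPolynomial.mem_support_iff.mpr hne
    rw [chart_sum, ← Finset.add_sum_erase _ _ hmem]
    have e : C (F.coeff d₀) *
        (MvPolynomial.X 0 ^ d₀ 1 * MvPolynomial.X 1 ^ d₀ 2 * Mq ε ^ d₀ 3) =
        C (F.coeff d₀) * Mq ε ^ 4 := by
      rw [hd₀]
      simp
    rw [e, add_sub_cancel_left]
    change _ ∈ SP ε
    refine Submodule.sum_mem _ fun d hd => ?_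
    rw [Finset.mem_erase] at hd
    have hdeg := deg4 hF hd.2
    rw [← MvPolynomial.smul_eq_C_mul]
    exact Submodule.smul_mem _ _ (red ε _ _ _ (by omega) (key d hd.2 hd.1))

end Pool.Agent.SBQ
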