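import Pool.Agent.SBQ.StmtsB

/-!
# SBQ: finitely many zeros in the chart
-/

namespace Pool.Agent.SBQ

open MvPolynomial (eval aeval C)

namespace FZ_

/-- the point of the chart -/
noncomputable def pt (ε : ℝ) (v : Fin 2 → ℝ) : Fin 4 → ℝ := ![1, v 0, v 1, v 0 ^ 2 + ε * v 1 ^ 2]

/-- its norm -/
noncomputable def nm (ε : ℝ) (v : Fin 2 → ℝ) : ℝ := Real.sqrt (∑ j, pt ε v j ^ 2)

theorem sum_pos (ε : ℝ) (v : Fin 2 → ℝ) : 0 < ∑ j, pt ε v j ^ 2 := by
  rw [Fin.sum_univ_four]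
  have h0 : pt ε v 0 = 1 := rfl
  rw [h0]
  have h1 := sq_nonneg (pt ε v 1)
  have h2 := sq_nonneg (pt ε v 2)
  have h3 := sq_nonneg (pt ε v 3)
  linarith

theorem nm_pos (ε : ℝ) (v : Fin 2 → ℝ) : 0 < nm ε v := Real.sqrt_pos.mpr (sum_pos ε v)

theorem nm_sq (ε : ℝ) (v : Fin 2 → ℝ) : nm ε v ^ 2 = ∑ j, pt ε v j ^ 2 :=
  Real.sq_sqrt (sum_pos ε v).le

end FZ_

open FZ_

theorem fz_proof : Stmt_FZ := by
  intro F ε hF hfin
  have hfin' : {v : Fin 4 → ℝ | eval v F = 0 ∧ ∑ j, v j ^ 2 = 1}.Finite := hfin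
  refine Set.Finite.of_injOn (f := fun v => (nm ε v)⁻¹ • pt ε v) ?_ ?_ hfin'
  · intro v hv
    have hv' : eval v (chart ε F) = 0 := hv
    rw [eval_chart] at hv'
    refine ⟨?_, ?_⟩
    · show eval ((nm ε v)⁻¹ • pt ε v) F = 0
      rw [hom_smul hF]
      have : eval (pt ε v) F = 0 := hv'
      rw [this, mul_zero]
    · show ∑ j, ((nm ε v)⁻¹ • pt ε v) j ^ 2 = 1
      simp only [Pi.smul_apply, smul_eq_mul, mul_pow]
      rw [← Finset.mul_sum, ← nm_sq, inv_pow, inv_mul_cancel₀]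
      exact pow_ne_zero 2 (nm_pos ε v).ne'
  · intro v _ w _ h
    have h' : ∀ j, (nm ε v)⁻¹ * pt ε v j = (nm ε w)⁻¹ * pt ε w j := fun j => congrFun h j
    have h0 : (nm ε v)⁻¹ = (nm ε w)⁻¹ := by
      have := h' 0
      have e1 : pt ε v 0 = 1 := rfl
      have e2 : pt ε w 0 = 1 := rfl
      rw [e1, e2, mul_one, mul_one] at this
      exact this
    have hne : (nm ε w)⁻¹ ≠ 0 := inv_ne_zero (nm_pos ε w).ne'
    have h1 : ∀ j, pt ε v j = pt ε w j := by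
      intro j
      have := h' j
      rw [h0] at this
      exact mul_left_cancel₀ hne this
    funext j
    fin_cases j
    · exact h1 1
    · exact h1 2

end Pool.Agent.SBQ
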