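import Pool.Agent.SBQ.StmtsB

/-!
# SBQ: module H1 (ternary quartics with one zero)
-/

namespace Pool.Agent.SBQ

open MvPolynomial (eval aeval C)

namespace H1_

theorem eval_zero_hom {n d : ℕ} {P : MvPolynomial (Fin n) ℝ} (hP : P.IsHomogeneous d)
    (hd : d ≠ 0) : eval (0 : Fin n → ℝ) P = 0 := by
  have := hom_smul hP 0 0
  rw [zero_smul, zero_pow hd, zero_mul] at this
  exact this

/-- comparison of a positive form with any form of the same degree -/
theorem cmp (P Q : MvPolynomial (Fin 2) ℝ) (d : ℕ) (hP : P.IsHomogeneous d)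
    (hQ : Q.IsHomogeneous d) (hd : d ≠ 0) (hpos : ∀ v, v ≠ 0 → 0 < eval v P) :
    ∃ ε : ℝ, 0 < ε ∧ ∀ v, ε * eval v Q ≤ eval v P := by
  obtain ⟨M, hM⟩ := (isCompact_sphere (0 : Fin 2 → ℝ) 1).exists_bound_of_continuousOn
    (MvPolynomial.continuous_eval Q).continuousOn
  have hne : (Metric.sphere (0 : Fin 2 → ℝ) 1).Nonempty :=
    NormedSpace.sphere_nonempty.mpr zero_le_one
  obtain ⟨v0, hv0, hmin⟩ := (isCompact_sphere (0 : Fin 2 → ℝ) 1).exists_isMinOn hne
    (MvPolynomial.continuous_eval P).continuousOn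
  have hv0n : v0 ≠ 0 := by
    intro h0
    rw [h0] at hv0
    simp at hv0
  have hm : 0 < eval v0 P := hpos v0 hv0n
  have hM1 : 0 < |M| + 1 := by positivity
  refine ⟨eval v0 P / (|M| + 1), div_pos hm hM1, fun v => ?_⟩
  by_cases hv : v = 0
  · rw [hv, eval_zero_hom hP hd, eval_zero_hom hQ hd, mul_zero]
  · have hn : 0 < ‖v‖ := norm_pos_iff.mpr hv
    set u : Fin 2 → ℝ := ‖v‖⁻¹ • v with hu
    have hus : u ∈ Metric.sphere (0 : Fin 2 → ℝ) 1 := by
      rw [mem_sphere_zero_iff_norm, hu, norm_smul, norm_inv, norm_norm,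
        inv_mul_cancel₀ hn.ne']
    have hvu : v = ‖v‖ • u := by
      rw [hu, smul_smul, mul_inv_cancel₀ hn.ne', one_smul]
    have h1 : eval v0 P ≤ eval u P := hmin hus
    have h2 : eval u Q ≤ |M| + 1 := by
      have := hM u hus
      rw [Real.norm_eq_abs] at this
      have h3 := le_abs_self (eval u Q)
      have h4 := le_abs_self M
      linarith
    have h3 : eval v0 P / (|M| + 1) * eval u Q ≤ eval u P := by
      calc eval v0 P / (|M| + 1) * eval u Q ≤ eval v0 P / (|M| + 1) * (|M| + 1) :=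
            mul_le_mul_of_nonneg_left h2 (div_pos hm hM1).le
        _ = eval v0 P := div_mul_cancel₀ _ hM1.ne'
        _ ≤ eval u P := h1
    rw [hvu, hom_smul hP, hom_smul hQ]
    have h4 : 0 < ‖v‖ ^ d := pow_pos hn d
    calc eval v0 P / (|M| + 1) * (‖v‖ ^ d * eval u Q)
        = ‖v‖ ^ d * (eval v0 P / (|M| + 1) * eval u Q) := by ring
      _ ≤ ‖v‖ ^ d * eval u P := mul_le_mul_of_nonneg_left h3 h4.le

/-- the final choice `G = √ε X₁²` -/
theorem finish (T : P3) (ε : ℝ) (hε : 0 < ε)
    (h : ∀ (w : ℝ) (v : Fin 2 → ℝ), ε * v 0 ^ 4 ≤ eval (Fin.cons w v : Fin 3 → ℝ) T) :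
    ∃ G : P3, G.IsHomogeneous 2 ∧ G ≠ 0 ∧ ∀ v, (eval v G) ^ 2 ≤ eval v T := by
  refine ⟨C (Real.sqrt ε) * MvPolynomial.X 1 ^ 2, ?_, ?_, ?_⟩
  · have h1 := (MvPolynomial.isHomogeneous_C (Fin 3) (Real.sqrt ε)).mul
      ((MvPolynomial.isHomogeneous_X ℝ (1 : Fin 3)).pow 2)
    simpa using h1
  · intro h0
    have h1 := congrArg (eval (fun _ => (1 : ℝ))) h0
    simp only [map_mul, MvPolynomial.eval_C, map_pow, MvPolynomial.eval_X, one_pow, mul_one,
      map_zero] at h1
    exact (Real.sqrt_pos.mpr hε).ne' h1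
  · intro v
    have h1 := h (v 0) (Fin.tail v)
    rw [Fin.cons_self_tail] at h1
    have h2 : Fin.tail v 0 = v 1 := rfl
    rw [h2] at h1
    simp only [map_mul, MvPolynomial.eval_C, map_pow, MvPolynomial.eval_X]
    have h3 : (Real.sqrt ε * v 1 ^ 2) ^ 2 = ε * v 1 ^ 4 := by
      rw [mul_pow, Real.sq_sqrt hε.le]
      ring
    rw [h3]
    exact h1

end H1_

open H1_

theorem h1_proof (h1 : Stmt_XP) (h2 : Stmt_LD) : Stmt_H1 := by
  intro T hT hpsd hT0 hz
  have hz0 : eval (Pi.single 0 1 : Fin (2 + 1) → ℝ) T = 0 := by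
    rw [hz]
    constructor <;> simp
  obtain ⟨A, B, D, hE⟩ := h1 2 T hT hpsd hz0
  obtain ⟨hAp, hDp, hdisc⟩ := hE.facts hpsd
  obtain ⟨hA, hB, hD, hev⟩ := hE
  -- zeros of `T`
  have hzero : ∀ (w : ℝ) (v : Fin 2 → ℝ), eval (Fin.cons w v : Fin 3 → ℝ) T = 0 → v = 0 := by
    intro w v h0
    have h3 := (hz _).mp h0
    have h4 : v 0 = 0 := h3.1
    have h5 : v 1 = 0 := h3.2
    funext j
    fin_cases j
    · exact h4
    · exact h5
  by_cases hA0 : A = 0
  · -- case (i)
    have hB0 : ∀ v, eval v B = 0 := by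
      intro v
      have h3 := hdisc v
      rw [hA0, map_zero, zero_mul] at h3
      exact pow_eq_zero_iff (two_ne_zero) |>.mp (le_antisymm h3 (sq_nonneg _))
    have hTD : ∀ (w : ℝ) (v : Fin 2 → ℝ), eval (Fin.cons w v : Fin 3 → ℝ) T = eval v D := by
      intro w v
      rw [hev w v, hA0, hB0 v, map_zero]
      ring
    have hDpos : ∀ v, v ≠ 0 → 0 < eval v D := by
      intro v hv
      refine lt_of_le_of_ne (hDp v) fun h0 => hv ?_
      apply hzero 0 v
      rw [hTD, ← h0]
    obtain ⟨ε, hε, hle⟩ := cmp D (MvPolynomial.X 0 ^ 4) 4 hD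
      (by simpa using (MvPolynomial.isHomogeneous_X ℝ (0 : Fin 2)).pow 4) (by norm_num) hDpos
    apply finish T ε hε
    intro w v
    rw [hTD]
    have := hle v
    simpa using this
  · by_cases hex : ∃ v0 : Fin 2 → ℝ, v0 ≠ 0 ∧ eval v0 A = 0
    · -- case (ii)
      obtain ⟨v0, hv0, hAv0⟩ := hex
      set v1 : Fin 2 → ℝ := ![- v0 1, v0 0] with hv1
      have hN : 0 < v0 0 ^ 2 + v0 1 ^ 2 := by
        rcases Function.ne_iff.mp hv0 with ⟨j, hj⟩
        fin_cases j
        · have : v0 0 ≠ 0 := hj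
          positivity
        · have : v0 1 ≠ 0 := hj
          positivity
      have hdec : ∀ v : Fin 2 → ℝ, v = ((v 0 * v0 0 + v 1 * v0 1) / (v0 0 ^ 2 + v0 1 ^ 2)) • v0 +
          ((v 1 * v0 0 - v 0 * v0 1) / (v0 0 ^ 2 + v0 1 ^ 2)) • v1 := by
        intro v
        funext j
        fin_cases j
        · simp only [hv1, Fin.zero_eta, Pi.add_apply, Pi.smul_apply, smul_eq_mul,
            Matrix.cons_val_zero]
          field_simp
          ring
        · have h3 : v1 1 = v0 0 := rfl
          show v 1 = ((v 0 * v0 0 + v 1 * v0 1) / (v0 0 ^ 2 + v0 1 ^ 2)) * v0 1 +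
            ((v 1 * v0 0 - v 0 * v0 1) / (v0 0 ^ 2 + v0 1 ^ 2)) * v1 1
          rw [h3]
          field_simp
          ring
      have hpol0 : pol A v0 v1 = 0 := pol_eq_zero_of_null hA hAp hAv0 v1
      have hAval : ∀ v : Fin 2 → ℝ, eval v A =
          ((v 1 * v0 0 - v 0 * v0 1) / (v0 0 ^ 2 + v0 1 ^ 2)) ^ 2 * eval v1 A := by
        intro v
        conv_lhs => rw [hdec v]
        rw [hom2_add hA, hAv0, hpol0]
        ring
      have hAv1 : 0 < eval v1 A := by
        refine lt_of_le_of_ne (hAp v1) fun h0 => hA0 ?_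
        apply MvPolynomial.funext
        intro v
        rw [hAval v, ← h0, mul_zero, map_zero]
      obtain ⟨l', hl', hl'v⟩ := pol_hom1 hA v1
      set σ : ℝ := Real.sqrt (eval v1 A) with hσ
      have hσ0 : 0 < σ := Real.sqrt_pos.mpr hAv1
      have hσ2 : σ ^ 2 = eval v1 A := Real.sq_sqrt hAv1.le
      set l : MvPolynomial (Fin 2) ℝ := C σ⁻¹ * l' with hl
      have hlhom : l.IsHomogeneous 1 := by
        have := (MvPolynomial.isHomogeneous_C (Fin 2) σ⁻¹).mul hl'
        simpa using this
      have hlval : ∀ v : Fin 2 → ℝ, eval v l =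
          ((v 1 * v0 0 - v 0 * v0 1) / (v0 0 ^ 2 + v0 1 ^ 2)) * σ := by
        intro v
        rw [hl, map_mul, MvPolynomial.eval_C, hl'v v]
        have h3 : pol A v1 v = ((v 0 * v0 0 + v 1 * v0 1) / (v0 0 ^ 2 + v0 1 ^ 2)) * pol A v1 v0 +
          ((v 1 * v0 0 - v 0 * v0 1) / (v0 0 ^ 2 + v0 1 ^ 2)) * pol A v1 v1 := by
          conv_lhs => rw [hdec v]
          rw [pol_add_right hA, pol_smul_right hA, pol_smul_right hA]
        rw [h3, pol_comm A v1 v0, hpol0, pol_self hA v1, ← hσ2]
        field_simp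
        ring
      have hAl : ∀ v, eval v A = (eval v l) ^ 2 := by
        intro v
        rw [hAval v, hlval v, ← hσ2]
        ring
      have hl0 : l ≠ 0 := by
        intro h0
        have h3 := hAl v1
        rw [h0, map_zero] at h3
        rw [h3] at hAv1
        norm_num at hAv1
      obtain ⟨c, hc, hBc⟩ := h2 2 l B 2 hlhom hl0 hB (by
        intro v hv
        have h3 := hdisc v
        rw [hAl v, hv] at h3
        have h4 : (eval v B) ^ 2 ≤ 0 := by linarith
        exact pow_eq_zero_iff (two_ne_zero) |>.mp (le_antisymm h4 (sq_nonneg _)))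
      have hBv : ∀ v, eval v B = eval v l * eval v c := by
        intro v
        rw [hBc, map_mul]
      have hpsd2 : Psd (D - c ^ 2) := by
        apply psd_of_dense _ l hl0
        intro v hv
        have h3 := hpsd (Fin.cons (-(eval v c) / eval v l) v)
        rw [hev, hAl v, hBv v] at h3
        rw [map_sub, map_pow]
        have h4 : (-(eval v c) / eval v l) ^ 2 * (eval v l) ^ 2 +
            2 * (-(eval v c) / eval v l) * (eval v l * eval v c) + eval v D =
            eval v D - (eval v c) ^ 2 := by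
          field_simp
          ring
        rw [h4] at h3
        exact h3
      refine ⟨glue l c, glue_hom hlhom hc, fun h0 => hl0 (glue_eq_zero h0).1, fun v => ?_⟩
      have h3 := eval_glue l c (v 0) (Fin.tail v)
      rw [Fin.cons_self_tail] at h3
      have h4 := hev (v 0) (Fin.tail v)
      rw [Fin.cons_self_tail, hAl, hBv] at h4
      have h5 := hpsd2 (Fin.tail v)
      rw [map_sub, map_pow] at h5
      have h6 : eval v T - (eval v (glue l c)) ^ 2 =
          eval (Fin.tail v) D - (eval (Fin.tail v) c) ^ 2 := by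
        rw [h3, h4]
        ring
      linarith
    · -- case (iii)
      have hApos : ∀ v, v ≠ 0 → 0 < eval v A := by
        intro v hv
        exact lt_of_le_of_ne (hAp v) fun h0 => hex ⟨v, hv, h0.symm⟩
      have hPpos : ∀ v, v ≠ 0 → 0 < eval v (A * D - B ^ 2) := by
        intro v hv
        rw [map_sub, map_mul, map_pow]
        refine lt_of_le_of_ne (by linarith [hdisc v]) fun h0 => hv ?_
        have hAv := hApos v hv
        apply hzero (-(eval v B) / eval v A) v
        have h3 : eval v A * eval (Fin.cons (-(eval v B) / eval v A) v : Fin 3 → ℝ) T = 0 := by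
          rw [hev]
          have h4 : eval v A * ((-(eval v B) / eval v A) ^ 2 * eval v A +
              2 * (-(eval v B) / eval v A) * eval v B + eval v D) =
              eval v A * eval v D - (eval v B) ^ 2 := by
            field_simp
            ring
          rw [h4, ← h0]
        exact (mul_eq_zero.mp h3).resolve_left hAv.ne'
      have hPh : (A * D - B ^ 2).IsHomogeneous 6 := by
        apply MvPolynomial.IsHomogeneous.sub
        · exact hA.mul hD
        · have := hB.pow 2
          simpa using this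
      have hQh : (A * MvPolynomial.X 0 ^ 4).IsHomogeneous 6 := by
        have h3 : (MvPolynomial.X 0 ^ 4 : MvPolynomial (Fin 2) ℝ).IsHomogeneous 4 := by
          simpa using (MvPolynomial.isHomogeneous_X ℝ (0 : Fin 2)).pow 4
        exact hA.mul h3
      obtain ⟨ε, hε, hle⟩ := cmp (A * D - B ^ 2) (A * MvPolynomial.X 0 ^ 4) 6 hPh hQh
        (by norm_num) hPpos
      apply finish T ε hε
      intro w v
      by_cases hv : v = 0
      · rw [hv]
        have := hpsd (Fin.cons w 0)
        simpa using this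
      · have hAv := hApos v hv
        have h3 := hle v
        rw [map_sub, map_mul, map_mul, map_pow, map_pow, MvPolynomial.eval_X] at h3
        have h4 : 0 ≤ eval v A * (eval (Fin.cons w v : Fin 3 → ℝ) T - ε * v 0 ^ 4) := by
          rw [hev]
          have h5 : eval v A * (w ^ 2 * eval v A + 2 * w * eval v B + eval v D - ε * v 0 ^ 4) =
              (w * eval v A + eval v B) ^ 2 +
              ((eval v A * eval v D - (eval v B) ^ 2) - ε * (eval v A * v 0 ^ 4)) := by
            ring
          rw [h5]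
          have h6 := sq_nonneg (w * eval v A + eval v B)
          linarith
        have h5 := nonneg_of_mul_nonneg_right h4 hAv
        linarith

end Pool.Agent.SBQ
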