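import Pool.Agent.SBQ.StmtsB

/-!
# SBQ module H2: ternary quartics with two zeros
-/

set_option autoImplicit false

namespace Pool.Agent.SBQ

open MvPolynomial (eval aeval C)

namespace H2_

theorem cont_eval_line {n : ℕ} (P : MvPolynomial (Fin n) ℝ) (v u : Fin n → ℝ) :
    Continuous (fun t : ℝ => eval (v + t • u) P) := by
  have : Continuous (fun t : ℝ => v + t • u) := by fun_prop
  exact (MvPolynomial.continuous_eval P).comp this

/-- `z D₁ ≥ 0` implies `D₁ = 0` on `z = 0` -/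
theorem zero_of_mul_nonneg (P : MvPolynomial (Fin 2) ℝ)
    (h : ∀ v : Fin 2 → ℝ, 0 ≤ v 1 * eval v P) (v : Fin 2 → ℝ) (hv : v 1 = 0) :
    eval v P = 0 := by
  set u : Fin 2 → ℝ := ![0, 1] with hu
  have hc := cont_eval_line P v u
  have h0 : (fun t : ℝ => eval (v + t • u) P) 0 = eval v P := by simp
  have h1 : ∀ t : ℝ, 0 ≤ t * eval (v + t • u) P := by
    intro t
    have := h (v + t • u)
    have e : (v + t • u) 1 = t := by simp [hu, hv]
    rwa [e] at this
  rcases lt_trichotomy (eval v P) 0 with hlt | heq | hgt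
  · exfalso
    have hev := (hc.tendsto 0).eventually (gt_mem_nhds (show (fun t : ℝ => eval (v + t • u) P) 0 < 0
      by rw [h0]; exact hlt))
    obtain ⟨ε, hε, h2⟩ := Metric.eventually_nhds_iff.1 hev
    have h3 : eval (v + (ε / 2) • u) P < 0 := h2 (by
      rw [Real.dist_eq, sub_zero, abs_of_pos (by linarith)]; linarith)
    have h4 := h1 (ε / 2)
    have : ε / 2 * eval (v + (ε / 2) • u) P < 0 := mul_neg_of_pos_of_neg (by linarith) h3
    linarith
  · exact heq
  · exfalso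
    have hev := (hc.tendsto 0).eventually (lt_mem_nhds (show 0 < (fun t : ℝ => eval (v + t • u) P) 0
      by rw [h0]; exact hgt))
    obtain ⟨ε, hε, h2⟩ := Metric.eventually_nhds_iff.1 hev
    have h3 : 0 < eval (v + (-(ε / 2)) • u) P := h2 (by
      rw [Real.dist_eq, sub_zero, abs_neg, abs_of_pos (by linarith)]; linarith)
    have h4 := h1 (-(ε / 2))
    have : -(ε / 2) * eval (v + (-(ε / 2)) • u) P < 0 :=
      mul_neg_of_neg_of_pos (by linarith) h3
    linarith

theorem eventually_add_ne (a : ℝ) : ∀ᶠ t in nhdsWithin (0 : ℝ) (Set.Ioi 0), a + t ≠ 0 := by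
  rcases lt_or_ge a 0 with h | h
  · filter_upwards [Ioo_mem_nhdsGT (show (0 : ℝ) < -a by linarith)] with t ht
    have := ht.2
    intro h0
    linarith
  · filter_upwards [self_mem_nhdsWithin] with t ht
    have : (0 : ℝ) < t := ht
    intro h0
    linarith

end H2_

open H2_ in
theorem h2_proof (h1 : Stmt_XP) (h2 : Stmt_LD) (h3 : Stmt_CL) : Stmt_H2 := by
  intro T hT hTp hT0 hpq
  obtain ⟨p, q, hli, hp, hq⟩ := hpq
  obtain ⟨S, hS⟩ := exists_equiv (n := 3) (k := 2) (by norm_num) ![p, q] hli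
  have hS0 : S (Pi.single 0 1) = p := hS 0
  have hS1 : S (Pi.single 1 1) = q := hS 1
  set F : P3 := pull (S : (Fin 3 → ℝ) →ₗ[ℝ] (Fin 3 → ℝ)) T with hF
  have hFe : ∀ v, eval v F = eval (S v) T := fun v => eval_pull _ _ v
  have hF4 : F.IsHomogeneous 4 := pull_hom _ hT
  have hFp : Psd F := Psd.pull _ hTp
  have hF0 : F ≠ 0 := pull_ne_zero S hT0
  have hFz : eval (Pi.single 0 1 : Fin 3 → ℝ) F = 0 := by rw [hFe, hS0, hp]
  obtain ⟨A, B, D, hExp⟩ := h1 2 F hF4 hFp hFz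
  obtain ⟨hA, hB, hD, hval⟩ := hExp
  obtain ⟨hAp, hDp, hBAD⟩ := Exp.facts ⟨hA, hB, hD, hval⟩ hFp
  -- `D (1, 0) = 0`
  have hD1 : eval (![1, 0] : Fin 2 → ℝ) D = 0 := by
    have e1 : (Pi.single 1 1 : Fin 3 → ℝ) = Fin.cons 0 ![1, 0] := by
      funext j; fin_cases j <;> simp [Fin.cons] <;> rfl
    have h4 := hval 0 ![1, 0]
    rw [← e1, hFe, hS1, hq] at h4
    linarith
  have hline : ∀ v : Fin 2 → ℝ, v 1 = 0 → v = v 0 • (![1, 0] : Fin 2 → ℝ) := by
    intro v hv
    funext j; fin_cases j <;> simp [hv]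
  have hDz : ∀ v : Fin 2 → ℝ, v 1 = 0 → eval v D = 0 := by
    intro v hv
    rw [hline v hv, hom_smul hD, hD1, mul_zero]
  have hBz : ∀ v : Fin 2 → ℝ, v 1 = 0 → eval v B = 0 := by
    intro v hv
    have h5 := hBAD v
    rw [hDz v hv, mul_zero] at h5
    exact pow_eq_zero_iff (two_ne_zero) |>.mp (le_antisymm h5 (sq_nonneg _))
  have hX : (MvPolynomial.X 1 : MvPolynomial (Fin 2) ℝ).IsHomogeneous 1 :=
    MvPolynomial.isHomogeneous_X ℝ 1
  have hX0 : (MvPolynomial.X 1 : MvPolynomial (Fin 2) ℝ) ≠ 0 := MvPolynomial.X_ne_zero 1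
  obtain ⟨B2, hB2, hBe⟩ := h2 2 (MvPolynomial.X 1) B 2 hX hX0 hB (fun v hv => by
    rw [MvPolynomial.eval_X] at hv; exact hBz v hv)
  obtain ⟨D1, hD1h, hDe⟩ := h2 2 (MvPolynomial.X 1) D 3 hX hX0 hD (fun v hv => by
    rw [MvPolynomial.eval_X] at hv; exact hDz v hv)
  obtain ⟨D2, hD2h, hDe2⟩ := h2 2 (MvPolynomial.X 1) D1 2 hX hX0 hD1h (fun v hv => by
    rw [MvPolynomial.eval_X] at hv
    refine zero_of_mul_nonneg D1 (fun w => ?_) v hv
    have := hDp w
    rw [hDe, map_mul, MvPolynomial.eval_X] at this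
    exact this)
  have hBv : ∀ v : Fin 2 → ℝ, eval v B = v 1 * eval v B2 := fun v => by
    rw [hBe, map_mul, MvPolynomial.eval_X]
  have hDv : ∀ v : Fin 2 → ℝ, eval v D = v 1 ^ 2 * eval v D2 := fun v => by
    rw [hDe, hDe2, map_mul, map_mul, MvPolynomial.eval_X]; ring
  -- nonnegativity of the biquadratic form
  have hgen : ∀ (v : Fin 2 → ℝ) (s t : ℝ), v 1 ≠ 0 → t ≠ 0 →
      0 ≤ s ^ 2 * eval v A + 2 * s * t * eval v B2 + t ^ 2 * eval v D2 := by
    intro v s t hv ht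
    set c : ℝ := t / v 1 with hc
    have hc0 : c ≠ 0 := div_ne_zero ht hv
    have hcv : (c • v) 1 = t := by
      simp only [Pi.smul_apply, smul_eq_mul, hc]
      exact div_mul_cancel₀ t hv
    have h6 := hFp (Fin.cons s (c • v))
    rw [hval, hBv, hDv, hcv, hom_smul hA, hom_smul hB2, hom_smul hD2h] at h6
    have h7 : s ^ 2 * (c ^ 2 * eval v A) + 2 * s * (t * (c ^ 2 * eval v B2)) +
        t ^ 2 * (c ^ 2 * eval v D2) =
        c ^ 2 * (s ^ 2 * eval v A + 2 * s * t * eval v B2 + t ^ 2 * eval v D2) := by ring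
    rw [h7] at h6
    exact nonneg_of_mul_nonneg_right h6 (by positivity)
  have hPhi : ∀ (v : Fin 2 → ℝ) (s t : ℝ),
      0 ≤ s ^ 2 * eval v A + 2 * s * t * eval v B2 + t ^ 2 * eval v D2 := by
    intro v s t
    set u : Fin 2 → ℝ := ![0, 1] with hu
    have hcont : Continuous (fun τ : ℝ => s ^ 2 * eval (v + τ • u) A +
        2 * s * (t + τ) * eval (v + τ • u) B2 + (t + τ) ^ 2 * eval (v + τ • u) D2) := by
      have a1 := cont_eval_line A v u
      have a2 := cont_eval_line B2 v u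
      have a3 := cont_eval_line D2 v u
      fun_prop
    have hlim : Filter.Tendsto (fun τ : ℝ => s ^ 2 * eval (v + τ • u) A +
        2 * s * (t + τ) * eval (v + τ • u) B2 + (t + τ) ^ 2 * eval (v + τ • u) D2)
        (nhdsWithin 0 (Set.Ioi 0))
        (nhds (s ^ 2 * eval v A + 2 * s * t * eval v B2 + t ^ 2 * eval v D2)) := by
      have := (hcont.tendsto 0).mono_left (nhdsWithin_le_nhds (s := Set.Ioi 0))
      simpa using this
    refine ge_of_tendsto hlim ?_
    filter_upwards [eventually_add_ne (v 1), eventually_add_ne t] with τ hτ1 hτ2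
    refine hgen (v + τ • u) s (t + τ) ?_ hτ2
    have : (v + τ • u) 1 = v 1 + τ := by simp [hu]
    rw [this]; exact hτ1
  have hne : A ≠ 0 ∨ B2 ≠ 0 ∨ D2 ≠ 0 := by
    by_contra hcon
    push Not at hcon
    obtain ⟨rfl, rfl, rfl⟩ := hcon
    apply hF0
    apply MvPolynomial.funext
    intro v
    have h8 := hval (v 0) (Fin.tail v)
    rw [Fin.cons_self_tail] at h8
    rw [h8, hBv, hDv]
    simp
  obtain ⟨l, m, hl, hm, hlm, hle⟩ := h3 2 A B2 D2 hA hB2 hD2h hPhi hne
  set G' : P3 := glue l (MvPolynomial.X 1 * m) with hG'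
  have hXm : (MvPolynomial.X 1 * m : MvPolynomial (Fin 2) ℝ).IsHomogeneous 2 := by
    have := hX.mul hm
    exact this
  have hG'h : G'.IsHomogeneous 2 := glue_hom hl hXm
  have hG'0 : G' ≠ 0 := by
    intro h0
    obtain ⟨hl0, hm0⟩ := glue_eq_zero h0
    rcases hlm with h | h
    · exact h hl0
    · exact h ((mul_eq_zero.mp hm0).resolve_left hX0)
  have hG'le : ∀ v, (eval v G') ^ 2 ≤ eval v F := by
    intro v
    have h9 := hle (Fin.tail v) (v 0) (Fin.tail v 1)
    have h10 := hval (v 0) (Fin.tail v)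
    have h11 := eval_glue l (MvPolynomial.X 1 * m) (v 0) (Fin.tail v)
    rw [Fin.cons_self_tail] at h10 h11
    rw [h10, hG', h11, hBv, hDv, map_mul, MvPolynomial.eval_X]
    calc (v 0 * eval (Fin.tail v) l + Fin.tail v 1 * eval (Fin.tail v) m) ^ 2
        ≤ _ := h9
      _ = _ := by ring
  refine ⟨pull (S.symm : (Fin 3 → ℝ) →ₗ[ℝ] (Fin 3 → ℝ)) G', pull_hom _ hG'h,
    pull_ne_zero S.symm hG'0, fun v => ?_⟩
  have h12 := hG'le (S.symm v)
  rw [hFe, LinearEquiv.apply_symm_apply] at h12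
  rw [eval_pull]
  exact h12

end Pool.Agent.SBQ
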