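import Pool.Agent.SBQ.StmtsB

/-!
# SBQ, module HF: factors of forms are forms
-/

set_option autoImplicit false

namespace Pool.Agent.SBQ

open MvPolynomial (eval aeval C homogeneousComponent)

namespace HF_

/-- the substitution `X i ↦ X i * T` -/
noncomputable def psi (n : ℕ) : MvPolynomial (Fin n) ℝ →ₐ[ℝ] Polynomial (MvPolynomial (Fin n) ℝ) :=
  aeval (fun i => Polynomial.C (MvPolynomial.X i) * Polynomial.X)

theorem psi_monomial {n : ℕ} (m : Fin n →₀ ℕ) (r : ℝ) :
    psi n (MvPolynomial.monomial m r) =
      Polynomial.C (MvPolynomial.monomial m r) * Polynomial.X ^ m.degree := by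
  unfold psi
  rw [MvPolynomial.aeval_monomial, MvPolynomial.monomial_eq, map_mul, mul_assoc]
  have h1 : (algebraMap ℝ (Polynomial (MvPolynomial (Fin n) ℝ))) r = Polynomial.C (C r) := rfl
  rw [h1]
  congr 1
  rw [Finsupp.prod, Finsupp.prod, map_prod, Finsupp.degree_apply, ← Finset.prod_pow_eq_pow_sum,
    ← Finset.prod_mul_distrib]
  refine Finset.prod_congr rfl fun i _ => ?_
  rw [mul_pow, map_pow]

theorem coeff_psi {n : ℕ} (P : MvPolynomial (Fin n) ℝ) (k : ℕ) :
    (psi n P).coeff k = homogeneousComponent k P := by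
  induction P using MvPolynomial.induction_on' with
  | monomial m r =>
    rw [psi_monomial, Polynomial.coeff_C_mul_X_pow]
    ext d
    rw [MvPolynomial.coeff_homogeneousComponent, MvPolynomial.coeff_monomial]
    by_cases h : k = m.degree
    · rw [if_pos h, MvPolynomial.coeff_monomial]
      by_cases h2 : m = d
      · rw [if_pos h2, if_pos]
        rw [← h2, h]
      · rw [if_neg h2, ite_self]
    · rw [if_neg h, MvPolynomial.coeff_zero]
      by_cases h2 : m = d
      · rw [if_neg]
        rw [← h2]
        exact fun h3 => h h3.symm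
      · rw [if_neg h2, ite_self]
  | add p q hp hq => rw [map_add, Polynomial.coeff_add, hp, hq, map_add]

theorem hom_of_comp {n : ℕ} {P : MvPolynomial (Fin n) ℝ} {a : ℕ}
    (h : ∀ k, k ≠ a → homogeneousComponent k P = 0) : P.IsHomogeneous a := by
  have h2 : homogeneousComponent a P = P := by
    ext d
    rw [MvPolynomial.coeff_homogeneousComponent]
    by_cases hd : d.degree = a
    · rw [if_pos hd]
    · rw [if_neg hd]
      have h3 := congrArg (MvPolynomial.coeff d) (h d.degree hd)
      rw [MvPolynomial.coeff_homogeneousComponent, if_pos rfl, MvPolynomial.coeff_zero] at h3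
      exact h3.symm
  rw [← h2]
  exact MvPolynomial.homogeneousComponent_isHomogeneous a P

theorem hom_of_deg {n : ℕ} {P : MvPolynomial (Fin n) ℝ} {a : ℕ}
    (h1 : (psi n P).natDegree ≤ a) (h2 : a ≤ (psi n P).natTrailingDegree) :
    P.IsHomogeneous a := by
  refine hom_of_comp fun k hk => ?_
  rw [← coeff_psi]
  rcases lt_or_gt_of_ne hk with h | h
  · exact Polynomial.coeff_eq_zero_of_lt_natTrailingDegree (lt_of_lt_of_le h h2)
  · exact Polynomial.coeff_eq_zero_of_natDegree_lt (lt_of_le_of_lt h1 h)

theorem psi_ne_zero {n : ℕ} {P : MvPolynomial (Fin n) ℝ} (h : P ≠ 0) : psi n P ≠ 0 := by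
  intro h0
  apply h
  rw [← MvPolynomial.sum_homogeneousComponent P]
  refine Finset.sum_eq_zero fun k _ => ?_
  rw [← coeff_psi, h0, Polynomial.coeff_zero]

end HF_

open HF_ in
theorem hf_proof : Stmt_HF := by
  intro n d P Q hne hhom
  have hP : P ≠ 0 := left_ne_zero_of_mul hne
  have hQ : Q ≠ 0 := right_ne_zero_of_mul hne
  have hmon : psi n P * psi n Q = Polynomial.monomial d (P * Q) := by
    rw [← map_mul]
    ext1 k
    rw [coeff_psi, MvPolynomial.homogeneousComponent_of_mem hhom, Polynomial.coeff_monomial]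
    by_cases h : k = d
    · rw [if_pos h, if_pos h.symm]
    · rw [if_neg h, if_neg (Ne.symm h)]
  have h1 := congrArg Polynomial.natDegree hmon
  rw [Polynomial.natDegree_mul (psi_ne_zero hP) (psi_ne_zero hQ), Polynomial.natDegree_monomial,
    if_neg hne] at h1
  have h2 := congrArg Polynomial.natTrailingDegree hmon
  rw [Polynomial.natTrailingDegree_mul (psi_ne_zero hP) (psi_ne_zero hQ),
    Polynomial.natTrailingDegree_monomial hne] at h2
  have h3 := Polynomial.natTrailingDegree_le_natDegree (psi n P)
  have h4 := Polynomial.natTrailingDegree_le_natDegree (psi n Q)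
  exact ⟨(psi n P).natDegree, (psi n Q).natDegree, h1, hom_of_deg le_rfl (by omega),
    hom_of_deg le_rfl (by omega)⟩

end Pool.Agent.SBQ
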