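import Pool.Agent.SBQ.StmtsB

set_option autoImplicit false

/-!
# SBQ, HL: ternary quartics, a quadratic square below
-/

namespace Pool.Agent.SBQ.HL_

open MvPolynomial (eval aeval C)
open Pool.Agent.SBQ

noncomputable section

lemma sphere_compact (n : ℕ) : IsCompact {v : Fin n → ℝ | ∑ j, v j ^ 2 = 1} := by
  apply Metric.isCompact_of_isClosed_isBounded
  · exact isClosed_eq (by fun_prop) continuous_const
  · rw [isBounded_iff_forall_norm_le]
    refine ⟨1, fun v hv => ?_⟩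
    have hv' : ∑ j, v j ^ 2 = 1 := hv
    rw [pi_norm_le_iff_of_nonneg zero_le_one]
    intro j
    have h1 : v j ^ 2 ≤ 1 := by
      rw [← hv']
      exact Finset.single_le_sum (f := fun j => v j ^ 2) (fun i _ => sq_nonneg _)
        (Finset.mem_univ j)
    rw [Real.norm_eq_abs]
    exact (sq_le_one_iff_abs_le_one _).1 h1

lemma sq_pos_of_ne {n : ℕ} (v : Fin n → ℝ) (hv : v ≠ 0) : 0 < ∑ j, v j ^ 2 := by
  obtain ⟨j, hj⟩ := Function.ne_iff.mp hv
  have hj' : 0 < v j ^ 2 := by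
    have : v j ≠ 0 := hj
    positivity
  exact lt_of_lt_of_le hj' (Finset.single_le_sum (f := fun j => v j ^ 2)
    (fun i _ => sq_nonneg _) (Finset.mem_univ j))

/-- A positive quartic form is bounded from below. -/
lemma lower (T : P3) (hT : T.IsHomogeneous 4) (hpos : ∀ v, v ≠ 0 → 0 < eval v T) :
    ∃ m : ℝ, 0 < m ∧ ∀ v : Fin 3 → ℝ, m * (∑ j, v j ^ 2) ^ 2 ≤ eval v T := by
  have hne : {v : Fin 3 → ℝ | ∑ j, v j ^ 2 = 1}.Nonempty :=
    ⟨Pi.single 0 1, by simp [Fin.sum_univ_three]⟩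
  obtain ⟨v0, hv0, hmin⟩ := (sphere_compact 3).exists_isMinOn hne
    (MvPolynomial.continuous_eval T).continuousOn
  have hv0' : ∑ j, v0 j ^ 2 = 1 := hv0
  have hv0ne : v0 ≠ 0 := by
    rintro rfl
    simp at hv0'
  refine ⟨eval v0 T, hpos v0 hv0ne, fun v => ?_⟩
  by_cases hv : v = 0
  · subst hv
    have h0 : eval (0 : Fin 3 → ℝ) T = 0 := by
      have h1 := hom_smul hT 0 (0 : Fin 3 → ℝ)
      rw [zero_smul] at h1
      rw [h1]
      ring
    rw [h0]
    simp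
  · have hs := sq_pos_of_ne v hv
    set s := ∑ j, v j ^ 2 with hsdef
    have hr : 0 < Real.sqrt s := Real.sqrt_pos.2 hs
    have h1 : ∑ j, ((Real.sqrt s)⁻¹ • v) j ^ 2 = 1 := by
      simp only [Pi.smul_apply, smul_eq_mul, mul_pow, ← Finset.mul_sum]
      rw [inv_pow, Real.sq_sqrt hs.le, inv_mul_cancel₀ hs.ne']
    have h2 : eval v0 T ≤ eval ((Real.sqrt s)⁻¹ • v) T := hmin h1
    rw [hom_smul hT, inv_pow] at h2
    have h3 : Real.sqrt s ^ 4 = s ^ 2 := by
      have : Real.sqrt s ^ 4 = (Real.sqrt s ^ 2) ^ 2 := by ring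
      rw [this, Real.sq_sqrt hs.le]
    rw [h3, inv_mul_eq_div, le_div_iff₀ (by positivity)] at h2
    exact h2

lemma case_pos (T : P3) (hT : T.IsHomogeneous 4) (hpos : ∀ v, v ≠ 0 → 0 < eval v T) :
    ∃ G : P3, G.IsHomogeneous 2 ∧ G ≠ 0 ∧ ∀ v, (eval v G) ^ 2 ≤ eval v T := by
  obtain ⟨m, hm, hle⟩ := lower T hT hpos
  refine ⟨C (Real.sqrt m) * MvPolynomial.X 0 ^ 2, ?_, ?_, fun v => ?_⟩
  · have h1 := (MvPolynomial.isHomogeneous_C (Fin 3) (Real.sqrt m)).mul
      (MvPolynomial.isHomogeneous_X_pow (R := ℝ) (0 : Fin 3) 2)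
    rwa [zero_add] at h1
  · refine mul_ne_zero ?_ (pow_ne_zero _ (MvPolynomial.X_ne_zero _))
    rw [Ne, MvPolynomial.C_eq_zero]
    exact (Real.sqrt_pos.2 hm).ne'
  · refine le_trans ?_ (hle v)
    simp only [map_mul, MvPolynomial.eval_C, map_pow, MvPolynomial.eval_X]
    rw [mul_pow, Real.sq_sqrt hm.le]
    refine mul_le_mul_of_nonneg_left (pow_le_pow_left₀ (sq_nonneg _) ?_ 2) hm.le
    exact Finset.single_le_sum (f := fun j => v j ^ 2) (fun i _ => sq_nonneg _)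
      (Finset.mem_univ 0)

end

end Pool.Agent.SBQ.HL_

namespace Pool.Agent.SBQ

open MvPolynomial (eval aeval C)
open HL_

theorem hl_proof (h1 : Stmt_H1) (h2 : Stmt_H2) : Stmt_HL := by
  intro T hT hpsd hne
  by_cases hpos : ∀ v, v ≠ 0 → 0 < eval v T
  · exact case_pos T hT hpos
  push Not at hpos
  obtain ⟨p, hp, hpT⟩ := hpos
  have hp0 : eval p T = 0 := le_antisymm hpT (hpsd p)
  by_cases htwo : ∃ q : Fin 3 → ℝ, LinearIndependent ℝ ![p, q] ∧ eval q T = 0
  · obtain ⟨q, hpq, hq⟩ := htwo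
    exact h2 T hT hpsd hne ⟨p, q, hpq, hp0, hq⟩
  push Not at htwo
  obtain ⟨T0, hT0⟩ := exists_equiv_one p hp
  set T' : P3 := pull (T0 : (Fin 3 → ℝ) →ₗ[ℝ] (Fin 3 → ℝ)) T with hT'
  have hval : ∀ v, eval v T' = eval (T0 v) T := fun v => eval_pull _ _ _
  have hzero : ∀ v : Fin 3 → ℝ, eval v T' = 0 ↔ v 1 = 0 ∧ v 2 = 0 := by
    intro v
    rw [hval]
    constructor
    · intro hv
      have h3 : ¬ LinearIndependent ℝ ![p, T0 v] := fun hli => htwo _ hli hv
      rw [LinearIndependent.pair_iff' hp] at h3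
      push Not at h3
      obtain ⟨a, ha⟩ := h3
      have h4 : v = a • Pi.single 0 1 := by
        apply T0.injective
        rw [map_smul, hT0, ha]
      rw [h4]
      simp
    · rintro ⟨hv1, hv2⟩
      have h4 : v = v 0 • Pi.single 0 1 := by
        funext i
        fin_cases i
        · simp
        · simpa using hv1
        · simpa using hv2
      rw [h4, map_smul, hT0, hom_smul hT, hp0, mul_zero]
  obtain ⟨G, hG, hGne, hGle⟩ := h1 T' (pull_hom _ hT) (Psd.pull _ hpsd) (pull_ne_zero T0 hne) hzero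
  refine ⟨pull (T0.symm : (Fin 3 → ℝ) →ₗ[ℝ] (Fin 3 → ℝ)) G, pull_hom _ hG,
    pull_ne_zero T0.symm hGne, fun v => ?_⟩
  rw [eval_pull]
  refine (hGle _).trans (le_of_eq ?_)
  rw [hval]
  congr 1
  simp

end Pool.Agent.SBQ
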