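import Pool.Agent.SBQ.StmtsB

/-!
# SBQ, module HS: the Hessian in the chart
-/

set_option autoImplicit false

namespace Pool.Agent.SBQ

open MvPolynomial (eval aeval C)

namespace HS_

theorem indep (a b c d e : ℝ) :
    LinearIndependent ℝ ![(![1, a, b, c] : Fin 4 → ℝ), ![0, 1, 0, d], ![0, 0, 1, e]] := by
  rw [Fintype.linearIndependent_iff]
  intro g hg
  rw [Fin.sum_univ_three] at hg
  have h0 := congrFun hg 0
  have h1 := congrFun hg 1
  have h2 := congrFun hg 2
  simp at h0 h1 h2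
  have g0 : g 0 = 0 := h0
  rw [g0] at h1 h2
  have g1 : g 1 = 0 := by linarith
  have g2 : g 2 = 0 := by linarith
  intro i
  fin_cases i
  · exact g0
  · exact g1
  · exact g2

end HS_

open HS_ in
theorem hs_proof (hT2 : Stmt_T2) : Stmt_HS := by
  intro F ε hF hP hR v hv
  by_contra hcon
  push Not at hcon
  rw [eval_chart] at hv
  obtain ⟨a, b, hab⟩ := hR _ ![0, 1, 0, 2 * v 0] ![0, 0, 1, 2 * ε * v 1] hv (indep _ _ _ _ _)
  apply hab
  have h3 := hcon ![a, b]
  have h4 : (Polynomial.X : U1) ^ (2 * 1 + 2) ∣ comp (ray v ![a, b]) (chart ε F) := by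
    refine even_order _ 1 1 one_pos (fun t _ => ?_) h3
    rw [eval_comp, eval_chart]
    exact hP _
  rw [comp_chart] at h4
  have h5 := hT2 4 F _ (fun j => - (Polynomial.X : U1) ^ 2 *
      Polynomial.C ((![0, 0, 0, a ^ 2 + ε * b ^ 2] : Fin 4 → ℝ) j)) 2 hP h4 (fun j => by
    refine Dvd.dvd.mul_right ?_ _
    exact (dvd_neg).2 dvd_rfl)
  have h6 : (Polynomial.X : U1) ^ 3 ∣ (Polynomial.X : U1) ^ (2 * 2) := pow_dvd_pow _ (by norm_num)
  refine dvd_trans h6 ?_
  refine h5.trans (dvd_of_eq ?_)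
  congr 1
  funext j
  fin_cases j
  · simp [ray]
  · simp [ray]
  · simp [ray]
  · have h2 : (Polynomial.C (2 : ℝ) : U1) = 2 := map_ofNat Polynomial.C 2
    simp [ray, h2]
    ring

end Pool.Agent.SBQ
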