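import Pool.Agent.SBQ.StmtsB

/-!
# SBQ, module K2: a rigid form vanishing on a plane has another zero
-/

namespace Pool.Agent.SBQ

open MvPolynomial (eval aeval C)

namespace K2_

theorem cont_coeff {n : ℕ} (F : MvPolynomial (Fin n) ℝ) : ∀ k : ℕ,
    Continuous fun w : (Fin n → ℝ) × (Fin n → ℝ) => (comp (ray w.1 w.2) F).coeff k := by
  induction F using MvPolynomial.induction_on with
  | C a =>
    intro k
    simp only [comp_C]
    exact continuous_const
  | add p q hp hq =>
    intro k
    simp only [comp_add, Polynomial.coeff_add]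
    exact (hp k).add (hq k)
  | mul_X p j hp =>
    intro k
    have h1 : ∀ w : (Fin n → ℝ) × (Fin n → ℝ), (comp (ray w.1 w.2) (p * MvPolynomial.X j)) =
        comp (ray w.1 w.2) p * Polynomial.C (w.1 j) +
          (comp (ray w.1 w.2) p * Polynomial.C (w.2 j)) * Polynomial.X := by
      intro w
      rw [comp_mul, comp_X]
      simp only [ray]
      ring
    simp only [h1, Polynomial.coeff_add, Polynomial.coeff_mul_C]
    have hc1 : Continuous fun w : (Fin n → ℝ) × (Fin n → ℝ) => w.1 j :=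
      (continuous_apply j).comp continuous_fst
    have hc2 : Continuous fun w : (Fin n → ℝ) × (Fin n → ℝ) => w.2 j :=
      (continuous_apply j).comp continuous_snd
    cases k with
    | zero =>
      simp only [Polynomial.mul_coeff_zero, Polynomial.coeff_X_zero, mul_zero, add_zero]
      exact (hp 0).mul hc1
    | succ k =>
      simp only [Polynomial.coeff_mul_X, Polynomial.coeff_mul_C]
      exact ((hp (k + 1)).mul hc1).add ((hp k).mul hc2)

/-- the remaining factor -/
noncomputable def H (F : P4) (p u : Fin 4 → ℝ) (t : ℝ) : ℝ :=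
  (comp (ray p u) F).coeff 2 + (comp (ray p u) F).coeff 3 * t + (comp (ray p u) F).coeff 4 * t ^ 2

theorem H_cont (F : P4) :
    Continuous fun w : ((Fin 4 → ℝ) × (Fin 4 → ℝ)) × ℝ => H F w.1.1 w.1.2 w.2 := by
  unfold H
  have h2 := (cont_coeff F 2).comp (continuous_fst (X := (Fin 4 → ℝ) × (Fin 4 → ℝ)) (Y := ℝ))
  have h3 := (cont_coeff F 3).comp (continuous_fst (X := (Fin 4 → ℝ) × (Fin 4 → ℝ)) (Y := ℝ))
  have h4 := (cont_coeff F 4).comp (continuous_fst (X := (Fin 4 → ℝ) × (Fin 4 → ℝ)) (Y := ℝ))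
  exact (h2.add (h3.mul continuous_snd)).add (h4.mul (continuous_snd.pow 2))

theorem expand {F : P4} (hF : F.IsHomogeneous 4) (hp : Psd F) (p u : Fin 4 → ℝ)
    (h0 : eval p F = 0) (t : ℝ) : eval (p + t • u) F = t ^ 2 * H F p u t := by
  have hdeg : (comp (ray p u) F).natDegree ≤ 4 * 1 := by
    apply MvPolynomial.aeval_natDegree_le
    · exact hF.totalDegree_le
    · intro i
      simp only [ray]
      compute_degree
  have hdvd : (Polynomial.X : U1) ^ 2 ∣ comp (ray p u) F := by
    apply sq_dvd_comp hp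
    rw [at0_ray]
    exact h0
  rw [Polynomial.X_pow_dvd_iff] at hdvd
  have c0 := hdvd 0 (by norm_num)
  have c1 := hdvd 1 (by norm_num)
  rw [← comp_ray_eval, Polynomial.eval_eq_sum_range' (n := 5) (by omega)]
  simp only [Finset.sum_range_succ, Finset.sum_range_zero, c0, c1, H]
  ring

attribute [local irreducible] H

theorem coeff_two {F : P4} (hF : F.IsHomogeneous 4) (hp : Psd F) (p u u' : Fin 4 → ℝ)
    (s s' : ℝ) (hpl : ∀ t : ℝ, eval (p + t • u') F = 0) (h0 : H F p u 0 = 0) :
    (Polynomial.X : U1) ^ 3 ∣ comp (ray p (s • u + s' • u')) F := by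
  have hp0 : eval p F = 0 := by
    have := hpl 0
    simpa using this
  have hdvd : (Polynomial.X : U1) ^ 2 ∣ comp (ray p (s • u + s' • u')) F := by
    apply sq_dvd_comp hp
    rw [at0_ray]
    exact hp0
  obtain ⟨g, hg⟩ := hdvd
  have hev : ∀ t : ℝ, t ≠ 0 → g.eval t = s ^ 2 * H F (p + (t * s') • u') u (t * s) := by
    intro t ht
    have h1 := comp_ray_eval p (s • u + s' • u') F t
    rw [hg] at h1
    have h2 : p + t • (s • u + s' • u') = (p + (t * s') • u') + (t * s) • u := by
      rw [smul_add, smul_smul, smul_smul]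
      abel
    rw [h2, expand hF hp _ _ (hpl _)] at h1
    simp only [Polynomial.eval_mul, Polynomial.eval_pow, Polynomial.eval_X] at h1
    have h3 : t ^ 2 * g.eval t = t ^ 2 * (s ^ 2 * H F (p + (t * s') • u') u (t * s)) := by
      rw [h1]; ring
    exact mul_left_cancel₀ (pow_ne_zero 2 ht) h3
  have hc1 : Continuous fun t : ℝ => g.eval t := g.continuous
  have hc2 : Continuous fun t : ℝ => s ^ 2 * H F (p + (t * s') • u') u (t * s) := by
    have h : Continuous fun t : ℝ => (((p + (t * s') • u', u), t * s) :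
        ((Fin 4 → ℝ) × (Fin 4 → ℝ)) × ℝ) := by fun_prop
    have h2 := (H_cont F).comp h
    simp only [Function.comp_def] at h2
    exact continuous_const.mul h2
  have heq : g.eval 0 = 0 := by
    have hl1 : Filter.Tendsto (fun t : ℝ => g.eval t) (nhdsWithin 0 (Set.Ioi 0))
        (nhds (g.eval 0)) := (hc1.tendsto 0).mono_left nhdsWithin_le_nhds
    have hl2 : Filter.Tendsto (fun t : ℝ => s ^ 2 * H F (p + (t * s') • u') u (t * s))
        (nhdsWithin 0 (Set.Ioi 0)) (nhds (s ^ 2 * H F (p + ((0 : ℝ) * s') • u') u (0 * s))) :=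
      (hc2.tendsto 0).mono_left nhdsWithin_le_nhds
    have hl3 : Filter.Tendsto (fun t : ℝ => g.eval t) (nhdsWithin 0 (Set.Ioi 0))
        (nhds (s ^ 2 * H F (p + ((0 : ℝ) * s') • u') u (0 * s))) := by
      refine hl2.congr' ?_
      filter_upwards [self_mem_nhdsWithin] with t ht
      exact (hev t (ne_of_gt ht)).symm
    have := tendsto_nhds_unique hl1 hl3
    rw [this]
    simp [h0]
  have hX : (Polynomial.X : U1) ∣ g := by
    rw [Polynomial.X_dvd_iff, Polynomial.coeff_zero_eq_eval_zero]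
    exact heq
  obtain ⟨g', rfl⟩ := hX
  exact ⟨g', by rw [hg]; ring⟩

/-- the compact parameter set -/
def K : Set (Fin 5 → ℝ) :=
  {x | x 0 ^ 2 + x 1 ^ 2 + x 4 ^ 2 = 1 ∧ x 2 ^ 2 + x 3 ^ 2 = 1 ∧ 0 ≤ x 4}

theorem K_compact : IsCompact K := by
  apply Metric.isCompact_of_isClosed_isBounded
  · have e1 : IsClosed {x : Fin 5 → ℝ | x 0 ^ 2 + x 1 ^ 2 + x 4 ^ 2 = 1} :=
      isClosed_eq (by fun_prop) continuous_const
    have e2 : IsClosed {x : Fin 5 → ℝ | x 2 ^ 2 + x 3 ^ 2 = 1} :=
      isClosed_eq (by fun_prop) continuous_const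
    have e3 : IsClosed {x : Fin 5 → ℝ | 0 ≤ x 4} :=
      isClosed_le continuous_const (continuous_apply 4)
    exact e1.inter (e2.inter e3)
  · rw [Metric.isBounded_iff_subset_closedBall 0]
    refine ⟨1, ?_⟩
    rintro x ⟨h1, h2, h3⟩
    rw [Metric.mem_closedBall, dist_zero_right, pi_norm_le_iff_of_nonneg (by norm_num)]
    intro i
    rw [Real.norm_eq_abs]
    apply abs_le_one_iff_mul_self_le_one.mpr
    fin_cases i <;> simp only [Fin.zero_eta, Fin.mk_one, Fin.reduceFinMk] <;>
      nlinarith [sq_nonneg (x 0), sq_nonneg (x 1), sq_nonneg (x 2), sq_nonneg (x 3),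
        sq_nonneg (x 4)]

theorem li (a b y z : ℝ) (hab : a ^ 2 + b ^ 2 ≠ 0) (hyz : y ^ 2 + z ^ 2 ≠ 0) :
    LinearIndependent ℝ ![(![a, b, 0, 0] : Fin 4 → ℝ), ![0, 0, y, z], ![-b, a, 0, 0]] := by
  rw [Fintype.linearIndependent_iff]
  intro g hg
  have e0 := congrFun hg 0
  have e1 := congrFun hg 1
  have e2 := congrFun hg 2
  have e3 := congrFun hg 3
  simp [Fin.sum_univ_three] at e0 e1 e2 e3
  have h0 : g 0 * (a ^ 2 + b ^ 2) = 0 := by linear_combination a * e0 + b * e1
  have h2 : g 2 * (a ^ 2 + b ^ 2) = 0 := by linear_combination a * e1 - b * e0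
  have h1 : g 1 * (y ^ 2 + z ^ 2) = 0 := by
    have e2' : g 1 * y = 0 := by rcases e2 with h | h <;> simp [h]
    have e3' : g 1 * z = 0 := by rcases e3 with h | h <;> simp [h]
    linear_combination y * e2' + z * e3'
  intro i
  fin_cases i
  · exact (mul_eq_zero.mp h0).resolve_right hab
  · exact (mul_eq_zero.mp h1).resolve_right hyz
  · exact (mul_eq_zero.mp h2).resolve_right hab

end K2_

open K2_ in
theorem k2_proof : Stmt_K2 := by
  intro F hR hrk hpl
  by_contra hcon
  push Not at hcon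
  obtain ⟨hF, hp, hF0, hno⟩ := hR
  set h : (Fin 5 → ℝ) → ℝ := fun x => H F ![x 0, x 1, 0, 0] ![0, 0, x 2, x 3] (x 4) with hh
  have hcont : Continuous h := by
    have h1 : Continuous fun x : Fin 5 → ℝ => ((((![x 0, x 1, 0, 0] : Fin 4 → ℝ),
        (![0, 0, x 2, x 3] : Fin 4 → ℝ)), x 4) : ((Fin 4 → ℝ) × (Fin 4 → ℝ)) × ℝ) := by
      refine Continuous.prodMk (Continuous.prodMk ?_ ?_) (continuous_apply 4)
      · refine continuous_pi fun i => ?_
        fin_cases i
        · exact continuous_apply 0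
        · exact continuous_apply 1
        · exact continuous_const
        · exact continuous_const
      · refine continuous_pi fun i => ?_
        fin_cases i
        · exact continuous_const
        · exact continuous_const
        · exact continuous_apply 2
        · exact continuous_apply 3
    have h2 := (H_cont F).comp h1
    simp only [Function.comp_def] at h2
    exact h2
  -- positivity
  have hpos : ∀ x ∈ K, 0 < h x := by
    rintro x ⟨hx1, hx2, hx3⟩
    have hz : eval ![x 0, x 1, 0, 0] F = 0 := hpl _ _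
    have hexp := expand hF hp ![x 0, x 1, 0, 0] ![0, 0, x 2, x 3] hz
    rcases hx3.lt_or_eq with hr | hr
    · have h1 := hexp (x 4)
      have h2 : 0 ≤ eval (![x 0, x 1, 0, 0] + x 4 • ![0, 0, x 2, x 3]) F := hp _
      have h3 : eval (![x 0, x 1, 0, 0] + x 4 • ![0, 0, x 2, x 3]) F ≠ 0 := by
        intro h0
        obtain ⟨k2, k3⟩ := hcon _ h0
        have k2' : x 4 * x 2 = 0 := by simpa using k2
        have k3' : x 4 * x 3 = 0 := by simpa using k3
        have l2 : x 2 = 0 := (mul_eq_zero.mp k2').resolve_left hr.ne'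
        have l3 : x 3 = 0 := (mul_eq_zero.mp k3').resolve_left hr.ne'
        rw [l2, l3] at hx2
        norm_num at hx2
      have h4 : 0 < x 4 ^ 2 * h x := by
        rw [hh]
        rw [← h1]
        exact lt_of_le_of_ne h2 (Ne.symm h3)
      exact (mul_pos_iff_of_pos_left (by positivity)).mp h4
    · -- r = 0
      have hab : x 0 ^ 2 + x 1 ^ 2 ≠ 0 := by
        rw [← hr] at hx1
        intro h0
        rw [h0] at hx1
        norm_num at hx1
      have hyz : x 2 ^ 2 + x 3 ^ 2 ≠ 0 := by rw [hx2]; norm_num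
      have hge : 0 ≤ h x := by
        -- limit
        have hH : ∀ t : ℝ, t ≠ 0 → 0 ≤ H F ![x 0, x 1, 0, 0] ![0, 0, x 2, x 3] t := by
          intro t ht
          have h1 := hexp t
          have h2 : 0 ≤ eval (![x 0, x 1, 0, 0] + t • ![0, 0, x 2, x 3]) F := hp _
          rw [h1] at h2
          have ht2 : 0 < t ^ 2 := by positivity
          by_contra hneg
          push Not at hneg
          nlinarith
        have hc : Continuous fun t : ℝ => H F ![x 0, x 1, 0, 0] ![0, 0, x 2, x 3] t := by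
          have h3 : Continuous fun t : ℝ => ((((![x 0, x 1, 0, 0] : Fin 4 → ℝ),
            (![0, 0, x 2, x 3] : Fin 4 → ℝ)), t) : ((Fin 4 → ℝ) × (Fin 4 → ℝ)) × ℝ) := by
            fun_prop
          have h4 := (H_cont F).comp h3
          simp only [Function.comp_def] at h4
          exact h4
        have hl := (hc.tendsto 0).mono_left (nhdsWithin_le_nhds (s := Set.Ioi 0))
        have hge0 := ge_of_tendsto hl (by
          filter_upwards [self_mem_nhdsWithin] with t ht
          exact hH t (ne_of_gt ht))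
        rw [hh]
        simp only
        rw [← hr]
        exact hge0
      rcases hge.lt_or_eq with h1 | h1
      · exact h1
      · exfalso
        obtain ⟨s, s', hs⟩ := hrk _ _ _ hz (li (x 0) (x 1) (x 2) (x 3) hab hyz)
        apply hs
        apply coeff_two hF hp
        · intro t
          have : (![x 0, x 1, 0, 0] : Fin 4 → ℝ) + t • ![-x 1, x 0, 0, 0] =
              ![x 0 - t * x 1, x 1 + t * x 0, 0, 0] := by
            funext i
            fin_cases i <;> simp
            ring
          rw [this]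
          exact hpl _ _
        · have h2 : h x = H F ![x 0, x 1, 0, 0] ![0, 0, x 2, x 3] (x 4) := rfl
          rw [h2, ← hr] at h1
          exact h1.symm
  -- the minimum
  have hne : K.Nonempty := ⟨![1, 0, 1, 0, 0], by
    refine ⟨?_, ?_, ?_⟩
    · show (1 : ℝ) ^ 2 + 0 ^ 2 + 0 ^ 2 = 1
      norm_num
    · show (1 : ℝ) ^ 2 + 0 ^ 2 = 1
      norm_num
    · show (0 : ℝ) ≤ 0
      exact le_refl _⟩
  obtain ⟨x0, hx0, hmin⟩ := K_compact.exists_isMinOn hne hcont.continuousOn
  set c := h x0 with hc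
  have hc0 : 0 < c := hpos x0 hx0
  have hle : ∀ x ∈ K, c ≤ h x := fun x hx => hmin hx
  have hbound : ∀ v : Fin 4 → ℝ, c * v 2 ^ 4 ≤ eval v F := by
    intro v
    by_cases hr : v 2 ^ 2 + v 3 ^ 2 = 0
    · have h2 : v 2 = 0 := by nlinarith [sq_nonneg (v 2), sq_nonneg (v 3)]
      rw [h2]
      simpa using hp v
    · set r := Real.sqrt (v 2 ^ 2 + v 3 ^ 2) with hrdef
      have hrpos : 0 < v 2 ^ 2 + v 3 ^ 2 := lt_of_le_of_ne (by positivity) (Ne.symm hr)
      have hr0 : 0 < r := Real.sqrt_pos.mpr hrpos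
      have hr2 : r ^ 2 = v 2 ^ 2 + v 3 ^ 2 := Real.sq_sqrt hrpos.le
      set N := Real.sqrt (v 0 ^ 2 + v 1 ^ 2 + r ^ 2) with hNdef
      have hNpos : 0 < v 0 ^ 2 + v 1 ^ 2 + r ^ 2 := by positivity
      have hN0 : 0 < N := Real.sqrt_pos.mpr hNpos
      have hN2 : N ^ 2 = v 0 ^ 2 + v 1 ^ 2 + r ^ 2 := Real.sq_sqrt hNpos.le
      have hmem : (![v 0 / N, v 1 / N, v 2 / r, v 3 / r, r / N] : Fin 5 → ℝ) ∈ K := by
        refine ⟨?_, ?_, ?_⟩
        · show (v 0 / N) ^ 2 + (v 1 / N) ^ 2 + (r / N) ^ 2 = 1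
          rw [div_pow, div_pow, div_pow, ← add_div, ← add_div, ← hN2]
          exact div_self (by positivity)
        · show (v 2 / r) ^ 2 + (v 3 / r) ^ 2 = 1
          rw [div_pow, div_pow, ← add_div, ← hr2]
          exact div_self (by positivity)
        · show 0 ≤ r / N
          positivity
      have h1 := hle _ hmem
      have h2 : c ≤ H F ![v 0 / N, v 1 / N, 0, 0] ![0, 0, v 2 / r, v 3 / r] (r / N) := h1
      have h3 := expand hF hp ![v 0 / N, v 1 / N, 0, 0] ![0, 0, v 2 / r, v 3 / r]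
        (hpl _ _) (r / N)
      have h4 : (![v 0 / N, v 1 / N, 0, 0] : Fin 4 → ℝ) + (r / N) • ![0, 0, v 2 / r, v 3 / r] =
          N⁻¹ • v := by
        funext i
        fin_cases i
        · simp; ring
        · simp; ring
        · simp; field_simp
        · simp; field_simp
      rw [h4, hom_smul hF] at h3
      have h5 : eval v F = N ^ 2 * r ^ 2 *
          H F ![v 0 / N, v 1 / N, 0, 0] ![0, 0, v 2 / r, v 3 / r] (r / N) := by
        have h6 : N ^ 4 * ((N⁻¹) ^ 4 * eval v F) = eval v F := by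
          field_simp
        rw [← h6, h3]
        field_simp
      rw [h5]
      have h7 : v 2 ^ 4 ≤ N ^ 2 * r ^ 2 := by
        have h8 : v 2 ^ 2 ≤ r ^ 2 := by rw [hr2]; nlinarith [sq_nonneg (v 3)]
        have h9 : v 2 ^ 2 ≤ N ^ 2 := by
          rw [hN2]; nlinarith [sq_nonneg (v 0), sq_nonneg (v 1)]
        calc v 2 ^ 4 = v 2 ^ 2 * v 2 ^ 2 := by ring
          _ ≤ N ^ 2 * r ^ 2 := mul_le_mul h9 h8 (by positivity) (by positivity)
      calc c * v 2 ^ 4 ≤ c * (N ^ 2 * r ^ 2) := mul_le_mul_of_nonneg_left h7 hc0.le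
        _ = N ^ 2 * r ^ 2 * c := by ring
        _ ≤ _ := mul_le_mul_of_nonneg_left h2 (by positivity)
  have hG := hno (C (Real.sqrt c) * MvPolynomial.X 2 ^ 2)
    (by
      have h1 : (MvPolynomial.X (R := ℝ) (2 : Fin 4) ^ 2).IsHomogeneous (1 * 2) :=
        (MvPolynomial.isHomogeneous_X _ _).pow 2
      have h2 := (MvPolynomial.isHomogeneous_C (Fin 4) (Real.sqrt c)).mul h1
      simpa using h2)
    (by
      intro v
      have h1 := hbound v
      simp only [map_mul, map_pow, MvPolynomial.eval_C, MvPolynomial.eval_X]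
      have h2 : (Real.sqrt c * v 2 ^ 2) ^ 2 = c * v 2 ^ 4 := by
        rw [mul_pow, Real.sq_sqrt hc0.le]; ring
      rw [h2]
      exact h1)
  have h8 := congrArg (eval (fun _ : Fin 4 => (1 : ℝ))) hG
  simp at h8
  have h9 : Real.sqrt c ≠ 0 := (Real.sqrt_pos.mpr hc0).ne'
  exact h9 h8

end Pool.Agent.SBQ
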