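import Pool.Agent.SBQ.StmtsB

/-!
# SBQ: module KB
-/

set_option autoImplicit false

namespace Pool.Agent.SBQ

open MvPolynomial (eval aeval C)

namespace KB_

/-- the statement for one monomial -/
theorem mono {m : Fin 3 →₀ ℕ} (hm : m.degree = 3) (h : m 1 ≠ 0 ∨ m 2 ≠ 0) (r : ℝ) :
    ∃ c₁ c₂ : P3, c₁.IsHomogeneous 2 ∧ c₂.IsHomogeneous 2 ∧
      MvPolynomial.monomial m r = MvPolynomial.X 1 * c₁ + MvPolynomial.X 2 * c₂ := by
  classical
  have key : ∀ j : Fin 3, m j ≠ 0 → ∃ c : P3, c.IsHomogeneous 2 ∧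
      MvPolynomial.monomial m r = MvPolynomial.X j * c := by
    intro j hj
    have hle : Finsupp.single j 1 ≤ m := by
      rw [Finsupp.single_le_iff]; omega
    have h2 : Finsupp.single j 1 + (m - Finsupp.single j 1) = m := add_tsub_cancel_of_le hle
    refine ⟨MvPolynomial.monomial (m - Finsupp.single j 1) r, ?_, ?_⟩
    · refine MvPolynomial.isHomogeneous_monomial _ ?_
      have h3 := congrArg Finsupp.degree h2
      rw [map_add, Finsupp.degree_single] at h3
      omega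
    · rw [MvPolynomial.X, MvPolynomial.monomial_mul, h2, one_mul]
  rcases h with h | h
  · obtain ⟨c, hc, he⟩ := key 1 h
    exact ⟨c, 0, hc, MvPolynomial.isHomogeneous_zero _ _ _, by rw [he]; ring⟩
  · obtain ⟨c, hc, he⟩ := key 2 h
    exact ⟨0, c, MvPolynomial.isHomogeneous_zero _ _ _, hc, by rw [he]; ring⟩

theorem split {B : P3} (hB : B.IsHomogeneous 3)
    (h0 : eval (Pi.single 0 1 : Fin 3 → ℝ) B = 0) :
    ∃ c₁ c₂ : P3, c₁.IsHomogeneous 2 ∧ c₂.IsHomogeneous 2 ∧
      B = MvPolynomial.X 1 * c₁ + MvPolynomial.X 2 * c₂ := by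
  classical
  have hdeg : ∀ m ∈ B.support, m.degree = 3 := by
    intro m hm
    by_contra hne
    exact (MvPolynomial.mem_support_iff.mp hm) (hB.coeff_eq_zero hne)
  have hone : ∀ m ∈ B.support, m 1 = 0 → m 2 = 0 → m = Finsupp.single 0 3 := by
    intro m hm h1 h2
    have h3 := hdeg m hm
    rw [Finsupp.degree_eq_sum, Fin.sum_univ_three, h1, h2] at h3
    ext j
    fin_cases j
    · simpa using h3
    · simpa using h1
    · simpa using h2
  have hsupp : ∀ m ∈ B.support, m 1 ≠ 0 ∨ m 2 ≠ 0 := by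
    intro m hm
    by_contra hcon
    push Not at hcon
    have hm0 := hone m hm hcon.1 hcon.2
    rw [MvPolynomial.eval_eq'] at h0
    rw [Finset.sum_eq_single m] at h0
    · have hprod : ∏ i, (Pi.single 0 1 : Fin 3 → ℝ) i ^ m i = 1 := by
        rw [Fin.prod_univ_three, hcon.1, hcon.2]
        simp
      rw [hprod, mul_one] at h0
      exact (MvPolynomial.mem_support_iff.mp hm) h0
    · intro m' hm' hne
      have h1 : m' 1 ≠ 0 ∨ m' 2 ≠ 0 := by
        by_contra hcon'
        push Not at hcon'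
        exact hne ((hone m' hm' hcon'.1 hcon'.2).trans hm0.symm)
      rw [Fin.prod_univ_three]
      rcases h1 with h1 | h1
      · have : (Pi.single 0 1 : Fin 3 → ℝ) 1 = 0 := by simp
        rw [this, zero_pow h1]
        ring
      · have : (Pi.single 0 1 : Fin 3 → ℝ) 2 = 0 := by simp
        rw [this, zero_pow h1]
        ring
    · intro hcon'
      exact absurd hm hcon'
  have hsum : B = ∑ m ∈ B.support, MvPolynomial.monomial m (MvPolynomial.coeff m B) :=
    B.as_sum
  rw [hsum]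
  refine Finset.sum_induction _ (fun p : P3 => ∃ c₁ c₂ : P3, c₁.IsHomogeneous 2 ∧
    c₂.IsHomogeneous 2 ∧ p = MvPolynomial.X 1 * c₁ + MvPolynomial.X 2 * c₂) ?_ ?_ ?_
  · rintro p q ⟨c₁, c₂, h1, h2, rfl⟩ ⟨d₁, d₂, h3, h4, rfl⟩
    exact ⟨c₁ + d₁, c₂ + d₂, h1.add h3, h2.add h4, by ring⟩
  · exact ⟨0, 0, MvPolynomial.isHomogeneous_zero _ _ _, MvPolynomial.isHomogeneous_zero _ _ _,
      by ring⟩
  · intro m hm
    exact mono (hdeg m hm) (hsupp m hm) _

end KB_

open KB_ in
theorem kb_proof : Stmt_KB := by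
  intro F B D hF hE
  refine split hE.2.1 ?_
  have h1 := (hE.facts hF).2.2 (Pi.single 0 1)
  have h2 : eval (Pi.single 0 1 : Fin 3 → ℝ) Ayz = 0 := by
    simp [Ayz]
  rw [h2, zero_mul] at h1
  exact pow_eq_zero_iff (two_ne_zero) |>.mp (le_antisymm h1 (sq_nonneg _))

end Pool.Agent.SBQ
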