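import Pool.Agent.SBQ.StmtsB

/-!
# SBQ.KC: finitely many zeros from finitely many zeros of the discriminant (helper80)
-/

namespace Pool.Agent.SBQ

open MvPolynomial (eval aeval C)

namespace KC_

theorem sum_cons {n : ℕ} (w : ℝ) (v : Fin n → ℝ) :
    ∑ j, (Fin.cons w v : Fin (n + 1) → ℝ) j ^ 2 = w ^ 2 + ∑ j, v j ^ 2 := by
  rw [Fin.sum_univ_succ]
  simp

theorem li_cons (v : Fin 3 → ℝ) (hv : v ≠ 0) :
    LinearIndependent ℝ ![(Fin.cons 1 0 : Fin 4 → ℝ), (Fin.cons 0 v : Fin 4 → ℝ)] := by
  rw [LinearIndependent.pair_iff]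
  intro s t h
  have h0 := congrFun h 0
  simp only [Pi.add_apply, Pi.smul_apply, smul_eq_mul, Fin.cons_zero, Pi.zero_apply] at h0
  have hs : s = 0 := by linarith
  refine ⟨hs, ?_⟩
  obtain ⟨j, hj⟩ := Function.ne_iff.mp hv
  have h1 := congrFun h j.succ
  simp only [Pi.add_apply, Pi.smul_apply, smul_eq_mul, Fin.cons_succ, Pi.zero_apply, mul_zero,
    zero_add] at h1
  exact (mul_eq_zero.mp h1).resolve_right hj

end KC_

open KC_ in
theorem kc_proof : Stmt_KC := by
  intro F A B D hF hpsd hE hplane hfin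
  unfold FinZ at *
  obtain ⟨hA, hD, hBAD⟩ := hE.facts hpsd
  set g : (Fin 3 → ℝ) → (Fin 4 → ℝ) := fun d =>
    Fin.cons (-((Real.sqrt (1 + (eval d B / eval d A) ^ 2))⁻¹ * (eval d B / eval d A)))
      ((Real.sqrt (1 + (eval d B / eval d A) ^ 2))⁻¹ • d) with hg
  refine ((hfin.image g).union (Set.toFinite
    {(Fin.cons 1 0 : Fin 4 → ℝ), (Fin.cons (-1) 0 : Fin 4 → ℝ)})).subset ?_
  rintro x ⟨hx0, hx1⟩
  obtain ⟨w, v, rfl⟩ : ∃ w v, x = (Fin.cons w v : Fin 4 → ℝ) :=
    ⟨x 0, Fin.tail x, (Fin.cons_self_tail x).symm⟩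
  rw [sum_cons] at hx1
  have hdisc := hE.disc w v
  rw [hx0, mul_zero] at hdisc
  have hle := hBAD v
  have hwAB : w * eval v A + eval v B = 0 := by
    have : (w * eval v A + eval v B) ^ 2 = 0 := by
      have h1 := sq_nonneg (w * eval v A + eval v B)
      linarith
    exact pow_eq_zero_iff two_ne_zero |>.mp this
  have hdel : eval v A * eval v D - eval v B ^ 2 = 0 := by
    rw [hwAB] at hdisc; linarith
  by_cases hv : v = 0
  · right
    subst hv
    simp only [Pi.zero_apply, ne_eq, OfNat.ofNat_ne_zero, not_false_eq_true, zero_pow,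
      Finset.sum_const_zero, add_zero] at hx1
    have hw : w = 1 ∨ w = -1 := by
      have h2 : (w - 1) * (w + 1) = 0 := by linarith [hx1, show (w - 1) * (w + 1) = w ^ 2 - 1 by ring]
      rcases mul_eq_zero.mp h2 with h | h
      · left; linarith
      · right; linarith
    rcases hw with rfl | rfl
    · simp
    · simp
  · left
    have hpos : 0 < ∑ j, v j ^ 2 := by
      obtain ⟨j, hj⟩ := Function.ne_iff.mp hv
      have hj' : 0 < v j ^ 2 := by
        have : v j ≠ 0 := hj
        positivity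
      exact lt_of_lt_of_le hj' (Finset.single_le_sum (f := fun j => v j ^ 2)
        (fun i _ => sq_nonneg _) (Finset.mem_univ j))
    have hAne : eval v A ≠ 0 := by
      intro hA0
      have hB0 : eval v B = 0 := by
        rw [hA0, zero_mul] at hle
        exact pow_eq_zero_iff two_ne_zero |>.mp (le_antisymm hle (sq_nonneg _))
      have hD0 : eval v D = 0 := by
        have := hE.2.2.2 w v
        rw [hx0, hA0, hB0] at this
        linarith
      obtain ⟨a, b, hab⟩ := hplane _ _ (li_cons v hv)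
      apply hab
      have hcons : a • (Fin.cons 1 0 : Fin 4 → ℝ) + b • (Fin.cons 0 v : Fin 4 → ℝ) =
          Fin.cons a (b • v) := by
        funext j
        refine Fin.cases ?_ (fun j => ?_) j
        · simp
        · simp
      rw [hcons, hE.2.2.2, hom_smul hE.1, hom_smul hE.2.1, hom_smul hE.2.2.1, hA0, hB0, hD0]
      ring
    set r := Real.sqrt (∑ j, v j ^ 2) with hr
    have hr0 : 0 < r := Real.sqrt_pos.mpr hpos
    have hr2 : r ^ 2 = ∑ j, v j ^ 2 := Real.sq_sqrt hpos.le
    set d : Fin 3 → ℝ := r⁻¹ • v with hd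
    have hvd : v = r • d := by
      rw [hd, smul_smul, mul_inv_cancel₀ hr0.ne', one_smul]
    have hAd : eval v A = r ^ 2 * eval d A := by
      conv_lhs => rw [hvd]
      rw [hom_smul hE.1]
    have hBd : eval v B = r ^ 3 * eval d B := by
      conv_lhs => rw [hvd]
      rw [hom_smul hE.2.1]
    have hDd : eval v D = r ^ 4 * eval d D := by
      conv_lhs => rw [hvd]
      rw [hom_smul hE.2.2.1]
    have hAd0 : eval d A ≠ 0 := by
      intro h
      apply hAne
      rw [hAd, h, mul_zero]
    refine ⟨d, ⟨?_, ?_⟩, ?_⟩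
    · rw [hAd, hDd, hBd] at hdel
      have h6 : r ^ 6 * (eval d A * eval d D - eval d B ^ 2) = 0 := by
        rw [← hdel]; ring
      have := (mul_eq_zero.mp h6).resolve_left (pow_ne_zero _ hr0.ne')
      simpa using this
    · simp only [hd, Pi.smul_apply, smul_eq_mul, mul_pow, ← Finset.mul_sum]
      rw [← hr2]
      field_simp
    · have hw : w = -(r * (eval d B / eval d A)) := by
        rw [hAd, hBd] at hwAB
        have h3 : r ^ 2 * (w * eval d A + r * eval d B) = 0 := by
          rw [← hwAB]; ring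
        have h4 := (mul_eq_zero.mp h3).resolve_left (pow_ne_zero _ hr0.ne')
        field_simp
        linarith
      have hrr : r = (Real.sqrt (1 + (eval d B / eval d A) ^ 2))⁻¹ := by
        have h5 : r ^ 2 * (1 + (eval d B / eval d A) ^ 2) = 1 := by
          have h55 := hx1
          rw [hw, ← hr2] at h55
          linear_combination h55
        have h6 : 0 < 1 + (eval d B / eval d A) ^ 2 := by positivity
        have h7 : Real.sqrt (1 + (eval d B / eval d A) ^ 2) = r⁻¹ := by
          rw [Real.sqrt_eq_iff_mul_self_eq h6.le (inv_pos.mpr hr0).le]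
          have h8 : r⁻¹ * r⁻¹ = r⁻¹ ^ 2 * (r ^ 2 * (1 + (eval d B / eval d A) ^ 2)) := by
            rw [h5]; ring
          rw [h8, ← mul_assoc, ← mul_pow, inv_mul_cancel₀ hr0.ne']
          ring
        rw [h7, inv_inv]
      simp only [hg]
      rw [← hrr, ← hw, ← hvd]

end Pool.Agent.SBQ
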