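import Pool.Agent.SBQ.StmtsB

/-!
# SBQ, module KD: the discriminant of a rigid form is not zero
-/

namespace Pool.Agent.SBQ

open MvPolynomial (eval aeval C)

namespace KD_

theorem ayz_hom : Ayz.IsHomogeneous 2 :=
  (MvPolynomial.isHomogeneous_X_pow _ _).add (MvPolynomial.isHomogeneous_X_pow _ _)

theorem ayz_ne : Ayz ≠ 0 := by
  intro h
  have := congrArg (eval (![0, 1, 0] : Fin 3 → ℝ)) h
  simp [Ayz] at this

/-- homogeneous quotient by `Ayz` -/
theorem quot (hHF : Stmt_HF) (G : P3) (m : ℕ) (hG : G.IsHomogeneous m) (hd : Ayz ∣ G) :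
    ∃ η : P3, G = Ayz * η ∧ (m < 2 → η = 0) ∧ (2 ≤ m → η.IsHomogeneous (m - 2)) := by
  by_cases h0 : G = 0
  · exact ⟨0, by simp [h0], fun _ => rfl, fun _ => MvPolynomial.isHomogeneous_zero _ _ _⟩
  · obtain ⟨η, hη⟩ := hd
    have hne : Ayz * η ≠ 0 := hη ▸ h0
    obtain ⟨a, b, hab, ha, hb⟩ := hHF 3 m Ayz η hne (hη ▸ hG)
    have ha2 : a = 2 := ha.inj_right ayz_hom ayz_ne
    refine ⟨η, hη, fun hm => by omega, fun hm => ?_⟩
    have : m - 2 = b := by omega
    rw [this]; exact hb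

end KD_

open KD_

theorem kd_proof (hRA : Stmt_RA) (hHF : Stmt_HF) : Stmt_KD := by
  intro F B D hF hE h0
  have hBD : Ayz * D = B ^ 2 := sub_eq_zero.mp h0
  have h1 : rho B = 0 := by
    have := congrArg rho hBD
    rw [map_mul, hRA.1, zero_mul, map_pow] at this
    exact pow_eq_zero_iff (two_ne_zero) |>.mp this.symm
  obtain ⟨b, hb, _, hb2⟩ := quot hHF B 3 hE.2.1 (hRA.2 _ h1)
  have hb1 : b.IsHomogeneous 1 := hb2 (by norm_num)
  have hD : D = Ayz * b ^ 2 := by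
    apply mul_left_cancel₀ ayz_ne
    rw [hBD, hb]; ring
  apply hF.absurd (l := MvPolynomial.X 1) (m := MvPolynomial.X 1 * b)
    (MvPolynomial.isHomogeneous_X _ _) ((MvPolynomial.isHomogeneous_X ℝ (1 : Fin 3)).mul hb1)
    (Or.inl (MvPolynomial.X_ne_zero _))
  intro w v
  rw [hE.2.2.2, hD, hb]
  simp only [Ayz, map_mul, map_add, map_pow, MvPolynomial.eval_X]
  nlinarith [sq_nonneg (v 2 * (w + eval v b))]

end Pool.Agent.SBQ
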