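import Pool.Agent.SBQ.StmtsB

/-! # SBQ, KF: rigid forms have finitely many zeros -/

namespace Pool.Agent.SBQ

open MvPolynomial (eval aeval C)

namespace KF_

lemma single_eq_cons : (Pi.single 0 1 : Fin 4 → ℝ) = Fin.cons 1 (0 : Fin 3 → ℝ) := by
  funext j
  refine Fin.cases ?_ (fun j => ?_) j
  · simp
  · simp

lemma symm_near (T : (Fin 4 → ℝ) ≃ₗ[ℝ] (Fin 4 → ℝ)) (p : Fin 4 → ℝ) (ε : ℝ) (hε : 0 < ε) :
    ∃ δ : ℝ, 0 < δ ∧ ∀ v : Fin 4 → ℝ, (∀ j, |v j - p j| < δ) →
      ∀ j, |T.symm v j - T.symm p j| < ε := by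
  have hcont : Continuous (fun v : Fin 4 → ℝ => T.symm v) :=
    LinearMap.continuous_of_finiteDimensional (T.symm : (Fin 4 → ℝ) →ₗ[ℝ] (Fin 4 → ℝ))
  obtain ⟨δ, hδ, h⟩ := Metric.continuous_iff.1 hcont p ε hε
  refine ⟨δ, hδ, fun v hv j => ?_⟩
  have h1 : dist v p < δ := by
    rw [dist_pi_lt_iff hδ]
    intro j
    rw [Real.dist_eq]
    exact hv j
  have h2 := h v h1
  rw [dist_pi_lt_iff hε] at h2
  have h3 := h2 j
  rwa [Real.dist_eq] at h3

end KF_

open KF_ in
theorem kf_proof (hKL : Stmt_KL) (hKD : Stmt_KD) (hKI : Stmt_KI) (hKP : Stmt_KP) (hNZ : Stmt_NZ)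
    (hAC : Stmt_AC) (hLP : Stmt_LP) (hKC : Stmt_KC) : Stmt_KF := by
  intro F hF
  by_contra hnot
  obtain ⟨p, hp0, hpF, hacc⟩ := hAC F hF.1 hnot
  obtain ⟨T, A, B, D, hT, hE, hA⟩ := hNZ F hF p hp0 hpF
  have hR : Rig (pull (T : (Fin 4 → ℝ) →ₗ[ℝ] (Fin 4 → ℝ)) F) := Rig.pull hF T
  rcases hA with hA | hA
  · obtain ⟨c, δ, hc, hδ, hlow⟩ := hLP _ A B D hE hA
    have hTp : T.symm p = Pi.single 0 1 := by rw [← hT, LinearEquiv.symm_apply_apply]
    obtain ⟨δ', hδ', hnear⟩ := symm_near T p (min (1 / 2) (δ / 2)) (by positivity)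
    obtain ⟨v, hvF, hLI, hvp⟩ := hacc δ' hδ'
    have hw := hnear v hvp
    set w := T.symm v with hwdef
    have hw0 : |w 0 - 1| < 1 / 2 := by
      have := hw 0
      rw [hTp] at this
      simp only [Pi.single_eq_same] at this
      exact lt_of_lt_of_le this (min_le_left _ _)
    have hw0' : 1 / 2 < w 0 := by
      have := (abs_lt.1 hw0).1
      linarith
    have hws : ∀ j : Fin 3, |w j.succ| < δ / 2 := by
      intro j
      have := hw j.succ
      rw [hTp] at this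
      have h0 : (Pi.single 0 1 : Fin 4 → ℝ) j.succ = 0 := by simp
      rw [h0, sub_zero] at this
      exact lt_of_lt_of_le this (min_le_right _ _)
    have hpos : 0 < w 0 := by linarith
    have hcons : w = w 0 • (Fin.cons 1 (fun j => w (Fin.succ j) / w 0) : Fin 4 → ℝ) := by
      funext j
      refine Fin.cases ?_ (fun j => ?_) j
      · simp
      · simp
        field_simp
    have hz : eval w (pull (T : (Fin 4 → ℝ) →ₗ[ℝ] (Fin 4 → ℝ)) F) = 0 := by
      rw [eval_pull]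
      have : (T : (Fin 4 → ℝ) →ₗ[ℝ] (Fin 4 → ℝ)) w = v := by
        rw [hwdef]; simp
      rw [this, hvF]
    rw [hcons, hom_smul hR.1] at hz
    have hz' : eval (Fin.cons 1 (fun j => w (Fin.succ j) / w 0) : Fin 4 → ℝ)
        (pull (T : (Fin 4 → ℝ) →ₗ[ℝ] (Fin 4 → ℝ)) F) = 0 := by
      rcases mul_eq_zero.1 hz with h | h
      · exact absurd (pow_eq_zero_iff (by norm_num) |>.1 h) (ne_of_gt hpos)
      · exact h
    have hb := hlow (fun j => w (Fin.succ j) / w 0) (fun j => by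
      rw [abs_div, abs_of_pos hpos, div_lt_iff₀ hpos]
      have := hws j
      nlinarith)
    rw [hz'] at hb
    have hsum : ∑ j : Fin 3, (w (Fin.succ j) / w 0) ^ 2 = 0 := by
      have h1 : 0 ≤ ∑ j : Fin 3, (w (Fin.succ j) / w 0) ^ 2 :=
        Finset.sum_nonneg (fun j _ => sq_nonneg _)
      nlinarith
    have hall : ∀ j : Fin 3, w (Fin.succ j) = 0 := by
      intro j
      have := (Finset.sum_eq_zero_iff_of_nonneg (fun j _ => sq_nonneg _)).1 hsum j
        (Finset.mem_univ j)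
      have h2 := pow_eq_zero_iff (by norm_num) |>.1 this
      rcases div_eq_zero_iff.1 h2 with h | h
      · exact h
      · exact absurd h (ne_of_gt hpos)
    have hwe : w = w 0 • (Pi.single 0 1 : Fin 4 → ℝ) := by
      funext j
      refine Fin.cases ?_ (fun j => ?_) j
      · simp
      · rw [hall j]; simp
    have hv : v = w 0 • p := by
      have h1 : T w = v := by rw [hwdef]; simp
      rw [← h1, ← hT, ← map_smul, ← hwe]
    rw [LinearIndependent.pair_iff] at hLI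
    have := hLI (w 0) (-1) (by rw [hv]; simp)
    norm_num at this
  · subst hA
    have hnf : ¬ FinZ (pull (T : (Fin 4 → ℝ) →ₗ[ℝ] (Fin 4 → ℝ)) F) := fun h =>
      hnot (FinZ.of_pull T hF.1 (by norm_num) h)
    have hnd : ¬ FinZ (Ayz * D - B ^ 2) := fun h =>
      hnf (hKC _ Ayz B D hR.1 hR.2.1 hE (fun p u hpu => hKL _ hR p u hpu) h)
    have hhom : (Ayz * D - B ^ 2).IsHomogeneous 6 := by
      have h1 := hE.1.mul hE.2.2.1
      have h2 := hE.2.1.pow 2
      exact h1.sub h2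
    have hpsd : Psd (Ayz * D - B ^ 2) := by
      intro v
      have := (Exp.facts hE hR.2.1).2.2 v
      simp only [map_sub, map_mul, map_pow]
      linarith
    obtain ⟨ψ, e, h1, h2, h3, h4⟩ := hKI _ 6 hhom hpsd (hKD _ B D hR hE) hnd
    exact hKP _ B D ψ e hR hE h2 h1 h3 h4

end Pool.Agent.SBQ
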