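import Pool.Agent.SBQ.StmtsB

set_option autoImplicit false

/-!
# SBQ, module KI: a double factor of a nonnegative ternary form with infinitely many zeros
-/

namespace Pool.Agent.SBQ

open MvPolynomial (eval aeval C)

namespace KI_

theorem deriv_comp {n : ℕ} (p : Fin n → ℝ) (j : Fin n) (F : MvPolynomial (Fin n) ℝ) :
    Polynomial.derivative (comp (ray p (Pi.single j 1)) F) =
      comp (ray p (Pi.single j 1)) (MvPolynomial.pderiv j F) := by
  induction F using MvPolynomial.induction_on with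
  | C a => rw [comp_C, MvPolynomial.pderiv_C, Polynomial.derivative_C]; simp [comp]
  | add F G hF hG => rw [comp_add, Polynomial.derivative_add, hF, hG, map_add, comp_add]
  | mul_X F i hF =>
    rw [comp_mul, Polynomial.derivative_mul, hF, MvPolynomial.pderiv_mul, comp_add, comp_mul,
      comp_mul, comp_X]
    congr 2
    by_cases hij : i = j
    · subst hij
      rw [MvPolynomial.pderiv_X_self]
      simp [ray, comp]
    · rw [MvPolynomial.pderiv_X_of_ne hij]
      simp [ray, comp, hij]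

theorem pderiv_zero {n : ℕ} {F : MvPolynomial (Fin n) ℝ} (hF : Psd F) (j : Fin n)
    {v : Fin n → ℝ} (hv : eval v F = 0) : eval v (MvPolynomial.pderiv j F) = 0 := by
  have h1 : (Polynomial.X : U1) ^ 2 ∣ comp (ray v (Pi.single j 1)) F := by
    apply sq_dvd_comp hF
    rw [at0_ray]; exact hv
  have h2 : (comp (ray v (Pi.single j 1)) F).coeff 1 = 0 :=
    (Polynomial.X_pow_dvd_iff.1 h1) 1 (by norm_num)
  have h3 := comp_coeff_zero (ray v (Pi.single j 1)) (MvPolynomial.pderiv j F)
  rw [at0_ray, ← deriv_comp, Polynomial.coeff_derivative, zero_add, h2, zero_mul] at h3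
  exact h3.symm

theorem unit_eval {n : ℕ} {u : MvPolynomial (Fin n) ℝ} (hu : IsUnit u) (v : Fin n → ℝ) :
    eval v u ≠ 0 := (hu.map (eval v)).ne_zero

theorem finZ_unit {n : ℕ} {u : MvPolynomial (Fin n) ℝ} (hu : IsUnit u) : FinZ u := by
  unfold FinZ
  have h : {v : Fin n → ℝ | eval v u = 0 ∧ ∑ j, v j ^ 2 = 1} = ∅ := by
    ext v
    constructor
    · rintro ⟨h1, _⟩
      exact absurd h1 (unit_eval hu v)
    · intro h
      exact absurd h (Set.notMem_empty v)
  rw [h]
  exact Set.finite_empty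

theorem finZ_mul {n : ℕ} {a b : MvPolynomial (Fin n) ℝ} (ha : FinZ a) (hb : FinZ b) :
    FinZ (a * b) := by
  unfold FinZ
  refine (Set.Finite.union ha hb).subset ?_
  rintro v ⟨h1, h2⟩
  rw [map_mul] at h1
  rcases mul_eq_zero.1 h1 with h3 | h3
  · left; exact ⟨h3, h2⟩
  · right; exact ⟨h3, h2⟩

theorem exists_factor {n : ℕ} (D : MvPolynomial (Fin n) ℝ) (hD : D ≠ 0) (hZ : ¬ FinZ D) :
    ∃ ψ : MvPolynomial (Fin n) ℝ, Irreducible ψ ∧ ψ ∣ D ∧ ¬ FinZ ψ := by
  induction D using WfDvdMonoid.induction_on_irreducible with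
  | zero => exact absurd rfl hD
  | unit u hu => exact absurd (finZ_unit hu) hZ
  | mul a i ha hi IH =>
    by_cases h1 : FinZ i
    · have h2 : ¬ FinZ a := fun h => hZ (finZ_mul h1 h)
      obtain ⟨ψ, h3, h4, h5⟩ := IH ha h2
      exact ⟨ψ, h3, h4.mul_left i, h5⟩
    · exact ⟨i, hi, dvd_mul_right i a, h1⟩

end KI_

open KI_ in
theorem ki_proof (h1 : Stmt_BF) (h2 : Stmt_HF) : Stmt_KI := by
  intro D d hD hP hD0 hZ
  obtain ⟨ψ, hirr, ⟨D1, hD1⟩, hψ⟩ := exists_factor D hD0 hZ
  have hne : ψ * D1 ≠ 0 := by rw [← hD1]; exact hD0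
  obtain ⟨e, e', _, hψe, hD1e⟩ := h2 3 d ψ D1 hne (by rw [← hD1]; exact hD)
  refine ⟨ψ, e, hψe, hirr, ?_, hψ⟩
  have hdvd : ∀ j, ψ ∣ MvPolynomial.pderiv j D := by
    intro j
    by_contra hn
    have h3 := h1 ψ (MvPolynomial.pderiv j D) e (d - 1) hψe (MvPolynomial.IsHomogeneous.pderiv hD)
      hirr hn
    apply hψ
    refine h3.subset ?_
    rintro v ⟨h4, h5⟩
    refine ⟨h4, ?_, h5⟩
    apply pderiv_zero hP
    rw [hD1, map_mul, h4, zero_mul]
  have hprime : Prime ψ := hirr.prime
  have hdvd2 : ∀ j, ψ ∣ D1 ∨ ψ ∣ MvPolynomial.pderiv j ψ := by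
    intro j
    have h3 := hdvd j
    rw [hD1, MvPolynomial.pderiv_mul] at h3
    have h4 : ψ ∣ MvPolynomial.pderiv j ψ * D1 := by
      have h5 : ψ ∣ ψ * MvPolynomial.pderiv j D1 := dvd_mul_right _ _
      exact (dvd_add_left h5).1 h3
    rcases hprime.dvd_or_dvd h4 with h5 | h5
    · right; exact h5
    · left; exact h5
  by_cases hc : ψ ∣ D1
  · obtain ⟨D2, hD2⟩ := hc
    exact ⟨D2, by rw [hD1, hD2]; ring⟩
  · exfalso
    have hall : ∀ j, MvPolynomial.pderiv j ψ = 0 := by
      intro j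
      by_contra hn
      rcases hdvd2 j with h3 | h3
      · exact hc h3
      · obtain ⟨c, hc'⟩ := h3
        have hc0 : c ≠ 0 := by
          rintro rfl
          exact hn (by rw [hc', mul_zero])
        have h4 : (MvPolynomial.pderiv j ψ).totalDegree = ψ.totalDegree + c.totalDegree := by
          rw [hc', MvPolynomial.totalDegree_mul_of_isDomain hirr.ne_zero hc0]
        have h5 : (MvPolynomial.pderiv j ψ).totalDegree = e - 1 :=
          (MvPolynomial.IsHomogeneous.pderiv hψe).totalDegree hn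
        have h6 : ψ.totalDegree = e := hψe.totalDegree hirr.ne_zero
        have h7 : e = 0 := by omega
        have h8 : ψ = C (MvPolynomial.coeff 0 ψ) :=
          MvPolynomial.totalDegree_eq_zero_iff_eq_C.1 (by rw [h6, h7])
        rw [h8, MvPolynomial.pderiv_C] at hn
        exact hn rfl
    have h3 := hψe.sum_X_mul_pderiv
    simp only [hall, mul_zero, Finset.sum_const_zero] at h3
    rcases Nat.eq_zero_or_pos e with he | he
    · have h6 : ψ.totalDegree = 0 := by rw [hψe.totalDegree hirr.ne_zero, he]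
      have h8 : ψ = C (MvPolynomial.coeff 0 ψ) := MvPolynomial.totalDegree_eq_zero_iff_eq_C.1 h6
      apply hirr.not_isUnit
      rw [h8]
      apply IsUnit.map
      apply IsUnit.mk0
      intro h9
      rw [h9, map_zero] at h8
      exact hirr.ne_zero h8
    · have h9 : (e : P3) * ψ = 0 := by rw [← nsmul_eq_mul]; exact h3.symm
      rcases mul_eq_zero.1 h9 with h10 | h10
      · have h11 : (e : P3) ≠ 0 := Nat.cast_ne_zero.2 (by omega)
        exact h11 h10
      · exact hirr.ne_zero h10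

end Pool.Agent.SBQ
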