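import Pool.Agent.SBQ.StmtsB

/-!
# SBQ module KL: a rigid form does not vanish on a plane
-/

namespace Pool.Agent.SBQ

open MvPolynomial (eval aeval C)

namespace KL_

theorem map_two (T : (Fin 4 → ℝ) ≃ₗ[ℝ] (Fin 4 → ℝ)) (i j : Fin 4) (a b : ℝ) :
    T (a • (Pi.single i (1 : ℝ) : Fin 4 → ℝ) + b • (Pi.single j (1 : ℝ) : Fin 4 → ℝ)) =
      a • T (Pi.single i 1) + b • T (Pi.single j 1) := by
  rw [map_add, map_smul, map_smul]

theorem vec01 (a b : ℝ) : (![a, b, 0, 0] : Fin 4 → ℝ) =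
    a • (Pi.single 0 (1 : ℝ) : Fin 4 → ℝ) + b • (Pi.single 1 (1 : ℝ) : Fin 4 → ℝ) := by
  funext j
  fin_cases j <;> simp

theorem vec12 (a b : ℝ) : (![0, a, b, 0] : Fin 4 → ℝ) =
    a • (Pi.single 1 (1 : ℝ) : Fin 4 → ℝ) + b • (Pi.single 2 (1 : ℝ) : Fin 4 → ℝ) := by
  funext j
  fin_cases j <;> simp

theorem li3 (v : Fin 4 → ℝ) (hv : v 2 ≠ 0 ∨ v 3 ≠ 0) :
    LinearIndependent ℝ ![v, (Pi.single 0 (1 : ℝ) : Fin 4 → ℝ), Pi.single 1 (1 : ℝ)] := by
  rw [Fintype.linearIndependent_iff]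
  intro g hg
  simp only [Fin.sum_univ_three, Matrix.cons_val_zero, Matrix.cons_val_one,
    Matrix.cons_val_two, Matrix.head_cons, Matrix.tail_cons] at hg
  have e0 := congrFun hg 0
  have e1 := congrFun hg 1
  have e2 := congrFun hg 2
  have e3 := congrFun hg 3
  simp at e0 e1 e2 e3
  have hg0 : g 0 = 0 := by
    rcases hv with h | h
    · rcases e2 with h2 | h2
      · exact h2
      · exact absurd h2 h
    · rcases e3 with h3 | h3
      · exact h3
      · exact absurd h3 h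
  rw [hg0] at e0 e1
  simp at e0 e1
  intro i
  fin_cases i
  · exact hg0
  · exact e0
  · exact e1

end KL_

theorem kl_proof (h1 : Stmt_RK) (h2 : Stmt_K1) (h3 : Stmt_K2) : Stmt_KL := by
  intro F hF p u hli
  by_contra hcon
  push Not at hcon
  obtain ⟨T, hT⟩ := exists_equiv (n := 4) (by omega) ![p, u] hli
  have hT0 : T (Pi.single 0 1) = p := by simpa using hT 0
  have hT1 : T (Pi.single 1 1) = u := by simpa using hT 1
  have hF' := hF.pull T
  have hpl : ∀ a b : ℝ, eval ![a, b, 0, 0]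
      (pull (T : (Fin 4 → ℝ) →ₗ[ℝ] (Fin 4 → ℝ)) F) = 0 := by
    intro a b
    rw [eval_pull, LinearEquiv.coe_coe, KL_.vec01, KL_.map_two, hT0, hT1]
    exact hcon a b
  obtain ⟨v, hv0, hv⟩ := h3 _ hF' (h1 _ hF') hpl
  obtain ⟨T2, hT2⟩ := exists_equiv (n := 4) (by omega) _ (KL_.li3 v hv)
  have hA : T2 (Pi.single 0 1) = v := by simpa using hT2 0
  have hB : T2 (Pi.single 1 1) = Pi.single 0 1 := by simpa using hT2 1
  have hC : T2 (Pi.single 2 1) = Pi.single 1 1 := by simpa using hT2 2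
  refine h2 _ (hF'.pull T2) ?_ ?_
  · rw [eval_pull, LinearEquiv.coe_coe, hA]
    exact hv0
  · intro a b
    rw [eval_pull, LinearEquiv.coe_coe, KL_.vec12, KL_.map_two, hB, hC, ← KL_.vec01]
    exact hpl a b

end Pool.Agent.SBQ
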