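import Pool.Agent.SBQ.StmtsB

/-!
# SBQ.KM: application of Finsler's lemma
-/

namespace Pool.Agent.SBQ

open MvPolynomial (eval aeval C)

namespace KM_

theorem eval_Ayz (v : Fin 3 → ℝ) : eval v Ayz = v 1 ^ 2 + v 2 ^ 2 := by
  simp [Ayz]

/-- `η(1,0,0) ≥ 0` when `c(1,0,0) = 0` -/
theorem base (c η : P3) (hc : c.IsHomogeneous 2) (hη : η.IsHomogeneous 2)
    (h : Psd (c ^ 2 + Ayz * η)) (h0 : eval (Pi.single 0 1 : Fin 3 → ℝ) c = 0) :
    0 ≤ eval (Pi.single 0 1 : Fin 3 → ℝ) η := by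
  set e : Fin 3 → ℝ := Pi.single 0 1 with he
  obtain ⟨φ, hφ⟩ := pol_lin hc e
  have hex : ∃ u : Fin 3 → ℝ, u 0 = 0 ∧ φ u = 0 ∧ 0 < u 1 ^ 2 + u 2 ^ 2 := by
    by_cases h1 : φ (Pi.single 1 1) = 0
    · refine ⟨Pi.single 1 1, by simp, h1, by simp⟩
    · refine ⟨φ (Pi.single 2 1) • Pi.single 1 1 - φ (Pi.single 1 1) • Pi.single 2 1, ?_, ?_, ?_⟩
      · simp
      · rw [map_sub, map_smul, map_smul, smul_eq_mul, smul_eq_mul]; ring
      · have : 0 < φ (Pi.single 1 1) ^ 2 := by positivity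
        have h2 : 0 ≤ φ (Pi.single 2 1) ^ 2 := sq_nonneg _
        simp
        linarith
  obtain ⟨u, hu0, hu1, hu2⟩ := hex
  set g : ℝ → ℝ := fun s => s ^ 2 * (eval u c) ^ 2 +
    (u 1 ^ 2 + u 2 ^ 2) * (eval e η + 2 * s * pol η e u + s ^ 2 * eval u η) with hg
  have hcont : Continuous g := by
    rw [hg]; fun_prop
  have hpos : ∀ s : ℝ, 0 < s → 0 ≤ g s := by
    intro s hs
    have h1 := h ((1 : ℝ) • e + s • u)
    rw [map_add, map_pow, map_mul, hom2_add hc, hom2_add hη, h0, hφ u, hu1, eval_Ayz] at h1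
    have h2 : ((1 : ℝ) • e + s • u) 1 = s * u 1 := by simp [he]
    have h3 : ((1 : ℝ) • e + s • u) 2 = s * u 2 := by simp [he]
    rw [h2, h3] at h1
    have h4 : (1 ^ 2 * 0 + 2 * 1 * s * 0 + s ^ 2 * eval u c) ^ 2 +
        ((s * u 1) ^ 2 + (s * u 2) ^ 2) *
          (1 ^ 2 * eval e η + 2 * 1 * s * pol η e u + s ^ 2 * eval u η) = s ^ 2 * g s := by
      rw [hg]; ring
    rw [h4] at h1
    exact nonneg_of_mul_nonneg_right h1 (by positivity)
  have hlim : Filter.Tendsto g (nhdsWithin 0 (Set.Ioi 0)) (nhds (g 0)) :=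
    (hcont.tendsto 0).mono_left nhdsWithin_le_nhds
  have hg0 : 0 ≤ g 0 := by
    apply ge_of_tendsto hlim
    filter_upwards [self_mem_nhdsWithin] with s hs
    exact hpos s hs
  have h5 : g 0 = (u 1 ^ 2 + u 2 ^ 2) * eval e η := by rw [hg]; ring
  rw [h5] at hg0
  exact nonneg_of_mul_nonneg_right hg0 hu2

/-- the embedding of the indices -/
def ι (i : Fin 3) : Fin 5 := Fin.castLE (by norm_num) i

theorem vec_eq (v : Fin 3 → ℝ) (h1 : v 1 = 0) (h2 : v 2 = 0) :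
    v = v 0 • (Pi.single 0 1 : Fin 3 → ℝ) := by
  funext j
  fin_cases j
  · simp
  · simp [h1]
  · simp [h2]

end KM_

open KM_ in
theorem km_proof (h1 : Stmt_FN) : Stmt_KM := by
  intro c η hc hη h
  -- the two quadratic forms
  set p1 : MvPolynomial (Fin 5) ℝ := MvPolynomial.X 3 ^ 2 + MvPolynomial.X 4 ^ 2 +
    MvPolynomial.rename ι η with hp1
  set p2 : MvPolynomial (Fin 5) ℝ := MvPolynomial.X 2 * MvPolynomial.X 3 -
    MvPolynomial.X 1 * MvPolynomial.X 4 - MvPolynomial.rename ι c with hp2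
  have hX : ∀ i j : Fin 5, (MvPolynomial.X i * MvPolynomial.X j :
      MvPolynomial (Fin 5) ℝ).IsHomogeneous 2 := fun i j =>
    (MvPolynomial.isHomogeneous_X ℝ i).mul (MvPolynomial.isHomogeneous_X ℝ j)
  have hX2 : ∀ i : Fin 5, (MvPolynomial.X i ^ 2 :
      MvPolynomial (Fin 5) ℝ).IsHomogeneous 2 := fun i => by
    rw [pow_two]; exact hX i i
  have hh1 : p1.IsHomogeneous 2 :=
    ((hX2 3).add (hX2 4)).add (hη.rename_isHomogeneous)
  have hh2 : p2.IsHomogeneous 2 :=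
    ((hX 2 3).sub (hX 1 4)).sub (hc.rename_isHomogeneous)
  obtain ⟨P, hP⟩ := exists_quadraticForm hh1
  obtain ⟨Q, hQ⟩ := exists_quadraticForm hh2
  have hPe : ∀ x : Fin 5 → ℝ, P x = x 3 ^ 2 + x 4 ^ 2 + eval (fun i => x (ι i)) η := by
    intro x
    rw [← hP, hp1]
    simp [MvPolynomial.eval_rename, Function.comp_def]
  have hQe : ∀ x : Fin 5 → ℝ, Q x = x 2 * x 3 - x 1 * x 4 - eval (fun i => x (ι i)) c := by
    intro x
    rw [← hQ, hp2]
    simp [MvPolynomial.eval_rename, Function.comp_def]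
  have key : ∃ lam : ℝ, ∀ x, 0 ≤ P x + lam * Q x := by
    apply h1 5 P Q
    · intro x hx
      rw [hQe] at hx
      rw [hPe]
      set v : Fin 3 → ℝ := fun i => x (ι i) with hv
      have v1 : v 1 = x 1 := rfl
      have v2 : v 2 = x 2 := rfl
      have hcv : eval v c = x 2 * x 3 - x 1 * x 4 := by linarith
      by_cases hA : 0 < v 1 ^ 2 + v 2 ^ 2
      · have h2 := h v
        rw [map_add, map_pow, map_mul, eval_Ayz, hcv, v1, v2] at h2
        rw [v1, v2] at hA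
        have h3 : 0 ≤ (x 1 ^ 2 + x 2 ^ 2) * (x 3 ^ 2 + x 4 ^ 2 + eval v η) := by
          have : (x 1 ^ 2 + x 2 ^ 2) * (x 3 ^ 2 + x 4 ^ 2 + eval v η) =
              ((x 2 * x 3 - x 1 * x 4) ^ 2 + (x 1 ^ 2 + x 2 ^ 2) * eval v η) +
                (x 1 * x 3 + x 2 * x 4) ^ 2 := by ring
          rw [this]
          exact add_nonneg h2 (sq_nonneg _)
        exact nonneg_of_mul_nonneg_right h3 hA
      · have h10 : v 1 = 0 := by
          by_contra hne
          apply hA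
          have : 0 < v 1 ^ 2 := by positivity
          linarith [sq_nonneg (v 2)]
        have h20 : v 2 = 0 := by
          by_contra hne
          apply hA
          have : 0 < v 2 ^ 2 := by positivity
          linarith [sq_nonneg (v 1)]
        have hvv := vec_eq v h10 h20
        have hη2 : 0 ≤ eval v η := by
          by_cases h00 : v 0 = 0
          · rw [hvv, hom_smul hη, h00]
            simp
          · rw [hvv, hom_smul hη]
            apply mul_nonneg (sq_nonneg _)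
            apply base c η hc hη h
            have h5 : eval v c = 0 := by
              rw [hcv, ← v1, ← v2, h10, h20]; ring
            rw [hvv, hom_smul hc] at h5
            rcases mul_eq_zero.1 h5 with h6 | h6
            · exact absurd (pow_eq_zero_iff (two_ne_zero) |>.mp h6) h00
            · exact h6
        have := sq_nonneg (x 3)
        have := sq_nonneg (x 4)
        linarith
    · refine ⟨![0, 0, 1, eval (fun i => (![0, 0, 1] : Fin 3 → ℝ) i) c + 1, 0], ?_⟩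
      rw [hQe]
      have h3 : (fun i => (![0, 0, 1, eval (fun i => (![0, 0, 1] : Fin 3 → ℝ) i) c + 1, 0] :
          Fin 5 → ℝ) (ι i)) = (fun i => (![0, 0, 1] : Fin 3 → ℝ) i) := by
        funext i
        fin_cases i <;> rfl
      rw [h3]
      have e1 : (![0, 0, 1, eval (fun i => (![0, 0, 1] : Fin 3 → ℝ) i) c + 1, 0] :
          Fin 5 → ℝ) 1 = 0 := rfl
      have e2 : (![0, 0, 1, eval (fun i => (![0, 0, 1] : Fin 3 → ℝ) i) c + 1, 0] :
          Fin 5 → ℝ) 2 = 1 := rfl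
      have e3 : (![0, 0, 1, eval (fun i => (![0, 0, 1] : Fin 3 → ℝ) i) c + 1, 0] :
          Fin 5 → ℝ) 3 = eval (fun i => (![0, 0, 1] : Fin 3 → ℝ) i) c + 1 := rfl
      rw [e1, e2, e3]
      linarith
    · refine ⟨![0, 0, 1, eval (fun i => (![0, 0, 1] : Fin 3 → ℝ) i) c - 1, 0], ?_⟩
      rw [hQe]
      have h3 : (fun i => (![0, 0, 1, eval (fun i => (![0, 0, 1] : Fin 3 → ℝ) i) c - 1, 0] :
          Fin 5 → ℝ) (ι i)) = (fun i => (![0, 0, 1] : Fin 3 → ℝ) i) := by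
        funext i
        fin_cases i <;> rfl
      rw [h3]
      have e1 : (![0, 0, 1, eval (fun i => (![0, 0, 1] : Fin 3 → ℝ) i) c - 1, 0] :
          Fin 5 → ℝ) 1 = 0 := rfl
      have e2 : (![0, 0, 1, eval (fun i => (![0, 0, 1] : Fin 3 → ℝ) i) c - 1, 0] :
          Fin 5 → ℝ) 2 = 1 := rfl
      have e3 : (![0, 0, 1, eval (fun i => (![0, 0, 1] : Fin 3 → ℝ) i) c - 1, 0] :
          Fin 5 → ℝ) 3 = eval (fun i => (![0, 0, 1] : Fin 3 → ℝ) i) c - 1 := rfl
      rw [e1, e2, e3]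
      linarith
  obtain ⟨lam, hlam⟩ := key
  refine ⟨lam / 2, fun v => ?_⟩
  have h2 := hlam ![v 0, v 1, v 2, -(lam / 2) * v 2, lam / 2 * v 1]
  rw [hPe, hQe] at h2
  have h3 : (fun i => (![v 0, v 1, v 2, -(lam / 2) * v 2, lam / 2 * v 1] : Fin 5 → ℝ) (ι i)) =
      v := by
    funext i
    fin_cases i <;> rfl
  rw [h3] at h2
  have e1 : (![v 0, v 1, v 2, -(lam / 2) * v 2, lam / 2 * v 1] : Fin 5 → ℝ) 1 = v 1 := rfl
  have e2 : (![v 0, v 1, v 2, -(lam / 2) * v 2, lam / 2 * v 1] : Fin 5 → ℝ) 2 = v 2 := rfl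
  have e3 : (![v 0, v 1, v 2, -(lam / 2) * v 2, lam / 2 * v 1] : Fin 5 → ℝ) 3 =
      -(lam / 2) * v 2 := rfl
  have e4 : (![v 0, v 1, v 2, -(lam / 2) * v 2, lam / 2 * v 1] : Fin 5 → ℝ) 4 =
      lam / 2 * v 1 := rfl
  rw [e1, e2, e3, e4] at h2
  have h4 : eval v (η - 2 * C (lam / 2) * c - C ((lam / 2) ^ 2) * Ayz) =
      eval v η - 2 * (lam / 2) * eval v c - (lam / 2) ^ 2 * (v 1 ^ 2 + v 2 ^ 2) := by
    rw [map_sub, map_sub, map_mul, map_mul, map_mul, eval_Ayz]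
    simp
  rw [h4]
  linarith

end Pool.Agent.SBQ
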