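import Pool.Agent.SBQ.StmtsB

/-!
# KP: no double factor
-/

namespace Pool.Agent.SBQ

open MvPolynomial (eval aeval C)

namespace KP_

theorem eval_Ayz (v : Fin 3 → ℝ) : eval v Ayz = v 1 ^ 2 + v 2 ^ 2 := by
  simp [Ayz]

theorem Ayz_ne : (Ayz : P3) ≠ 0 := by
  intro h
  have h1 := eval_Ayz ![0, 1, 0]
  rw [h] at h1
  simp at h1

theorem finZ_of (ψ u : P3) (hu : IsUnit u) (h : ψ = Ayz * u) : FinZ ψ := by
  unfold FinZ
  refine Set.Finite.subset (s := {![1, 0, 0], ![-1, 0, 0]}) (Set.toFinite _) ?_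
  rintro v ⟨hv, hv1⟩
  rw [h, map_mul, eval_Ayz] at hv
  have h1 : eval v u ≠ 0 := (hu.map (eval v)).ne_zero
  have h2 : v 1 ^ 2 + v 2 ^ 2 = 0 := by
    rcases mul_eq_zero.1 hv with h | h
    · exact h
    · exact absurd h h1
  have h3 : v 1 = 0 := by nlinarith [sq_nonneg (v 1), sq_nonneg (v 2)]
  have h4 : v 2 = 0 := by nlinarith [sq_nonneg (v 1), sq_nonneg (v 2)]
  rw [Fin.sum_univ_three, h3, h4] at hv1
  have h5 : (v 0 - 1) * (v 0 + 1) = 0 := by nlinarith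
  rcases mul_eq_zero.1 h5 with h | h
  · left
    funext j
    fin_cases j
    · show v 0 = 1
      linarith
    · exact h3
    · exact h4
  · right
    show v = ![-1, 0, 0]
    funext j
    fin_cases j
    · show v 0 = -1
      linarith
    · exact h3
    · exact h4

theorem not_dvd (ψ : P3) (hirr : Irreducible ψ) (hZ : ¬ FinZ ψ) : ¬ (Ayz : P3) ∣ ψ := by
  rintro ⟨u, hu⟩
  rcases hirr.isUnit_or_isUnit hu with h | h
  · have h1 : eval ![1, 0, 0] (Ayz : P3) ≠ 0 := (h.map (eval ![1, 0, 0])).ne_zero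
    apply h1
    rw [eval_Ayz]
    simp
  · exact hZ (finZ_of ψ u h hu)

theorem deg_pos (ψ : P3) (d : ℕ) (hirr : Irreducible ψ) (hd : ψ.IsHomogeneous d) : 1 ≤ d := by
  by_contra h
  have h0 : d = 0 := by omega
  rw [h0] at hd
  have h1 : ψ = C (MvPolynomial.coeff 0 ψ) :=
    MvPolynomial.totalDegree_eq_zero_iff_eq_C.1
      (Nat.le_zero.1 (MvPolynomial.IsHomogeneous.totalDegree_le hd))
  have h2 : MvPolynomial.coeff 0 ψ ≠ 0 := by
    intro h3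
    rw [h3] at h1
    exact hirr.ne_zero (by rw [h1, map_zero])
  apply hirr.not_isUnit
  rw [h1]
  exact (isUnit_iff_ne_zero.2 h2).map C

end KP_

open KP_ in
theorem kp_proof (h1 : Stmt_KD) (h2 : Stmt_KB) (h3 : Stmt_RC) (h4 : Stmt_HF) (h5 : Stmt_KX) :
    Stmt_KP := by
  intro F B D ψ d hF hE hirr hd hdvd hZ
  obtain ⟨E, hE'⟩ := hdvd
  have hne : ψ ^ 2 * E ≠ 0 := by
    rw [← hE']
    exact h1 F B D hF hE
  have hψ2 : ψ ^ 2 ≠ 0 := left_ne_zero_of_mul hne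
  have hA : (Ayz : P3).IsHomogeneous 2 := hE.1
  have hB : B.IsHomogeneous 3 := hE.2.1
  have hD : D.IsHomogeneous 4 := hE.2.2.1
  have hΔ : (Ayz * D - B ^ 2).IsHomogeneous 6 := by
    have e1 : (Ayz * D).IsHomogeneous 6 := hA.mul hD
    have e2 : (B ^ 2).IsHomogeneous 6 := by
      rw [sq]
      exact hB.mul hB
    exact e1.sub e2
  have hΔ' : (ψ ^ 2 * E).IsHomogeneous 6 := by
    rw [← hE']
    exact hΔ
  obtain ⟨a, b, hab, ha, hb⟩ := h4 3 6 (ψ ^ 2) E hne hΔ'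
  have hψ2d : (ψ ^ 2).IsHomogeneous (d + d) := by
    rw [sq]
    exact hd.mul hd
  have had : a = d + d := ha.inj_right hψ2d hψ2
  have hd1 := deg_pos ψ d hirr hd
  obtain ⟨k, hk⟩ : ∃ k, d + k = 3 := ⟨3 - d, by omega⟩
  have hbk : b = 2 * k := by omega
  rw [hbk] at hb
  have hEpsd : Psd E := by
    refine psd_of_dense E ψ hirr.ne_zero fun v hv => ?_
    have e1 := (hE.facts hF.2.1).2.2 v
    have e2 : eval v (Ayz * D - B ^ 2) = eval v (ψ ^ 2 * E) := by rw [hE']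
    simp only [map_sub, map_mul, map_pow] at e2
    have e3 : 0 ≤ (eval v ψ) ^ 2 * eval v E := by
      rw [← e2]
      linarith
    have e4 : 0 < (eval v ψ) ^ 2 := by positivity
    by_contra hcon
    have := mul_neg_of_pos_of_neg e4 (not_le.1 hcon)
    linarith
  have hnd := not_dvd ψ hirr hZ
  obtain ⟨c₁, c₂, hc₁, hc₂, hBc⟩ := h2 F B D hF.2.1 hE
  have hX1 : (MvPolynomial.X 1 : P3).IsHomogeneous 1 := MvPolynomial.isHomogeneous_X ℝ 1
  have hX2 : (MvPolynomial.X 2 : P3).IsHomogeneous 1 := MvPolynomial.isHomogeneous_X ℝ 2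
  have hχ : (MvPolynomial.X 2 * c₁ - MvPolynomial.X 1 * c₂ : P3).IsHomogeneous 3 :=
    (hX2.mul hc₁).sub (hX1.mul hc₂)
  have hΔR : Ayz * D - B ^ 2 = Ayz * (D - c₁ ^ 2 - c₂ ^ 2) +
      (MvPolynomial.X 2 * c₁ - MvPolynomial.X 1 * c₂) ^ 2 := by
    rw [hBc]
    unfold Ayz
    ring
  have hdv : (Ayz : P3) ∣ (MvPolynomial.X 2 * c₁ - MvPolynomial.X 1 * c₂) ^ 2 - ψ ^ 2 * E := by
    refine ⟨-(D - c₁ ^ 2 - c₂ ^ 2), ?_⟩
    rw [← hE', hΔR]
    ring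
  obtain ⟨c, ν, η, hc, hν, hcν, hEc, hη0, hη⟩ := h3 _ ψ E d k hχ hd hk hb hnd hdv
    (hEpsd ![1, 0, 0])
  have e1 : B = MvPolynomial.X 1 * (c₁ + MvPolynomial.X 2 * ν) +
      MvPolynomial.X 2 * (c₂ - MvPolynomial.X 1 * ν) := by
    rw [hBc]
    ring
  have e2 : MvPolynomial.X 2 * (c₁ + MvPolynomial.X 2 * ν) -
      MvPolynomial.X 1 * (c₂ - MvPolynomial.X 1 * ν) = ψ * c := by
    rw [← hcν]
    unfold Ayz
    ring
  have e3 : D = (c₁ + MvPolynomial.X 2 * ν) ^ 2 + (c₂ - MvPolynomial.X 1 * ν) ^ 2 +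
      η * ψ ^ 2 := by
    have e4 : Ayz * D = Ayz * ((c₁ + MvPolynomial.X 2 * ν) ^ 2 +
        (c₂ - MvPolynomial.X 1 * ν) ^ 2 + η * ψ ^ 2) := by
      have e5 : Ayz * D = ψ ^ 2 * E + B ^ 2 := by
        rw [← hE']
        ring
      have e6 : Ayz * ((c₁ + MvPolynomial.X 2 * ν) ^ 2 +
          (c₂ - MvPolynomial.X 1 * ν) ^ 2) = (ψ * c) ^ 2 + B ^ 2 := by
        rw [← e2, e1]
        unfold Ayz
        ring
      rw [e5, mul_add, e6, hEc]
      ring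
    exact mul_left_cancel₀ Ayz_ne e4
  refine h5 F B D (c₁ + MvPolynomial.X 2 * ν) (c₂ - MvPolynomial.X 1 * ν) ψ c η d k hF hE
    (hc₁.add (hX2.mul hν)) (hc₂.sub (hX1.mul hν)) e1 hirr hd hd1 hk hc e2 e3 hη0 hη ?_
  rw [← hEc]
  exact hEpsd

end Pool.Agent.SBQ
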