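import Pool.Agent.SBQ.StmtsB

/-!
# SBQ, module KX : the final contradiction
-/

namespace Pool.Agent.SBQ

open MvPolynomial (eval aeval C)

namespace KX_

theorem eval_Ayz (v : Fin 3 → ℝ) : eval v Ayz = v 1 ^ 2 + v 2 ^ 2 := by
  simp [Ayz]

/-- a linear form vanishes at a vector off the axis -/
theorem exists_zero {c : P3} (hc : c.IsHomogeneous 1) :
    ∃ v : Fin 3 → ℝ, eval v c = 0 ∧ 0 < eval v Ayz := by
  obtain ⟨φ, hφ⟩ := hom1_eval hc
  have key : ∀ x y z : ℝ, φ ![x, y, z] =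
      x * φ ![1, 0, 0] + y * φ ![0, 1, 0] + z * φ ![0, 0, 1] := by
    intro x y z
    have h1 : (![x, y, z] : Fin 3 → ℝ) =
        x • ![1, 0, 0] + y • ![0, 1, 0] + z • ![0, 0, 1] := by
      funext j
      fin_cases j <;> simp
    rw [h1, map_add, map_add, map_smul, map_smul, map_smul]
    simp
  by_cases ha : φ ![1, 0, 0] = 0
  · by_cases hb : φ ![0, 1, 0] = 0
    · refine ⟨![0, 1, 0], by rw [hφ, hb], ?_⟩
      rw [eval_Ayz]
      simp
    · refine ⟨![0, φ ![0, 0, 1], - φ ![0, 1, 0]], ?_, ?_⟩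
      · rw [hφ, key]
        ring
      · rw [eval_Ayz]
        simp only [Matrix.cons_val_one, Matrix.cons_val_zero, Matrix.cons_val]
        have h2 : 0 < φ ![0, 1, 0] ^ 2 := by positivity
        nlinarith [sq_nonneg (φ ![0, 0, 1])]
  · refine ⟨![- φ ![0, 1, 0] / φ ![1, 0, 0], 1, 0], ?_, ?_⟩
    · rw [hφ, key]
      field_simp
      ring
    · rw [eval_Ayz]
      simp

end KX_

open KX_

theorem kx_proof (h1 : Stmt_KM) : Stmt_KX := by
  intro F B D c₁ c₂ ψ c η d k hF hE hc₁ hc₂ hB hψi hψ hd hdk hc hrel hD hk0 hk1 hpsd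
  have hX : (MvPolynomial.X 1 : P3).IsHomogeneous 1 := MvPolynomial.isHomogeneous_X ℝ 1
  have hXne : (MvPolynomial.X 1 : P3) ≠ 0 := MvPolynomial.X_ne_zero 1
  have hrel' : ∀ v : Fin 3 → ℝ, v 2 * eval v c₁ - v 1 * eval v c₂ = eval v ψ * eval v c := by
    intro v
    have := congrArg (eval v) hrel
    simpa using this
  have hval : ∀ (w : ℝ) (v : Fin 3 → ℝ), eval (Fin.cons w v : Fin 4 → ℝ) F =
      (w * v 1 + eval v c₁) ^ 2 + (w * v 2 + eval v c₂) ^ 2 + eval v η * eval v ψ ^ 2 := by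
    intro w v
    rw [hE.2.2.2, eval_Ayz, hB, hD]
    simp only [map_add, map_mul, map_pow, MvPolynomial.eval_X]
    ring
  have hbasic : Psd η → False := by
    intro hη
    refine hF.absurd hX hc₁ (Or.inl hXne) (fun w v => ?_)
    rw [hval, MvPolynomial.eval_X]
    have h2 := mul_nonneg (hη v) (sq_nonneg (eval v ψ))
    nlinarith [sq_nonneg (w * v 2 + eval v c₂)]
  have hk : k = 0 ∨ k = 1 ∨ k = 2 := by omega
  rcases hk with rfl | rfl | rfl
  · refine hbasic (fun v => ?_)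
    rw [hk0 rfl, map_zero]
  · have hη : η.IsHomogeneous 0 := hk1 (le_refl 1)
    have hηc : ∀ u v : Fin 3 → ℝ, eval u η = eval v η := by
      intro u v
      have h3 : ∀ v : Fin 3 → ℝ, eval v η = eval (0 : Fin 3 → ℝ) η := by
        intro v
        have h4 := hom_smul hη 0 v
        rw [zero_smul, pow_zero, one_mul] at h4
        exact h4.symm
      rw [h3 u, h3 v]
    obtain ⟨u, hu, hu'⟩ := exists_zero hc
    have h5 := hpsd u
    rw [map_add, map_pow, map_mul, hu] at h5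
    have h6 : 0 ≤ eval u η := by
      by_contra hneg
      push Not at hneg
      nlinarith
    exact hbasic (fun v => by rw [hηc v u]; exact h6)
  · have hd1 : d = 1 := by omega
    subst hd1
    obtain ⟨μ, hμ⟩ := h1 c η hc (hk1 (by norm_num)) hpsd
    have hX2 : (MvPolynomial.X 2 : P3).IsHomogeneous 1 := MvPolynomial.isHomogeneous_X ℝ 2
    have hc₁' : (c₁ + C μ * (MvPolynomial.X 2 * ψ)).IsHomogeneous 2 := by
      refine hc₁.add ?_
      have h7 := (MvPolynomial.isHomogeneous_C (Fin 3) μ).mul (hX2.mul hψ)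
      simpa using h7
    refine hF.absurd hX hc₁' (Or.inl hXne) (fun w v => ?_)
    rw [hval, MvPolynomial.eval_X]
    have h8 := hμ v
    have h9 := hrel' v
    simp only [map_sub, map_add, map_mul, map_pow, MvPolynomial.eval_X, MvPolynomial.eval_C,
      map_ofNat, eval_Ayz] at h8 ⊢
    have h10 := mul_nonneg h8 (sq_nonneg (eval v ψ))
    have h11 : (w * v 1 + eval v c₁) ^ 2 + (w * v 2 + eval v c₂) ^ 2 + eval v η * eval v ψ ^ 2 =
        (w * v 1 + (eval v c₁ + μ * (v 2 * eval v ψ))) ^ 2 +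
          (w * v 2 + (eval v c₂ - μ * (v 1 * eval v ψ))) ^ 2 +
          (eval v η - 2 * μ * eval v c - μ ^ 2 * (v 1 ^ 2 + v 2 ^ 2)) * eval v ψ ^ 2 := by
      linear_combination (-2 * μ * eval v ψ) * h9
    rw [h11]
    nlinarith [sq_nonneg (w * v 2 + (eval v c₂ - μ * (v 1 * eval v ψ)))]

end Pool.Agent.SBQ
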