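import Pool.Agent.SBQ.StmtsB

/-!
# SBQ: module LD (real division by a linear form)
-/

set_option autoImplicit false

namespace Pool.Agent.SBQ

open MvPolynomial (eval aeval C)

namespace LD_

theorem dvd_of_vanish {n : ℕ} {l P : MvPolynomial (Fin n) ℝ} (hl : l.IsHomogeneous 1)
    (hl0 : l ≠ 0) (h : ∀ v, eval v l = 0 → eval v P = 0) : l ∣ P := by
  classical
  obtain ⟨φ, hφ⟩ := hom1_eval hl
  have hj : ∃ j, φ (Pi.single j 1) ≠ 0 := by
    by_contra hcon
    push Not at hcon
    apply hl0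
    apply MvPolynomial.funext
    intro v
    rw [hφ, map_zero]
    have hv : v = ∑ j, v j • (Pi.single j (1 : ℝ) : Fin n → ℝ) := by
      funext k
      simp [Finset.sum_apply, Pi.single_apply]
    rw [hv, map_sum]
    refine Finset.sum_eq_zero fun j _ => ?_
    rw [map_smul, hcon j, smul_zero]
  obtain ⟨j₀, hj₀⟩ := hj
  set c : ℝ := φ (Pi.single j₀ 1) with hc
  let σ : MvPolynomial (Fin n) ℝ →ₐ[ℝ] MvPolynomial (Fin n) ℝ :=
    aeval fun j => if j = j₀ then MvPolynomial.X j₀ - C (1 / c) * l else MvPolynomial.X j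
  -- evaluation
  have hev : ∀ v : Fin n → ℝ, eval v (σ P) = eval (v - (φ v / c) • Pi.single j₀ 1) P := by
    intro v
    have hh : (aeval v : MvPolynomial (Fin n) ℝ →ₐ[ℝ] ℝ).comp σ =
        (aeval (v - (φ v / c) • (Pi.single j₀ 1 : Fin n → ℝ)) :
          MvPolynomial (Fin n) ℝ →ₐ[ℝ] ℝ) := by
      apply MvPolynomial.algHom_ext
      intro j
      simp only [AlgHom.comp_apply, σ, MvPolynomial.aeval_X]
      by_cases hjj : j = j₀
      · subst hjj
        rw [if_pos rfl]
        simp only [MvPolynomial.aeval_eq_eval, map_sub, map_mul, MvPolynomial.eval_X,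
          MvPolynomial.eval_C, hφ, Pi.sub_apply, Pi.smul_apply, Pi.single_eq_same, smul_eq_mul]
        ring
      · rw [if_neg hjj]
        simp only [MvPolynomial.aeval_eq_eval, MvPolynomial.eval_X, Pi.sub_apply, Pi.smul_apply,
          Pi.single_eq_of_ne hjj, smul_zero, sub_zero]
    have h2 := DFunLike.congr_fun hh P
    simp only [AlgHom.comp_apply, MvPolynomial.aeval_eq_eval] at h2
    exact h2
  have hσP : σ P = 0 := by
    apply MvPolynomial.funext
    intro v
    rw [hev, map_zero]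
    apply h
    rw [hφ, map_sub, map_smul, smul_eq_mul, ← hc]
    field_simp
    ring
  -- congruence
  have hcong : (Ideal.Quotient.mkₐ ℝ (Ideal.span {l})).comp σ =
      Ideal.Quotient.mkₐ ℝ (Ideal.span {l}) := by
    apply MvPolynomial.algHom_ext
    intro j
    simp only [AlgHom.comp_apply, σ, MvPolynomial.aeval_X]
    by_cases hjj : j = j₀
    · subst hjj
      rw [if_pos rfl]
      simp only [Ideal.Quotient.mkₐ_eq_mk]
      rw [Ideal.Quotient.mk_eq_mk_iff_sub_mem, Ideal.mem_span_singleton]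
      exact ⟨-C (1 / c), by ring⟩
    · rw [if_neg hjj]
  have h3 := DFunLike.congr_fun hcong P
  rw [AlgHom.comp_apply, hσP, map_zero] at h3
  have h4 : (Ideal.Quotient.mk (Ideal.span {l})) P = 0 := by
    rw [← Ideal.Quotient.mkₐ_eq_mk ℝ]
    exact h3.symm
  rwa [Ideal.Quotient.eq_zero_iff_mem, Ideal.mem_span_singleton] at h4

end LD_

open LD_ in
theorem ld_proof (h1 : Stmt_HF) : Stmt_LD := by
  intro n l P d hl hl0 hP h
  by_cases hP0 : P = 0
  · exact ⟨0, MvPolynomial.isHomogeneous_zero _ _ _, by rw [hP0, mul_zero]⟩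
  obtain ⟨P', hP'⟩ := dvd_of_vanish hl hl0 h
  have hne : l * P' ≠ 0 := by rw [← hP']; exact hP0
  have hhom : (l * P').IsHomogeneous (d + 1) := by rw [← hP']; exact hP
  obtain ⟨a, b, hab, ha, hb⟩ := h1 n (d + 1) l P' hne hhom
  have ha1 : a = 1 := ha.inj_right hl hl0
  have hbd : b = d := by omega
  subst hbd
  exact ⟨P', hb, hP'⟩

end Pool.Agent.SBQ
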