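import Pool.Agent.SBQ.StmtsB

set_option autoImplicit false

/-!
# SBQ: LG, the lower bound implies LocalGood
-/

namespace Pool.Agent.SBQ

open MvPolynomial (eval aeval C)

namespace LG_

theorem lin_abs_le {n : ℕ} (φ : (Fin n → ℝ) →ₗ[ℝ] ℝ) (u : Fin n → ℝ) (M : ℝ)
    (h : ∀ j, |u j| ≤ M) : |φ u| ≤ (∑ j, |φ (Pi.single j 1)|) * M := by
  have hu : u = ∑ j, u j • (Pi.single j (1 : ℝ) : Fin n → ℝ) := by
    funext k
    simp [Finset.sum_apply, Pi.single_apply]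
  have h1 : φ u = ∑ j, φ (Pi.single j 1) * u j := by
    conv_lhs => rw [hu]
    rw [map_sum]
    exact Finset.sum_congr rfl fun j _ => by rw [map_smul, smul_eq_mul, mul_comm]
  rw [h1, Finset.sum_mul]
  refine (Finset.abs_sum_le_sum_abs _ _).trans (Finset.sum_le_sum fun j _ => ?_)
  rw [abs_mul]
  exact mul_le_mul_of_nonneg_left (h j) (abs_nonneg _)

/-- a quadratic form is Lipschitz in the last two coordinates, on bounded sets -/
theorem lip {G : P4} (hG : G.IsHomogeneous 2) (M : ℝ) (hM : 1 ≤ M) :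
    ∃ K : ℝ, 0 ≤ K ∧ ∀ x y z y' z' : ℝ, |x| ≤ M → |y| ≤ M → |z| ≤ M → |y'| ≤ M → |z'| ≤ M →
      |eval ![1, x, y, z] G - eval ![1, x, y', z'] G| ≤ K * (|y - y'| + |z - z'|) := by
  obtain ⟨b, hb⟩ := hom2_bilin hG
  set e2 : Fin 4 → ℝ := Pi.single 2 1 with he2
  set e3 : Fin 4 → ℝ := Pi.single 3 1 with he3
  set C1 := ∑ j, |b.flip e2 (Pi.single j 1)| with hC1
  set C2 := ∑ j, |b.flip e3 (Pi.single j 1)| with hC2
  set C3 := ∑ j, |b e2 (Pi.single j 1)| with hC3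
  set C4 := ∑ j, |b e3 (Pi.single j 1)| with hC4
  have c1 : 0 ≤ C1 := Finset.sum_nonneg fun j _ => abs_nonneg _
  have c2 : 0 ≤ C2 := Finset.sum_nonneg fun j _ => abs_nonneg _
  have c3 : 0 ≤ C3 := Finset.sum_nonneg fun j _ => abs_nonneg _
  have c4 : 0 ≤ C4 := Finset.sum_nonneg fun j _ => abs_nonneg _
  have hM0 : 0 ≤ M := by linarith
  refine ⟨(C1 + C2 + C3 + C4) * M, by positivity, ?_⟩
  intro x y z y' z' hx hy hz hy' hz'
  have hbd : ∀ y z : ℝ, |y| ≤ M → |z| ≤ M → ∀ j, |(![1, x, y, z] : Fin 4 → ℝ) j| ≤ M := by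
    intro y z hy hz j
    fin_cases j
    · simpa using hM
    · simpa using hx
    · simpa using hy
    · simpa using hz
  set u : Fin 4 → ℝ := ![1, x, y, z] with hu
  set u' : Fin 4 → ℝ := ![1, x, y', z'] with hu'
  have hd : u = u' + ((y - y') • e2 + (z - z') • e3) := by
    rw [hu, hu', he2, he3]
    funext j
    fin_cases j <;> simp
  have h1 := lin_abs_le (b.flip e2) u M (hbd y z hy hz)
  have h2 := lin_abs_le (b.flip e3) u M (hbd y z hy hz)
  have h3 := lin_abs_le (b e2) u' M (hbd y' z' hy' hz')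
  have h4 := lin_abs_le (b e3) u' M (hbd y' z' hy' hz')
  rw [← hC1] at h1
  rw [← hC2] at h2
  rw [← hC3] at h3
  rw [← hC4] at h4
  have hdiff : eval u G - eval u' G =
      (y - y') * (b.flip e2 u + b e2 u') + (z - z') * (b.flip e3 u + b e3 u') := by
    rw [hb, hb]
    have e1 : b u u = b u u' + ((y - y') * b u e2 + (z - z') * b u e3) := by
      have : b u u = b u (u' + ((y - y') • e2 + (z - z') • e3)) := by rw [← hd]
      rw [this]
      simp only [map_add, map_smul, smul_eq_mul]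
    have e2' : b u u' = b u' u' + ((y - y') * b e2 u' + (z - z') * b e3 u') := by
      have : b u u' = b (u' + ((y - y') • e2 + (z - z') • e3)) u' := by rw [← hd]
      rw [this]
      simp only [map_add, map_smul, smul_eq_mul, LinearMap.add_apply, LinearMap.smul_apply]
    simp only [LinearMap.flip_apply]
    rw [e1, e2']
    ring
  rw [hdiff]
  have k1 : |b.flip e2 u + b e2 u'| ≤ (C1 + C2 + C3 + C4) * M := by
    refine (abs_add_le _ _).trans ?_
    nlinarith [mul_nonneg c2 hM0, mul_nonneg c4 hM0]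
  have k2 : |b.flip e3 u + b e3 u'| ≤ (C1 + C2 + C3 + C4) * M := by
    refine (abs_add_le _ _).trans ?_
    nlinarith [mul_nonneg c1 hM0, mul_nonneg c3 hM0]
  calc |(y - y') * (b.flip e2 u + b e2 u') + (z - z') * (b.flip e3 u + b e3 u')|
      ≤ |y - y'| * |b.flip e2 u + b e2 u'| + |z - z'| * |b.flip e3 u + b e3 u'| := by
        rw [← abs_mul, ← abs_mul]; exact abs_add_le _ _
    _ ≤ |y - y'| * ((C1 + C2 + C3 + C4) * M) + |z - z'| * ((C1 + C2 + C3 + C4) * M) :=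
        add_le_add (mul_le_mul_of_nonneg_left k1 (abs_nonneg _))
          (mul_le_mul_of_nonneg_left k2 (abs_nonneg _))
    _ = (C1 + C2 + C3 + C4) * M * (|y - y'| + |z - z'|) := by ring

/-- the affine version -/
theorem affine (F : P4) (i : ℕ) (g : Fin 2 → U1) (c δ : ℝ) (hc : 0 < c) (_ : 0 < δ)
    (h : ∀ x y z : ℝ, |x| < δ → |y| < δ → |z| < δ →
      c * ((y - (g 0).eval x) ^ 2 + (z - (g 1).eval x) ^ 2 + x ^ (2 * i)) ≤
        eval ![1, x, y, z] F)
    (G : P4) (hG : G.IsHomogeneous 2)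
    (hd : (Polynomial.X : U1) ^ i ∣ comp ![1, Polynomial.X, g 0, g 1] G) :
    ∃ K : ℝ, ∀ x y z : ℝ, |x| < min δ 1 → |y| < min δ 1 → |z| < min δ 1 →
      (eval ![1, x, y, z] G) ^ 2 ≤ K * eval ![1, x, y, z] F := by
  obtain ⟨M0, hM0, hb0⟩ := bound_of_dvd (g 0) 0 (by rw [pow_zero]; exact one_dvd _)
  obtain ⟨M1, hM1, hb1⟩ := bound_of_dvd (g 1) 0 (by rw [pow_zero]; exact one_dvd _)
  obtain ⟨K2, hK2, hb2⟩ := bound_of_dvd _ i hd
  obtain ⟨K1, hK1, hb3⟩ := lip hG (1 + M0 + M1) (by linarith)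
  refine ⟨3 * (K1 + K2) ^ 2 / c, ?_⟩
  intro x y z hx hy hz
  have hx1 : |x| ≤ 1 := (lt_of_lt_of_le hx (min_le_right _ _)).le
  have hy1 : |y| ≤ 1 := (lt_of_lt_of_le hy (min_le_right _ _)).le
  have hz1 : |z| ≤ 1 := (lt_of_lt_of_le hz (min_le_right _ _)).le
  have hF := h x y z (lt_of_lt_of_le hx (min_le_left _ _)) (lt_of_lt_of_le hy (min_le_left _ _))
    (lt_of_lt_of_le hz (min_le_left _ _))
  have g0 := hb0 x hx1
  have g1 := hb1 x hx1
  rw [pow_zero, mul_one] at g0 g1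
  have e1 := hb3 x y z ((g 0).eval x) ((g 1).eval x) (by linarith) (by linarith) (by linarith)
    (by linarith) (by linarith)
  have e2 := hb2 x hx1
  rw [eval_comp] at e2
  have hv : (fun j => ((![1, Polynomial.X, g 0, g 1] : Fin 4 → U1) j).eval x) =
      ![1, x, (g 0).eval x, (g 1).eval x] := by
    funext j
    fin_cases j <;> simp
  rw [hv] at e2
  set p := |y - (g 0).eval x| with hp
  set q := |z - (g 1).eval x| with hq
  set r := |x| ^ i with hr
  have p0 : 0 ≤ p := abs_nonneg _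
  have q0 : 0 ≤ q := abs_nonneg _
  have r0 : 0 ≤ r := pow_nonneg (abs_nonneg _) _
  have e3 : |eval ![1, x, y, z] G| ≤ (K1 + K2) * (p + q + r) := by
    have : eval ![1, x, y, z] G = (eval ![1, x, y, z] G - eval ![1, x, (g 0).eval x, (g 1).eval x] G)
        + eval ![1, x, (g 0).eval x, (g 1).eval x] G := by ring
    rw [this]
    refine (abs_add_le _ _).trans ?_
    nlinarith [mul_nonneg hK2 p0, mul_nonneg hK2 q0, mul_nonneg hK1 r0]
  have e4 : (eval ![1, x, y, z] G) ^ 2 ≤ ((K1 + K2) * (p + q + r)) ^ 2 := by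
    rw [← sq_abs]
    exact pow_le_pow_left₀ (abs_nonneg _) e3 2
  have e5 : (p + q + r) ^ 2 ≤ 3 * (p ^ 2 + q ^ 2 + r ^ 2) := by
    nlinarith [sq_nonneg (p - q), sq_nonneg (p - r), sq_nonneg (q - r)]
  have e6 : p ^ 2 + q ^ 2 + r ^ 2 =
      (y - (g 0).eval x) ^ 2 + (z - (g 1).eval x) ^ 2 + x ^ (2 * i) := by
    rw [hp, hq, hr, sq_abs, sq_abs, ← pow_mul, mul_comm i 2, pow_mul, sq_abs, ← pow_mul]
  rw [← e6] at hF
  have hK0 : 0 ≤ (K1 + K2) ^ 2 := sq_nonneg _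
  calc (eval ![1, x, y, z] G) ^ 2 ≤ ((K1 + K2) * (p + q + r)) ^ 2 := e4
    _ = (K1 + K2) ^ 2 * (p + q + r) ^ 2 := by ring
    _ ≤ (K1 + K2) ^ 2 * (3 * (p ^ 2 + q ^ 2 + r ^ 2)) := mul_le_mul_of_nonneg_left e5 hK0
    _ = 3 * (K1 + K2) ^ 2 / c * (c * (p ^ 2 + q ^ 2 + r ^ 2)) := by
        field_simp
    _ ≤ 3 * (K1 + K2) ^ 2 / c * eval ![1, x, y, z] F :=
        mul_le_mul_of_nonneg_left hF (by positivity)

end LG_

open LG_

theorem lg_proof : Stmt_LG := by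
  intro F i g c δ hF _ hg hc hδ h G hG hd
  obtain ⟨K, hK⟩ := affine F i g c δ hc hδ h G hG hd
  have hat : at0 ![1, Polynomial.X, g 0, g 1] = ![1, 0, 0, 0] := by
    have h0 : (g 0).coeff 0 = 0 := congrFun hg 0
    have h1 : (g 1).coeff 0 = 0 := congrFun hg 1
    funext j
    fin_cases j
    · simp [at0]
    · simp [at0]
    · simpa [at0] using h0
    · simpa [at0] using h1
  set η := min δ 1 with hη
  have hη0 : 0 < η := lt_min hδ one_pos
  have hη1 : η ≤ 1 := min_le_right _ _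
  refine ⟨K, η / 2, by positivity, ?_⟩
  intro v hv
  rw [hat] at hv
  have v0 := hv 0
  have v1 := hv 1
  have v2 := hv 2
  have v3 := hv 3
  simp only [Matrix.cons_val_zero, Matrix.cons_val_one, Matrix.cons_val] at v0 v1 v2 v3
  rw [sub_zero] at v1 v2 v3
  have hw : 1 / 2 < v 0 := by
    have := (abs_lt.mp v0).1
    linarith
  have hw0 : 0 < v 0 := by linarith
  have hvv : v = v 0 • ![1, v 1 / v 0, v 2 / v 0, v 3 / v 0] := by
    funext j
    fin_cases j
    · simp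
    · simp; field_simp
    · simp; field_simp
    · simp; field_simp
  have hdiv : ∀ t : ℝ, |t| < η / 2 → |t / v 0| < η := by
    intro t ht
    rw [abs_div, abs_of_pos hw0, div_lt_iff₀ hw0]
    nlinarith
  have hk := hK (v 1 / v 0) (v 2 / v 0) (v 3 / v 0) (hdiv _ v1) (hdiv _ v2) (hdiv _ v3)
  rw [hvv, hom_smul hG, hom_smul hF]
  have : (v 0 ^ 2 * eval ![1, v 1 / v 0, v 2 / v 0, v 3 / v 0] G) ^ 2 =
      v 0 ^ 4 * (eval ![1, v 1 / v 0, v 2 / v 0, v 3 / v 0] G) ^ 2 := by ring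
  rw [this]
  calc v 0 ^ 4 * (eval ![1, v 1 / v 0, v 2 / v 0, v 3 / v 0] G) ^ 2
      ≤ v 0 ^ 4 * (K * eval ![1, v 1 / v 0, v 2 / v 0, v 3 / v 0] F) :=
        mul_le_mul_of_nonneg_left hk (by positivity)
    _ = K * (v 0 ^ 4 * eval ![1, v 1 / v 0, v 2 / v 0, v 3 / v 0] F) := by ring

end Pool.Agent.SBQ
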