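import Pool.Agent.SBQ.StmtsB

/-!
# SBQ: arcs at zeros
-/

namespace Pool.Agent.SBQ

open MvPolynomial (eval aeval C)

namespace LL_

/-- the normalised arc -/
noncomputable def arc (g : Fin 2 → U1) : Fin 4 → U1 := ![1, Polynomial.X, g 0, g 1]

theorem at0_arc (g : Fin 2 → U1) (hg : at0 g = 0) :
    at0 (arc g) = (Pi.single 0 1 : Fin 4 → ℝ) := by
  have h0 : (g 0).coeff 0 = 0 := congrFun hg 0
  have h1 : (g 1).coeff 0 = 0 := congrFun hg 1
  funext j
  fin_cases j
  · simp [at0, arc]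
  · simp [at0, arc]
  · simpa [at0, arc] using h0
  · simpa [at0, arc] using h1

theorem li_arc (g : Fin 2 → U1) : LinearIndependent ℝ ![at0 (arc g), vel (arc g)] := by
  rw [LinearIndependent.pair_iff]
  intro s t h
  have h1 := congrFun h 1
  have h0 := congrFun h 0
  simp only [at0, vel, arc, Pi.add_apply, Pi.smul_apply, smul_eq_mul, Pi.zero_apply,
    Matrix.cons_val_zero, Matrix.cons_val_one, Polynomial.coeff_X_zero, Polynomial.coeff_X_one,
    Polynomial.coeff_one] at h1 h0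
  norm_num at h1 h0
  exact ⟨h0, h1⟩

end LL_

open LL_ in
theorem ll_proof (hNZ : Stmt_NZ) (hLP : Stmt_LP) (hLS : Stmt_LS) (hLG : Stmt_LG) : Stmt_LL := by
  intro F hF p hp hFp
  obtain ⟨T, A, B, D, hT, hExp, hA⟩ := hNZ F hF p hp hFp
  have hF' := hF.pull T
  set F' := pull (T : (Fin 4 → ℝ) →ₗ[ℝ] (Fin 4 → ℝ)) F with hF'def
  have hzero : eval (Pi.single 0 1 : Fin 4 → ℝ) F' = 0 := hExp.zero
  -- it suffices to find the arc in the normalised coordinates
  have key : ∃ (g : Fin 2 → U1) (j : ℕ), at0 g = 0 ∧ 1 ≤ j ∧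
      (Polynomial.X : U1) ^ (2 * j) ∣ comp (arc g) F' ∧ (9 ≤ j ∨ LocalGood F' (arc g) j) := by
    have hz0 : at0 (fun _ : Fin 2 => (0 : U1)) = 0 := by
      funext j
      simp [at0]
    have hstart : (Polynomial.X : U1) ^ (2 * 1) ∣ comp (arc fun _ => 0) F' := by
      rw [mul_one]
      apply sq_dvd_comp hF'.2.1
      rw [at0_arc _ hz0]
      exact hzero
    rcases hA with hA | hA
    · obtain ⟨c, δ, hc, hδ, hb⟩ := hLP F' A B D hExp hA
      refine ⟨fun _ => 0, 1, hz0, le_refl 1, hstart, Or.inr ?_⟩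
      refine hLG F' 1 (fun _ => 0) c δ hF'.1 (le_refl 1) hz0 hc hδ ?_
      intro x y z hx hy hz
      have h1 := hb ![x, y, z] (by
        intro j
        fin_cases j
        · exact hx
        · exact hy
        · exact hz)
      have h2 : (Fin.cons 1 ![x, y, z] : Fin 4 → ℝ) = ![1, x, y, z] := rfl
      rw [h2] at h1
      refine le_trans (le_of_eq ?_) h1
      have e : ∑ j, (![x, y, z] : Fin 3 → ℝ) j ^ 2 = x ^ 2 + y ^ 2 + z ^ 2 := by
        rw [Fin.sum_univ_three]
        rfl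
      rw [e]
      simp only [Polynomial.eval_zero, sub_zero, mul_one]
      ring
    · subst hA
      have hind : ∀ i : ℕ, (∃ g : Fin 2 → U1, at0 g = 0 ∧
          (Polynomial.X : U1) ^ (2 * (i + 1)) ∣ comp (arc g) F') ∨
          (∃ (g : Fin 2 → U1) (j : ℕ), at0 g = 0 ∧ 1 ≤ j ∧
            (Polynomial.X : U1) ^ (2 * j) ∣ comp (arc g) F' ∧ LocalGood F' (arc g) j) := by
        intro i
        induction i with
        | zero => exact Or.inl ⟨fun _ => 0, hz0, hstart⟩
        | succ i ih =>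
          rcases ih with ⟨g, hg, hord⟩ | h
          · rcases hLS F' B D (i + 1) g hF'.2.1 hExp (by omega) hg hord with h | h
            · exact Or.inl h
            · obtain ⟨c, δ, hc, hδ, hb⟩ := h
              exact Or.inr ⟨g, i + 1, hg, by omega, hord,
                hLG F' (i + 1) g c δ hF'.1 (by omega) hg hc hδ hb⟩
          · exact Or.inr h
      rcases hind 8 with ⟨g, hg, hord⟩ | ⟨g, j, hg, hj, hord, hl⟩
      · exact ⟨g, 9, hg, by norm_num, hord, Or.inl (le_refl 9)⟩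
      · exact ⟨g, j, hg, hj, hord, Or.inr hl⟩
  obtain ⟨g, j, hg, hj, hord, hl⟩ := key
  refine ⟨mapArc (T : (Fin 4 → ℝ) →ₗ[ℝ] (Fin 4 → ℝ)) (arc g), j, ?_, ?_, hj, ?_, ?_⟩
  · rw [at0_mapArc, at0_arc g hg]
    exact hT
  · rw [at0_mapArc, vel_mapArc]
    exact li_pair_map _ T.injective (li_arc g)
  · rw [← comp_pull]
    exact hord
  · rcases hl with h | h
    · exact Or.inl h
    · exact Or.inr (h.map T)

end Pool.Agent.SBQ
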