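import Pool.Agent.SBQ.StmtsB

/-!
# SBQ module LN: lines and zeros
-/

namespace Pool.Agent.SBQ

open MvPolynomial (eval aeval C)

namespace LN_

/-- a polynomial with a finite limit at infinity is constant -/
theorem eq_C_of_tendsto (r : U1) (c : ℝ)
    (h : Filter.Tendsto (fun x => r.eval x) Filter.atTop (nhds c)) : r = Polynomial.C c := by
  have hdeg : ¬ 0 < r.degree := by
    intro hd
    have h1 := Polynomial.abs_tendsto_atTop r hd
    have h2 := h.abs
    exact not_tendsto_nhds_of_tendsto_atTop h1 _ h2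
  have h3 := Polynomial.eq_C_of_degree_le_zero (not_lt.mp hdeg)
  rw [h3] at h ⊢
  simp only [Polynomial.eval_C] at h
  rw [tendsto_nhds_unique tendsto_const_nhds h]

/-- the two rays are related by inversion -/
theorem inv_ray {n : ℕ} {F : MvPolynomial (Fin n) ℝ} (hF : F.IsHomogeneous 4)
    (p q : Fin n → ℝ) (x : ℝ) (hx : x ≠ 0) :
    eval (q + x • p) F = x ^ 4 * eval (p + x⁻¹ • q) F := by
  rw [← hom_smul hF]
  congr 2
  rw [smul_add, smul_smul, mul_inv_cancel₀ hx, one_smul, add_comm]

/-- the plane map -/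
noncomputable def Lm {n : ℕ} (p q : Fin n → ℝ) : (Fin 2 → ℝ) →ₗ[ℝ] (Fin n → ℝ) where
  toFun v := v 0 • p + v 1 • q
  map_add' u v := by
    simp only [Pi.add_apply]
    module
  map_smul' s v := by
    simp only [Pi.smul_apply, smul_eq_mul, RingHom.id_apply]
    module

theorem Lm_inj {n : ℕ} (p q : Fin n → ℝ) (h : LinearIndependent ℝ ![p, q]) :
    Function.Injective (Lm p q) := by
  rw [← LinearMap.ker_eq_bot, LinearMap.ker_eq_bot']
  intro v hv
  have h1 : v 0 • p + v 1 • q = 0 := hv
  rw [LinearIndependent.pair_iff] at h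
  obtain ⟨h2, h3⟩ := h _ _ h1
  funext j
  fin_cases j
  · exact h2
  · exact h3

theorem part1 {n : ℕ} {F : MvPolynomial (Fin n) ℝ} (hF : F.IsHomogeneous 4) (hfin : FinZ F)
    (p q : Fin n → ℝ) (h : LinearIndependent ℝ ![p, q]) :
    ∃ s t : ℝ, eval (s • p + t • q) F ≠ 0 := by
  by_contra hcon
  push Not at hcon
  have h1 := FinZ.pull (Lm p q) (Lm_inj p q h) hF (by norm_num) hfin
  unfold FinZ at h1
  refine Set.infinite_of_injective_forall_mem
    (f := fun k : ℕ => (![1 / ((k : ℝ) + 1), Real.sqrt (1 - (1 / ((k : ℝ) + 1)) ^ 2)] :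
      Fin 2 → ℝ)) ?_ ?_ h1
  · intro a b hab
    have h2 := congrFun hab 0
    simp only [Matrix.cons_val_zero] at h2
    have ha : (0 : ℝ) < (a : ℝ) + 1 := by positivity
    have hb : (0 : ℝ) < (b : ℝ) + 1 := by positivity
    rw [div_eq_div_iff ha.ne' hb.ne'] at h2
    have h3 : (a : ℝ) = b := by linarith
    exact_mod_cast h3
  · intro k
    have hk : (0 : ℝ) < (k : ℝ) + 1 := by positivity
    have hk1 : (1 : ℝ) / ((k : ℝ) + 1) ≤ 1 := by
      rw [div_le_one hk]
      have : (0 : ℝ) ≤ (k : ℝ) := Nat.cast_nonneg k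
      linarith
    have hk0 : (0 : ℝ) ≤ 1 / ((k : ℝ) + 1) := by positivity
    refine ⟨?_, ?_⟩
    · rw [eval_pull]
      exact hcon _ _
    · rw [Fin.sum_univ_two]
      simp only [Matrix.cons_val_zero, Matrix.cons_val_one]
      rw [Real.sq_sqrt (by nlinarith)]
      ring

/-- on the projective line through `p` and `q` -/
theorem all_zero {n : ℕ} {F : MvPolynomial (Fin n) ℝ} (hF : F.IsHomogeneous 4)
    (p q : Fin n → ℝ) (hq : eval q F = 0) (h : ∀ x : ℝ, eval (p + x • q) F = 0) (s t : ℝ) :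
    eval (s • p + t • q) F = 0 := by
  by_cases hs : s = 0
  · rw [hs, zero_smul, zero_add, hom_smul hF, hq, mul_zero]
  · have h1 : s • p + t • q = s • (p + (t / s) • q) := by
      rw [smul_add, smul_smul, mul_div_cancel₀ t hs]
    rw [h1, hom_smul hF, h, mul_zero]

theorem tendsto_inv_eval (g : U1) :
    Filter.Tendsto (fun x : ℝ => g.eval x⁻¹) Filter.atTop (nhds (g.eval 0)) :=
  ((g.continuous.tendsto 0).comp tendsto_inv_atTop_zero)

end LN_

open LN_ in
theorem ln_proof : Stmt_LN := by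
  intro n F hF hpsd hfin p q hli
  have h1 := part1 hF hfin p q hli
  refine ⟨h1, ?_, ?_⟩
  · intro hp hq s t hs ht h0
    obtain ⟨s', t', hne⟩ := h1
    apply hne
    have hd1 := sq_dvd_comp hpsd (ray p q) (by rw [at0_ray]; exact hp)
    have hd2 := sq_dvd_comp hpsd (ray q p) (by rw [at0_ray]; exact hq)
    obtain ⟨f1, hf1⟩ := hd1
    obtain ⟨g1, hg1⟩ := hd2
    have hrel : ∀ x : ℝ, x ≠ 0 → f1.eval x = g1.eval x⁻¹ := by
      intro x hx
      have e1 : eval (p + x • q) F = x ^ 2 * f1.eval x := by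
        rw [← comp_ray_eval, hf1]; simp
      have e2 : eval (q + x⁻¹ • p) F = x⁻¹ ^ 2 * g1.eval x⁻¹ := by
        rw [← comp_ray_eval, hg1]; simp
      rw [inv_ray hF q p x hx, e2] at e1
      have hx2 : x ^ 2 ≠ 0 := pow_ne_zero _ hx
      have e3 : x ^ 4 * (x⁻¹ ^ 2 * g1.eval x⁻¹) = x ^ 2 * g1.eval x⁻¹ := by
        field_simp
      rw [e3] at e1
      exact (mul_left_cancel₀ hx2 e1).symm
    have hlim : Filter.Tendsto (fun x => f1.eval x) Filter.atTop (nhds (g1.eval 0)) := by
      refine (tendsto_inv_eval g1).congr' ?_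
      filter_upwards [Filter.eventually_gt_atTop (0 : ℝ)] with x hx
      exact (hrel x hx.ne').symm
    have hC := eq_C_of_tendsto f1 _ hlim
    have hval : ∀ x : ℝ, eval (p + x • q) F = x ^ 2 * g1.eval 0 := by
      intro x
      rw [← comp_ray_eval, hf1, hC]
      simp only [Polynomial.eval_mul, Polynomial.eval_pow, Polynomial.eval_X, Polynomial.eval_C]
    have h2 : eval (p + (t / s) • q) F = 0 := by
      have h3 : s • p + t • q = s • (p + (t / s) • q) := by
        rw [smul_add, smul_smul, mul_div_cancel₀ t hs]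
      rw [h3, hom_smul hF] at h0
      exact (mul_eq_zero.mp h0).resolve_left (pow_ne_zero _ hs)
    rw [hval] at h2
    have h4 : g1.eval 0 = 0 :=
      (mul_eq_zero.mp h2).resolve_left (pow_ne_zero _ (div_ne_zero ht hs))
    exact all_zero hF p q hq (fun x => by rw [hval, h4, mul_zero]) s' t'
  · intro hp hd
    obtain ⟨s', t', hne⟩ := h1
    apply hne
    obtain ⟨r, hr⟩ := hd
    have hrel : ∀ x : ℝ, x ≠ 0 → r.eval x = (comp (ray p q) F).eval x⁻¹ := by
      intro x hx
      have e1 : eval (q + x • p) F = x ^ 4 * r.eval x := by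
        rw [← comp_ray_eval, hr]; simp
      rw [inv_ray hF p q x hx] at e1
      rw [comp_ray_eval]
      exact (mul_left_cancel₀ (pow_ne_zero 4 hx) e1).symm
    have hlim : Filter.Tendsto (fun x => r.eval x) Filter.atTop
        (nhds ((comp (ray p q) F).eval 0)) := by
      refine (tendsto_inv_eval (comp (ray p q) F)).congr' ?_
      filter_upwards [Filter.eventually_gt_atTop (0 : ℝ)] with x hx
      exact (hrel x hx.ne').symm
    have hC := eq_C_of_tendsto r _ hlim
    have h0 : (comp (ray p q) F).eval 0 = 0 := by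
      rw [comp_ray_eval, zero_smul, add_zero, hp]
    rw [h0, map_zero] at hC
    have hval : ∀ x : ℝ, eval (q + x • p) F = 0 := by
      intro x
      rw [← comp_ray_eval, hr, hC]; simp
    rw [add_comm]
    exact all_zero hF q p hp hval t' s'

end Pool.Agent.SBQ
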