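import Pool.Agent.SBQ.StmtsB

/-!
# SBQ, module LP: lower bound at a zero with positive definite Hessian
-/

namespace Pool.Agent.SBQ

open MvPolynomial (eval aeval C)

namespace LP_

theorem sphere_compact : IsCompact {v : Fin 3 → ℝ | ∑ j, v j ^ 2 = 1} := by
  apply Metric.isCompact_of_isClosed_isBounded
  · apply isClosed_eq
    · fun_prop
    · exact continuous_const
  · apply (Metric.isBounded_closedBall (x := (0 : Fin 3 → ℝ)) (r := 1)).subset
    intro v hv
    rw [mem_closedBall_zero_iff, pi_norm_le_iff_of_nonneg zero_le_one]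
    intro i
    rw [Real.norm_eq_abs]
    have h1 : v i ^ 2 ≤ 1 := by
      rw [← (show ∑ j, v j ^ 2 = 1 from hv)]
      exact Finset.single_le_sum (f := fun j => v j ^ 2) (fun j _ => sq_nonneg (v j))
        (Finset.mem_univ i)
    exact abs_le_one_iff_mul_self_le_one.mpr (by nlinarith)

theorem sphere_nonempty : ({v : Fin 3 → ℝ | ∑ j, v j ^ 2 = 1}).Nonempty :=
  ⟨![1, 0, 0], by simp [Fin.sum_univ_three]⟩

/-- lower bound of a positive form of degree two -/
theorem lower (A : P3) (hA : A.IsHomogeneous 2) (hp : ∀ v, v ≠ 0 → 0 < eval v A) :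
    ∃ a : ℝ, 0 < a ∧ ∀ (r : ℝ) (u : Fin 3 → ℝ), ∑ j, u j ^ 2 = 1 →
      a * r ^ 2 ≤ eval (r • u) A := by
  obtain ⟨u₀, hu₀, hmin⟩ := sphere_compact.exists_isMinOn sphere_nonempty
    ((MvPolynomial.continuous_eval A).continuousOn)
  have hu₀' : u₀ ≠ 0 := by
    rintro rfl
    have : ∑ j : Fin 3, (0 : Fin 3 → ℝ) j ^ 2 = 1 := hu₀
    simp at this
  refine ⟨eval u₀ A, hp u₀ hu₀', fun r u hu => ?_⟩
  rw [hom_smul hA, mul_comm]
  exact mul_le_mul_of_nonneg_left (hmin hu) (sq_nonneg r)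

/-- upper bound of a form -/
theorem upper (B : P3) (d : ℕ) (hB : B.IsHomogeneous d) :
    ∃ b : ℝ, 0 < b ∧ ∀ (r : ℝ) (u : Fin 3 → ℝ), 0 ≤ r → ∑ j, u j ^ 2 = 1 →
      |eval (r • u) B| ≤ b * r ^ d := by
  obtain ⟨K, hK⟩ := sphere_compact.exists_bound_of_continuousOn
    ((MvPolynomial.continuous_eval B).continuousOn)
  refine ⟨max K 1, lt_of_lt_of_le one_pos (le_max_right _ _), fun r u hr hu => ?_⟩
  rw [hom_smul hB, abs_mul, abs_of_nonneg (pow_nonneg hr d), mul_comm]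
  apply mul_le_mul_of_nonneg_right _ (pow_nonneg hr d)
  have := hK u hu
  rw [Real.norm_eq_abs] at this
  exact this.trans (le_max_left _ _)

end LP_

open LP_ in
theorem lp_proof : Stmt_LP := by
  intro F A B D hE hpos
  obtain ⟨hA, hB, hD, hF⟩ := hE
  obtain ⟨a, ha, hlow⟩ := lower A hA hpos
  obtain ⟨b, hb, hupB⟩ := upper B 3 hB
  obtain ⟨d, hd, hupD⟩ := upper D 4 hD
  refine ⟨a / 2, min (1 / 2) (a / (4 * (2 * b + d))), by positivity,
    lt_min (by norm_num) (by positivity), fun v hv => ?_⟩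
  have hF1 : eval (Fin.cons 1 v : Fin 4 → ℝ) F = eval v A + 2 * eval v B + eval v D := by
    rw [hF]; ring
  rw [hF1]
  set r : ℝ := Real.sqrt (∑ j, v j ^ 2) with hr
  have hsum : 0 ≤ ∑ j, v j ^ 2 := Finset.sum_nonneg fun j _ => sq_nonneg _
  have hr0 : 0 ≤ r := Real.sqrt_nonneg _
  have hr2 : r ^ 2 = ∑ j, v j ^ 2 := Real.sq_sqrt hsum
  rw [← hr2]
  have hvr : ∃ u : Fin 3 → ℝ, ∑ j, u j ^ 2 = 1 ∧ v = r • u := by
    by_cases h0 : r = 0
    · refine ⟨![1, 0, 0], by simp [Fin.sum_univ_three], ?_⟩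
      rw [h0, zero_smul]
      have h1 : ∑ j, v j ^ 2 = 0 := by rw [← hr2, h0]; ring
      rw [Finset.sum_eq_zero_iff_of_nonneg (fun j _ => sq_nonneg _)] at h1
      funext j
      have := h1 j (Finset.mem_univ j)
      exact pow_eq_zero_iff (two_ne_zero) |>.mp this
    · refine ⟨r⁻¹ • v, ?_, ?_⟩
      · have : ∑ j, (r⁻¹ • v) j ^ 2 = r⁻¹ ^ 2 * ∑ j, v j ^ 2 := by
          rw [Finset.mul_sum]
          refine Finset.sum_congr rfl fun j _ => ?_
          simp only [Pi.smul_apply, smul_eq_mul]; ring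
        rw [this, ← hr2]
        field_simp
      · rw [smul_smul, mul_inv_cancel₀ h0, one_smul]
  obtain ⟨u, hu, hvu⟩ := hvr
  have h1 := hlow r u hu
  have h2 := hupB r u hr0 hu
  have h3 := hupD r u hr0 hu
  rw [← hvu] at h1 h2 h3
  have h2' := (abs_le.mp h2).1
  have h3' := (abs_le.mp h3).1
  -- size of `r`
  set δ : ℝ := min (1 / 2) (a / (4 * (2 * b + d))) with hδ
  have hδpos : 0 < δ := lt_min (by norm_num) (by positivity)
  have hr4 : r ^ 2 ≤ (2 * δ) ^ 2 := by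
    rw [hr2, Fin.sum_univ_three]
    have hj : ∀ j, v j ^ 2 ≤ δ ^ 2 := fun j => by
      have := hv j
      rw [← sq_abs]
      exact pow_le_pow_left₀ (abs_nonneg _) this.le 2
    have := hj 0; have := hj 1; have := hj 2
    nlinarith
  have hrδ : r ≤ 2 * δ := by
    exact (pow_le_pow_iff_left₀ hr0 (by positivity) (two_ne_zero)).mp hr4
  have hr1 : r ≤ 1 := by
    have := min_le_left (1 / 2 : ℝ) (a / (4 * (2 * b + d)))
    rw [← hδ] at this
    linarith
  have hrs : r * (2 * b + d) ≤ a / 2 := by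
    have h5 := min_le_right (1 / 2 : ℝ) (a / (4 * (2 * b + d)))
    rw [← hδ] at h5
    have h6 : 0 < 2 * b + d := by positivity
    calc r * (2 * b + d) ≤ (2 * (a / (4 * (2 * b + d)))) * (2 * b + d) :=
          mul_le_mul_of_nonneg_right (by linarith) h6.le
      _ = a / 2 := by field_simp; ring
  have h7 : r ^ 4 ≤ r ^ 3 := by
    calc r ^ 4 = r ^ 3 * r := by ring
      _ ≤ r ^ 3 * 1 := mul_le_mul_of_nonneg_left hr1 (pow_nonneg hr0 3)
      _ = r ^ 3 := mul_one _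
  have h8 : r ^ 2 * (r * (2 * b + d)) ≤ r ^ 2 * (a / 2) :=
    mul_le_mul_of_nonneg_left hrs (sq_nonneg r)
  have h9 : d * r ^ 4 ≤ d * r ^ 3 := mul_le_mul_of_nonneg_left h7 hd.le
  nlinarith

end Pool.Agent.SBQ
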