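import Pool.Agent.SBQ.StmtsB

/-!
# SBQ: module LS
-/

namespace Pool.Agent.SBQ

open MvPolynomial (eval aeval C)

namespace LS_

theorem eq_at_zero (u v : ℝ → ℝ) (hu : Continuous u) (hv : Continuous v)
    (h : ∀ s : ℝ, s ≠ 0 → u s = v s) : u 0 = v 0 := by
  have h1 : u = v := Continuous.ext_on (dense_compl_singleton (0 : ℝ)) hu hv
    (fun s hs => h s hs)
  rw [h1]

theorem nonneg_at_zero (u : ℝ → ℝ) (hu : Continuous u)
    (h : ∀ s : ℝ, s ≠ 0 → 0 ≤ u s) : 0 ≤ u 0 := by
  have h1 := eq_at_zero u (fun s => |u s|) hu hu.abs (fun s hs => (abs_of_nonneg (h s hs)).symm)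
  rw [h1]
  exact abs_nonneg _

/-- Taylor expansion to the second order in two directions -/
theorem taylor2 {n : ℕ} (F : MvPolynomial (Fin n) ℝ) (γ : Fin n → U1) (α β : Fin n → ℝ) :
    ∃ (K L : U1) (P Q R : ℝ × ℝ × ℝ → ℝ), Continuous P ∧ Continuous Q ∧ Continuous R ∧
      ∀ x a b : ℝ, eval (fun j => (γ j).eval x + α j * a + β j * b) F =
        (comp γ F).eval x + K.eval x * a + L.eval x * b + P (x, a, b) * a ^ 2 +
          Q (x, a, b) * (a * b) + R (x, a, b) * b ^ 2 := by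
  induction F using MvPolynomial.induction_on with
  | C c =>
    refine ⟨0, 0, fun _ => 0, fun _ => 0, fun _ => 0, continuous_const, continuous_const,
      continuous_const, fun x a b => ?_⟩
    rw [comp_C]
    simp
  | add p q hp hq =>
    obtain ⟨K, L, P, Q, R, hP, hQ, hR, h⟩ := hp
    obtain ⟨K', L', P', Q', R', hP', hQ', hR', h'⟩ := hq
    refine ⟨K + K', L + L', fun v => P v + P' v, fun v => Q v + Q' v, fun v => R v + R' v,
      hP.add hP', hQ.add hQ', hR.add hR', fun x a b => ?_⟩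
    rw [map_add, h, h', comp_add, Polynomial.eval_add, Polynomial.eval_add, Polynomial.eval_add]
    ring
  | mul_X p j hp =>
    obtain ⟨K, L, P, Q, R, hP, hQ, hR, h⟩ := hp
    have hc : Continuous (fun v : ℝ × ℝ × ℝ => (γ j).eval v.1 + α j * v.2.1 + β j * v.2.2) := by
      have := (γ j).continuous
      fun_prop
    have hK : Continuous (fun v : ℝ × ℝ × ℝ => K.eval v.1) := K.continuous.comp continuous_fst
    have hL : Continuous (fun v : ℝ × ℝ × ℝ => L.eval v.1) := L.continuous.comp continuous_fst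
    refine ⟨K * γ j + comp γ p * Polynomial.C (α j), L * γ j + comp γ p * Polynomial.C (β j),
      fun v => K.eval v.1 * α j + P v * ((γ j).eval v.1 + α j * v.2.1 + β j * v.2.2),
      fun v => K.eval v.1 * β j + L.eval v.1 * α j +
        Q v * ((γ j).eval v.1 + α j * v.2.1 + β j * v.2.2),
      fun v => L.eval v.1 * β j + R v * ((γ j).eval v.1 + α j * v.2.1 + β j * v.2.2),
      (hK.mul continuous_const).add (hP.mul hc),
      ((hK.mul continuous_const).add (hL.mul continuous_const)).add (hQ.mul hc),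
      (hL.mul continuous_const).add (hR.mul hc), fun x a b => ?_⟩
    rw [map_mul, h, comp_mul, comp_X, MvPolynomial.eval_X]
    simp only [Polynomial.eval_add, Polynomial.eval_mul, Polynomial.eval_C]
    ring

/-- a positive definite ternary form -/
theorem posdef (α β β' : ℝ) (h : (β ^ 2 + β' ^ 2) / 4 < α) :
    ∃ c : ℝ, 0 < c ∧ ∀ U a b : ℝ, c * (U ^ 2 + a ^ 2 + b ^ 2) ≤
      α * U ^ 2 + β * U * a + β' * U * b + a ^ 2 + b ^ 2 := by
  set e := α - (β ^ 2 + β' ^ 2) / 4 with he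
  have he0 : 0 < e := by rw [he]; linarith
  set M := 2 + (1 + (β ^ 2 + β' ^ 2) / 2) / e with hM
  have hM0 : 0 < M := by positivity
  refine ⟨M⁻¹, inv_pos.2 hM0, fun U a b => ?_⟩
  rw [inv_mul_le_iff₀ hM0]
  have h1 : α * U ^ 2 + β * U * a + β' * U * b + a ^ 2 + b ^ 2 =
      (a + β * U / 2) ^ 2 + (b + β' * U / 2) ^ 2 + e * U ^ 2 := by
    rw [he]; ring
  rw [h1]
  have h2 : a ^ 2 ≤ 2 * (a + β * U / 2) ^ 2 + β ^ 2 * U ^ 2 / 2 := by
    nlinarith [sq_nonneg (a + β * U)]
  have h3 : b ^ 2 ≤ 2 * (b + β' * U / 2) ^ 2 + β' ^ 2 * U ^ 2 / 2 := by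
    nlinarith [sq_nonneg (b + β' * U)]
  have h4 : (1 + (β ^ 2 + β' ^ 2) / 2) * U ^ 2 =
      ((1 + (β ^ 2 + β' ^ 2) / 2) / e) * (e * U ^ 2) := by
    field_simp
  have h5 : 0 ≤ (1 + (β ^ 2 + β' ^ 2) / 2) / e := by positivity
  have h6 : 0 ≤ ((1 + (β ^ 2 + β' ^ 2) / 2) / e) *
      ((a + β * U / 2) ^ 2 + (b + β' * U / 2) ^ 2) := by positivity
  have h7 : 0 ≤ e * U ^ 2 := by positivity
  rw [hM]
  nlinarith

/-- divisibility of the coefficients of the first order -/
theorem first_order (G : ℝ → ℝ → ℝ) (K0 K : U1) (P : ℝ × ℝ → ℝ) (hP : Continuous P) (i : ℕ)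
    (hG : ∀ x s, 0 ≤ G x s) (h : ∀ x s, G x s = K0.eval x + K.eval x * s + P (x, s) * s ^ 2)
    (hK0 : (Polynomial.X : U1) ^ (2 * i) ∣ K0) : (Polynomial.X : U1) ^ i ∣ K := by
  obtain ⟨C1, hC1⟩ := ((isCompact_Icc (a := (-1 : ℝ)) (b := 1)).prod
    (isCompact_Icc (a := (-1 : ℝ)) (b := 1))).exists_bound_of_continuousOn
    (hP.continuousOn)
  obtain ⟨C2, hC2⟩ := (isCompact_Icc (a := (-1 : ℝ)) (b := 1)).exists_bound_of_continuousOn
    (K.continuous.continuousOn)
  set C := max 1 (max C1 C2) with hC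
  have hC0 : 1 ≤ C := le_max_left _ _
  have hCC1 : C1 ≤ C := (le_max_left _ _).trans (le_max_right _ _)
  have hCC2 : C2 ≤ C := (le_max_right _ _).trans (le_max_right _ _)
  refine dvd_of_sq_le K K0 i (4 * C) 1 one_pos (fun t ht ht1 => ?_) hK0
  have hK : |K.eval t| ≤ C := by
    have := hC2 t ⟨by linarith, ht1.le⟩
    rw [Real.norm_eq_abs] at this
    exact this.trans hCC2
  set s := -(K.eval t) / (2 * C) with hs
  have hs1 : |s| ≤ 1 := by
    rw [hs, abs_div, abs_neg, abs_of_pos (show (0 : ℝ) < 2 * C by linarith),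
      div_le_one (by linarith)]
    linarith
  have hPs : P (t, s) ≤ C := by
    have h1 : (t, s) ∈ Set.Icc (-1 : ℝ) 1 ×ˢ Set.Icc (-1 : ℝ) 1 := by
      refine ⟨⟨by linarith, ht1.le⟩, ?_⟩
      exact ⟨(abs_le.1 hs1).1, (abs_le.1 hs1).2⟩
    have := hC1 _ h1
    rw [Real.norm_eq_abs] at this
    exact (le_abs_self _).trans (this.trans hCC1)
  have h2 := hG t s
  rw [h] at h2
  have h3 : P (t, s) * s ^ 2 ≤ C * s ^ 2 := mul_le_mul_of_nonneg_right hPs (sq_nonneg s)
  have h4 : K.eval t * s + C * s ^ 2 = -(K.eval t ^ 2 / (4 * C)) := by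
    rw [hs]
    field_simp
    ring
  have h5 : K.eval t ^ 2 / (4 * C) ≤ K0.eval t := by linarith
  rw [div_le_iff₀ (by linarith)] at h5
  linarith

/-- the error terms -/
theorem err (c U a b k0 k1 k2 p q r α β β' : ℝ) (hc : 0 < c)
    (h : c * (U ^ 2 + a ^ 2 + b ^ 2) ≤ α * U ^ 2 + β * U * a + β' * U * b + a ^ 2 + b ^ 2)
    (h0 : |k0 - α| ≤ c / 4) (h1 : |k1 - β| ≤ c / 4) (h2 : |k2 - β'| ≤ c / 4)
    (hp : |p - 1| ≤ c / 4) (hq : |q| ≤ c / 4) (hr : |r - 1| ≤ c / 4) :
    c / 2 * (U ^ 2 + a ^ 2 + b ^ 2) ≤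
      k0 * U ^ 2 + k1 * U * a + k2 * U * b + p * a ^ 2 + q * (a * b) + r * b ^ 2 := by
  have e0 : -(c / 4 * U ^ 2) ≤ (k0 - α) * U ^ 2 := by
    have := mul_le_mul_of_nonneg_right (abs_le.1 h0).1 (sq_nonneg U)
    linarith
  have e3 : -(c / 4 * a ^ 2) ≤ (p - 1) * a ^ 2 := by
    have := mul_le_mul_of_nonneg_right (abs_le.1 hp).1 (sq_nonneg a)
    linarith
  have e5 : -(c / 4 * b ^ 2) ≤ (r - 1) * b ^ 2 := by
    have := mul_le_mul_of_nonneg_right (abs_le.1 hr).1 (sq_nonneg b)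
    linarith
  have key : ∀ k u v : ℝ, |k| ≤ c / 4 → -(c / 4 * ((u ^ 2 + v ^ 2) / 2)) ≤ k * (u * v) := by
    intro k u v hk
    have h3 : |k * (u * v)| ≤ c / 4 * ((u ^ 2 + v ^ 2) / 2) := by
      rw [abs_mul]
      refine mul_le_mul hk ?_ (abs_nonneg _) (by linarith)
      rw [abs_mul]
      nlinarith [sq_nonneg (|u| - |v|), sq_abs u, sq_abs v]
    exact (abs_le.1 h3).1
  have e1 := key (k1 - β) U a h1
  have e2 := key (k2 - β') U b h2
  have e4 := key q a b hq
  nlinarith

end LS_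

open LS_ in
theorem ls_proof : Stmt_LS := by
  intro F B D i g hF hE hi hg0 hdvd
  set γ : Fin 4 → U1 := ![1, Polynomial.X, g 0, g 1] with hγ
  obtain ⟨K, L, P, Q, R, hP, hQ, hR, hT⟩ := taylor2 F γ ![0, 0, 1, 0] ![0, 0, 0, 1]
  -- the value
  have hval : ∀ x a b : ℝ, (fun j => (γ j).eval x + (![0, 0, 1, 0] : Fin 4 → ℝ) j * a +
      (![0, 0, 0, 1] : Fin 4 → ℝ) j * b) = ![1, x, (g 0).eval x + a, (g 1).eval x + b] := by
    intro x a b
    funext j
    fin_cases j <;> simp [hγ]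
  have hf : ∀ x a b : ℝ, eval ![1, x, (g 0).eval x + a, (g 1).eval x + b] F =
      (comp γ F).eval x + K.eval x * a + L.eval x * b + P (x, a, b) * a ^ 2 +
          Q (x, a, b) * (a * b) + R (x, a, b) * b ^ 2 := by
    intro x a b
    rw [← hval, hT]
  have hg00 : (g 0).eval 0 = 0 := by
    have := congrFun hg0 0
    rw [← Polynomial.coeff_zero_eq_eval_zero]
    exact this
  have hg10 : (g 1).eval 0 = 0 := by
    have := congrFun hg0 1
    rw [← Polynomial.coeff_zero_eq_eval_zero]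
    exact this
  -- first order
  have hKd : (Polynomial.X : U1) ^ i ∣ K := by
    refine first_order (fun x s => eval ![1, x, (g 0).eval x + s, (g 1).eval x + 0] F)
      (comp γ F) K (fun v => P (v.1, v.2, 0)) (hP.comp (by fun_prop)) i (fun x s => hF _) ?_ hdvd
    intro x s
    simp only
    rw [hf]
    ring
  have hLd : (Polynomial.X : U1) ^ i ∣ L := by
    refine first_order (fun x s => eval ![1, x, (g 0).eval x + 0, (g 1).eval x + s] F)
      (comp γ F) L (fun v => R (v.1, 0, v.2)) (hR.comp (by fun_prop)) i (fun x s => hF _) ?_ hdvd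
    intro x s
    simp only
    rw [hf]
    ring
  obtain ⟨k0, hk0⟩ := hdvd
  obtain ⟨k1, hk1⟩ := hKd
  obtain ⟨k2, hk2⟩ := hLd
  have hi0 : i ≠ 0 := by omega
  have hf2 : ∀ x a b : ℝ, eval ![1, x, (g 0).eval x + a, (g 1).eval x + b] F =
      k0.eval x * (x ^ i) ^ 2 + k1.eval x * (x ^ i) * a + k2.eval x * (x ^ i) * b +
        P (x, a, b) * a ^ 2 + Q (x, a, b) * (a * b) + R (x, a, b) * b ^ 2 := by
    intro x a b
    rw [hf, hk0, hk1, hk2]
    simp only [Polynomial.eval_mul, Polynomial.eval_pow, Polynomial.eval_X]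
    rw [pow_mul']
    ring
  -- the values at the origin
  have hexp : ∀ a b : ℝ, eval ![1, 0, a, b] F =
      a ^ 2 + b ^ 2 + 2 * eval ![0, a, b] B + eval ![0, a, b] D := by
    intro a b
    have h1 := hE.2.2.2 1 ![0, a, b]
    have h2 : (Fin.cons 1 ![0, a, b] : Fin 4 → ℝ) = ![1, 0, a, b] := rfl
    rw [h2] at h1
    rw [h1]
    simp [Ayz]
  have horig : ∀ a b : ℝ, P (0, 0, 0) * a ^ 2 + Q (0, 0, 0) * (a * b) + R (0, 0, 0) * b ^ 2 =
      a ^ 2 + b ^ 2 := by
    intro a b
    have h1 := eq_at_zero (fun s => P (0, s * a, s * b) * a ^ 2 + Q (0, s * a, s * b) * (a * b) +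
        R (0, s * a, s * b) * b ^ 2)
      (fun s => a ^ 2 + b ^ 2 + 2 * s * eval ![0, a, b] B + s ^ 2 * eval ![0, a, b] D)
      (by fun_prop) (by fun_prop) (by
        intro s hs
        have h2 := hf2 0 (s * a) (s * b)
        rw [hg00, hg10, zero_add, zero_add, hexp, zero_pow hi0] at h2
        have h3 : (![0, s * a, s * b] : Fin 3 → ℝ) = s • ![0, a, b] := by
          funext j
          fin_cases j <;> simp
        rw [h3, hom_smul hE.2.1, hom_smul hE.2.2.1] at h2
        have h4 : s ^ 2 ≠ 0 := pow_ne_zero 2 hs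
        apply mul_left_cancel₀ h4
        nlinarith [h2])
    simp only [zero_mul] at h1
    rw [h1]
    ring
  have hP0 : P (0, 0, 0) = 1 := by
    have := horig 1 0
    linarith
  have hR0 : R (0, 0, 0) = 1 := by
    have := horig 0 1
    linarith
  have hQ0 : Q (0, 0, 0) = 0 := by
    have := horig 1 1
    rw [hP0, hR0] at this
    linarith
  by_cases hcase : ((k1.eval 0) ^ 2 + (k2.eval 0) ^ 2) / 4 < k0.eval 0
  · right
    obtain ⟨c, hc, hpd⟩ := posdef _ _ _ hcase
    -- continuity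
    have hev : ∀ (u : ℝ × ℝ × ℝ → ℝ) (w : ℝ), Continuous u → u (0, 0, 0) = w →
        ∀ᶠ v : ℝ × ℝ × ℝ in nhds (0, 0, 0), |u v - w| ≤ c / 4 := by
      intro u w hu hw
      have h1 : Filter.Tendsto (fun v => |u v - w|) (nhds ((0, 0, 0) : ℝ × ℝ × ℝ)) (nhds 0) := by
        have h2 : Continuous (fun v => |u v - w|) := (hu.sub continuous_const).abs
        have h3 := h2.tendsto ((0, 0, 0) : ℝ × ℝ × ℝ)
        simp only [hw, sub_self, abs_zero] at h3
        exact h3
      exact (h1.eventually_lt_const (show (0 : ℝ) < c / 4 by linarith)).mono fun v hv => hv.le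
    have hgc : Continuous (fun v : ℝ × ℝ × ℝ =>
        ((v.1, v.2.1 - (g 0).eval v.1, v.2.2 - (g 1).eval v.1) : ℝ × ℝ × ℝ)) := by
      have h1 := (g 0).continuous
      have h2 := (g 1).continuous
      fun_prop
    have hz : ((0 : ℝ), (0 : ℝ) - (g 0).eval 0, (0 : ℝ) - (g 1).eval 0) = (0, 0, 0) := by
      rw [hg00, hg10, sub_zero]
    have a0 := hev (fun v => k0.eval v.1) (k0.eval 0) (k0.continuous.comp continuous_fst) rfl
    have a1 := hev (fun v => k1.eval v.1) (k1.eval 0) (k1.continuous.comp continuous_fst) rfl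
    have a2 := hev (fun v => k2.eval v.1) (k2.eval 0) (k2.continuous.comp continuous_fst) rfl
    have a3 := hev (fun v => P (v.1, v.2.1 - (g 0).eval v.1, v.2.2 - (g 1).eval v.1)) 1
      (hP.comp hgc) (by simp only [hz, hP0])
    have a4 := hev (fun v => Q (v.1, v.2.1 - (g 0).eval v.1, v.2.2 - (g 1).eval v.1)) 0
      (hQ.comp hgc) (by simp only [hz, hQ0])
    have a5 := hev (fun v => R (v.1, v.2.1 - (g 0).eval v.1, v.2.2 - (g 1).eval v.1)) 1
      (hR.comp hgc) (by simp only [hz, hR0])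
    obtain ⟨δ, hδ, hball⟩ := Metric.eventually_nhds_iff.1
      (((((a0.and a1).and a2).and a3).and a4).and a5)
    refine ⟨c / 2, δ, by linarith, hδ, fun x y z hx hy hz' => ?_⟩
    have hd : dist ((x, y, z) : ℝ × ℝ × ℝ) (0, 0, 0) < δ := by
      rw [Prod.dist_eq, Prod.dist_eq]
      simp only [Real.dist_eq, sub_zero]
      exact max_lt hx (max_lt hy hz')
    obtain ⟨⟨⟨⟨⟨b0, b1⟩, b2⟩, b3⟩, b4⟩, b5⟩ := hball hd
    simp only at b0 b1 b2 b3 b4 b5
    rw [sub_zero] at b4
    have h1 := hf2 x (y - (g 0).eval x) (z - (g 1).eval x)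
    have h2 : (![1, x, (g 0).eval x + (y - (g 0).eval x), (g 1).eval x + (z - (g 1).eval x)] :
        Fin 4 → ℝ) = ![1, x, y, z] := by
      rw [add_sub_cancel, add_sub_cancel]
    rw [h2] at h1
    rw [h1]
    have h3 := err c (x ^ i) (y - (g 0).eval x) (z - (g 1).eval x) _ _ _ _ _ _ _ _ _ hc
      (hpd _ _ _) b0 b1 b2 b3 b4 b5
    have h4 : (y - (g 0).eval x) ^ 2 + (z - (g 1).eval x) ^ 2 + x ^ (2 * i) =
        (x ^ i) ^ 2 + (y - (g 0).eval x) ^ 2 + (z - (g 1).eval x) ^ 2 := by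
      rw [pow_mul']
      ring
    rw [h4]
    exact h3
  · left
    set β := k1.eval 0 with hβ
    set β' := k2.eval 0 with hβ'
    refine ⟨![g 0 - Polynomial.C (β / 2) * Polynomial.X ^ i,
      g 1 - Polynomial.C (β' / 2) * Polynomial.X ^ i], ?_, ?_⟩
    · funext j
      fin_cases j
      · have := congrFun hg0 0
        simp only [at0, Pi.zero_apply] at this
        simp [at0, this, Ne.symm hi0]
      · have := congrFun hg0 1
        simp only [at0, Pi.zero_apply] at this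
        simp [at0, this, Ne.symm hi0]
    · set γ' : Fin 4 → U1 := ![1, Polynomial.X,
        (![g 0 - Polynomial.C (β / 2) * Polynomial.X ^ i,
          g 1 - Polynomial.C (β' / 2) * Polynomial.X ^ i] : Fin 2 → U1) 0,
        (![g 0 - Polynomial.C (β / 2) * Polynomial.X ^ i,
          g 1 - Polynomial.C (β' / 2) * Polynomial.X ^ i] : Fin 2 → U1) 1] with hγ'
      set ψ : ℝ → ℝ := fun x => k0.eval x - k1.eval x * (β / 2) - k2.eval x * (β' / 2) +
        P (x, -(β / 2) * x ^ i, -(β' / 2) * x ^ i) * (β / 2) ^ 2 +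
        Q (x, -(β / 2) * x ^ i, -(β' / 2) * x ^ i) * ((β / 2) * (β' / 2)) +
        R (x, -(β / 2) * x ^ i, -(β' / 2) * x ^ i) * (β' / 2) ^ 2 with hψ
      have hψc : Continuous ψ := by
        have h0 := k0.continuous
        have h1 := k1.continuous
        have h2 := k2.continuous
        rw [hψ]
        fun_prop
      have hψ0 : ψ 0 ≤ 0 := by
        rw [hψ]
        simp only [zero_pow hi0, mul_zero, hP0, hQ0, hR0]
        have h1 := not_lt.1 hcase
        rw [← hβ, ← hβ']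
        nlinarith
      have hcomp : ∀ x : ℝ, (comp γ' F).eval x = x ^ (2 * i) * ψ x := by
        intro x
        rw [eval_comp]
        have h1 : (fun j => (γ' j).eval x) =
            ![1, x, (g 0).eval x + (-(β / 2) * x ^ i), (g 1).eval x + (-(β' / 2) * x ^ i)] := by
          funext j
          fin_cases j <;> simp [hγ'] <;> ring
        rw [h1, hf2, hψ, pow_mul']
        ring
      have hnn : ∀ x : ℝ, 0 ≤ (comp γ' F).eval x := by
        intro x
        rw [eval_comp]
        exact hF _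
      obtain ⟨C1, hC1⟩ := (isCompact_Icc (a := (-1 : ℝ)) (b := 1)).exists_bound_of_continuousOn
        (hψc.continuousOn)
      have hd1 : (Polynomial.X : U1) ^ (2 * i) ∣ comp γ' F := by
        refine dvd_of_bound _ _ C1 1 one_pos (fun t ht ht1 => ?_)
        rw [hcomp, abs_mul, abs_of_pos (pow_pos ht _), mul_comm]
        refine mul_le_mul_of_nonneg_right ?_ (pow_pos ht _).le
        have := hC1 t ⟨by linarith, ht1.le⟩
        rwa [Real.norm_eq_abs] at this
      obtain ⟨q, hq⟩ := hd1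
      have hqψ : ∀ x : ℝ, x ≠ 0 → q.eval x = ψ x := by
        intro x hx
        have h1 := hcomp x
        rw [hq, Polynomial.eval_mul, Polynomial.eval_pow, Polynomial.eval_X] at h1
        exact mul_left_cancel₀ (pow_ne_zero _ hx) h1
      have hq0 : q.eval 0 = ψ 0 := eq_at_zero (fun x => q.eval x) ψ q.continuous hψc hqψ
      have hq1 : 0 ≤ q.eval 0 := by
        refine nonneg_at_zero (fun x => q.eval x) q.continuous (fun x hx => ?_)
        have h1 := hnn x
        rw [hq, Polynomial.eval_mul, Polynomial.eval_pow, Polynomial.eval_X, pow_mul'] at h1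
        have h2 : 0 < (x ^ i) ^ 2 := by positivity
        exact nonneg_of_mul_nonneg_right h1 h2
      have hq2 : q.eval 0 = 0 := le_antisymm (by rw [hq0]; exact hψ0) hq1
      have hXq : (Polynomial.X : U1) ∣ q := by
        rw [Polynomial.X_dvd_iff, Polynomial.coeff_zero_eq_eval_zero]
        exact hq2
      obtain ⟨q', hq'⟩ := hXq
      have hd2 : (Polynomial.X : U1) ^ (2 * i + 1) ∣ comp γ' F := by
        refine ⟨q', ?_⟩
        rw [hq, hq']
        ring
      have h5 := even_order _ i 1 one_pos (fun t _ => hnn t) hd2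
      have h6 : 2 * (i + 1) = 2 * i + 2 := by ring
      rw [h6]
      exact h5

end Pool.Agent.SBQ
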