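import Pool.Agent.SBQ.StmtsB

/-!
# SBQ: module MM (rigid forms are stubborn)
-/

namespace Pool.Agent.SBQ

open MvPolynomial (eval aeval C)

namespace MM_

theorem ne_zero_left {n : ℕ} {p q : Fin n → ℝ} (h : LinearIndependent ℝ ![p, q]) : p ≠ 0 := by
  have := h.ne_zero (0 : Fin 2)
  simpa using this

theorem ne_zero_right {n : ℕ} {p q : Fin n → ℝ} (h : LinearIndependent ℝ ![p, q]) : q ≠ 0 := by
  have := h.ne_zero (1 : Fin 2)
  simpa using this

theorem not_li_smul {n : ℕ} (r s : ℝ) (v : Fin n → ℝ) :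
    ¬ LinearIndependent ℝ ![r • v, s • v] := by
  intro h
  have hv := ne_zero_left h
  have hr : r ≠ 0 := by rintro rfl; simp at hv
  rw [LinearIndependent.pair_iff] at h
  have := h s (-r) (by simp [smul_smul, mul_comm])
  exact hr (by simpa using this.2)

end MM_

open MM_ in
theorem mm_proof (hKF : Stmt_KF) (hRK : Stmt_RK) (hQX : Stmt_QX) (hQN : Stmt_QN)
    (hNA : Stmt_NA) (hNB : Stmt_NB) (hVX : Stmt_VX) (hMN : Stmt_MN) : Stmt_MM := by
  classical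
  intro F hF k m g hk hg heq
  have hfin := hKF F hF
  have hrk := hRK F hF
  obtain ⟨ι, _, Q, γ, i, hQ0, hQ2, hsum, hcfg⟩ := hQX F hF hfin
  obtain ⟨hq1, hq2, hq3⟩ := hQN F Q ι γ i hF.1 hF.2.1 hfin hrk hQ2 hQ0 hcfg hsum
  have hnf := hNA Q hQ2 hq1 hq2 hq3
  obtain ⟨T, κ, ε, hκ, hT, h3e, hS⟩ := hNB F Q
    (Finset.univ.image (fun a => at0 (γ a)) ∪ Finset.univ.image (fun a => vel (γ a)))
    hF.1 hfin hnf (by
      intro s hs
      rw [Finset.mem_union, Finset.mem_image, Finset.mem_image] at hs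
      rcases hs with ⟨a, -, rfl⟩ | ⟨a, -, rfl⟩
      · exact ne_zero_left (hcfg.imm a)
      · exact ne_zero_right (hcfg.imm a))
  have hS1 : ∀ a, (T.symm (at0 (γ a))) 0 ≠ 0 ∨
      (ε = 0 ∧ ∃ r : ℝ, at0 (γ a) = r • T (Pi.single 2 1)) := fun a =>
    hS _ (Finset.mem_union_left _ (Finset.mem_image_of_mem _ (Finset.mem_univ a)))
  have hS2 : ∀ a, (T.symm (vel (γ a))) 0 ≠ 0 ∨
      (ε = 0 ∧ ∃ r : ℝ, vel (γ a) = r • T (Pi.single 2 1)) := fun a =>
    hS _ (Finset.mem_union_right _ (Finset.mem_image_of_mem _ (Finset.mem_univ a)))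
  have hF' := hF.pull T
  have hfin' : FinZ (pull (T : (Fin 4 → ℝ) →ₗ[ℝ] (Fin 4 → ℝ)) F) := hKF _ hF'
  have hrk' := hRK _ hF'
  have hcfg0 := hcfg.pull T
  rw [hT] at hcfg0
  have hcfg' : Cfg (pull (T : (Fin 4 → ℝ) →ₗ[ℝ] (Fin 4 → ℝ)) F) (Qe ε)
      (fun a => mapArc (T.symm : (Fin 4 → ℝ) →ₗ[ℝ] (Fin 4 → ℝ)) (γ a)) i := by
    refine ⟨hcfg0.one_le, hcfg0.imm, hcfg0.dist, hcfg0.ordF, fun a => ?_⟩
    have h1 := hcfg0.ordQ a
    rw [comp_mul, comp_C] at h1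
    have h2 : IsUnit (Polynomial.C κ : U1) := Polynomial.isUnit_C.mpr (IsUnit.mk0 κ hκ)
    exact (h2.dvd_mul_left).mp h1
  have heq' : (pull (T : (Fin 4 → ℝ) →ₗ[ℝ] (Fin 4 → ℝ)) F) ^ k =
      ∑ j, (pull (T : (Fin 4 → ℝ) →ₗ[ℝ] (Fin 4 → ℝ)) (g j)) ^ 2 := by
    rw [← pull_pow, heq, pull_sum]
    exact Finset.sum_congr rfl fun j _ => pull_pow _ _ _
  by_cases hall : ∀ a, (T.symm (at0 (γ a))) 0 ≠ 0
  · refine hMN _ ε ι _ i hF'.1 hF'.2.1 hfin' hrk' hcfg' hsum ?_ ?_ k m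
      (fun j => pull (T : (Fin 4 → ℝ) →ₗ[ℝ] (Fin 4 → ℝ)) (g j)) hk
      (fun j => pull_hom _ (hg j)) heq'
    · rw [eval_pull]; exact h3e
    · intro a
      rw [at0_mapArc]
      exact hall a
  · push Not at hall
    obtain ⟨a₀, ha₀⟩ := hall
    obtain ⟨hε, r, hr⟩ := (hS1 a₀).resolve_left (fun h => h ha₀)
    subst hε
    have h8 := hVX _ ι _ i a₀ r hF'.1 hF'.2.1 hfin' hrk' hcfg' (by
      rw [at0_mapArc, hr]
      simp) (by
      rw [vel_mapArc]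
      rcases hS2 a₀ with h | ⟨-, s, hs⟩
      · exact h
      · exfalso
        have := hcfg.imm a₀
        rw [hr, hs] at this
        exact not_li_smul _ _ _ this) (by
      intro a ha
      rw [at0_mapArc]
      rcases hS1 a with h | ⟨-, s, hs⟩
      · exact h
      · exfalso
        have := hcfg.dist a a₀ ha
        rw [hr, hs] at this
        exact not_li_smul _ _ _ this)
    omega

end Pool.Agent.SBQ
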