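import Pool.Agent.SBQ.StmtsB

/-!
# SBQ: module MN (plane transfer)
-/

namespace Pool.Agent.SBQ

open MvPolynomial (eval aeval C)

namespace MN_

theorem zero_of_dvd {n : ℕ} {F : MvPolynomial (Fin n) ℝ} {γ : Fin n → U1} {k : ℕ} (hk : 1 ≤ k)
    (h : (Polynomial.X : U1) ^ k ∣ comp γ F) : eval (at0 γ) F = 0 := by
  rw [← comp_coeff_zero]
  have h1 : (Polynomial.X : U1) ∣ comp γ F := (dvd_pow_self _ (by omega)).trans h
  exact Polynomial.X_dvd_iff.mp h1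

theorem eval_Qe (ε : ℝ) (p : Fin 4 → ℝ) :
    eval p (Qe ε) = p 0 * p 3 - p 1 ^ 2 - ε * p 2 ^ 2 := by
  simp [Qe]

theorem dist_aux (ε : ℝ) (p q : Fin 4 → ℝ) (hp : p 0 ≠ 0) (hq : q 0 ≠ 0)
    (hpQ : eval p (Qe ε) = 0) (hqQ : eval q (Qe ε) = 0)
    (hli : LinearIndependent ℝ ![p, q]) :
    (![p 1 / p 0, p 2 / p 0] : Fin 2 → ℝ) ≠ ![q 1 / q 0, q 2 / q 0] := by
  intro heq
  have h1 : p 1 / p 0 = q 1 / q 0 := congrFun heq 0
  have h2 : p 2 / p 0 = q 2 / q 0 := congrFun heq 1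
  rw [eval_Qe] at hpQ hqQ
  rw [div_eq_div_iff hp hq] at h1 h2
  have h3 : p 3 * q 0 = q 3 * p 0 := by
    have e1 : p 0 * p 3 = p 1 ^ 2 + ε * p 2 ^ 2 := by linarith
    have e2 : q 0 * q 3 = q 1 ^ 2 + ε * q 2 ^ 2 := by linarith
    have e3 : (p 3 * q 0 - q 3 * p 0) * (p 0 * q 0) = 0 := by
      have : (p 3 * q 0 - q 3 * p 0) * (p 0 * q 0) =
          (p 0 * p 3) * q 0 ^ 2 - (q 0 * q 3) * p 0 ^ 2 := by ring
      rw [this, e1, e2]
      have : (p 1 ^ 2 + ε * p 2 ^ 2) * q 0 ^ 2 - (q 1 ^ 2 + ε * q 2 ^ 2) * p 0 ^ 2 =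
          (p 1 * q 0 - q 1 * p 0) * (p 1 * q 0 + q 1 * p 0) +
            ε * ((p 2 * q 0 - q 2 * p 0) * (p 2 * q 0 + q 2 * p 0)) := by ring
      rw [this, sub_eq_zero.mpr h1, sub_eq_zero.mpr h2]
      ring
    have e4 := (mul_eq_zero.mp e3).resolve_right (mul_ne_zero hp hq)
    linarith
  rw [LinearIndependent.pair_iff] at hli
  have h4 := hli (q 0) (-(p 0)) (by
    funext j
    fin_cases j
    · simp; ring
    · simp; linarith
    · simp; linarith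
    · simp; linarith)
  exact hq h4.1

end MN_

open MN_ in
theorem mn_proof (h1 : Stmt_TW) (h2 : Stmt_CT) (h3 : Stmt_HS) (h4 : Stmt_FZ) (h5 : Stmt_FU) :
    Stmt_MN := by
  intro F ε ι _ γ i hF hpsd hfin hrk hcfg hsum h3e hne k m g hk hg heq
  have hex : ∀ a, ∃ β : Fin 2 → U1, Imm β ∧
      (Polynomial.X : U1) ^ (2 * i a) ∣ comp β (chart ε F) ∧
      at0 β = ![(at0 (γ a)) 1 / (at0 (γ a)) 0, (at0 (γ a)) 2 / (at0 (γ a)) 0] := fun a =>
    h2 F ε (γ a) (i a) hF hpsd (hcfg.one_le a) (hcfg.imm a) (hne a) (hcfg.ordF a) (hcfg.ordQ a)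
  choose β hβimm hβord hβ0 using hex
  have hQ : ∀ a, eval (at0 (γ a)) (Qe ε) = 0 := fun a =>
    zero_of_dvd (hcfg.one_le a) (hcfg.ordQ a)
  have hFam : Fam β i := by
    refine ⟨hcfg.one_le, hβimm, fun a b hab => ?_⟩
    rw [hβ0, hβ0]
    exact dist_aux ε _ _ (hne a) (hne b) (hQ a) (hQ b) (hcfg.dist a b hab)
  have hcp : Psd (chart ε F) := fun v => by rw [eval_chart]; exact hpsd _
  refine h1 ε (chart ε F) ι β i (h5.1 F ε 4 hF) (h5.2 F ε hF h3e) hcp (h4 F ε hF hfin) hFam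
    (by rw [hsum]) hβord (fun a => h3 F ε hF hpsd hrk (at0 (β a)) ?_) k m
    (fun j => chart ε (g j)) hk (fun j => h5.1 _ _ _ (hg j)) ?_
  · exact zero_of_dvd (k := 2 * i a) (by have := hcfg.one_le a; omega) (hβord a)
  · rw [← map_pow, heq, map_sum]
    simp

end Pool.Agent.SBQ
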