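import Pool.Agent.SBQ.StmtsB

set_option autoImplicit false

/-!
# SBQ, NB: generic normal form
-/

namespace Pool.Agent.SBQ.NB_

open MvPolynomial (eval aeval C)
open Pool.Agent.SBQ

noncomputable section

/-- The automorphism of the quadric: a shear and the exchange of the coordinates `0` and `3`. -/
def Mt (ε a b : ℝ) : (Fin 4 → ℝ) ≃ₗ[ℝ] (Fin 4 → ℝ) where
  toFun v := ![v 3, v 1 + a * v 3, v 2 + b * v 3,
    v 0 + 2 * a * v 1 + 2 * ε * b * v 2 + (a ^ 2 + ε * b ^ 2) * v 3]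
  invFun w := ![w 3 - 2 * a * w 1 - 2 * ε * b * w 2 + (a ^ 2 + ε * b ^ 2) * w 0,
    w 1 - a * w 0, w 2 - b * w 0, w 0]
  map_add' u v := by
    funext i
    fin_cases i <;> simp <;> ring
  map_smul' s v := by
    funext i
    fin_cases i <;> simp <;> ring
  left_inv v := by
    funext i
    fin_cases i <;> simp <;> ring
  right_inv v := by
    funext i
    fin_cases i <;> simp <;> ring

lemma Mt_apply (ε a b : ℝ) (v : Fin 4 → ℝ) : Mt ε a b v =
    ![v 3, v 1 + a * v 3, v 2 + b * v 3,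
      v 0 + 2 * a * v 1 + 2 * ε * b * v 2 + (a ^ 2 + ε * b ^ 2) * v 3] := rfl

lemma Mt_symm_apply (ε a b : ℝ) (w : Fin 4 → ℝ) : (Mt ε a b).symm w =
    ![w 3 - 2 * a * w 1 - 2 * ε * b * w 2 + (a ^ 2 + ε * b ^ 2) * w 0,
      w 1 - a * w 0, w 2 - b * w 0, w 0] := rfl

lemma eval_Qe (ε : ℝ) (v : Fin 4 → ℝ) : eval v (Qe ε) = v 0 * v 3 - v 1 ^ 2 - ε * v 2 ^ 2 := by
  simp [Qe]

lemma Qe_Mt (ε a b : ℝ) (v : Fin 4 → ℝ) : eval (Mt ε a b v) (Qe ε) = eval v (Qe ε) := by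
  rw [eval_Qe, eval_Qe, Mt_apply]
  simp
  ring

lemma Mt_e3 (ε a b : ℝ) : Mt ε a b (Pi.single 3 1) = ![1, a, b, a ^ 2 + ε * b ^ 2] := by
  rw [Mt_apply]
  simp

lemma Mt_e2 (a b : ℝ) : Mt 0 a b (Pi.single 2 1) = Pi.single 2 1 := by
  rw [Mt_apply]
  funext i
  fin_cases i <;> simp

/-- The first coordinate of the transformed vector, as a polynomial in the parameters. -/
def Ps (ε : ℝ) (s : Fin 4 → ℝ) : R2 :=
  C (s 3) - 2 * MvPolynomial.X 0 * C (s 1) - C (2 * ε * s 2) * MvPolynomial.X 1 +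
    (MvPolynomial.X 0 ^ 2 + C ε * MvPolynomial.X 1 ^ 2) * C (s 0)

lemma eval_Ps (ε : ℝ) (s : Fin 4 → ℝ) (v : Fin 2 → ℝ) :
    eval v (Ps ε s) = ((Mt ε (v 0) (v 1)).symm s) 0 := by
  rw [Mt_symm_apply]
  simp [Ps]
  ring

lemma Ps_zero (ε : ℝ) (s : Fin 4 → ℝ) (hs : s ≠ 0) (h : Ps ε s = 0) :
    ε = 0 ∧ s = s 2 • Pi.single 2 1 := by
  have h0 : ∀ a b : ℝ, s 3 - 2 * a * s 1 - 2 * ε * b * s 2 + (a ^ 2 + ε * b ^ 2) * s 0 = 0 := by
    intro a b
    have h1 := congrArg (eval ![a, b]) h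
    rw [eval_Ps, Mt_symm_apply, map_zero] at h1
    simpa using h1
  have h1 := h0 0 0
  have h2 := h0 1 0
  have h3 := h0 (-1) 0
  have h4 := h0 0 1
  have hs3 : s 3 = 0 := by linarith
  have hs0 : s 0 = 0 := by linarith
  have hs1 : s 1 = 0 := by linarith
  have hs2 : ε * s 2 = 0 := by
    rw [hs3, hs0] at h4
    linarith
  have hε : ε = 0 := by
    by_contra hne
    apply hs
    have h5 : s 2 = 0 := (mul_eq_zero.1 hs2).resolve_left hne
    funext i
    fin_cases i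
    · exact hs0
    · exact hs1
    · exact h5
    · exact hs3
  refine ⟨hε, ?_⟩
  funext i
  fin_cases i
  · simpa using hs0
  · simpa using hs1
  · simp
  · simpa using hs3

end

end Pool.Agent.SBQ.NB_

namespace Pool.Agent.SBQ

open MvPolynomial (eval aeval C)
open NB_

theorem nb_proof (h1 : Stmt_FZ) : Stmt_NB := by
  classical
  intro F Q S hF hFZ hQ hS
  obtain ⟨T0, κ, ε, hκ, hT0⟩ := hQ
  set F' : P4 := pull (T0 : (Fin 4 → ℝ) →ₗ[ℝ] (Fin 4 → ℝ)) F with hF'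
  have hF'hom : F'.IsHomogeneous 4 := pull_hom _ hF
  have hF'Z : FinZ F' := FinZ.pull _ T0.injective hF (by norm_num) hFZ
  have hch : chart ε F' ≠ 0 := by
    intro h0
    have h2 := h1 F' ε hF'hom hF'Z
    rw [h0] at h2
    have h3 : {v : Fin 2 → ℝ | eval v (0 : R2) = 0} = Set.univ := by
      ext v
      simp
    rw [h3] at h2
    exact Set.infinite_univ h2
  let G : R2 := chart ε F' * ∏ s ∈ S.filter (fun s => Ps ε (T0.symm s) ≠ 0), Ps ε (T0.symm s)
  have hG : G ≠ 0 := by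
    refine mul_ne_zero hch (Finset.prod_ne_zero_iff.2 fun s hs => ?_)
    exact (Finset.mem_filter.1 hs).2
  have hex : ∃ v : Fin 2 → ℝ, eval v G ≠ 0 := by
    by_contra hcon
    push Not at hcon
    exact hG (MvPolynomial.funext fun w => by rw [hcon w]; simp)
  obtain ⟨v, hv⟩ := hex
  have hv1 : eval v (chart ε F') ≠ 0 := by
    intro h0
    apply hv
    rw [map_mul, h0, zero_mul]
  have hv2 : ∀ s ∈ S, Ps ε (T0.symm s) ≠ 0 → eval v (Ps ε (T0.symm s)) ≠ 0 := by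
    intro s hs hne h0
    apply hv
    rw [map_mul, map_prod]
    have h2 : ∏ s ∈ S.filter (fun s => Ps ε (T0.symm s) ≠ 0), eval v (Ps ε (T0.symm s)) = 0 :=
      Finset.prod_eq_zero (Finset.mem_filter.2 ⟨hs, hne⟩) h0
    rw [h2, mul_zero]
  refine ⟨(Mt ε (v 0) (v 1)).trans T0, κ, ε, hκ, ?_, ?_, ?_⟩
  · apply MvPolynomial.funext
    intro u
    rw [eval_pull]
    have h3 := congrArg (eval (Mt ε (v 0) (v 1) u)) hT0
    rw [eval_pull, map_mul, MvPolynomial.eval_C, Qe_Mt] at h3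
    rw [map_mul, MvPolynomial.eval_C]
    exact h3
  · rw [eval_chart, ← Mt_e3, hF', eval_pull] at hv1
    exact hv1
  · intro s hs
    by_cases hne : Ps ε (T0.symm s) = 0
    · right
      obtain ⟨hε, hs2⟩ := Ps_zero ε (T0.symm s) (fun h0 => hS s hs (by
        have := congrArg T0 h0
        rwa [T0.apply_symm_apply, map_zero] at this)) hne
      refine ⟨hε, T0.symm s 2, ?_⟩
      have h5 : ((Mt ε (v 0) (v 1)).trans T0) (Pi.single 2 1) = T0 (Pi.single 2 1) := by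
        rw [LinearEquiv.trans_apply, hε, Mt_e2]
      rw [h5, ← map_smul, ← hs2, T0.apply_symm_apply]
    · left
      have h6 := hv2 s hs hne
      rw [eval_Ps] at h6
      exact h6

end Pool.Agent.SBQ
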