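import Pool.Agent.SBQ.StmtsB

/-!
# SBQ, module NQ: normal form of a ternary quadratic form of rank two
-/

namespace Pool.Agent.SBQ

open MvPolynomial (eval aeval C)

namespace NQ_

/-- normalisation of a vector with positive value -/
theorem unit {A : P3} (hA : A.IsHomogeneous 2) (y : Fin 3 → ℝ) (hy : 0 < eval y A) :
    eval ((Real.sqrt (eval y A))⁻¹ • y) A = 1 := by
  rw [hom_smul hA, inv_pow, Real.sq_sqrt hy.le, inv_mul_cancel₀ hy.ne']

end NQ_

theorem nq_proof : Stmt_NQ := by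
  intro A hA hp hsq hu
  obtain ⟨u, hu0, huA⟩ := hu
  have hA0 : A ≠ 0 := by
    intro h0
    apply hsq 0 (MvPolynomial.isHomogeneous_zero _ _ _)
    rw [h0]
    ring
  obtain ⟨w, hw⟩ : ∃ w, eval w A ≠ 0 := by
    by_contra hcon
    push Not at hcon
    exact hA0 (MvPolynomial.funext fun w => by rw [hcon w]; simp)
  have hw' : 0 < eval w A := lt_of_le_of_ne (hp w) (Ne.symm hw)
  set v1 : Fin 3 → ℝ := (Real.sqrt (eval w A))⁻¹ • w with hv1
  have h11 : eval v1 A = 1 := NQ_.unit hA w hw'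
  obtain ⟨l1, hl1, hl1e⟩ := pol_hom1 hA v1
  obtain ⟨x, hx⟩ : ∃ x, eval x A ≠ (pol A v1 x) ^ 2 := by
    by_contra hcon
    push Not at hcon
    apply hsq l1 hl1
    apply MvPolynomial.funext
    intro x
    rw [hcon x, map_pow, hl1e]
  set y : Fin 3 → ℝ := (1 : ℝ) • x + (-pol A v1 x) • v1 with hy
  have hyA : eval y A = eval x A - (pol A v1 x) ^ 2 := by
    rw [hy, hom2_add hA, h11, pol_comm A x v1]
    ring
  have hy0 : 0 < eval y A := by
    refine lt_of_le_of_ne (hp y) (Ne.symm ?_)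
    rw [hyA]
    exact sub_ne_zero.2 hx
  have hpol1 : pol A v1 v1 = 1 := by rw [pol_self hA, h11]
  have hy1 : pol A v1 y = 0 := by
    rw [hy, pol_add_right hA, pol_smul_right hA, pol_smul_right hA, hpol1]
    ring
  set v2 : Fin 3 → ℝ := (Real.sqrt (eval y A))⁻¹ • y with hv2
  have h22 : eval v2 A = 1 := NQ_.unit hA y hy0
  have h12 : pol A v1 v2 = 0 := by
    rw [hv2, pol_smul_right hA, hy1, mul_zero]
  have hpol2 : pol A v2 v2 = 1 := by rw [pol_self hA, h22]
  have hpu : ∀ v, pol A u v = 0 := fun v => pol_eq_zero_of_null hA hp huA v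
  clear_value v2 y v1
  have hli : LinearIndependent ℝ ![u, v1, v2] := by
    rw [Fintype.linearIndependent_iff]
    intro g hg
    rw [Fin.sum_univ_three] at hg
    have hg' : g 0 • u + g 1 • v1 + g 2 • v2 = 0 := hg
    have hz : ∀ v, pol A v (0 : Fin 3 → ℝ) = 0 := by
      intro v
      have := pol_smul_right hA 0 v 0
      rw [zero_smul, zero_mul] at this
      exact this
    have e1 : g 1 = 0 := by
      have h1 : pol A v1 (g 0 • u + g 1 • v1 + g 2 • v2) = pol A v1 0 := by rw [hg']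
      rw [pol_add_right hA, pol_add_right hA, pol_smul_right hA, pol_smul_right hA,
        pol_smul_right hA, hz, pol_comm A v1 u, hpu, hpol1, h12] at h1
      linarith
    have e2 : g 2 = 0 := by
      have h1 : pol A v2 (g 0 • u + g 1 • v1 + g 2 • v2) = pol A v2 0 := by rw [hg']
      rw [pol_add_right hA, pol_add_right hA, pol_smul_right hA, pol_smul_right hA,
        pol_smul_right hA, hz, pol_comm A v2 u, hpu, hpol2, pol_comm A v2 v1, h12] at h1
      linarith
    have e0 : g 0 = 0 := by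
      rw [e1, e2, zero_smul, zero_smul, add_zero, add_zero] at hg'
      exact (smul_eq_zero.1 hg').resolve_right hu0
    intro j
    fin_cases j
    · exact e0
    · exact e1
    · exact e2
  obtain ⟨T, hT⟩ := exists_equiv (n := 3) (k := 3) le_rfl ![u, v1, v2] hli
  refine ⟨T, ?_⟩
  have hT0 : T (Pi.single 0 1) = u := hT 0
  have hT1 : T (Pi.single 1 1) = v1 := hT 1
  have hT2 : T (Pi.single 2 1) = v2 := hT 2
  apply MvPolynomial.funext
  intro z
  rw [eval_pull]
  have hz : (T : (Fin 3 → ℝ) →ₗ[ℝ] (Fin 3 → ℝ)) z =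
      z 0 • u + (1 : ℝ) • (z 1 • v1 + z 2 • v2) := by
    have h1 : z = z 0 • (Pi.single 0 1 : Fin 3 → ℝ) + z 1 • (Pi.single 1 1 : Fin 3 → ℝ) +
        z 2 • (Pi.single 2 1 : Fin 3 → ℝ) := by
      funext j
      fin_cases j <;> simp
    have h2 : (T : (Fin 3 → ℝ) →ₗ[ℝ] (Fin 3 → ℝ)) z = T z := rfl
    rw [h2]
    conv_lhs => rw [h1]
    rw [map_add, map_add, map_smul, map_smul, map_smul, hT0, hT1, hT2, one_smul, add_assoc]
  rw [hz, hom2_add hA, huA, hpu, hom2_add hA, h11, h22, h12]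
  simp [Ayz]

end Pool.Agent.SBQ
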