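import Pool.Agent.SBQ.StmtsB

/-!
# SBQ, module NZ : normalisation of the Hessian at a zero
-/

namespace Pool.Agent.SBQ

open MvPolynomial (eval aeval C)

namespace NZ_

theorem single_cons {n : ℕ} : (Pi.single 0 1 : Fin (n + 1) → ℝ) = Fin.cons 1 0 := by
  funext j
  refine Fin.cases ?_ (fun j => ?_) j
  · simp
  · simp

end NZ_

open NZ_

theorem nz_proof (h1 : Stmt_XP) (h2 : Stmt_R1) (h3 : Stmt_NQ) : Stmt_NZ := by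
  intro F hF p hp hpF
  obtain ⟨T₀, hT₀⟩ := exists_equiv_one p hp
  have hR : Rig (pull (T₀ : (Fin 4 → ℝ) →ₗ[ℝ] (Fin 4 → ℝ)) F) := hF.pull T₀
  have hz : eval (Pi.single 0 1 : Fin 4 → ℝ)
      (pull (T₀ : (Fin 4 → ℝ) →ₗ[ℝ] (Fin 4 → ℝ)) F) = 0 := by
    rw [eval_pull, LinearEquiv.coe_coe, hT₀, hpF]
  obtain ⟨A, B, D, hE⟩ := h1 3 _ hR.1 hR.2.1 hz
  have hA : Psd A := (hE.facts hR.2.1).1
  have hsq : ∀ l : P3, l.IsHomogeneous 1 → A ≠ l ^ 2 := fun l hl => h2 _ A B D l hR hE hl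
  by_cases hnull : ∃ u : Fin 3 → ℝ, u ≠ 0 ∧ eval u A = 0
  · obtain ⟨S, hS⟩ := h3 A hE.1 hA hsq hnull
    obtain ⟨T₁, hT₁⟩ := exists_block S
    refine ⟨T₁.trans T₀, pull (S : (Fin 3 → ℝ) →ₗ[ℝ] (Fin 3 → ℝ)) A,
      pull (S : (Fin 3 → ℝ) →ₗ[ℝ] (Fin 3 → ℝ)) B,
      pull (S : (Fin 3 → ℝ) →ₗ[ℝ] (Fin 3 → ℝ)) D, ?_, ?_, Or.inr hS⟩
    · rw [LinearEquiv.trans_apply, single_cons, hT₁, map_zero, ← single_cons, hT₀]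
    · have h4 := hE.pull_block (S : (Fin 3 → ℝ) →ₗ[ℝ] (Fin 3 → ℝ))
        (T₁ : (Fin 4 → ℝ) →ₗ[ℝ] (Fin 4 → ℝ)) (fun w v => by
          rw [LinearEquiv.coe_coe, hT₁, LinearEquiv.coe_coe])
      rw [pull_pull] at h4
      have h5 : (T₀ : (Fin 4 → ℝ) →ₗ[ℝ] (Fin 4 → ℝ)).comp
          (T₁ : (Fin 4 → ℝ) →ₗ[ℝ] (Fin 4 → ℝ)) =
          ((T₁.trans T₀ : (Fin 4 → ℝ) ≃ₗ[ℝ] (Fin 4 → ℝ)) :
            (Fin 4 → ℝ) →ₗ[ℝ] (Fin 4 → ℝ)) := by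
        apply LinearMap.ext
        intro v
        rfl
      rw [h5] at h4
      exact h4
  · push Not at hnull
    exact ⟨T₀, A, B, D, hT₀, hE, Or.inl fun v hv =>
      lt_of_le_of_ne (hA v) (fun h => hnull v hv h.symm)⟩

end Pool.Agent.SBQ
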