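import Pool.Agent.SBQ.StmtsB

/-!
# SBQ: module PL (plane sections)
-/

namespace Pool.Agent.SBQ

open MvPolynomial (eval aeval C)

namespace PL_

/-- complete a nonzero vector of `ℝ³` to a basis -/
theorem complete (q : Fin 3 → ℝ) (hq : q ≠ 0) :
    ∃ u u' : Fin 3 → ℝ, LinearIndependent ℝ ![q, u, u'] ∧ LinearIndependent ℝ ![q, u] := by
  obtain ⟨T, hT⟩ := exists_equiv_one q hq
  have h1 : LinearIndependent ℝ (fun j : Fin 3 => T (Pi.single j (1 : ℝ) : Fin 3 → ℝ)) := by
    have h2 := (Pi.basisFun ℝ (Fin 3)).linearIndependent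
    have h3 := h2.map' (T : (Fin 3 → ℝ) →ₗ[ℝ] (Fin 3 → ℝ)) (LinearMap.ker_eq_bot.mpr T.injective)
    have h4 : (⇑(T : (Fin 3 → ℝ) →ₗ[ℝ] (Fin 3 → ℝ)) ∘ ⇑(Pi.basisFun ℝ (Fin 3))) =
        (fun j : Fin 3 => T (Pi.single j (1 : ℝ) : Fin 3 → ℝ)) := by
      funext j
      simp
    rwa [h4] at h3
  refine ⟨T (Pi.single 1 1), T (Pi.single 2 1), ?_, ?_⟩
  · have : (fun j : Fin 3 => T (Pi.single j (1 : ℝ) : Fin 3 → ℝ)) =
        ![q, T (Pi.single 1 1), T (Pi.single 2 1)] := by
      funext j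
      fin_cases j
      · exact hT
      · rfl
      · rfl
    rwa [this] at h1
  · have h5 := h1.comp (![0, 1] : Fin 2 → Fin 3) (by decide)
    have : ((fun j : Fin 3 => T (Pi.single j (1 : ℝ) : Fin 3 → ℝ)) ∘ (![0, 1] : Fin 2 → Fin 3)) =
        ![q, T (Pi.single 1 1)] := by
      funext j
      fin_cases j
      · exact hT
      · rfl
    rwa [this] at h5

/-- parametrisation of the plane `l = 0` -/
theorem plane (φ : (Fin 4 → ℝ) →ₗ[ℝ] ℝ) (hφ : φ ≠ 0) :
    ∃ (L : (Fin 3 → ℝ) →ₗ[ℝ] (Fin 4 → ℝ)) (P : (Fin 4 → ℝ) →ₗ[ℝ] (Fin 3 → ℝ)) (f : Fin 4 → ℝ),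
      Function.Injective L ∧ ∀ u, L (P u) = u - φ u • f := by
  have h1 : ∃ f, φ f = 1 := by
    have : ∃ g, φ g ≠ 0 := by
      by_contra hcon
      push Not at hcon
      exact hφ (LinearMap.ext hcon)
    obtain ⟨g, hg⟩ := this
    exact ⟨(φ g)⁻¹ • g, by rw [map_smul, smul_eq_mul, inv_mul_cancel₀ hg]⟩
  obtain ⟨f, hf⟩ := h1
  have hr : Module.finrank ℝ (LinearMap.range φ) = 1 := by
    have : LinearMap.range φ = ⊤ := LinearMap.range_eq_top.mpr
      (fun r => ⟨r • f, by rw [map_smul, hf, smul_eq_mul, mul_one]⟩)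
    rw [this, finrank_top, Module.finrank_self]
  have hk : Module.finrank ℝ (LinearMap.ker φ) = 3 := by
    have := LinearMap.finrank_range_add_finrank_ker φ
    rw [hr, Module.finrank_fin_fun] at this
    omega
  have e : (Fin 3 → ℝ) ≃ₗ[ℝ] LinearMap.ker φ :=
    LinearEquiv.ofFinrankEq _ _ (by rw [hk, Module.finrank_fin_fun])
  let π : (Fin 4 → ℝ) →ₗ[ℝ] (Fin 4 → ℝ) := LinearMap.id - φ.smulRight f
  have hπ : ∀ u, π u = u - φ u • f := fun u => by simp [π]
  have hπk : ∀ u, π u ∈ LinearMap.ker φ := by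
    intro u
    rw [LinearMap.mem_ker, hπ, map_sub, map_smul, hf, smul_eq_mul, mul_one, sub_self]
  refine ⟨(LinearMap.ker φ).subtype ∘ₗ e.toLinearMap,
    e.symm.toLinearMap ∘ₗ (π.codRestrict (LinearMap.ker φ) hπk), f, ?_, ?_⟩
  · intro u v huv
    apply e.injective
    exact Subtype.ext huv
  · intro u
    simp only [LinearMap.comp_apply, LinearEquiv.coe_coe, LinearEquiv.apply_symm_apply,
      Submodule.subtype_apply, LinearMap.codRestrict_apply]
    exact hπ u

end PL_

open PL_ in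
theorem pl_proof (hPQ : Stmt_PQ) (hT2 : Stmt_T2) : Stmt_PL := by
  intro F l ι _ γ i hF hpsd hfin hrk hl hl0 hcfg
  obtain ⟨φ, hφ⟩ := hom1_eval hl
  have hφ0 : φ ≠ 0 := by
    rintro rfl
    apply hl0
    apply MvPolynomial.funext
    intro v
    rw [hφ v]; simp
  obtain ⟨L, P, f, hL, hLP⟩ := plane φ hφ0
  -- the corrected arcs
  have harc : ∀ a, mapArc L (mapArc P (γ a)) =
      fun j => γ a j + (-(comp (γ a) l) * Polynomial.C (f j)) := by
    intro a
    funext j
    apply Polynomial.funext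
    intro t
    have h1 := congrFun (mapArc_eval L (mapArc P (γ a)) t) j
    rw [h1, mapArc_eval P (γ a) t, hLP]
    simp only [Pi.sub_apply, Pi.smul_apply, smul_eq_mul, Polynomial.eval_add,
      Polynomial.eval_mul, Polynomial.eval_neg, Polynomial.eval_C, eval_comp, hφ]
    ring
  have hord0 : ∀ a, (Polynomial.X : U1) ^ (2 * i a) ∣ comp (mapArc P (γ a)) (pull L F) := by
    intro a
    rw [comp_pull, harc]
    exact hT2 4 F (γ a) _ (i a) hpsd (hcfg.ordF a) (fun j =>
      ((hcfg.ordQ a).neg_right).mul_right _)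
  have hc0 : ∀ a, (comp (γ a) l).coeff 0 = 0 := by
    intro a
    have h1 : (Polynomial.X : U1) ∣ comp (γ a) l :=
      (dvd_pow_self _ (by have := hcfg.one_le a; omega)).trans (hcfg.ordQ a)
    exact Polynomial.X_dvd_iff.mp h1
  have hat : ∀ a, L (at0 (mapArc P (γ a))) = at0 (γ a) := by
    intro a
    rw [← at0_mapArc L, harc]
    funext j
    simp [at0, hc0 a]
  have hvel : ∀ a, 2 ≤ i a → L (vel (mapArc P (γ a))) = vel (γ a) := by
    intro a ha
    rw [← vel_mapArc L, harc]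
    funext j
    have h1 : (Polynomial.X : U1) ^ 2 ∣ comp (γ a) l := (pow_dvd_pow _ ha).trans (hcfg.ordQ a)
    have h2 : (comp (γ a) l).coeff 1 = 0 := (Polynomial.X_pow_dvd_iff.mp h1) 1 (by norm_num)
    simp [vel, h2]
  have hli : ∀ u v : Fin 3 → ℝ, LinearIndependent ℝ ![L u, L v] →
      LinearIndependent ℝ ![u, v] := by
    intro u v h
    have h2 : (⇑L ∘ ![u, v]) = ![L u, L v] := by
      funext j
      fin_cases j <;> rfl
    rw [← h2] at h
    exact LinearIndependent.of_comp L h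
  have hne : ∀ a, at0 (mapArc P (γ a)) ≠ 0 := by
    intro a h0
    have h1 := hat a
    rw [h0, map_zero] at h1
    have := (hcfg.imm a).ne_zero (0 : Fin 2)
    apply this
    simp [← h1]
  have hex : ∀ a, ∃ β : Fin 3 → U1, at0 β = at0 (mapArc P (γ a)) ∧
      LinearIndependent ℝ ![at0 β, vel β] ∧
      (Polynomial.X : U1) ^ (2 * i a) ∣ comp β (pull L F) := by
    intro a
    by_cases ha : 2 ≤ i a
    · refine ⟨mapArc P (γ a), rfl, ?_, hord0 a⟩
      apply hli
      rw [hat a, hvel a ha]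
      exact hcfg.imm a
    · have ha1 : i a = 1 := by have := hcfg.one_le a; omega
      obtain ⟨u, -, -, hu⟩ := complete _ (hne a)
      refine ⟨ray (at0 (mapArc P (γ a))) u, at0_ray _ _, ?_, ?_⟩
      · rw [at0_ray, vel_ray]; exact hu
      · rw [ha1, mul_one]
        apply sq_dvd_comp (Psd.pull L hpsd)
        rw [at0_ray, eval_pull, hat, ← comp_coeff_zero]
        have h1 : (Polynomial.X : U1) ∣ comp (γ a) F :=
          (dvd_pow_self _ (by omega)).trans (hcfg.ordF a)
        exact Polynomial.X_dvd_iff.mp h1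
  choose β hβ0 hβimm hβord using hex
  refine hPQ (pull L F) ι β i (pull_hom L hF) (Psd.pull L hpsd)
    (FinZ.pull L hL hF (by norm_num) hfin) ⟨hcfg.one_le, hβimm, fun a b hab => ?_, hβord,
      fun a => ?_⟩ (fun a => ?_)
  · apply hli
    rw [hβ0, hβ0, hat, hat]
    exact hcfg.dist a b hab
  · have : comp (β a) (0 : P3) = 0 := by simp [comp]
    rw [this]; exact dvd_zero _
  · obtain ⟨u, u', hu, -⟩ := complete _ (hne a)
    have hLu : LinearIndependent ℝ ![L (at0 (mapArc P (γ a))), L u, L u'] := by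
      have h1 := hu.map' L (LinearMap.ker_eq_bot.mpr hL)
      have h2 : (⇑L ∘ ![at0 (mapArc P (γ a)), u, u']) =
          ![L (at0 (mapArc P (γ a))), L u, L u'] := by
        funext j
        fin_cases j <;> rfl
      rwa [h2] at h1
    have hz : eval (L (at0 (mapArc P (γ a)))) F = 0 := by
      rw [hat, ← comp_coeff_zero]
      have h1 : (Polynomial.X : U1) ∣ comp (γ a) F :=
        (dvd_pow_self _ (by have := hcfg.one_le a; omega)).trans (hcfg.ordF a)
      exact Polynomial.X_dvd_iff.mp h1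
    obtain ⟨s, t, hst⟩ := hrk _ _ _ hz hLu
    refine ⟨s • u + t • u', ?_⟩
    rw [hβ0, comp_ray_pull, map_add, map_smul, map_smul]
    exact hst

end Pool.Agent.SBQ
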