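import Pool.Agent.SBQ.StmtsB

/-!
# SBQ module PP: ternary quartics with finitely many zeros, normalised configuration
-/

namespace Pool.Agent.SBQ

open MvPolynomial (eval aeval C)

namespace PP_

/-- an expansion evaluated on an arc -/
theorem comp_exp {n : ℕ} {F : MvPolynomial (Fin (n + 1)) ℝ} {A B D : MvPolynomial (Fin n) ℝ}
    (h : Exp F A B D) (W : U1) (β : Fin n → U1) :
    comp (Fin.cons W β : Fin (n + 1) → U1) F =
      W ^ 2 * comp β A + 2 * W * comp β B + comp β D := by
  apply Polynomial.funext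
  intro t
  have h1 : (fun j => ((Fin.cons W β : Fin (n + 1) → U1) j).eval t) =
      (Fin.cons (W.eval t) (fun j => (β j).eval t) : Fin (n + 1) → ℝ) := by
    funext j
    refine Fin.cases ?_ (fun j => ?_) j
    · simp
    · simp
  rw [eval_comp, h1, h.2.2.2]
  simp only [Polynomial.eval_add, Polynomial.eval_mul, Polynomial.eval_pow, eval_comp]
  simp

theorem comp_one (P : R2) (η : U1) :
    comp ![1, η] P = (comp ![1, Polynomial.X] P).comp η := by
  apply Polynomial.funext
  intro t
  rw [eval_comp, Polynomial.eval_comp, eval_comp]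
  congr 2
  funext j
  fin_cases j <;> simp

theorem eval_one (P : R2) (x : ℝ) : (comp ![1, Polynomial.X] P).eval x = eval ![1, x] P := by
  rw [eval_comp]
  congr 2
  funext j
  fin_cases j <;> simp

theorem natDegree_le {P : R2} {d : ℕ} (hP : P.IsHomogeneous d) :
    (comp ![1, Polynomial.X] P).natDegree ≤ d := by
  unfold comp
  rw [MvPolynomial.aeval_def, MvPolynomial.eval₂_eq']
  apply Polynomial.natDegree_sum_le_of_forall_le
  intro m hm
  have hdeg : m.degree = d := by
    by_contra hne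
    exact (MvPolynomial.mem_support_iff.mp hm) (hP.coeff_eq_zero hne)
  have h1 : m 1 ≤ d := by
    rw [← hdeg, Finsupp.degree_eq_sum]
    exact Finset.single_le_sum (f := fun j => m j) (fun _ _ => Nat.zero_le _) (Finset.mem_univ 1)
  rw [Fin.prod_univ_two]
  simp only [Matrix.cons_val_zero, one_pow, one_mul, Matrix.cons_val_one]
  refine le_trans (Polynomial.natDegree_C_mul_X_pow_le _ _) h1

/-- vectors of the form `s (1, x)` -/
theorem hom_scale {P : R2} {d : ℕ} (hP : P.IsHomogeneous d) (t x : ℝ) :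
    eval ![t, t * x] P = t ^ d * eval ![1, x] P := by
  rw [← hom_smul hP]
  congr 2
  funext j
  fin_cases j <;> simp

theorem eq_zero_of {P : R2} {d : ℕ} (hP : P.IsHomogeneous d)
    (h : ∀ x : ℝ, eval ![1, x] P = 0) : P = 0 := by
  apply zero_of_dense P (MvPolynomial.X 0) (MvPolynomial.X_ne_zero 0)
  intro v hv
  rw [MvPolynomial.eval_X] at hv
  have h1 : v = ![v 0, v 0 * (v 1 / v 0)] := by
    funext j
    fin_cases j
    · simp
    · simp; field_simp
  rw [h1, hom_scale hP, h, mul_zero]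

theorem fin_of {F : P3} (hF : F.IsHomogeneous 4) (hfin : FinZ F) (S : Set ℝ)
    (f : ℝ → Fin 3 → ℝ) (hz : ∀ x ∈ S, eval (f x) F = 0) (h1 : ∀ x, f x 1 = 1)
    (h2 : ∀ x, f x 2 = x) : S.Finite := by
  have hpos : ∀ x, 0 < ∑ j, (f x j) ^ 2 := by
    intro x
    have : (f x 1) ^ 2 ≤ ∑ j, (f x j) ^ 2 :=
      Finset.single_le_sum (f := fun j => (f x j) ^ 2) (fun _ _ => sq_nonneg _)
        (Finset.mem_univ 1)
    rw [h1] at this
    linarith
  have hinj : Set.InjOn (fun x => (Real.sqrt (∑ j, (f x j) ^ 2))⁻¹ • f x) S := by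
    intro x _ y _ hxy
    simp only at hxy
    have hx0 := (Real.sqrt_pos.mpr (hpos x))
    have e1 := congrFun hxy 1
    have e2 := congrFun hxy 2
    simp only [Pi.smul_apply, smul_eq_mul, h1, h2, mul_one] at e1 e2
    rw [← e1] at e2
    exact mul_left_cancel₀ (inv_ne_zero hx0.ne') e2
  refine Set.Finite.of_finite_image (hfin.subset ?_) hinj
  rintro _ ⟨x, hx, rfl⟩
  refine ⟨?_, ?_⟩
  · show eval ((Real.sqrt (∑ j, (f x j) ^ 2))⁻¹ • f x) F = 0
    rw [hom_smul hF, hz x hx, mul_zero]
  · simp only [Pi.smul_apply, smul_eq_mul, mul_pow, ← Finset.mul_sum]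
    rw [inv_pow, Real.sq_sqrt (hpos x).le, inv_mul_cancel₀ (hpos x).ne']

theorem pair_li {p q : Fin 3 → ℝ} (hp : ∀ j, j ≠ 0 → p j = 0) (hp0 : p 0 ≠ 0)
    (hq : q 1 ≠ 0) : LinearIndependent ℝ ![p, q] := by
  rw [LinearIndependent.pair_iff]
  intro s t hst
  have e1 := congrFun hst 1
  have e0 := congrFun hst 0
  simp only [Pi.add_apply, Pi.smul_apply, smul_eq_mul, Pi.zero_apply] at e0 e1
  rw [hp 1 (by decide), mul_zero, zero_add] at e1
  have ht : t = 0 := (mul_eq_zero.mp e1).resolve_right hq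
  rw [ht, zero_mul, add_zero] at e0
  exact ⟨(mul_eq_zero.mp e0).resolve_right hp0, ht⟩

theorem cons3 (x y z : ℝ) : (![x, y, z] : Fin 3 → ℝ) = Fin.cons x ![y, z] := rfl

/-- coefficients of a product modulo a power -/
theorem coeff_zero_of {a : U1} {K : ℕ} (hK : 1 ≤ K) (h : (Polynomial.X : U1) ^ K ∣ a) :
    a.coeff 0 = 0 := (Polynomial.X_pow_dvd_iff.mp h) 0 (by omega)

theorem coeff_one_of {a : U1} {K : ℕ} (hK : 2 ≤ K) (h : (Polynomial.X : U1) ^ K ∣ a) :
    a.coeff 1 = 0 := (Polynomial.X_pow_dvd_iff.mp h) 1 (by omega)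

theorem mul_coeff_one (a b : U1) :
    (a * b).coeff 1 = a.coeff 0 * b.coeff 1 + a.coeff 1 * b.coeff 0 := by
  rw [Polynomial.coeff_mul, Finset.Nat.antidiagonal_succ]
  simp

/-- the hessian hypothesis excludes `A = 0` -/
theorem A_ne {F : P3} {A B D : R2} (hE : Exp F A B D) (hP : Psd F) (p : Fin 3 → ℝ) (r : ℝ)
    (hp : p = r • (Pi.single 0 1 : Fin 3 → ℝ))
    (hu : ∃ u : Fin 3 → ℝ, ¬ (Polynomial.X : U1) ^ 3 ∣ comp (ray p u) F) : A ≠ 0 := by
  intro hA
  obtain ⟨u, hu⟩ := hu
  apply hu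
  obtain ⟨_, _, hBD⟩ := hE.facts hP
  have hB : ∀ v, eval v B = 0 := by
    intro v
    have := hBD v
    rw [hA, map_zero, zero_mul] at this
    exact pow_eq_zero_iff (two_ne_zero) |>.mp (le_antisymm this (sq_nonneg _))
  have : comp (ray p u) F = Polynomial.X ^ 4 * Polynomial.C (eval (Fin.tail u) D) := by
    apply Polynomial.funext
    intro t
    rw [comp_ray_eval]
    have h1 : p + t • u = Fin.cons (r + t * u 0) (t • Fin.tail u) := by
      funext j
      refine Fin.cases ?_ (fun j => ?_) j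
      · simp [hp]
      · simp [hp, Fin.tail]
    rw [h1, hE.2.2.2, hB, hA, hom_smul hE.2.2.1]
    simp only [map_zero, mul_zero, zero_add, Polynomial.eval_mul, Polynomial.eval_pow,
      Polynomial.eval_X, Polynomial.eval_C]
  rw [this]
  exact Dvd.dvd.mul_right (pow_dvd_pow _ (by norm_num)) _

end PP_

theorem pp_proof (h1 : Stmt_XP) (h2 : Stmt_LN) (h3 : Stmt_CO) (h4 : Stmt_T2) : Stmt_PP := by
  classical
  intro F ι _ γ i a₀ hF hP hfin hC hu hr hv hne
  obtain ⟨r, hr⟩ := hr
  have hr0 : r ≠ 0 := by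
    rintro rfl
    have := (hC.imm a₀).ne_zero 0
    apply this
    simp [hr]
  -- `F e0 = 0`
  have hzero : ∀ a, eval (at0 (γ a)) F = 0 := by
    intro a
    rw [← comp_coeff_zero]
    exact PP_.coeff_zero_of (by have := hC.one_le a; omega) (hC.ordF a)
  have he0 : eval (Pi.single 0 1 : Fin 3 → ℝ) F = 0 := by
    have := hzero a₀
    rw [hr, hom_smul hF] at this
    exact (mul_eq_zero.mp this).resolve_left (pow_ne_zero _ hr0)
  obtain ⟨A, B, D, hE⟩ := h1 2 F hF hP he0
  have hA : A ≠ 0 := PP_.A_ne hE hP _ r hr hu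
  set a : U1 := comp ![1, Polynomial.X] A with ha
  set b : U1 := comp ![1, Polynomial.X] B with hb
  set c : U1 := comp ![1, Polynomial.X] D with hc
  have hFv : ∀ w x : ℝ, eval ![w, 1, x] F =
      w ^ 2 * a.eval x + 2 * w * b.eval x + c.eval x := by
    intro w x
    rw [PP_.cons3, hE.2.2.2, ha, hb, hc, PP_.eval_one, PP_.eval_one, PP_.eval_one]
  have ha0 : a ≠ 0 := by
    intro h0
    apply hA
    apply PP_.eq_zero_of hE.1
    intro x
    rw [← PP_.eval_one, ← ha, h0, Polynomial.eval_zero]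
  -- conditions of CO
  have c1 : ∀ w x : ℝ, 0 ≤ w ^ 2 * a.eval x + 2 * w * b.eval x + c.eval x := by
    intro w x
    rw [← hFv]; exact hP _
  have c2 : a * c - b ^ 2 ≠ 0 := by
    intro h0
    have hS : {x : ℝ | a.eval x ≠ 0}.Finite := by
      apply PP_.fin_of hF hfin _ (fun x => ![-(b.eval x) / a.eval x, 1, x])
      · intro x hx
        have hx' : a.eval x ≠ 0 := hx
        rw [hFv]
        have e := congrArg (Polynomial.eval x) h0
        simp only [Polynomial.eval_sub, Polynomial.eval_mul, Polynomial.eval_pow,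
          Polynomial.eval_zero] at e
        field_simp
        linear_combination e
      · intro x; simp
      · intro x; simp
    have hS2 : {x : ℝ | a.eval x = 0}.Finite := by
      have : {x : ℝ | a.eval x = 0} ⊆ ↑(a.roots.toFinset) := by
        intro x hx
        rw [Finset.mem_coe, Multiset.mem_toFinset, Polynomial.mem_roots ha0]
        exact hx
      exact (Finset.finite_toSet _).subset this
    have hS3 : (Set.univ : Set ℝ).Finite := by
      have := hS.union hS2
      apply this.subset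
      intro x _
      by_cases hx : a.eval x = 0
      · exact Or.inr hx
      · exact Or.inl hx
    exact Set.infinite_univ hS3
  have c3 : (a * c - b ^ 2).natDegree ≤ 2 * 3 := by
    apply (Polynomial.natDegree_sub_le _ _).trans
    apply max_le
    · apply Polynomial.natDegree_mul_le.trans
      have e1 := PP_.natDegree_le hE.1
      have e2 := PP_.natDegree_le hE.2.2.1
      rw [← ha] at e1
      rw [← hc] at e2
      omega
    · apply Polynomial.natDegree_pow_le.trans
      have e1 := PP_.natDegree_le hE.2.1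
      rw [← hb] at e1
      omega
  have c4 : ∀ x : ℝ, a.eval x ≠ 0 ∨ b.eval x ≠ 0 ∨ c.eval x ≠ 0 := by
    intro x
    by_contra hcon
    push Not at hcon
    obtain ⟨hax, hbx, hcx⟩ := hcon
    rw [ha, PP_.eval_one] at hax
    rw [hb, PP_.eval_one] at hbx
    rw [hc, PP_.eval_one] at hcx
    have hli : LinearIndependent ℝ ![(Pi.single 0 1 : Fin 3 → ℝ), ![0, 1, x]] := by
      apply PP_.pair_li
      · intro j hj; simp [hj]
      · simp
      · simp
    obtain ⟨s, t, hst⟩ := (h2 3 F hF hP hfin _ _ hli).1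
    apply hst
    have : s • (Pi.single 0 1 : Fin 3 → ℝ) + t • ![0, 1, x] = Fin.cons s ![t, t * x] := by
      funext j
      fin_cases j <;> simp
    rw [this, hE.2.2.2, PP_.hom_scale hE.1, PP_.hom_scale hE.2.1, PP_.hom_scale hE.2.2.1, hax,
      hbx, hcx]
    ring
  -- truncated inverses
  have hinv : ∀ j : {j // j ≠ a₀}, ∃ u : U1,
      (Polynomial.X : U1) ^ (2 * i j.1) ∣ u * γ j.1 1 - 1 := by
    intro j
    exact exists_trunc_inv _ (hne j.1 j.2) _
  choose u hu' using hinv
  have hK : ∀ j : {j // j ≠ a₀}, 2 ≤ 2 * i j.1 := fun j => by have := hC.one_le j.1; omega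
  have hu0 : ∀ j : {j // j ≠ a₀}, (u j).coeff 0 * (γ j.1 1).coeff 0 = 1 := by
    intro j
    have := PP_.coeff_zero_of (by have := hK j; omega) (hu' j)
    rw [Polynomial.coeff_sub, Polynomial.mul_coeff_zero, Polynomial.coeff_one_zero] at this
    linarith
  -- the normalised arcs
  have hord : ∀ j : {j // j ≠ a₀}, (Polynomial.X : U1) ^ (2 * i j.1) ∣
      comp ![u j * γ j.1 0, 1, u j * γ j.1 2] F := by
    intro j
    have e1 : (Polynomial.X : U1) ^ (2 * i j.1) ∣ comp (fun k => u j * γ j.1 k) F := by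
      rw [comp_smul_arc hF]
      exact (hC.ordF j.1).mul_left _
    have e2 := comp_congr F (fun k => u j * γ j.1 k) ![u j * γ j.1 0, 1, u j * γ j.1 2]
      (2 * i j.1) (by
        intro k
        fin_cases k
        · simp
        · simpa using hu' j
        · simp)
    have e3 := dvd_sub e1 e2
    rwa [sub_sub_cancel] at e3
  have c5 : ∀ j k : {j // j ≠ a₀}, j ≠ k →
      (u j * γ j.1 2).coeff 0 ≠ (u k * γ k.1 2).coeff 0 := by
    intro j k hjk heq
    have hjk' : j.1 ≠ k.1 := fun h => hjk (Subtype.ext h)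
    have hli := hC.dist j.1 k.1 hjk'
    have hj1 := hne j.1 j.2
    have hk1 := hne k.1 k.2
    rw [Polynomial.mul_coeff_zero, Polynomial.mul_coeff_zero] at heq
    have huj := hu0 j
    have huk := hu0 k
    have huj0 : (u j).coeff 0 ≠ 0 := left_ne_zero_of_mul_eq_one huj
    have huk0 : (u k).coeff 0 ≠ 0 := left_ne_zero_of_mul_eq_one huk
    have hnz := (h2 3 F hF hP hfin _ _ hli).2.1 (hzero j.1) (hzero k.1) ((u j).coeff 0)
      (-(u k).coeff 0) huj0 (neg_ne_zero.mpr huk0)
    apply hnz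
    have : (u j).coeff 0 • at0 (γ j.1) + (-(u k).coeff 0) • at0 (γ k.1) =
        ((u j).coeff 0 * at0 (γ j.1) 0 - (u k).coeff 0 * at0 (γ k.1) 0) •
          (Pi.single 0 1 : Fin 3 → ℝ) := by
      funext l
      fin_cases l
      · simp; ring
      · simp [at0, huj, huk]
      · simp only [at0, Pi.add_apply, Pi.smul_apply, smul_eq_mul]
        simp
        linarith
    rw [this, hom_smul hF, he0, mul_zero]
  have c6 : ∀ j : {j // j ≠ a₀}, i j.1 ≤ 1 ∨ (u j * γ j.1 2).coeff 1 ≠ 0 := by
    intro j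
    by_contra hcon
    push Not at hcon
    obtain ⟨hi, hη⟩ := hcon
    set W : U1 := u j * γ j.1 0 with hW
    set η : U1 := u j * γ j.1 2 with hηd
    have huj := hu0 j
    have huj0 : (u j).coeff 0 ≠ 0 := left_ne_zero_of_mul_eq_one huj
    have hcne : W.coeff 1 ≠ 0 := by
      intro h0
      have hli := hC.imm j.1
      rw [LinearIndependent.pair_iff] at hli
      have := hli ((u j).coeff 1) ((u j).coeff 0) (by
        funext l
        fin_cases l
        · have : (u j * γ j.1 0).coeff 1 = 0 := h0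
          rw [PP_.mul_coeff_one] at this
          simp only [at0, vel, Pi.add_apply, Pi.smul_apply, smul_eq_mul, Pi.zero_apply]
          simp
          linarith
        · have := PP_.coeff_one_of (hK j) (hu' j)
          rw [Polynomial.coeff_sub, PP_.mul_coeff_one, Polynomial.coeff_one] at this
          simp only [at0, vel, Pi.add_apply, Pi.smul_apply, smul_eq_mul, Pi.zero_apply]
          simp at this ⊢
          linarith
        · have : (u j * γ j.1 2).coeff 1 = 0 := hη
          rw [PP_.mul_coeff_one] at this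
          simp only [at0, vel, Pi.add_apply, Pi.smul_apply, smul_eq_mul, Pi.zero_apply]
          simp
          linarith)
      exact huj0 this.2
    set q : Fin 3 → ℝ := ![W.coeff 0, 1, η.coeff 0] with hq
    set p : Fin 3 → ℝ := W.coeff 1 • (Pi.single 0 1 : Fin 3 → ℝ) with hp
    have hli : LinearIndependent ℝ ![p, q] := by
      apply PP_.pair_li
      · intro l hl; simp [hp, hl]
      · simp [hp, hcne]
      · simp [hq]
    have hpF : eval p F = 0 := by rw [hp, hom_smul hF, he0, mul_zero]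
    apply (h2 3 F hF hP hfin p q hli).2.2 hpF
    have hβ : (Polynomial.X : U1) ^ (2 * 2) ∣ comp ![W, 1, η] F :=
      (pow_dvd_pow _ (by omega)).trans (hord j)
    have hδ : ∀ l, (Polynomial.X : U1) ^ 2 ∣ ray q p l - (![W, 1, η] : Fin 3 → U1) l := by
      intro l
      rw [Polynomial.X_pow_dvd_iff]
      intro d hd
      have hd' : d = 0 ∨ d = 1 := by omega
      fin_cases l
      · rcases hd' with rfl | rfl
        · simp [ray, hq, hp]
        · simp [ray, hq, hp, Polynomial.coeff_C]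
      · rcases hd' with rfl | rfl
        · simp [ray, hq, hp]
        · simp [ray, hq, hp]
      · rcases hd' with rfl | rfl
        · simp [ray, hq, hp]
        · simp [ray, hq, hp, hη]
    have := h4 3 F ![W, 1, η] (fun l => ray q p l - (![W, 1, η] : Fin 3 → U1) l) 2 hP hβ hδ
    have he : (fun l => (![W, 1, η] : Fin 3 → U1) l +
        (ray q p l - (![W, 1, η] : Fin 3 → U1) l)) = ray q p := by
      funext l; ring
    rw [he] at this
    exact this
  have c7 : ∀ j : {j // j ≠ a₀}, (Polynomial.X : U1) ^ (2 * i j.1) ∣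
      (u j * γ j.1 0) ^ 2 * a.comp (u j * γ j.1 2) +
        2 * (u j * γ j.1 0) * b.comp (u j * γ j.1 2) + c.comp (u j * γ j.1 2) := by
    intro j
    have e := hord j
    have e2 : comp ![u j * γ j.1 0, 1, u j * γ j.1 2] F = _ :=
      PP_.comp_exp hE (u j * γ j.1 0) ![1, u j * γ j.1 2]
    rw [e2, PP_.comp_one A (u j * γ j.1 2), PP_.comp_one B (u j * γ j.1 2),
      PP_.comp_one D (u j * γ j.1 2)] at e
    exact e
  -- the base arc
  have hX : ∀ l : Fin 3, l ≠ 0 → ∃ ξ : U1, γ a₀ l = Polynomial.X * ξ := by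
    intro l hl
    have : (Polynomial.X : U1) ∣ γ a₀ l := by
      rw [Polynomial.X_dvd_iff]
      have := congrFun hr l
      simp only [at0, Pi.smul_apply, smul_eq_mul] at this
      rw [this]
      simp [hl]
    exact this
  obtain ⟨ξ₁, hξ₁⟩ := hX 1 (by decide)
  obtain ⟨ξ₂, hξ₂⟩ := hX 2 (by decide)
  have hξ0 : ξ₁.coeff 0 ≠ 0 := by
    have : (γ a₀ 1).coeff 1 = ξ₁.coeff 0 := by
      rw [hξ₁, Polynomial.coeff_X_mul]
    rw [← this]; exact hv
  have hZ0 : (γ a₀ 0).coeff 0 = r := by
    have := congrFun hr 0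
    simpa [at0] using this
  obtain ⟨w, hw⟩ := exists_trunc_inv ξ₁ hξ0 (2 * (i a₀ - 1))
  have c8 : i a₀ - 1 = 0 ∨ (w * γ a₀ 0).coeff 0 ≠ 0 ∧ (Polynomial.X : U1) ^ (2 * (i a₀ - 1)) ∣
      (w * γ a₀ 0) ^ 2 * a.comp (w * ξ₂) + 2 * (w * γ a₀ 0) * Polynomial.X * b.comp (w * ξ₂) +
        Polynomial.X ^ 2 * c.comp (w * ξ₂) := by
    by_cases hi : i a₀ - 1 = 0
    · exact Or.inl hi
    right
    constructor
    · rw [Polynomial.mul_coeff_zero, hZ0]
      apply mul_ne_zero _ hr0
      intro h0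
      have := PP_.coeff_zero_of (by omega) hw
      rw [Polynomial.coeff_sub, Polynomial.mul_coeff_zero, Polynomial.coeff_one_zero, h0] at this
      linarith
    · set e := i a₀ - 1 with he
      have h2e : 2 * i a₀ = 2 * e + 2 := by omega
      have hγ : γ a₀ = Fin.cons (γ a₀ 0) (fun l => Polynomial.X * (![ξ₁, ξ₂] : Fin 2 → U1) l) := by
        funext l
        fin_cases l
        · rfl
        · exact hξ₁
        · exact hξ₂
      have hord0 := hC.ordF a₀
      rw [hγ, PP_.comp_exp hE, comp_smul_arc hE.1, comp_smul_arc hE.2.1, comp_smul_arc hE.2.2.1,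
        h2e, pow_add] at hord0
      set H : U1 := (γ a₀ 0) ^ 2 * comp ![ξ₁, ξ₂] A +
        2 * γ a₀ 0 * Polynomial.X * comp ![ξ₁, ξ₂] B +
        Polynomial.X ^ 2 * comp ![ξ₁, ξ₂] D with hH
      have hH2 : (Polynomial.X : U1) ^ (2 * e) ∣ H := by
        have hx2 : (Polynomial.X : U1) ^ 2 ≠ 0 := pow_ne_zero _ Polynomial.X_ne_zero
        apply (mul_dvd_mul_iff_right hx2).mp
        have : H * Polynomial.X ^ 2 =
          (γ a₀ 0) ^ 2 * (Polynomial.X ^ 2 * comp ![ξ₁, ξ₂] A) +
            2 * γ a₀ 0 * (Polynomial.X ^ 3 * comp ![ξ₁, ξ₂] B) +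
            Polynomial.X ^ 4 * comp ![ξ₁, ξ₂] D := by
          rw [hH]; ring
        rw [this]
        exact hord0
      have hcg : ∀ P : R2, (Polynomial.X : U1) ^ (2 * e) ∣
          comp (fun l => w * (![ξ₁, ξ₂] : Fin 2 → U1) l) P - P.aeval ![1, w * ξ₂] := by
        intro P
        exact comp_congr P (fun l => w * (![ξ₁, ξ₂] : Fin 2 → U1) l) ![1, w * ξ₂] (2 * e) (by
          intro l
          fin_cases l
          · simpa using hw
          · simp)
      have hcA := hcg A
      have hcB := hcg B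
      have hcD := hcg D
      rw [comp_smul_arc hE.1] at hcA
      rw [comp_smul_arc hE.2.1] at hcB
      rw [comp_smul_arc hE.2.2.1] at hcD
      change _ ∣ _ - comp ![1, w * ξ₂] A at hcA
      change _ ∣ _ - comp ![1, w * ξ₂] B at hcB
      change _ ∣ _ - comp ![1, w * ξ₂] D at hcD
      rw [PP_.comp_one, ← ha] at hcA
      rw [PP_.comp_one, ← hb] at hcB
      rw [PP_.comp_one, ← hc] at hcD
      have hfinal : (w * γ a₀ 0) ^ 2 * a.comp (w * ξ₂) +
          2 * (w * γ a₀ 0) * Polynomial.X * b.comp (w * ξ₂) +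
          Polynomial.X ^ 2 * c.comp (w * ξ₂) =
          w ^ 4 * H - (w * γ a₀ 0) ^ 2 * (w ^ 2 * comp ![ξ₁, ξ₂] A - a.comp (w * ξ₂)) -
          2 * (w * γ a₀ 0) * Polynomial.X * (w ^ 3 * comp ![ξ₁, ξ₂] B - b.comp (w * ξ₂)) -
          Polynomial.X ^ 2 * (w ^ 4 * comp ![ξ₁, ξ₂] D - c.comp (w * ξ₂)) := by
        rw [hH]; ring
      rw [hfinal]
      exact dvd_sub (dvd_sub (dvd_sub (hH2.mul_left _) (hcA.mul_left _)) (hcB.mul_left _))
        (hcD.mul_left _)
  have hsum := h3 {j // j ≠ a₀} a b c 3 (fun j => u j * γ j.1 0) (fun j => u j * γ j.1 2)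
    (fun j => i j.1) (w * γ a₀ 0) (w * ξ₂) (i a₀ - 1) c1 c2 c3 c4 c5 c6 c7 c8
  rw [Fintype.sum_eq_add_sum_subtype_ne i a₀]
  have := hC.one_le a₀
  omega

end Pool.Agent.SBQ
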