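import Pool.Agent.SBQ.StmtsB

/-!
# SBQ: module PQ (ternary quartics: total length at most four)
-/

namespace Pool.Agent.SBQ.PQ_

open MvPolynomial (eval aeval C)

theorem not_mem_span {p w : Fin 3 → ℝ} (h : LinearIndependent ℝ ![p, w]) :
    w ∉ Submodule.span ℝ {p} := by
  intro hw
  obtain ⟨c, hc⟩ := Submodule.mem_span_singleton.1 hw
  have h1 := LinearIndependent.pair_iff.1 h c (-1) (by rw [hc]; simp)
  exact absurd h1.2 (by norm_num)

/-- a linear functional which vanishes at `p` only -/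
theorem exists_lam (ι : Type) [Fintype ι] (p : Fin 3 → ℝ) (w : ι → Fin 3 → ℝ)
    (h : ∀ a, LinearIndependent ℝ ![p, w a]) :
    ∃ lam : (Fin 3 → ℝ) →ₗ[ℝ] ℝ, lam p = 0 ∧ ∀ a, lam (w a) ≠ 0 := by
  obtain ⟨f, hf⟩ := Module.exists_dual_forall_apply_ne_zero (K := ℝ)
    (fun a => (Submodule.span ℝ {p}).mkQ (w a)) (by
      intro a h0
      rw [Submodule.mkQ_apply, Submodule.Quotient.mk_eq_zero] at h0
      exact not_mem_span (h a) h0)
  refine ⟨f.comp (Submodule.span ℝ {p}).mkQ, ?_, hf⟩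
  have h1 : (Submodule.span ℝ {p}).mkQ p = 0 := by
    rw [Submodule.mkQ_apply, Submodule.Quotient.mk_eq_zero]
    exact Submodule.mem_span_singleton_self p
  rw [LinearMap.comp_apply, h1, map_zero]

theorem exists_T (p u1 : Fin 3 → ℝ) (lam : (Fin 3 → ℝ) →ₗ[ℝ] ℝ) (hp : p ≠ 0)
    (hlp : lam p = 0) (hu : lam u1 ≠ 0) :
    ∃ T : (Fin 3 → ℝ) ≃ₗ[ℝ] (Fin 3 → ℝ), T (Pi.single 0 1) = p ∧ T (Pi.single 1 1) = u1 ∧
      ∀ v, lam v = (T.symm v) 1 * lam u1 := by
  have hlam : lam ≠ 0 := by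
    intro h0
    rw [h0] at hu
    exact hu rfl
  have h1 := Module.Dual.finrank_ker_add_one_of_ne_zero (K := ℝ) (V₁ := Fin 3 → ℝ) (f := lam) hlam
  rw [Module.finrank_fin_fun] at h1
  have h2 : ¬ (LinearMap.ker lam ≤ Submodule.span ℝ {p}) := by
    intro h3
    have h4 := Submodule.finrank_mono h3
    rw [finrank_span_singleton hp] at h4
    omega
  obtain ⟨u2, hu2, hu2'⟩ := SetLike.not_le_iff_exists.1 h2
  rw [LinearMap.mem_ker] at hu2
  have hli : LinearIndependent ℝ ![p, u1, u2] := by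
    rw [Fintype.linearIndependent_iff]
    intro g hg
    rw [Fin.sum_univ_three] at hg
    simp only [Matrix.cons_val_zero, Matrix.cons_val_one, Matrix.cons_val_two,
      Matrix.head_cons, Matrix.tail_cons] at hg
    have h5 := congrArg lam hg
    rw [map_add, map_add, map_smul, map_smul, map_smul, hlp, hu2, map_zero, smul_zero,
      smul_zero, add_zero, zero_add, smul_eq_mul] at h5
    have h6 : g 1 = 0 := by
      rcases mul_eq_zero.1 h5 with h | h
      · exact h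
      · exact absurd h hu
    rw [h6, zero_smul, add_zero] at hg
    have h7 : g 2 = 0 := by
      by_contra hne
      apply hu2'
      rw [Submodule.mem_span_singleton]
      refine ⟨-(g 2)⁻¹ * g 0, ?_⟩
      have h8 : g 2 • u2 = -(g 0 • p) := by
        rw [eq_neg_iff_add_eq_zero, add_comm]
        exact hg
      calc (-(g 2)⁻¹ * g 0) • p = (g 2)⁻¹ • (-(g 0 • p)) := by
            rw [smul_neg, smul_smul, neg_mul, neg_smul]
        _ = (g 2)⁻¹ • (g 2 • u2) := by rw [h8]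
        _ = u2 := by rw [smul_smul, inv_mul_cancel₀ hne, one_smul]
    rw [h7, zero_smul, add_zero] at hg
    have h9 : g 0 = 0 := by
      rcases smul_eq_zero.1 hg with h | h
      · exact h
      · exact absurd h hp
    intro j
    fin_cases j
    · exact h9
    · exact h6
    · exact h7
  obtain ⟨T, hT⟩ := exists_equiv (k := 3) (n := 3) le_rfl _ hli
  have t0 : T (Pi.single 0 1) = p := hT 0
  have t1 : T (Pi.single 1 1) = u1 := hT 1
  have t2 : T (Pi.single 2 1) = u2 := hT 2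
  refine ⟨T, t0, t1, ?_⟩
  intro v
  obtain ⟨x, hx⟩ : ∃ x, x = T.symm v := ⟨_, rfl⟩
  have hv : v = T x := by rw [hx, LinearEquiv.apply_symm_apply]
  rw [← hx, hv]
  have hx2 : x = x 0 • (Pi.single 0 1 : Fin 3 → ℝ) + x 1 • (Pi.single 1 1 : Fin 3 → ℝ) +
      x 2 • (Pi.single 2 1 : Fin 3 → ℝ) := by
    funext j
    fin_cases j <;> simp
  have h10 : T x = x 0 • p + x 1 • u1 + x 2 • u2 := by
    conv_lhs => rw [hx2]
    rw [map_add, map_add, map_smul, map_smul, map_smul, t0, t1, t2]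
  rw [h10, map_add, map_add, map_smul, map_smul, map_smul, hlp, hu2, smul_zero, smul_zero,
    add_zero, zero_add, smul_eq_mul]

end Pool.Agent.SBQ.PQ_

namespace Pool.Agent.SBQ

open MvPolynomial (eval aeval C)

open PQ_ in
/-- PQ: ternary quartics with finitely many zeros, total length at most four. -/
theorem pq_proof (h1 : Stmt_PP) : Stmt_PQ := by
  classical
  intro F ι _ γ i hF hpsd hfin hcfg hhess
  rcases isEmpty_or_nonempty ι with he | ⟨⟨a₀⟩⟩
  · rw [Finset.univ_eq_empty, Finset.sum_empty]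
    omega
  have hli : ∀ a, LinearIndependent ℝ
      ![at0 (γ a₀), (if a = a₀ then vel (γ a₀) else at0 (γ a))] := by
    intro a
    by_cases h : a = a₀
    · rw [if_pos h]
      exact hcfg.imm a₀
    · rw [if_neg h]
      exact hcfg.dist a₀ a (fun e => h e.symm)
  obtain ⟨lam, hl0, hl1⟩ := exists_lam ι (at0 (γ a₀))
    (fun a => if a = a₀ then vel (γ a₀) else at0 (γ a)) hli
  have hl2 : lam (vel (γ a₀)) ≠ 0 := by
    have := hl1 a₀
    simp only [if_true] at this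
    exact this
  have hl3 : ∀ a, a ≠ a₀ → lam (at0 (γ a)) ≠ 0 := by
    intro a ha
    have := hl1 a
    simp only [if_neg ha] at this
    exact this
  have hp : at0 (γ a₀) ≠ 0 := by
    have := (hcfg.imm a₀).ne_zero 0
    simpa using this
  obtain ⟨T, t0, t1, hT⟩ := exists_T (at0 (γ a₀)) (vel (γ a₀)) lam hp hl0 hl2
  have hc := hcfg.pull T
  have hz : pull (T : (Fin 3 → ℝ) →ₗ[ℝ] (Fin 3 → ℝ)) (0 : P3) = 0 := by simp [pull]
  rw [hz] at hc
  have hs : ∀ v, (T.symm : (Fin 3 → ℝ) →ₗ[ℝ] (Fin 3 → ℝ)) v = T.symm v := fun v => rfl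
  have e0 : T.symm (at0 (γ a₀)) = Pi.single 0 1 := by
    rw [← t0, LinearEquiv.symm_apply_apply]
  have e1 : T.symm (vel (γ a₀)) = Pi.single 1 1 := by
    rw [← t1, LinearEquiv.symm_apply_apply]
  refine h1 (pull (T : (Fin 3 → ℝ) →ₗ[ℝ] (Fin 3 → ℝ)) F) ι
    (fun a => mapArc (T.symm : (Fin 3 → ℝ) →ₗ[ℝ] (Fin 3 → ℝ)) (γ a)) i a₀ (pull_hom _ hF)
    (Psd.pull _ hpsd) (FinZ.pull _ T.injective hF (by norm_num) hfin) hc ?_ ?_ ?_ ?_
  · obtain ⟨u, hu⟩ := hhess a₀
    refine ⟨T.symm u, ?_⟩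
    rw [at0_mapArc, hs, comp_ray_pull]
    have e2 : (T : (Fin 3 → ℝ) →ₗ[ℝ] (Fin 3 → ℝ)) (T.symm (at0 (γ a₀))) = at0 (γ a₀) :=
      T.apply_symm_apply _
    have e3 : (T : (Fin 3 → ℝ) →ₗ[ℝ] (Fin 3 → ℝ)) (T.symm u) = u := T.apply_symm_apply _
    rw [e2, e3]
    exact hu
  · refine ⟨1, ?_⟩
    rw [at0_mapArc, hs, e0, one_smul]
  · rw [vel_mapArc, hs, e1]
    simp
  · intro a ha h0
    rw [at0_mapArc, hs] at h0
    apply hl3 a ha
    rw [hT, h0, zero_mul]

end Pool.Agent.SBQ
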