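import Pool.Agent.SBQ.StmtsB

/-! # SBQ: module QC (patching local domination) -/

namespace Pool.Agent.SBQ.QC_

open MvPolynomial (eval aeval C)
open Pool.Agent.SBQ

theorem sphere_compact : IsCompact {v : Fin 4 → ℝ | ∑ j, v j ^ 2 = 1} := by
  have hcl : IsClosed {v : Fin 4 → ℝ | ∑ j, v j ^ 2 = 1} := by
    refine isClosed_eq ?_ continuous_const
    fun_prop
  refine (isCompact_Icc (a := (fun _ => (-1 : ℝ) : Fin 4 → ℝ)) (b := fun _ => 1)).of_isClosed_subset
    hcl ?_
  intro v hv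
  have hv' : ∑ j, v j ^ 2 = 1 := hv
  have h1 : ∀ i, v i ^ 2 ≤ 1 := by
    intro i
    rw [← hv']
    exact Finset.single_le_sum (f := fun j => v j ^ 2) (fun j _ => sq_nonneg (v j))
      (Finset.mem_univ i)
  refine ⟨fun i => ?_, fun i => ?_⟩
  · have := h1 i
    show (-1 : ℝ) ≤ v i
    nlinarith
  · have := h1 i
    show v i ≤ 1
    nlinarith

theorem eval_cont (F : P4) : Continuous (fun v : Fin 4 → ℝ => eval v F) :=
  MvPolynomial.continuous_eval F

end Pool.Agent.SBQ.QC_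

namespace Pool.Agent.SBQ

open MvPolynomial (eval aeval C)
open QC_

theorem qc_proof : Stmt_QC := by
  intro F G hF hpsd hG hloc
  have key : ∃ K : ℝ, ∀ v ∈ {v : Fin 4 → ℝ | ∑ j, v j ^ 2 = 1},
      (eval v G) ^ 2 ≤ K * eval v F := by
    refine sphere_compact.induction_on
      (p := fun s => ∃ K : ℝ, ∀ v ∈ s, (eval v G) ^ 2 ≤ K * eval v F) ⟨0, fun v hv => ?_⟩
      ?_ ?_ ?_
    · exact absurd hv (Set.notMem_empty v)
    · rintro s t hst ⟨K, hK⟩
      exact ⟨K, fun v hv => hK v (hst hv)⟩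
    · rintro s t ⟨K, hK⟩ ⟨K', hK'⟩
      refine ⟨max K K', fun v hv => ?_⟩
      rcases hv with hv | hv
      · exact (hK v hv).trans (mul_le_mul_of_nonneg_right (le_max_left _ _) (hpsd v))
      · exact (hK' v hv).trans (mul_le_mul_of_nonneg_right (le_max_right _ _) (hpsd v))
    · intro p hp
      rcases (hpsd p).lt_or_eq with hpos | hzero
      · have h1 : ∀ᶠ v in nhds p, eval p F / 2 < eval v F :=
          ((eval_cont F).tendsto p).eventually_const_lt (by linarith)
        have h2 : ∀ᶠ v in nhds p, (eval v G) ^ 2 < (eval p G) ^ 2 + 1 :=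
          (((eval_cont G).pow 2).tendsto p).eventually_lt_const (by
            show (eval p G) ^ 2 < (eval p G) ^ 2 + 1
            linarith)
        refine ⟨{v | eval p F / 2 < eval v F ∧ (eval v G) ^ 2 < (eval p G) ^ 2 + 1},
          mem_nhdsWithin_of_mem_nhds (h1.and h2),
          ((eval p G) ^ 2 + 1) / (eval p F / 2), fun v hv => ?_⟩
        have h3 : 0 < eval p F / 2 := by linarith
        have h4 : 0 < (eval p G) ^ 2 + 1 := by positivity
        rw [div_mul_eq_mul_div, le_div_iff₀ h3]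
        have h5 := hv.1
        have h6 := hv.2
        have h7 : (eval v G) ^ 2 * (eval p F / 2) ≤ ((eval p G) ^ 2 + 1) * (eval p F / 2) :=
          mul_le_mul_of_nonneg_right h6.le h3.le
        have h8 : ((eval p G) ^ 2 + 1) * (eval p F / 2) ≤ ((eval p G) ^ 2 + 1) * eval v F :=
          mul_le_mul_of_nonneg_left h5.le h4.le
        linarith
      · obtain ⟨K, δ, hδ, h⟩ := hloc p hzero.symm hp
        refine ⟨{v | ∀ j, |v j - p j| < δ}, mem_nhdsWithin_of_mem_nhds ?_, K, fun v hv => h v hv⟩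
        rw [Metric.mem_nhds_iff]
        refine ⟨δ, hδ, fun v hv j => ?_⟩
        rw [Metric.mem_ball] at hv
        have := (dist_le_pi_dist v p j).trans_lt hv
        rwa [Real.dist_eq] at this
  obtain ⟨K, hK⟩ := key
  refine ⟨max K 1, lt_of_lt_of_le one_pos (le_max_right _ _), fun v => ?_⟩
  have hS : ∀ u : Fin 4 → ℝ, ∑ j, u j ^ 2 = 1 → (eval u G) ^ 2 ≤ max K 1 * eval u F := fun u hu =>
    (hK u hu).trans (mul_le_mul_of_nonneg_right (le_max_left _ _) (hpsd u))
  by_cases h0 : ∑ j, v j ^ 2 = 0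
  · have hv : v = 0 := by
      funext j
      have h1 := (Finset.sum_eq_zero_iff_of_nonneg (fun j _ => sq_nonneg (v j))).mp h0 j
        (Finset.mem_univ j)
      simpa using h1
    have h2 : eval v G = 0 := by
      have := hom_smul hG 0 v
      rw [zero_smul] at this
      rw [hv, this]
      simp
    rw [h2]
    have := hpsd v
    have h3 : 0 ≤ max K 1 := le_trans zero_le_one (le_max_right _ _)
    nlinarith [mul_nonneg h3 this]
  · have hN0 : 0 ≤ ∑ j, v j ^ 2 := Finset.sum_nonneg fun j _ => sq_nonneg (v j)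
    have hN : 0 < ∑ j, v j ^ 2 := lt_of_le_of_ne hN0 (Ne.symm h0)
    obtain ⟨r, hr⟩ : ∃ r, r = Real.sqrt (∑ j, v j ^ 2) := ⟨_, rfl⟩
    have hr2 : r ^ 2 = ∑ j, v j ^ 2 := by rw [hr]; exact Real.sq_sqrt hN0
    have hrpos : 0 < r := by rw [hr]; exact Real.sqrt_pos.mpr hN
    have hu : ∑ j, (r⁻¹ • v) j ^ 2 = 1 := by
      simp only [Pi.smul_apply, smul_eq_mul, mul_pow]
      rw [← Finset.mul_sum, ← hr2]
      field_simp
    have hv : v = r • (r⁻¹ • v) := by
      rw [smul_smul, mul_inv_cancel₀ hrpos.ne', one_smul]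
    have h1 := hS _ hu
    rw [hv, hom_smul hG, hom_smul hF]
    have h2 : 0 ≤ r ^ 4 := by positivity
    calc (r ^ 2 * eval (r⁻¹ • v) G) ^ 2 = r ^ 4 * (eval (r⁻¹ • v) G) ^ 2 := by ring
      _ ≤ r ^ 4 * (max K 1 * eval (r⁻¹ • v) F) := mul_le_mul_of_nonneg_left h1 h2
      _ = max K 1 * (r ^ 4 * eval (r⁻¹ • v) F) := by ring

end Pool.Agent.SBQ
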