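import Pool.Agent.SBQ.StmtsB

set_option autoImplicit false

/-!
# SBQ, module QN: the quadric is indefinite and irreducible
-/

namespace Pool.Agent.SBQ

open MvPolynomial (eval aeval C)

namespace QN_

theorem split (n : ℕ) : ∀ A B : U1, (Polynomial.X : U1) ^ n ∣ A * B →
    ∃ p q : ℕ, p + q = n ∧ (Polynomial.X : U1) ^ p ∣ A ∧ (Polynomial.X : U1) ^ q ∣ B := by
  induction n with
  | zero => intro A B _; exact ⟨0, 0, rfl, by simp, by simp⟩
  | succ n ih =>
    intro A B h
    have h1 : (Polynomial.X : U1) ∣ A * B := (dvd_pow_self _ (Nat.succ_ne_zero n)).trans h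
    rcases (Polynomial.prime_X.dvd_mul).mp h1 with ⟨A', rfl⟩ | ⟨B', rfl⟩
    · rw [mul_assoc, pow_succ'] at h
      have h2 := (mul_dvd_mul_iff_left (Polynomial.X_ne_zero)).mp h
      obtain ⟨p, q, hpq, hp, hq⟩ := ih _ _ h2
      exact ⟨p + 1, q, by omega, by rw [pow_succ']; exact mul_dvd_mul_left _ hp, hq⟩
    · rw [mul_left_comm, pow_succ'] at h
      have h2 := (mul_dvd_mul_iff_left (Polynomial.X_ne_zero)).mp h
      obtain ⟨p, q, hpq, hp, hq⟩ := ih _ _ h2
      exact ⟨p, q + 1, by omega, hp, by rw [pow_succ']; exact mul_dvd_mul_left _ hq⟩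

/-- the plane section bound for a subfamily -/
theorem sub_le (hPL : Stmt_PL) {F l Q : P4} {ι : Type} [Fintype ι] {γ : ι → Fin 4 → U1}
    {i : ι → ℕ} (hF : F.IsHomogeneous 4) (hp : Psd F) (hfin : FinZ F) (hrk : Rk2 F)
    (hl : l.IsHomogeneous 1) (hl0 : l ≠ 0) (hc : Cfg F Q γ i) (e : ι → ℕ) (he : ∀ a, e a ≤ i a)
    (hd : ∀ a, (Polynomial.X : U1) ^ (e a) ∣ comp (γ a) l) : ∑ a, e a ≤ 4 := by
  classical
  have h1 := hPL F l {a : ι // 1 ≤ e a} (fun a => γ a.1) (fun a => e a.1) hF hp hfin hrk hl hl0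
    { one_le := fun a => a.2
      imm := fun a => hc.imm a.1
      dist := fun a b hab => hc.dist a.1 b.1 (fun h => hab (Subtype.ext h))
      ordF := fun a => (pow_dvd_pow _ (by have := he a.1; omega)).trans (hc.ordF a.1)
      ordQ := fun a => hd a.1 }
  have h2 := Fintype.sum_subtype_add_sum_subtype (fun a : ι => 1 ≤ e a) e
  have h3 : ∑ a : {a : ι // ¬ 1 ≤ e a}, e a.1 = 0 := by
    refine Finset.sum_eq_zero fun a _ => ?_
    have := a.2
    omega
  have h4 : ∑ a : {a : ι // 1 ≤ e a}, e a.1 = ∑ a, e a := by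
    rw [h3, add_zero] at h2
    convert h2
  rw [← h4]
  convert h1

theorem not_psd (hPL : Stmt_PL) {F Q : P4} {ι : Type} [Fintype ι] {γ : ι → Fin 4 → U1}
    {i : ι → ℕ} (hF : F.IsHomogeneous 4) (hp : Psd F) (hfin : FinZ F) (hrk : Rk2 F)
    (hQ : Q.IsHomogeneous 2) (hQ0 : Q ≠ 0) (hc : Cfg F Q γ i) (hs : ∑ a, i a = 9) :
    ¬ Psd Q := by
  intro hQp
  have hv : ∃ v, eval v Q ≠ 0 := by
    by_contra hcon
    push Not at hcon
    exact hQ0 (MvPolynomial.funext fun v => by rw [hcon v, map_zero])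
  obtain ⟨v₀, hv₀⟩ := hv
  have hpos : 0 < eval v₀ Q := lt_of_le_of_ne (hQp v₀) (Ne.symm hv₀)
  obtain ⟨l, hl, hle⟩ := pol_hom1 hQ v₀
  have hl0 : l ≠ 0 := by
    intro h0
    have := hle v₀
    rw [pol_self hQ, h0, map_zero] at this
    exact hv₀ this.symm
  have hd : ∀ a, (Polynomial.X : U1) ^ ((i a + 1) / 2) ∣ comp (γ a) l := by
    intro a
    refine dvd_of_sq_le (comp (γ a) l) (comp (γ a) Q) _ (eval v₀ Q) 1 one_pos ?_ ?_
    · intro t _ _
      rw [eval_comp, eval_comp, hle]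
      exact pol_sq_le hQ hQp _ _
    · rcases Nat.even_or_odd' (i a) with ⟨k, hk | hk⟩
      · have : 2 * ((i a + 1) / 2) = i a := by omega
        rw [this]
        exact hc.ordQ a
      · have h1 : 2 * ((i a + 1) / 2) = 2 * k + 2 := by omega
        rw [h1]
        refine even_order _ k 1 one_pos (fun t _ => ?_) ?_
        · rw [eval_comp]; exact hQp _
        · have := hc.ordQ a
          rwa [hk] at this
  have h4 := sub_le hPL hF hp hfin hrk hl hl0 hc (fun a => (i a + 1) / 2)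
    (fun a => by have := hc.one_le a; omega) hd
  have h5 : ∑ a, i a ≤ ∑ a, 2 * ((i a + 1) / 2) :=
    Finset.sum_le_sum fun a _ => by omega
  rw [← Finset.mul_sum] at h5
  omega

end QN_

open QN_ in
theorem qn_proof (hPL : Stmt_PL) : Stmt_QN := by
  intro F Q ι _ γ i hF hp hfin hrk hQ hQ0 hc hs
  refine ⟨not_psd hPL hF hp hfin hrk hQ hQ0 hc hs, ?_, ?_⟩
  · have hc' : Cfg F (-Q) γ i :=
      { one_le := hc.one_le
        imm := hc.imm
        dist := hc.dist
        ordF := hc.ordF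
        ordQ := fun a => by
          have : comp (γ a) (-Q) = - comp (γ a) Q := by simp [comp]
          rw [this]
          exact (dvd_neg).mpr (hc.ordQ a) }
    exact not_psd hPL hF hp hfin hrk hQ.neg (neg_ne_zero.mpr hQ0) hc' hs
  · intro l l' hl hl' h
    have hl0 : l ≠ 0 := by
      rintro rfl
      exact hQ0 (by rw [h, zero_mul])
    have hl0' : l' ≠ 0 := by
      rintro rfl
      exact hQ0 (by rw [h, mul_zero])
    have hsp : ∀ a, ∃ p q : ℕ, p + q = i a ∧ (Polynomial.X : U1) ^ p ∣ comp (γ a) l ∧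
        (Polynomial.X : U1) ^ q ∣ comp (γ a) l' := by
      intro a
      apply split
      rw [← comp_mul, ← h]
      exact hc.ordQ a
    choose p q hpq hdp hdq using hsp
    have h1 := sub_le hPL hF hp hfin hrk hl hl0 hc p (fun a => by have := hpq a; omega) hdp
    have h2 := sub_le hPL hF hp hfin hrk hl' hl0' hc q (fun a => by have := hpq a; omega) hdq
    have h3 : ∑ a, p a + ∑ a, q a = 9 := by
      rw [← Finset.sum_add_distrib, ← hs]
      exact Finset.sum_congr rfl fun a _ => hpq a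
    omega

end Pool.Agent.SBQ
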