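import Pool.Agent.SBQ.StmtsB

/-!
# SBQ module QX: existence of the quadric
-/

namespace Pool.Agent.SBQ

open MvPolynomial (eval aeval C)
open scoped LinearAlgebra.Projectivization

namespace QX_

/-- the projective zeros -/
def PZ (F : P4) : Type := {a : ℙ ℝ (Fin 4 → ℝ) // eval a.rep F = 0}

theorem norm_pos (v : Fin 4 → ℝ) (hv : v ≠ 0) : 0 < ∑ j, v j ^ 2 := by
  have hnn : 0 ≤ ∑ j, v j ^ 2 := Finset.sum_nonneg fun j _ => sq_nonneg _
  rcases hnn.lt_or_eq with h | h
  · exact h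
  · exfalso
    apply hv
    funext j
    have h2 := (Finset.sum_eq_zero_iff_of_nonneg (fun j _ => sq_nonneg (v j))).1 h.symm j
      (Finset.mem_univ j)
    exact pow_eq_zero_iff (two_ne_zero) |>.1 h2

theorem pz_finite {F : P4} (hF : F.IsHomogeneous 4) (hfin : FinZ F) : Finite (PZ F) := by
  have hsub : Finite {v : Fin 4 → ℝ | eval v F = 0 ∧ ∑ j, v j ^ 2 = 1} := hfin.to_subtype
  let f : PZ F → {v : Fin 4 → ℝ | eval v F = 0 ∧ ∑ j, v j ^ 2 = 1} := fun a =>
    ⟨(Real.sqrt (∑ j, a.1.rep j ^ 2))⁻¹ • a.1.rep, by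
      have hp := norm_pos a.1.rep a.1.rep_nonzero
      refine ⟨?_, ?_⟩
      · rw [hom_smul hF, a.2, mul_zero]
      · simp only [Pi.smul_apply, smul_eq_mul, mul_pow]
        rw [← Finset.mul_sum, inv_pow, Real.sq_sqrt hp.le, inv_mul_cancel₀ hp.ne']⟩
  refine Finite.of_injective f ?_
  intro a b hab
  have h1 : (Real.sqrt (∑ j, a.1.rep j ^ 2))⁻¹ • a.1.rep =
      (Real.sqrt (∑ j, b.1.rep j ^ 2))⁻¹ • b.1.rep := congrArg Subtype.val hab
  have ha : Real.sqrt (∑ j, a.1.rep j ^ 2) ≠ 0 :=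
    (Real.sqrt_pos.2 (norm_pos a.1.rep a.1.rep_nonzero)).ne'
  apply Subtype.ext
  rw [← Projectivization.mk_rep a.1, ← Projectivization.mk_rep b.1,
    Projectivization.mk_eq_mk_iff']
  refine ⟨Real.sqrt (∑ j, a.1.rep j ^ 2) * (Real.sqrt (∑ j, b.1.rep j ^ 2))⁻¹, ?_⟩
  rw [mul_smul, ← h1, smul_smul, mul_inv_cancel₀ ha, one_smul]

theorem li_rep {F : P4} (a b : PZ F) (hab : a ≠ b) :
    LinearIndependent ℝ ![a.1.rep, b.1.rep] := by
  have h : a.1 ≠ b.1 := fun h => hab (Subtype.ext h)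
  have h2 := (Projectivization.independent_pair_iff_ne a.1 b.1).2 h
  rw [Projectivization.independent_iff] at h2
  have h3 : Projectivization.rep ∘ ![a.1, b.1] = ![a.1.rep, b.1.rep] := by
    funext i; fin_cases i <;> rfl
  rwa [h3] at h2

/-- every nonzero zero is a multiple of a representative -/
theorem exists_rep {F : P4} (hF : F.IsHomogeneous 4) (p : Fin 4 → ℝ) (hp : p ≠ 0)
    (h0 : eval p F = 0) : ∃ (a : PZ F) (s : ℝ), s ≠ 0 ∧ a.1.rep = s • p := by
  obtain ⟨s, hs⟩ := Projectivization.exists_smul_eq_mk_rep ℝ p hp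
  have hs' : (s : ℝ) • p = (Projectivization.mk ℝ p hp).rep := hs
  refine ⟨⟨Projectivization.mk ℝ p hp, ?_⟩, s, s.ne_zero, hs'.symm⟩
  rw [← hs', hom_smul hF, h0, mul_zero]

end QX_

open QX_ in
theorem qx_proof (hLL : Stmt_LL) (hDQ : Stmt_DQ) (hQC : Stmt_QC) (hAX : Stmt_AX) : Stmt_QX := by
  intro F hR hfin
  obtain ⟨hF, hpsd, hF0, hrig⟩ := id hR
  obtain ⟨hWf, hWd⟩ := hDQ
  haveI := pz_finite hF hfin
  haveI : Fintype (PZ F) := Fintype.ofFinite _
  have hch : ∀ a : PZ F, ∃ (γ : Fin 4 → U1) (j : ℕ), at0 γ = a.1.rep ∧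
      LinearIndependent ℝ ![at0 γ, vel γ] ∧ 1 ≤ j ∧
      (Polynomial.X : U1) ^ (2 * j) ∣ comp γ F ∧ (9 ≤ j ∨ LocalGood F γ j) :=
    fun a => hLL F hR a.1.rep a.1.rep_nonzero a.2
  choose γ j hat himm hj1 hord hgood using hch
  by_cases h9 : ∃ a, 9 ≤ j a
  · obtain ⟨a, ha⟩ := h9
    obtain ⟨Q, hQW, hQ0, hQ⟩ := (hAX 4 (MvPolynomial.homogeneousSubmodule (Fin 4) ℝ 2) Unit
      (fun _ => γ a) (fun _ => 9) hWf).1 (by simp; omega)
    refine ⟨Unit, inferInstance, Q, fun _ => γ a, fun _ => 9, hQ0, hQW, by simp, ?_⟩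
    exact
      { one_le := fun _ => by omega
        imm := fun _ => himm a
        dist := fun x y hxy => absurd (Subsingleton.elim x y) hxy
        ordF := fun _ => (pow_dvd_pow _ (by omega)).trans (hord a)
        ordQ := hQ }
  · push Not at h9
    have hlg : ∀ a, LocalGood F (γ a) (j a) := fun a =>
      (hgood a).resolve_left (by have := h9 a; omega)
    have hsum : 9 < ∑ a, j a := by
      by_contra hcon
      push Not at hcon
      obtain ⟨Q, hQW, hQ0, hQ⟩ := (hAX 4 (MvPolynomial.homogeneousSubmodule (Fin 4) ℝ 2) (PZ F)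
        γ j hWf).1 (by omega)
      have hQh : Q.IsHomogeneous 2 := hQW
      obtain ⟨K, hK, hKb⟩ := hQC F Q hF hpsd hQh (by
        intro p hp0 hp1
        have hpne : p ≠ 0 := by
          rintro rfl
          simp at hp1
        obtain ⟨a, s, hs, hrep⟩ := exists_rep hF p hpne hp0
        obtain ⟨K, δ, hδ, hKd⟩ := hlg a Q hQh (hQ a)
        have hsp : 0 < |s| := abs_pos.2 hs
        refine ⟨K, δ / |s|, div_pos hδ hsp, fun v hv => ?_⟩
        have h1 := hKd (s • v) (by
          intro k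
          rw [hat a, hrep]
          simp only [Pi.smul_apply, smul_eq_mul]
          rw [← mul_sub, abs_mul]
          have := hv k
          rw [lt_div_iff₀ hsp] at this
          linarith [mul_comm (|s|) (|v k - p k|)])
        rw [hom_smul hQh, hom_smul hF] at h1
        have hs4 : 0 < s ^ 4 := by positivity
        have h2 : s ^ 4 * (eval v Q) ^ 2 ≤ s ^ 4 * (K * eval v F) := by
          calc s ^ 4 * (eval v Q) ^ 2 = (s ^ 2 * eval v Q) ^ 2 := by ring
            _ ≤ K * (s ^ 4 * eval v F) := h1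
            _ = s ^ 4 * (K * eval v F) := by ring
        exact le_of_mul_le_mul_left h2 hs4)
      have hsK : 0 < Real.sqrt K := Real.sqrt_pos.2 hK
      have hz := hrig (C (Real.sqrt K)⁻¹ * Q) (by
        have := (MvPolynomial.isHomogeneous_C (Fin 4) (Real.sqrt K)⁻¹).mul hQh
        rwa [zero_add] at this) (by
        intro v
        rw [map_mul, MvPolynomial.eval_C, mul_pow, inv_pow, Real.sq_sqrt hK.le]
        rw [inv_mul_le_iff₀ hK]
        exact hKb v)
      rcases mul_eq_zero.1 hz with h | h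
      · have h' : (Real.sqrt K)⁻¹ = 0 := by
          have := congrArg (fun P => MvPolynomial.coeff 0 P) h
          simpa using this
        exact (inv_ne_zero hsK.ne') h'
      · exact hQ0 h
    obtain ⟨e, hej, hes⟩ := exists_sub (PZ F) j 9 hsum.le
    classical
    have hsub : ∑ a : {a : PZ F // 1 ≤ e a}, e a.1 = 9 := by
      rw [← hes]
      rw [← Finset.sum_filter_add_sum_filter_not Finset.univ (fun a => 1 ≤ e a) e]
      have h0 : ∑ x ∈ Finset.univ.filter (fun a => ¬ 1 ≤ e a), e x = 0 := by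
        apply Finset.sum_eq_zero
        intro x hx
        have := (Finset.mem_filter.1 hx).2
        omega
      rw [h0, add_zero]
      exact (Finset.sum_subtype (Finset.univ.filter (fun a => 1 ≤ e a)) (by simp) e).symm
    obtain ⟨Q, hQW, hQ0, hQ⟩ := (hAX 4 (MvPolynomial.homogeneousSubmodule (Fin 4) ℝ 2)
      {a : PZ F // 1 ≤ e a} (fun a => γ a.1) (fun a => e a.1) hWf).1 (by omega)
    refine ⟨{a : PZ F // 1 ≤ e a}, inferInstance, Q, fun a => γ a.1, fun a => e a.1, hQ0, hQW,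
      hsub, ?_⟩
    exact
      { one_le := fun a => a.2
        imm := fun a => himm a.1
        dist := fun a b hab => by
          rw [hat a.1, hat b.1]
          exact li_rep a.1 b.1 fun h => hab (Subtype.ext h)
        ordF := fun a => (pow_dvd_pow _ (by have := hej a.1; omega)).trans (hord a.1)
        ordQ := hQ }

end Pool.Agent.SBQ
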