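import Pool.Agent.SBQ.StmtsB

/-!
# SBQ, module R1: the Hessian at a zero of a rigid form is not a square
-/

namespace Pool.Agent.SBQ

open MvPolynomial (eval aeval C)

theorem r1_proof (h1 : Stmt_HL) (h2 : Stmt_LD) : Stmt_R1 := by
  intro F A B D l hF hE hl hA
  subst hA
  obtain ⟨-, hD, hdisc⟩ := hE.facts hF.2.1
  by_cases hl0 : l = 0
  · subst hl0
    have hB : ∀ v, eval v B = 0 := by
      intro v
      have := hdisc v
      simp only [map_pow, map_zero] at this
      nlinarith [sq_nonneg (eval v B)]
    have hFv : ∀ (w : ℝ) (v : Fin 3 → ℝ), eval (Fin.cons w v : Fin 4 → ℝ) F = eval v D := by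
      intro w v
      have := hE.2.2.2 w v
      rw [this, hB v]
      simp
    have hD0 : D ≠ 0 := by
      intro h0
      apply hF.2.2.1
      apply MvPolynomial.funext
      intro v
      have := hFv (v 0) (Fin.tail v)
      rw [Fin.cons_self_tail] at this
      rw [this, h0]
      simp
    obtain ⟨G, hG, hG0, hGD⟩ := h1 D hE.2.2.1 hD hD0
    refine hF.absurd (l := 0) (m := G) (MvPolynomial.isHomogeneous_zero _ _ _) hG (Or.inr hG0) ?_
    intro w v
    rw [hFv]
    simpa using hGD v
  · have hBl : ∀ v, eval v l = 0 → eval v B = 0 := by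
      intro v hv
      have := hdisc v
      simp only [map_pow, hv] at this
      nlinarith [sq_nonneg (eval v B)]
    obtain ⟨c, hc, hBc⟩ := h2 3 l B 2 hl hl0 hE.2.1 hBl
    have hDc : Psd (D - c ^ 2) := by
      apply psd_of_dense _ l hl0
      intro v hv
      have h3 := hF.2.1 (Fin.cons (-(eval v c) / eval v l) v : Fin 4 → ℝ)
      have h4 := hE.2.2.2 (-(eval v c) / eval v l) v
      rw [h4, hBc] at h3
      simp only [map_pow, map_mul, map_sub] at h3 ⊢
      have h5 : (-(eval v c) / eval v l) ^ 2 * eval v l ^ 2 +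
          2 * (-(eval v c) / eval v l) * (eval v l * eval v c) + eval v D =
          eval v D - eval v c ^ 2 := by
        field_simp
        ring
      rw [h5] at h3
      exact h3
    refine hF.absurd (l := l) (m := c) hl hc (Or.inl hl0) ?_
    intro w v
    have h4 := hE.2.2.2 w v
    rw [h4, hBc]
    have h6 := hDc v
    simp only [map_pow, map_mul, map_sub] at h6 ⊢
    nlinarith

end Pool.Agent.SBQ
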