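import Pool.Agent.SBQ.StmtsB

set_option autoImplicit false

namespace Pool.Agent.SBQ

open MvPolynomial (eval aeval C)

theorem r2_proof : Stmt_R2 := by
  intro A u v hA hP hli hu hv
  obtain ⟨T, hT⟩ := exists_equiv (k := 2) (n := 3) (by omega) ![u, v] hli
  have h0 : T (Pi.single (0 : Fin 3) (1 : ℝ)) = u := by
    have := hT 0
    simpa using this
  have h1 : T (Pi.single (1 : Fin 3) (1 : ℝ)) = v := by
    have := hT 1
    simpa using this
  set w : Fin 3 → ℝ := T (Pi.single (2 : Fin 3) (1 : ℝ)) with hw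
  have hc : 0 ≤ eval w A := hP w
  obtain ⟨l, hl, hl2⟩ := exists_hom1
    (Real.sqrt (eval w A) • ((LinearMap.proj (2 : Fin 3) : (Fin 3 → ℝ) →ₗ[ℝ] ℝ).comp
      (T.symm : (Fin 3 → ℝ) →ₗ[ℝ] (Fin 3 → ℝ))))
  refine ⟨l, hl, ?_⟩
  apply MvPolynomial.funext
  intro x
  rw [map_pow, hl2]
  set y : Fin 3 → ℝ := T.symm x with hy
  have hx : x = (1 : ℝ) • (y 0 • u + y 1 • v) + y 2 • w := by
    have h2 : y = y 0 • (Pi.single (0 : Fin 3) (1 : ℝ)) + y 1 • (Pi.single (1 : Fin 3) (1 : ℝ)) +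
        y 2 • (Pi.single (2 : Fin 3) (1 : ℝ)) := by
      funext j
      fin_cases j <;> simp [Pi.single_apply]
    have h3 : x = T y := by rw [hy]; simp
    calc x = T y := h3
      _ = T (y 0 • (Pi.single (0 : Fin 3) (1 : ℝ)) + y 1 • (Pi.single (1 : Fin 3) (1 : ℝ)) +
        y 2 • (Pi.single (2 : Fin 3) (1 : ℝ))) := congrArg T h2
      _ = y 0 • u + y 1 • v + y 2 • w := by
        rw [map_add, map_add, map_smul, map_smul, map_smul, h0, h1]
      _ = _ := by rw [one_smul]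
  have hz : eval (y 0 • u + y 1 • v) A = 0 := by
    rw [hom2_add hA, hu, hv, pol_eq_zero_of_null hA hP hu]
    ring
  have hA2 : eval x A = y 2 ^ 2 * eval w A := by
    rw [hx, hom2_add hA, hz, pol_eq_zero_of_null hA hP hz]
    ring
  rw [hA2]
  have h4 : (Real.sqrt (eval w A) • ((LinearMap.proj (2 : Fin 3) : (Fin 3 → ℝ) →ₗ[ℝ] ℝ).comp
      (T.symm : (Fin 3 → ℝ) →ₗ[ℝ] (Fin 3 → ℝ)))) x = Real.sqrt (eval w A) * y 2 := by
    simp [hy]
  rw [h4, mul_pow, Real.sq_sqrt hc]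
  ring

end Pool.Agent.SBQ
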