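import Pool.Agent.SBQ.StmtsB

/-!
# SBQ, module RA: the kernel of the reduction modulo `y ^ 2 + z ^ 2`
-/

namespace Pool.Agent.SBQ

open MvPolynomial (eval aeval C)

namespace RA_

/-- inclusion of the polynomials in `x, y` -/
noncomputable def inc : MvPolynomial (Fin 2) ℝ →ₐ[ℝ] P3 :=
  aeval ![MvPolynomial.X 0, MvPolynomial.X 1]

theorem inc_X0 : inc (MvPolynomial.X 0) = MvPolynomial.X 0 := by simp [inc]
theorem inc_X1 : inc (MvPolynomial.X 1) = MvPolynomial.X 1 := by simp [inc]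

theorem decomp (f : P3) : ∃ (q : P3) (r₁ r₀ : MvPolynomial (Fin 2) ℝ),
    f = Ayz * q + MvPolynomial.X 2 * inc r₁ + inc r₀ := by
  induction f using MvPolynomial.induction_on with
  | C a =>
    refine ⟨0, 0, C a, ?_⟩
    rw [mul_zero, map_zero, mul_zero, zero_add, zero_add]
    simp [inc]
  | add p q hp hq =>
    obtain ⟨a, b, c, h⟩ := hp
    obtain ⟨a', b', c', h'⟩ := hq
    refine ⟨a + a', b + b', c + c', ?_⟩
    rw [h, h', map_add, map_add]; ring
  | mul_X p i hp =>
    obtain ⟨a, b, c, h⟩ := hp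
    fin_cases i
    · refine ⟨a * MvPolynomial.X 0, b * MvPolynomial.X 0, c * MvPolynomial.X 0, ?_⟩
      rw [h, map_mul, map_mul, inc_X0]
      simp only [Fin.zero_eta, Fin.isValue]
      ring
    · refine ⟨a * MvPolynomial.X 1, b * MvPolynomial.X 1, c * MvPolynomial.X 1, ?_⟩
      rw [h, map_mul, map_mul, inc_X1]
      simp only [Fin.mk_one, Fin.isValue]
      ring
    · refine ⟨a * MvPolynomial.X 2 + inc b, c, - (b * MvPolynomial.X 1 ^ 2), ?_⟩
      rw [h, map_neg, map_mul, map_pow, inc_X1, Ayz]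
      simp only [Fin.reduceFinMk, Fin.isValue]
      ring

theorem rho_inc (r : MvPolynomial (Fin 2) ℝ) :
    rho (inc r) = MvPolynomial.map (algebraMap ℝ ℂ) r := by
  have h : rho.comp inc = (MvPolynomial.mapAlgHom (Algebra.ofId ℝ ℂ) :
      MvPolynomial (Fin 2) ℝ →ₐ[ℝ] MvPolynomial (Fin 2) ℂ) := by
    apply MvPolynomial.algHom_ext
    intro i
    fin_cases i <;> simp [rho, inc]
  have h2 := DFunLike.congr_fun h r
  simp only [AlgHom.comp_apply] at h2
  rw [h2]
  rfl

theorem rho_X2 : rho (MvPolynomial.X 2) = C Complex.I * MvPolynomial.X 1 := by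
  simp [rho]

theorem rho_Ayz : rho Ayz = 0 := by
  have h1 : rho (MvPolynomial.X 1) = MvPolynomial.X 1 := by simp [rho]
  rw [Ayz, map_add, map_pow, map_pow, rho_X2, h1, mul_pow, ← map_pow, Complex.I_sq]
  simp

end RA_

theorem ra_proof : Stmt_RA := by
  refine ⟨RA_.rho_Ayz, fun f hf => ?_⟩
  obtain ⟨q, r₁, r₀, h⟩ := RA_.decomp f
  have h1 : C Complex.I * MvPolynomial.map (algebraMap ℝ ℂ) (MvPolynomial.X 1 * r₁) +
      MvPolynomial.map (algebraMap ℝ ℂ) r₀ = 0 := by
    have e1 : rho f = rho Ayz * rho q + rho (MvPolynomial.X 2) * rho (RA_.inc r₁) +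
        rho (RA_.inc r₀) := by
      rw [h, map_add, map_add, map_mul rho Ayz, map_mul rho (MvPolynomial.X 2)]
    rw [hf, RA_.rho_Ayz, RA_.rho_X2, RA_.rho_inc, RA_.rho_inc] at e1
    rw [map_mul, MvPolynomial.map_X, e1]
    ring
  have h2 : ∀ m, MvPolynomial.coeff m (MvPolynomial.X 1 * r₁) = 0 ∧
      MvPolynomial.coeff m r₀ = 0 := by
    intro m
    have := congrArg (MvPolynomial.coeff m) h1
    rw [MvPolynomial.coeff_add, MvPolynomial.coeff_C_mul, MvPolynomial.coeff_map,
      MvPolynomial.coeff_map, MvPolynomial.coeff_zero] at this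
    have hre := congrArg Complex.re this
    have him := congrArg Complex.im this
    simp at hre him
    exact ⟨him, hre⟩
  have h3 : r₀ = 0 := by
    ext m
    rw [(h2 m).2, MvPolynomial.coeff_zero]
  have h4 : r₁ = 0 := by
    have : (MvPolynomial.X 1 : MvPolynomial (Fin 2) ℝ) * r₁ = 0 := by
      ext m
      rw [(h2 m).1, MvPolynomial.coeff_zero]
    exact (mul_eq_zero.mp this).resolve_left (MvPolynomial.X_ne_zero 1)
  rw [h3, h4, map_zero, mul_zero, add_zero, add_zero] at h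
  exact ⟨q, h⟩

end Pool.Agent.SBQ
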