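import Pool.Agent.SBQ.StmtsB

/-!
# SBQ, module RB: real lifts of the reduction modulo `y ^ 2 + z ^ 2`
-/

namespace Pool.Agent.SBQ

open MvPolynomial (eval aeval C)

namespace RB_

theorem rho_C (r : ℝ) : rho (C r) = C (r : ℂ) := by
  unfold rho
  rw [MvPolynomial.aeval_C, MvPolynomial.algebraMap_apply]
  rfl

theorem rho_X0 : rho (MvPolynomial.X 0) = MvPolynomial.X 0 := by
  unfold rho
  rw [MvPolynomial.aeval_X]
  rfl

theorem rho_X1 : rho (MvPolynomial.X 1) = MvPolynomial.X 1 := by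
  unfold rho
  rw [MvPolynomial.aeval_X]
  rfl

theorem rho_X2 : rho (MvPolynomial.X 2) = C Complex.I * MvPolynomial.X 1 := by
  unfold rho
  rw [MvPolynomial.aeval_X]
  rfl

/-- `monomial d z` as a product -/
theorem mono (d : Fin 2 →₀ ℕ) (z : ℂ) :
    MvPolynomial.monomial d z = C z * MvPolynomial.X 0 ^ d 0 * MvPolynomial.X 1 ^ d 1 := by
  rw [MvPolynomial.monomial_eq, Finsupp.prod_fintype _ _ (fun i => pow_zero _),
    Fin.prod_univ_two, mul_assoc]

theorem hom_mono {a b m : ℕ} (r : ℝ) (h : a + b = m) :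
    (C r * MvPolynomial.X 0 ^ a * MvPolynomial.X 1 ^ b : P3).IsHomogeneous m := by
  have h1 := ((MvPolynomial.isHomogeneous_C (Fin 3) r).mul
    (MvPolynomial.isHomogeneous_X_pow (R := ℝ) (0 : Fin 3) a)).mul
    (MvPolynomial.isHomogeneous_X_pow (R := ℝ) (1 : Fin 3) b)
  have h2 : 0 + a + b = m := by omega
  rw [h2] at h1
  exact h1

/-- the lift of one monomial -/
theorem lift (m : ℕ) (d : Fin 2 →₀ ℕ) (z : ℂ) (hd : d 0 + d 1 = m)
    (hz : d = Finsupp.single 0 m → z.im = 0) :
    ∃ c : P3, c.IsHomogeneous m ∧ rho c = MvPolynomial.monomial d z := by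
  rcases Nat.eq_zero_or_pos (d 1) with h1 | h1
  · have h2 : d = Finsupp.single 0 m := by
      ext i
      fin_cases i
      · simp only [Fin.zero_eta, Finsupp.single_eq_same]; omega
      · simp only [Fin.mk_one]
        rw [Finsupp.single_eq_of_ne (by decide)]
        exact h1
    have h3 : ((z.re : ℝ) : ℂ) = z := by
      apply Complex.ext
      · simp
      · simp [hz h2]
    refine ⟨C z.re * MvPolynomial.X 0 ^ d 0 * MvPolynomial.X 1 ^ d 1, hom_mono _ hd, ?_⟩
    rw [mono, map_mul, map_mul, map_pow, map_pow, rho_C, rho_X0, rho_X1, h3]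
  · obtain ⟨b, hb⟩ : ∃ b, d 1 = b + 1 := ⟨d 1 - 1, by omega⟩
    refine ⟨C z.re * MvPolynomial.X 0 ^ d 0 * MvPolynomial.X 1 ^ d 1 +
      C z.im * MvPolynomial.X 0 ^ d 0 * MvPolynomial.X 1 ^ b * MvPolynomial.X 2, ?_, ?_⟩
    · apply MvPolynomial.IsHomogeneous.add
      · exact hom_mono _ hd
      · have h4 := (hom_mono (a := d 0) (b := b) z.im rfl).mul
          (MvPolynomial.isHomogeneous_X ℝ (2 : Fin 3))
        have h5 : d 0 + b + 1 = m := by omega
        rw [h5] at h4
        exact h4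
    · rw [mono, map_add, map_mul, map_mul, map_mul, map_mul, map_mul, map_pow, map_pow,
        map_pow, rho_C, rho_C, rho_X0, rho_X1, rho_X2, hb]
      have h6 : (C z : MvPolynomial (Fin 2) ℂ) = C ((z.re : ℝ) : ℂ) +
          C ((z.im : ℝ) : ℂ) * C Complex.I := by
        rw [← map_mul, ← map_add, Complex.re_add_im]
      rw [h6]
      ring

end RB_

theorem rb_proof : Stmt_RB := by
  intro m e he him
  have h1 : ∀ d : Fin 2 →₀ ℕ, ∃ c : P3, d ∈ e.support → (c.IsHomogeneous m ∧
      rho c = MvPolynomial.monomial d (MvPolynomial.coeff d e)) := by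
    intro d
    by_cases hd : d ∈ e.support
    · have h2 : d 0 + d 1 = m := by
        have h3 := he (MvPolynomial.mem_support_iff.1 hd)
        rw [← h3]
        simp [Finsupp.weight_apply, Finsupp.sum_fintype, Fin.sum_univ_two]
      obtain ⟨c, hc⟩ := RB_.lift m d (MvPolynomial.coeff d e) h2
        (fun h => by rw [h]; exact him)
      exact ⟨c, fun _ => hc⟩
    · exact ⟨0, fun h => absurd h hd⟩
  choose c hc using h1
  refine ⟨∑ d ∈ e.support, c d, MvPolynomial.IsHomogeneous.sum _ _ _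
    (fun d hd => (hc d hd).1), ?_⟩
  rw [map_sum, Finset.sum_congr rfl (fun d hd => (hc d hd).2)]
  exact MvPolynomial.support_sum_monomial_coeff e

end Pool.Agent.SBQ
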