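import Pool.Agent.SBQ.StmtsB

/-!
# SBQ, module RC: the complex reduction lemma
-/

namespace Pool.Agent.SBQ

open MvPolynomial (eval aeval C)

namespace RC_

theorem ayz_hom : Ayz.IsHomogeneous 2 :=
  (MvPolynomial.isHomogeneous_X_pow _ _).add (MvPolynomial.isHomogeneous_X_pow _ _)

theorem ayz_ne : Ayz ≠ 0 := by
  intro h
  have := congrArg (eval (![0, 1, 0] : Fin 3 → ℝ)) h
  simp [Ayz] at this

/-- homogeneous quotient by `Ayz` -/
theorem quot (hHF : Stmt_HF) (G : P3) (m : ℕ) (hG : G.IsHomogeneous m) (hd : Ayz ∣ G) :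
    ∃ η : P3, G = Ayz * η ∧ (m < 2 → η = 0) ∧ (2 ≤ m → η.IsHomogeneous (m - 2)) := by
  by_cases h0 : G = 0
  · exact ⟨0, by simp [h0], fun _ => rfl, fun _ => MvPolynomial.isHomogeneous_zero _ _ _⟩
  · obtain ⟨η, hη⟩ := hd
    have hne : Ayz * η ≠ 0 := hη ▸ h0
    obtain ⟨a, b, hab, ha, hb⟩ := hHF 3 m Ayz η hne (hη ▸ hG)
    have ha2 : a = 2 := ha.inj_right ayz_hom ayz_ne
    refine ⟨η, hη, fun hm => by omega, fun hm => ?_⟩
    have : m - 2 = b := by omega
    rw [this]; exact hb

theorem rho_hom {G : P3} {m : ℕ} (hG : G.IsHomogeneous m) : (rho G).IsHomogeneous m := by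
  have h := hG.aeval (R := ℝ) (S := ℂ) (![MvPolynomial.X 0, MvPolynomial.X 1,
    C Complex.I * MvPolynomial.X 1] : Fin 3 → MvPolynomial (Fin 2) ℂ) (n := 1) (fun i => by
      fin_cases i
      · exact MvPolynomial.isHomogeneous_X _ _
      · exact MvPolynomial.isHomogeneous_X _ _
      · exact MvPolynomial.isHomogeneous_C_mul_X _ _)
  rw [one_mul] at h
  exact h

theorem eval_rho (G : P3) :
    eval (![1, 0] : Fin 2 → ℂ) (rho G) = ((eval ![1, 0, 0] G : ℝ) : ℂ) := by
  have h : ((aeval (![1, 0] : Fin 2 → ℂ) : MvPolynomial (Fin 2) ℂ →ₐ[ℂ] ℂ).restrictScalars ℝ).comp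
      rho = ((Algebra.ofId ℝ ℂ)).comp (aeval (![1, 0, 0] : Fin 3 → ℝ) : P3 →ₐ[ℝ] ℝ) := by
    apply MvPolynomial.algHom_ext
    intro i
    fin_cases i <;> simp [rho]
  have h2 := DFunLike.congr_fun h G
  simp only [AlgHom.comp_apply, AlgHom.restrictScalars_apply, MvPolynomial.aeval_eq_eval,
    Algebra.ofId_apply] at h2
  exact h2

theorem coeff_eq_eval {e : MvPolynomial (Fin 2) ℂ} {k : ℕ} (he : e.IsHomogeneous k) :
    MvPolynomial.coeff (Finsupp.single 0 k) e = eval (![1, 0] : Fin 2 → ℂ) e := by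
  rw [MvPolynomial.eval_eq']
  symm
  rw [Finset.sum_eq_single (Finsupp.single 0 k)]
  · simp [Fin.prod_univ_two]
  · intro b hb hne
    have hdeg : b.degree = k := by
      by_contra hne'
      exact (MvPolynomial.mem_support_iff.mp hb) (he.coeff_eq_zero hne')
    have h1 : b 1 ≠ 0 := by
      intro h1
      apply hne
      have h0 : b 0 = k := by
        rw [← hdeg, Finsupp.degree_eq_sum, Fin.sum_univ_two, h1, add_zero]
      ext i
      fin_cases i
      · simp [h0]
      · simp [h1]
    rw [Fin.prod_univ_two]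
    simp [h1]
  · intro hn
    rw [MvPolynomial.notMem_support_iff] at hn
    simp [hn]

/-- homogeneity of quotients over `ℂ` -/
theorem comp_mul_left {p e : MvPolynomial (Fin 2) ℂ} {d k : ℕ} (hp : p.IsHomogeneous d)
    (hpe : (p * e).IsHomogeneous (d + k)) (hp0 : p ≠ 0) : e.IsHomogeneous k := by
  have h1 : p * MvPolynomial.homogeneousComponent k e =
      MvPolynomial.homogeneousComponent (d + k) (p * e) := by
    have key : ∀ b : ℕ, MvPolynomial.homogeneousComponent (d + k)
        (p * MvPolynomial.homogeneousComponent b e) =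
        if d + k = d + b then p * MvPolynomial.homogeneousComponent b e else 0 := fun b =>
      MvPolynomial.homogeneousComponent_of_mem
        (hp.mul (MvPolynomial.homogeneousComponent_isHomogeneous b e))
    have h0 : p * e = ∑ b ∈ Finset.range (e.totalDegree + 1),
        p * MvPolynomial.homogeneousComponent b e := by
      rw [← Finset.mul_sum, MvPolynomial.sum_homogeneousComponent]
    rw [h0, map_sum, Finset.sum_congr rfl fun b _ => key b]
    by_cases hk : k ∈ Finset.range (e.totalDegree + 1)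
    · rw [Finset.sum_eq_single k]
      · rw [if_pos rfl]
      · intro b _ hbk
        rw [if_neg (by omega)]
      · intro h; exact absurd hk h
    · rw [Finset.sum_eq_zero]
      · rw [MvPolynomial.homogeneousComponent_eq_zero, mul_zero]
        rw [Finset.mem_range] at hk; omega
      · intro b hb
        rw [if_neg]
        intro h
        have : k = b := by omega
        exact hk (this ▸ hb)
  rw [MvPolynomial.homogeneousComponent_eq_self hpe] at h1
  have h2 := mul_left_cancel₀ hp0 h1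
  rw [← h2]
  exact MvPolynomial.homogeneousComponent_isHomogeneous _ _

theorem im_zero {z : ℂ} {r : ℝ} (hr : 0 ≤ r) (h : z ^ 2 = (r : ℂ)) : z.im = 0 := by
  have h1 := congrArg Complex.re h
  have h2 := congrArg Complex.im h
  simp only [sq, Complex.mul_re, Complex.mul_im, Complex.ofReal_re, Complex.ofReal_im] at h1 h2
  have h3 : z.re * z.im = 0 := by linarith
  rcases mul_eq_zero.mp h3 with h4 | h4
  · rw [h4] at h1
    nlinarith [mul_self_nonneg z.im]
  · exact h4

end RC_

open RC_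

theorem rc_proof (hRA : Stmt_RA) (hRB : Stmt_RB) (hHF : Stmt_HF) : Stmt_RC := by
  intro χ ψ E d k hχ hψ hdk hE hnd hdvd hpos
  have hψ0 : rho ψ ≠ 0 := fun h => hnd (hRA.2 _ h)
  have h1 : rho χ ^ 2 = rho ψ ^ 2 * rho E := by
    obtain ⟨q, hq⟩ := hdvd
    have := congrArg rho hq
    rw [map_mul, hRA.1, zero_mul, map_sub, map_mul, map_pow, map_pow] at this
    exact sub_eq_zero.mp this
  have h2 : rho ψ ∣ rho χ := by
    rw [← IsIntegrallyClosed.pow_dvd_pow_iff (two_ne_zero)]
    exact ⟨_, h1⟩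
  obtain ⟨e, he⟩ := h2
  have h3 : e ^ 2 = rho E := by
    rw [he, mul_pow] at h1
    exact mul_left_cancel₀ (pow_ne_zero 2 hψ0) h1
  have he' : e.IsHomogeneous k := by
    apply comp_mul_left (rho_hom hψ) _ hψ0
    rw [← he, hdk]
    exact rho_hom hχ
  have him : (MvPolynomial.coeff (Finsupp.single 0 k) e).im = 0 := by
    rw [coeff_eq_eval he']
    apply im_zero hpos
    rw [← map_pow, h3, eval_rho]
  obtain ⟨c, hc, hce⟩ := hRB k e he' him
  have h4 : Ayz ∣ ψ * c - χ := by
    apply hRA.2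
    rw [map_sub, map_mul, hce, he, sub_self]
  have h5 : Ayz ∣ E - c ^ 2 := by
    apply hRA.2
    rw [map_sub, map_pow, hce, h3, sub_self]
  obtain ⟨ν, hν, _, hν2⟩ := quot hHF (ψ * c - χ) 3
    (MvPolynomial.IsHomogeneous.sub (by have := hψ.mul hc; rwa [hdk] at this) hχ) h4
  obtain ⟨η, hη, hη1, hη2⟩ := quot hHF (E - c ^ 2) (2 * k)
    (MvPolynomial.IsHomogeneous.sub hE (by have := hc.pow 2; rwa [mul_comm k 2] at this)) h5
  refine ⟨c, ν, η, hc, hν2 (by norm_num), ?_, ?_, fun hk => hη1 (by omega),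
    fun hk => hη2 (by omega)⟩
  · rw [← hν]; ring
  · rw [← hη]; ring

end Pool.Agent.SBQ
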