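import Pool.Agent.SBQ.StmtsB

/-!
# SBQ module RK: the Hessian has rank at least two
-/

namespace Pool.Agent.SBQ

open MvPolynomial (eval aeval C)

namespace RK_

theorem cons_single (v : Fin 3 → ℝ) (t : ℝ) :
    (Pi.single 0 1 : Fin 4 → ℝ) + t • (Fin.cons 0 v : Fin 4 → ℝ) = Fin.cons 1 (t • v) := by
  funext j
  refine Fin.cases ?_ (fun j => ?_) j
  · simp
  · simp

theorem comp_eq {F : P4} {A B D : P3} (h : Exp F A B D) (v : Fin 3 → ℝ) :
    comp (ray (Pi.single 0 1 : Fin 4 → ℝ) (Fin.cons 0 v)) F =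
      Polynomial.C (eval v A) * Polynomial.X ^ 2 +
        (Polynomial.C (2 * eval v B) * Polynomial.X ^ 3 +
          Polynomial.C (eval v D) * Polynomial.X ^ 4) := by
  apply Polynomial.funext
  intro t
  rw [comp_ray_eval, cons_single, h.2.2.2, hom_smul h.1, hom_smul h.2.1, hom_smul h.2.2.1]
  simp only [Polynomial.eval_add, Polynomial.eval_mul, Polynomial.eval_C, Polynomial.eval_pow,
    Polynomial.eval_X]
  ring

theorem A_zero {F : P4} {A B D : P3} (h : Exp F A B D) (v : Fin 3 → ℝ)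
    (hd : (Polynomial.X : U1) ^ 3 ∣ comp (ray (Pi.single 0 1 : Fin 4 → ℝ) (Fin.cons 0 v)) F) :
    eval v A = 0 := by
  rw [comp_eq h] at hd
  have h2 := (Polynomial.X_pow_dvd_iff.1 hd) 2 (by norm_num)
  simp only [Polynomial.coeff_add, Polynomial.coeff_C_mul, Polynomial.coeff_X_pow] at h2
  simpa using h2

end RK_

open RK_ in
theorem rk_proof (hXP : Stmt_XP) (hR1 : Stmt_R1) (hR2 : Stmt_R2) : Stmt_RK := by
  intro F hR p u u' hp hli
  by_contra hcon
  push Not at hcon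
  obtain ⟨T, hT⟩ := exists_equiv (n := 4) (k := 3) (by norm_num) ![p, u, u'] hli
  have hT0 : T (Pi.single 0 1) = p := hT 0
  have hT1 : T (Pi.single 1 1) = u := hT 1
  have hT2 : T (Pi.single 2 1) = u' := hT 2
  have hR' := Rig.pull hR T
  set F' : P4 := pull (T : (Fin 4 → ℝ) →ₗ[ℝ] (Fin 4 → ℝ)) F with hF'
  obtain ⟨A, B, D, hE⟩ := hXP 3 F' hR'.1 hR'.2.1 (by
    rw [hF', eval_pull]
    have : (T : (Fin 4 → ℝ) →ₗ[ℝ] (Fin 4 → ℝ)) (Pi.single 0 1) = p := hT0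
    rw [this, hp])
  have key : ∀ a b : ℝ, eval (![a, b, 0] : Fin 3 → ℝ) A = 0 := by
    intro a b
    refine A_zero hE ![a, b, 0] ?_
    rw [hF', comp_ray_pull]
    have h1 : (T : (Fin 4 → ℝ) →ₗ[ℝ] (Fin 4 → ℝ)) (Pi.single 0 1) = p := hT0
    have h2 : (T : (Fin 4 → ℝ) →ₗ[ℝ] (Fin 4 → ℝ)) (Fin.cons 0 (![a, b, 0] : Fin 3 → ℝ)) =
        a • u + b • u' := by
      have h3 : (Fin.cons 0 (![a, b, 0] : Fin 3 → ℝ) : Fin 4 → ℝ) =
          a • (Pi.single 1 1 : Fin 4 → ℝ) + b • (Pi.single 2 1 : Fin 4 → ℝ) := by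
        have h4 : (Fin.cons 0 (![a, b, 0] : Fin 3 → ℝ) : Fin 4 → ℝ) = ![0, a, b, 0] := rfl
        rw [h4]
        funext j
        fin_cases j <;> simp
      rw [h3, map_add, map_smul, map_smul]
      show a • T (Pi.single 1 1) + b • T (Pi.single 2 1) = _
      rw [hT1, hT2]
    rw [h1, h2]
    exact hcon a b
  obtain ⟨l, hl, hAl⟩ := hR2 A ![1, 0, 0] ![0, 1, 0] hE.1 (Exp.facts hE hR'.2.1).1 (by
    rw [LinearIndependent.pair_iff]
    intro s t hst
    have h0 := congrFun hst 0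
    have h1 := congrFun hst 1
    simp at h0 h1
    exact ⟨h0, h1⟩) (key 1 0) (key 0 1)
  exact hR1 F' A B D l hR' hE hl hAl

end Pool.Agent.SBQ
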