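import Pool.Agent.SBQ.StmtsB

/-!
# SBQ module VX: the vertex of the cone
-/

namespace Pool.Agent.SBQ

open MvPolynomial (eval aeval C)

namespace VX_

/-- the coordinate change putting the third variable first -/
noncomputable def L : (Fin 4 → ℝ) →ₗ[ℝ] (Fin 4 → ℝ) :=
  LinearMap.funLeft ℝ ℝ (![1, 2, 0, 3] : Fin 4 → Fin 4)

theorem L_apply (v : Fin 4 → ℝ) : L v = ![v 1, v 2, v 0, v 3] := by
  funext j
  fin_cases j <;> simp [L, LinearMap.funLeft_apply]

theorem cons4 (z x y w : ℝ) : (![z, x, y, w] : Fin 4 → ℝ) = Fin.cons z ![x, y, w] := rfl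

/-- an expansion, evaluated -/
theorem expand {F : P4} {A B D : P3} (h : Exp (pull L F) A B D) (x y z w : ℝ) :
    eval ![x, y, z, w] F =
      z ^ 2 * eval ![x, y, w] A + 2 * z * eval ![x, y, w] B + eval ![x, y, w] D := by
  rw [← h.2.2.2, ← cons4, eval_pull, L_apply]
  congr 2

/-- an expansion evaluated on an arc -/
theorem comp_exp {F : P4} {A B D : P3} (h : Exp (pull L F) A B D) (x y z w : U1) :
    comp ![x, y, z, w] F =
      z ^ 2 * comp ![x, y, w] A + 2 * z * comp ![x, y, w] B + comp ![x, y, w] D := by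
  apply Polynomial.funext
  intro t
  have h1 : (fun j => ((![x, y, z, w] : Fin 4 → U1) j).eval t) =
      ![x.eval t, y.eval t, z.eval t, w.eval t] := by
    funext j
    fin_cases j <;> simp
  have h2 : (fun j => ((![x, y, w] : Fin 3 → U1) j).eval t) =
      ![x.eval t, y.eval t, w.eval t] := by
    funext j
    fin_cases j <;> simp
  rw [eval_comp, h1, expand h]
  simp only [Polynomial.eval_add, Polynomial.eval_mul, Polynomial.eval_pow, eval_comp, h2]
  simp

theorem comp_one (P : P3) (η : U1) :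
    comp ![1, η, η ^ 2] P = (comp ![1, Polynomial.X, Polynomial.X ^ 2] P).comp η := by
  apply Polynomial.funext
  intro t
  rw [eval_comp, Polynomial.eval_comp, eval_comp]
  congr 2
  funext j
  fin_cases j <;> simp

theorem eval_one (P : P3) (x : ℝ) :
    (comp ![1, Polynomial.X, Polynomial.X ^ 2] P).eval x = eval ![1, x, x ^ 2] P := by
  rw [eval_comp]
  congr 2
  funext j
  fin_cases j <;> simp

theorem natDegree_le {P : P3} {d : ℕ} (hP : P.IsHomogeneous d) :
    (comp ![1, Polynomial.X, Polynomial.X ^ 2] P).natDegree ≤ 2 * d := by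
  unfold comp
  rw [MvPolynomial.aeval_def, MvPolynomial.eval₂_eq']
  apply Polynomial.natDegree_sum_le_of_forall_le
  intro m hm
  have hdeg : m.degree = d := by
    by_contra hne
    exact (MvPolynomial.mem_support_iff.mp hm) (hP.coeff_eq_zero hne)
  have h1 : m 0 + m 1 + m 2 = d := by
    rw [← hdeg, Finsupp.degree_eq_sum, Fin.sum_univ_three]
  rw [Fin.prod_univ_three]
  simp only [Matrix.cons_val_zero, one_pow, one_mul, Matrix.cons_val_one, Matrix.cons_val]
  have e : (Polynomial.X : U1) ^ m 1 * (Polynomial.X ^ 2) ^ m 2 =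
      Polynomial.X ^ (m 1 + 2 * m 2) := by
    rw [← pow_mul, ← pow_add]
  rw [e]
  refine le_trans (Polynomial.natDegree_C_mul_X_pow_le _ _) (by omega)

/-- vectors of the form `t (1, x, x²)` -/
theorem hom_scale {P : P3} {d : ℕ} (hP : P.IsHomogeneous d) (t x : ℝ) :
    eval ![t, t * x, t * x ^ 2] P = t ^ d * eval ![1, x, x ^ 2] P := by
  rw [← hom_smul hP]
  congr 2
  funext j
  fin_cases j <;> simp

/-- a nonnegative quadratic form vanishing on the conic is zero -/
theorem eq_zero_of {P : P3} (hP : P.IsHomogeneous 2) (hp : Psd P)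
    (h : ∀ x : ℝ, eval ![1, x, x ^ 2] P = 0) : P = 0 := by
  apply MvPolynomial.funext
  intro v
  rw [map_zero]
  have z1 : eval (![1, 0, 0] : Fin 3 → ℝ) P = 0 := by simpa using h 0
  have z2 : eval (![1, 1, 1] : Fin 3 → ℝ) P = 0 := by simpa using h 1
  have z3 : eval (![1, -1, 1] : Fin 3 → ℝ) P = 0 := by simpa using h (-1)
  have hv : v = (v 0 - v 2) • (![1, 0, 0] : Fin 3 → ℝ) + (1 : ℝ) •
      (((v 1 + v 2) / 2) • (![1, 1, 1] : Fin 3 → ℝ) +
        ((v 2 - v 1) / 2) • (![1, -1, 1] : Fin 3 → ℝ)) := by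
    funext j
    fin_cases j
    · simp; ring
    · simp; ring
    · simp; ring
  rw [hv, hom2_add hP, hom2_add hP, z1, z2, z3, pol_eq_zero_of_null hP hp z1,
    pol_eq_zero_of_null hP hp z2]
  ring

theorem fin_of {F : P4} (hF : F.IsHomogeneous 4) (hfin : FinZ F) (S : Set ℝ)
    (f : ℝ → Fin 4 → ℝ) (hz : ∀ x ∈ S, eval (f x) F = 0) (h1 : ∀ x, f x 0 = 1)
    (h2 : ∀ x, f x 1 = x) : S.Finite := by
  have hpos : ∀ x, 0 < ∑ j, (f x j) ^ 2 := by
    intro x
    have : (f x 0) ^ 2 ≤ ∑ j, (f x j) ^ 2 :=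
      Finset.single_le_sum (f := fun j => (f x j) ^ 2) (fun _ _ => sq_nonneg _)
        (Finset.mem_univ 0)
    rw [h1] at this
    linarith
  have hinj : Set.InjOn (fun x => (Real.sqrt (∑ j, (f x j) ^ 2))⁻¹ • f x) S := by
    intro x _ y _ hxy
    simp only at hxy
    have hx0 := (Real.sqrt_pos.mpr (hpos x))
    have e1 := congrFun hxy 0
    have e2 := congrFun hxy 1
    simp only [Pi.smul_apply, smul_eq_mul, h1, h2, mul_one] at e1 e2
    rw [← e1] at e2
    exact mul_left_cancel₀ (inv_ne_zero hx0.ne') e2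
  refine Set.Finite.of_finite_image (hfin.subset ?_) hinj
  rintro _ ⟨x, hx, rfl⟩
  refine ⟨?_, ?_⟩
  · show eval ((Real.sqrt (∑ j, (f x j) ^ 2))⁻¹ • f x) F = 0
    rw [hom_smul hF, hz x hx, mul_zero]
  · simp only [Pi.smul_apply, smul_eq_mul, mul_pow, ← Finset.mul_sum]
    rw [inv_pow, Real.sq_sqrt (hpos x).le, inv_mul_cancel₀ (hpos x).ne']

theorem pair_li {p q : Fin 4 → ℝ} (hp : ∀ j, j ≠ 2 → p j = 0) (hp0 : p 2 ≠ 0)
    (hq : q 0 ≠ 0) : LinearIndependent ℝ ![p, q] := by
  rw [LinearIndependent.pair_iff]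
  intro s t hst
  have e1 := congrFun hst 0
  have e0 := congrFun hst 2
  simp only [Pi.add_apply, Pi.smul_apply, smul_eq_mul, Pi.zero_apply] at e0 e1
  rw [hp 0 (by decide), mul_zero, zero_add] at e1
  have ht : t = 0 := (mul_eq_zero.mp e1).resolve_right hq
  rw [ht, zero_mul, add_zero] at e0
  exact ⟨(mul_eq_zero.mp e0).resolve_right hp0, ht⟩

/-- coefficients of a product modulo a power -/
theorem coeff_zero_of {a : U1} {K : ℕ} (hK : 1 ≤ K) (h : (Polynomial.X : U1) ^ K ∣ a) :
    a.coeff 0 = 0 := (Polynomial.X_pow_dvd_iff.mp h) 0 (by omega)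

theorem coeff_one_of {a : U1} {K : ℕ} (hK : 2 ≤ K) (h : (Polynomial.X : U1) ^ K ∣ a) :
    a.coeff 1 = 0 := (Polynomial.X_pow_dvd_iff.mp h) 1 (by omega)

theorem mul_coeff_one (a b : U1) :
    (a * b).coeff 1 = a.coeff 0 * b.coeff 1 + a.coeff 1 * b.coeff 0 := by
  rw [Polynomial.coeff_mul, Finset.Nat.antidiagonal_succ]
  simp

theorem e2_vec : (Pi.single 2 1 : Fin 4 → ℝ) = ![0, 0, 1, 0] := by
  funext j
  fin_cases j <;> simp

/-- the hessian hypothesis excludes `A = 0` -/
theorem A_ne {F : P4} {A B D : P3} (hE : Exp (pull L F) A B D) (hP : Psd F) (hR : Rk2 F)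
    (he : eval (Pi.single 2 1 : Fin 4 → ℝ) F = 0) : A ≠ 0 := by
  intro hA
  have hli : LinearIndependent ℝ ![(Pi.single 2 1 : Fin 4 → ℝ), Pi.single 0 1,
      Pi.single 1 1] := by
    rw [Fintype.linearIndependent_iff]
    intro g hg
    rw [Fin.sum_univ_three] at hg
    have g0 := congrFun hg 2
    have g1 := congrFun hg 0
    have g2 := congrFun hg 1
    simp at g0 g1 g2
    intro j
    fin_cases j
    · exact g0
    · exact g1
    · exact g2
  obtain ⟨s, t, hu⟩ := hR _ _ _ he hli
  apply hu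
  set u : Fin 4 → ℝ := s • Pi.single 0 1 + t • Pi.single 1 1 with hud
  obtain ⟨_, _, hBD⟩ := hE.facts (Psd.pull _ hP)
  have hB : ∀ v, eval v B = 0 := by
    intro v
    have := hBD v
    rw [hA, map_zero, zero_mul] at this
    exact pow_eq_zero_iff (two_ne_zero) |>.mp (le_antisymm this (sq_nonneg _))
  have : comp (ray (Pi.single 2 1 : Fin 4 → ℝ) u) F =
      Polynomial.X ^ 4 * Polynomial.C (eval ![u 0, u 1, u 3] D) := by
    apply Polynomial.funext
    intro r
    rw [comp_ray_eval]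
    have h1 : (Pi.single 2 1 : Fin 4 → ℝ) + r • u = ![r * u 0, r * u 1, 1 + r * u 2, r * u 3] := by
      funext j
      fin_cases j <;> simp
    have h2 : (![r * u 0, r * u 1, r * u 3] : Fin 3 → ℝ) = r • ![u 0, u 1, u 3] := by
      funext j
      fin_cases j <;> simp
    rw [h1, expand hE, hB, hA, h2, hom_smul hE.2.2.1]
    simp only [map_zero, mul_zero, zero_add, Polynomial.eval_mul, Polynomial.eval_pow,
      Polynomial.eval_X, Polynomial.eval_C]
  rw [this]
  exact Dvd.dvd.mul_right (pow_dvd_pow _ (by norm_num)) _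

theorem vec_eta {α : Type*} (f : Fin 4 → α) : f = ![f 0, f 1, f 2, f 3] := by
  funext j
  fin_cases j <;> rfl

theorem comp_Qe (γ : Fin 4 → U1) : comp γ (Qe 0) = γ 0 * γ 3 - γ 1 ^ 2 := by
  simp [Qe, comp]

end VX_

theorem vx_proof (h1 : Stmt_XP) (h2 : Stmt_LN) (h3 : Stmt_CO) (h4 : Stmt_T2) : Stmt_VX := by
  classical
  intro F ι _ γ i a₀ r hF hP hfin hRk hC hr hv hne
  have hr0 : r ≠ 0 := by
    rintro rfl
    have := (hC.imm a₀).ne_zero 0
    apply this
    simp [hr]
  have hzero : ∀ a, eval (at0 (γ a)) F = 0 := by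
    intro a
    rw [← comp_coeff_zero]
    exact VX_.coeff_zero_of (by have := hC.one_le a; omega) (hC.ordF a)
  have he0 : eval (Pi.single 2 1 : Fin 4 → ℝ) F = 0 := by
    have := hzero a₀
    rw [hr, hom_smul hF] at this
    exact (mul_eq_zero.mp this).resolve_left (pow_ne_zero _ hr0)
  have he0' : eval (Pi.single 0 1 : Fin 4 → ℝ) (pull VX_.L F) = 0 := by
    rw [eval_pull, VX_.L_apply]
    rw [VX_.e2_vec] at he0
    simpa using he0
  obtain ⟨A, B, D, hE⟩ := h1 3 (pull VX_.L F) (pull_hom _ hF) (Psd.pull _ hP) he0'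
  have hA : A ≠ 0 := VX_.A_ne hE hP hRk he0
  set a : U1 := comp ![1, Polynomial.X, Polynomial.X ^ 2] A with ha
  set b : U1 := comp ![1, Polynomial.X, Polynomial.X ^ 2] B with hb
  set c : U1 := comp ![1, Polynomial.X, Polynomial.X ^ 2] D with hc
  have hFv : ∀ w x : ℝ, eval ![1, x, w, x ^ 2] F =
      w ^ 2 * a.eval x + 2 * w * b.eval x + c.eval x := by
    intro w x
    rw [VX_.expand hE, ha, hb, hc, VX_.eval_one, VX_.eval_one, VX_.eval_one]
  have ha0 : a ≠ 0 := by
    intro h0
    apply hA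
    apply VX_.eq_zero_of hE.1 (hE.facts (Psd.pull _ hP)).1
    intro x
    rw [← VX_.eval_one, ← ha, h0, Polynomial.eval_zero]
  -- conditions of CO
  have c1 : ∀ w x : ℝ, 0 ≤ w ^ 2 * a.eval x + 2 * w * b.eval x + c.eval x := by
    intro w x
    rw [← hFv]; exact hP _
  have c2 : a * c - b ^ 2 ≠ 0 := by
    intro h0
    have hS : {x : ℝ | a.eval x ≠ 0}.Finite := by
      apply VX_.fin_of hF hfin _ (fun x => ![1, x, -(b.eval x) / a.eval x, x ^ 2])
      · intro x hx
        have hx' : a.eval x ≠ 0 := hx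
        rw [hFv]
        have e := congrArg (Polynomial.eval x) h0
        simp only [Polynomial.eval_sub, Polynomial.eval_mul, Polynomial.eval_pow,
          Polynomial.eval_zero] at e
        field_simp
        linear_combination e
      · intro x; simp
      · intro x; simp
    have hS2 : {x : ℝ | a.eval x = 0}.Finite := by
      have : {x : ℝ | a.eval x = 0} ⊆ ↑(a.roots.toFinset) := by
        intro x hx
        rw [Finset.mem_coe, Multiset.mem_toFinset, Polynomial.mem_roots ha0]
        exact hx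
      exact (Finset.finite_toSet _).subset this
    have hS3 : (Set.univ : Set ℝ).Finite := by
      have := hS.union hS2
      apply this.subset
      intro x _
      by_cases hx : a.eval x = 0
      · exact Or.inr hx
      · exact Or.inl hx
    exact Set.infinite_univ hS3
  have c3 : (a * c - b ^ 2).natDegree ≤ 2 * 6 := by
    apply (Polynomial.natDegree_sub_le _ _).trans
    apply max_le
    · apply Polynomial.natDegree_mul_le.trans
      have e1 := VX_.natDegree_le hE.1
      have e2 := VX_.natDegree_le hE.2.2.1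
      rw [← ha] at e1
      rw [← hc] at e2
      omega
    · apply Polynomial.natDegree_pow_le.trans
      have e1 := VX_.natDegree_le hE.2.1
      rw [← hb] at e1
      omega
  have c4 : ∀ x : ℝ, a.eval x ≠ 0 ∨ b.eval x ≠ 0 ∨ c.eval x ≠ 0 := by
    intro x
    by_contra hcon
    push Not at hcon
    obtain ⟨hax, hbx, hcx⟩ := hcon
    rw [ha, VX_.eval_one] at hax
    rw [hb, VX_.eval_one] at hbx
    rw [hc, VX_.eval_one] at hcx
    have hli : LinearIndependent ℝ ![(Pi.single 2 1 : Fin 4 → ℝ), ![1, x, 0, x ^ 2]] := by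
      apply VX_.pair_li
      · intro j hj; simp [hj]
      · simp
      · simp
    obtain ⟨s, t, hst⟩ := (h2 4 F hF hP hfin _ _ hli).1
    apply hst
    have : s • (Pi.single 2 1 : Fin 4 → ℝ) + t • ![1, x, 0, x ^ 2] =
        ![t, t * x, s, t * x ^ 2] := by
      funext j
      fin_cases j <;> simp
    rw [this, VX_.expand hE, VX_.hom_scale hE.1, VX_.hom_scale hE.2.1, VX_.hom_scale hE.2.2.1,
      hax, hbx, hcx]
    ring
  -- truncated inverses
  have hinv : ∀ j : {j // j ≠ a₀}, ∃ u : U1,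
      (Polynomial.X : U1) ^ (2 * i j.1) ∣ u * γ j.1 0 - 1 := by
    intro j
    exact exists_trunc_inv _ (hne j.1 j.2) _
  choose u hu' using hinv
  have hK : ∀ j : {j // j ≠ a₀}, 2 ≤ 2 * i j.1 := fun j => by have := hC.one_le j.1; omega
  have hu0 : ∀ j : {j // j ≠ a₀}, (u j).coeff 0 * (γ j.1 0).coeff 0 = 1 := by
    intro j
    have := VX_.coeff_zero_of (by have := hK j; omega) (hu' j)
    rw [Polynomial.coeff_sub, Polynomial.mul_coeff_zero, Polynomial.coeff_one_zero] at this
    linarith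
  -- the fourth coordinate
  have hW : ∀ j : {j // j ≠ a₀}, (Polynomial.X : U1) ^ (i j.1) ∣
      (u j * γ j.1 1) ^ 2 - u j * γ j.1 3 := by
    intro j
    have e1 := hC.ordQ j.1
    rw [VX_.comp_Qe] at e1
    have e2 : (Polynomial.X : U1) ^ (i j.1) ∣ u j * γ j.1 0 - 1 :=
      (pow_dvd_pow _ (by omega)).trans (hu' j)
    have e3 : (u j * γ j.1 1) ^ 2 - u j * γ j.1 3 =
        (u j * γ j.1 3) * (u j * γ j.1 0 - 1) - u j ^ 2 * (γ j.1 0 * γ j.1 3 - γ j.1 1 ^ 2) := by
      ring
    rw [e3]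
    exact dvd_sub (e2.mul_left _) (e1.mul_left _)
  -- the normalised arcs
  have hord : ∀ j : {j // j ≠ a₀}, (Polynomial.X : U1) ^ (2 * i j.1) ∣
      comp ![1, u j * γ j.1 1, u j * γ j.1 2, (u j * γ j.1 1) ^ 2] F := by
    intro j
    have e1 : (Polynomial.X : U1) ^ (2 * i j.1) ∣ comp (fun k => u j * γ j.1 k) F := by
      rw [comp_smul_arc hF]
      exact (hC.ordF j.1).mul_left _
    have e2 := h4 4 F (fun k => u j * γ j.1 k)
      ![1 - u j * γ j.1 0, 0, 0, (u j * γ j.1 1) ^ 2 - u j * γ j.1 3] (i j.1) hP e1 (by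
        intro k
        fin_cases k
        · have e3 := hu' j
          rw [← dvd_neg, neg_sub] at e3
          exact (pow_dvd_pow _ (by omega)).trans e3
        · exact dvd_zero _
        · exact dvd_zero _
        · exact hW j)
    have e3 : (fun k => u j * γ j.1 k + (![1 - u j * γ j.1 0, 0, 0,
        (u j * γ j.1 1) ^ 2 - u j * γ j.1 3] : Fin 4 → U1) k) =
        ![1, u j * γ j.1 1, u j * γ j.1 2, (u j * γ j.1 1) ^ 2] := by
      funext k
      fin_cases k
      · simp
      · simp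
      · simp
      · simp
    rw [e3] at e2
    exact e2
  have hW0 : ∀ j : {j // j ≠ a₀}, (u j).coeff 0 * (γ j.1 3).coeff 0 =
      ((u j).coeff 0 * (γ j.1 1).coeff 0) ^ 2 := by
    intro j
    have := VX_.coeff_zero_of (hC.one_le j.1) (hW j)
    rw [Polynomial.coeff_sub, pow_two, Polynomial.mul_coeff_zero, Polynomial.mul_coeff_zero,
      Polynomial.mul_coeff_zero] at this
    rw [pow_two]
    linarith
  have c5 : ∀ j k : {j // j ≠ a₀}, j ≠ k →
      (u j * γ j.1 1).coeff 0 ≠ (u k * γ k.1 1).coeff 0 := by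
    intro j k hjk heq
    have hjk' : j.1 ≠ k.1 := fun h => hjk (Subtype.ext h)
    have hli := hC.dist j.1 k.1 hjk'
    rw [Polynomial.mul_coeff_zero, Polynomial.mul_coeff_zero] at heq
    have huj := hu0 j
    have huk := hu0 k
    have hwj := hW0 j
    have hwk := hW0 k
    have huj0 : (u j).coeff 0 ≠ 0 := left_ne_zero_of_mul_eq_one huj
    have huk0 : (u k).coeff 0 ≠ 0 := left_ne_zero_of_mul_eq_one huk
    have hnz := (h2 4 F hF hP hfin _ _ hli).2.1 (hzero j.1) (hzero k.1) ((u j).coeff 0)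
      (-(u k).coeff 0) huj0 (neg_ne_zero.mpr huk0)
    apply hnz
    have : (u j).coeff 0 • at0 (γ j.1) + (-(u k).coeff 0) • at0 (γ k.1) =
        ((u j).coeff 0 * at0 (γ j.1) 2 - (u k).coeff 0 * at0 (γ k.1) 2) •
          (Pi.single 2 1 : Fin 4 → ℝ) := by
      funext l
      fin_cases l
      · simp [at0, huj, huk]
      · simp only [at0, Pi.add_apply, Pi.smul_apply, smul_eq_mul]
        simp
        linarith
      · simp; ring
      · simp only [at0, Pi.add_apply, Pi.smul_apply, smul_eq_mul]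
        rw [heq] at hwj
        simp
        linarith
    rw [this, hom_smul hF, he0, mul_zero]
  have c6 : ∀ j : {j // j ≠ a₀}, i j.1 ≤ 1 ∨ (u j * γ j.1 1).coeff 1 ≠ 0 := by
    intro j
    by_contra hcon
    push Not at hcon
    obtain ⟨hi, hη⟩ := hcon
    set W : U1 := u j * γ j.1 2 with hWd
    set η : U1 := u j * γ j.1 1 with hηd
    have huj := hu0 j
    have huj0 : (u j).coeff 0 ≠ 0 := left_ne_zero_of_mul_eq_one huj
    have hsq : (η ^ 2).coeff 1 = 0 := by
      rw [pow_two, VX_.mul_coeff_one, hη]; ring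
    have hsq0 : (η ^ 2).coeff 0 = η.coeff 0 ^ 2 := by
      rw [pow_two, Polynomial.mul_coeff_zero, pow_two]
    have hcne : W.coeff 1 ≠ 0 := by
      intro h0
      have hli := hC.imm j.1
      rw [LinearIndependent.pair_iff] at hli
      have := hli ((u j).coeff 1) ((u j).coeff 0) (by
        funext l
        fin_cases l
        · have := VX_.coeff_one_of (hK j) (hu' j)
          rw [Polynomial.coeff_sub, VX_.mul_coeff_one, Polynomial.coeff_one] at this
          simp only [at0, vel, Pi.add_apply, Pi.smul_apply, smul_eq_mul, Pi.zero_apply]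
          simp at this ⊢
          linarith
        · have : (u j * γ j.1 1).coeff 1 = 0 := hη
          rw [VX_.mul_coeff_one] at this
          simp only [at0, vel, Pi.add_apply, Pi.smul_apply, smul_eq_mul, Pi.zero_apply]
          simp
          linarith
        · have : (u j * γ j.1 2).coeff 1 = 0 := h0
          rw [VX_.mul_coeff_one] at this
          simp only [at0, vel, Pi.add_apply, Pi.smul_apply, smul_eq_mul, Pi.zero_apply]
          simp
          linarith
        · have := VX_.coeff_one_of hi (hW j)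
          rw [Polynomial.coeff_sub, ← hηd, hsq, VX_.mul_coeff_one] at this
          simp only [at0, vel, Pi.add_apply, Pi.smul_apply, smul_eq_mul, Pi.zero_apply]
          simp
          linarith)
      exact huj0 this.2
    set q : Fin 4 → ℝ := ![1, η.coeff 0, W.coeff 0, η.coeff 0 ^ 2] with hq
    set p : Fin 4 → ℝ := W.coeff 1 • (Pi.single 2 1 : Fin 4 → ℝ) with hp
    have hli : LinearIndependent ℝ ![p, q] := by
      apply VX_.pair_li
      · intro l hl; simp [hp, hl]
      · simp [hp, hcne]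
      · simp [hq]
    have hpF : eval p F = 0 := by rw [hp, hom_smul hF, he0, mul_zero]
    apply (h2 4 F hF hP hfin p q hli).2.2 hpF
    have hβ : (Polynomial.X : U1) ^ (2 * 2) ∣ comp ![1, η, W, η ^ 2] F :=
      (pow_dvd_pow _ (by omega)).trans (hord j)
    have hδ : ∀ l, (Polynomial.X : U1) ^ 2 ∣
        ray q p l - (![1, η, W, η ^ 2] : Fin 4 → U1) l := by
      intro l
      rw [Polynomial.X_pow_dvd_iff]
      intro d hd
      have hd' : d = 0 ∨ d = 1 := by omega
      fin_cases l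
      · rcases hd' with rfl | rfl
        · simp [ray, hq, hp]
        · simp [ray, hq, hp]
      · rcases hd' with rfl | rfl
        · simp [ray, hq, hp]
        · simp [ray, hq, hp, hη]
      · rcases hd' with rfl | rfl
        · simp [ray, hq, hp]
        · simp [ray, hq, hp, Polynomial.coeff_C]
      · rcases hd' with rfl | rfl
        · have : ray q p 3 = Polynomial.C (η.coeff 0 ^ 2) := by
            simp [ray, hq, hp]
          show (ray q p 3 - η ^ 2).coeff 0 = 0
          rw [this, Polynomial.coeff_sub, hsq0, Polynomial.coeff_C_zero, sub_self]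
        · have : ray q p 3 = Polynomial.C (η.coeff 0 ^ 2) := by
            simp [ray, hq, hp]
          show (ray q p 3 - η ^ 2).coeff 1 = 0
          rw [this, Polynomial.coeff_sub, hsq, Polynomial.coeff_C_succ, sub_self]
    have := h4 4 F ![1, η, W, η ^ 2]
      (fun l => ray q p l - (![1, η, W, η ^ 2] : Fin 4 → U1) l) 2 hP hβ hδ
    have he : (fun l => (![1, η, W, η ^ 2] : Fin 4 → U1) l +
        (ray q p l - (![1, η, W, η ^ 2] : Fin 4 → U1) l)) = ray q p := by
      funext l; ring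
    rw [he] at this
    exact this
  have c7 : ∀ j : {j // j ≠ a₀}, (Polynomial.X : U1) ^ (2 * i j.1) ∣
      (u j * γ j.1 2) ^ 2 * a.comp (u j * γ j.1 1) +
        2 * (u j * γ j.1 2) * b.comp (u j * γ j.1 1) + c.comp (u j * γ j.1 1) := by
    intro j
    have e := hord j
    rw [VX_.comp_exp hE, VX_.comp_one A (u j * γ j.1 1), VX_.comp_one B (u j * γ j.1 1),
      VX_.comp_one D (u j * γ j.1 1)] at e
    exact e
  -- the base arc
  have hX : ∀ l : Fin 4, l ≠ 2 → ∃ ξ : U1, γ a₀ l = Polynomial.X * ξ := by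
    intro l hl
    have : (Polynomial.X : U1) ∣ γ a₀ l := by
      rw [Polynomial.X_dvd_iff]
      have := congrFun hr l
      simp only [at0, Pi.smul_apply, smul_eq_mul] at this
      rw [this]
      simp [hl]
    exact this
  obtain ⟨ξ₀, hξ₀⟩ := hX 0 (by decide)
  obtain ⟨ξ₁, hξ₁⟩ := hX 1 (by decide)
  obtain ⟨ξ₃, hξ₃⟩ := hX 3 (by decide)
  have hξ0 : ξ₀.coeff 0 ≠ 0 := by
    have : (γ a₀ 0).coeff 1 = ξ₀.coeff 0 := by
      rw [hξ₀, Polynomial.coeff_X_mul]
    rw [← this]; exact hv
  have hZ0 : (γ a₀ 2).coeff 0 = r := by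
    have := congrFun hr 2
    simpa [at0] using this
  obtain ⟨w, hw⟩ := exists_trunc_inv ξ₀ hξ0 (i a₀)
  have c8 : i a₀ - 2 = 0 ∨ (w * γ a₀ 2).coeff 0 ≠ 0 ∧ (Polynomial.X : U1) ^ (2 * (i a₀ - 2)) ∣
      (w * γ a₀ 2) ^ 2 * a.comp (w * ξ₁) + 2 * (w * γ a₀ 2) * Polynomial.X * b.comp (w * ξ₁) +
        Polynomial.X ^ 2 * c.comp (w * ξ₁) := by
    by_cases hi : i a₀ - 2 = 0
    · exact Or.inl hi
    right
    constructor
    · rw [Polynomial.mul_coeff_zero, hZ0]
      apply mul_ne_zero _ hr0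
      intro h0
      have := VX_.coeff_zero_of (by omega) hw
      rw [Polynomial.coeff_sub, Polynomial.mul_coeff_zero, Polynomial.coeff_one_zero, h0] at this
      linarith
    · obtain ⟨e, he⟩ : ∃ e, i a₀ = e + 2 := ⟨i a₀ - 2, by omega⟩
      have he2 : i a₀ - 2 = e := by omega
      rw [he2]
      -- `ξ₀ ξ₃ ≡ ξ₁²`
      have q1 : (Polynomial.X : U1) ^ e ∣ ξ₀ * ξ₃ - ξ₁ ^ 2 := by
        have := hC.ordQ a₀
        rw [VX_.comp_Qe, hξ₀, hξ₁, hξ₃, he, pow_add] at this
        have hx2 : (Polynomial.X : U1) ^ 2 ≠ 0 := pow_ne_zero _ Polynomial.X_ne_zero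
        apply (mul_dvd_mul_iff_right hx2).mp
        have e1 : (ξ₀ * ξ₃ - ξ₁ ^ 2) * Polynomial.X ^ 2 =
            Polynomial.X * ξ₀ * (Polynomial.X * ξ₃) - (Polynomial.X * ξ₁) ^ 2 := by ring
        rw [e1]
        exact this
      have q2 : (Polynomial.X : U1) ^ e ∣ (w * ξ₁) ^ 2 - w * ξ₃ := by
        have e1 : (w * ξ₁) ^ 2 - w * ξ₃ =
            (w * ξ₃) * (w * ξ₀ - 1) - w ^ 2 * (ξ₀ * ξ₃ - ξ₁ ^ 2) := by ring
        rw [e1]
        have e2 : (Polynomial.X : U1) ^ e ∣ w * ξ₀ - 1 :=
          (pow_dvd_pow _ (by omega)).trans hw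
        exact dvd_sub (e2.mul_left _) (q1.mul_left _)
      have q3 : (Polynomial.X : U1) ^ (2 * (e + 1)) ∣ comp (fun k => w * γ a₀ k) F := by
        rw [comp_smul_arc hF]
        exact ((pow_dvd_pow _ (by omega)).trans (hC.ordF a₀)).mul_left _
      have q4 := h4 4 F (fun k => w * γ a₀ k)
        ![Polynomial.X * (1 - w * ξ₀), 0, 0, Polynomial.X * ((w * ξ₁) ^ 2 - w * ξ₃)] (e + 1)
        hP q3 (by
          intro k
          fin_cases k
          · show (Polynomial.X : U1) ^ (e + 1) ∣ Polynomial.X * (1 - w * ξ₀)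
            rw [pow_succ']
            apply mul_dvd_mul_left
            have e3 := hw
            rw [← dvd_neg, neg_sub] at e3
            exact (pow_dvd_pow _ (by omega)).trans e3
          · exact dvd_zero _
          · exact dvd_zero _
          · show (Polynomial.X : U1) ^ (e + 1) ∣ Polynomial.X * ((w * ξ₁) ^ 2 - w * ξ₃)
            rw [pow_succ']
            exact mul_dvd_mul_left _ q2)
      have q5 : (fun k => w * γ a₀ k + (![Polynomial.X * (1 - w * ξ₀), 0, 0,
          Polynomial.X * ((w * ξ₁) ^ 2 - w * ξ₃)] : Fin 4 → U1) k) =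
          ![Polynomial.X * 1, Polynomial.X * (w * ξ₁), w * γ a₀ 2,
            Polynomial.X * (w * ξ₁) ^ 2] := by
        funext k
        fin_cases k
        · show w * γ a₀ 0 + Polynomial.X * (1 - w * ξ₀) = Polynomial.X * 1
          rw [hξ₀]; ring
        · show w * γ a₀ 1 + 0 = Polynomial.X * (w * ξ₁)
          rw [hξ₁]; ring
        · show w * γ a₀ 2 + 0 = w * γ a₀ 2
          ring
        · show w * γ a₀ 3 + Polynomial.X * ((w * ξ₁) ^ 2 - w * ξ₃) = Polynomial.X * (w * ξ₁) ^ 2
          rw [hξ₃]; ring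
      rw [q5, VX_.comp_exp hE] at q4
      have q6 : (![Polynomial.X * 1, Polynomial.X * (w * ξ₁), Polynomial.X * (w * ξ₁) ^ 2] :
          Fin 3 → U1) = fun l => Polynomial.X * (![1, w * ξ₁, (w * ξ₁) ^ 2] : Fin 3 → U1) l := by
        funext l
        fin_cases l <;> rfl
      rw [q6, comp_smul_arc hE.1, comp_smul_arc hE.2.1, comp_smul_arc hE.2.2.1,
        VX_.comp_one A, VX_.comp_one B, VX_.comp_one D, ← ha, ← hb, ← hc] at q4
      have hx2 : (Polynomial.X : U1) ^ 2 ≠ 0 := pow_ne_zero _ Polynomial.X_ne_zero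
      apply (mul_dvd_mul_iff_right hx2).mp
      have q7 : (Polynomial.X : U1) ^ (2 * e) * Polynomial.X ^ 2 =
          Polynomial.X ^ (2 * (e + 1)) := by
        rw [← pow_add]; congr 1
      have q8 : ((w * γ a₀ 2) ^ 2 * a.comp (w * ξ₁) +
          2 * (w * γ a₀ 2) * Polynomial.X * b.comp (w * ξ₁) +
          Polynomial.X ^ 2 * c.comp (w * ξ₁)) * Polynomial.X ^ 2 =
          (w * γ a₀ 2) ^ 2 * (Polynomial.X ^ 2 * a.comp (w * ξ₁)) +
            2 * (w * γ a₀ 2) * (Polynomial.X ^ 3 * b.comp (w * ξ₁)) +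
            Polynomial.X ^ 4 * c.comp (w * ξ₁) := by
        ring
      rw [q7, q8]
      exact q4
  have hsum := h3 {j // j ≠ a₀} a b c 6 (fun j => u j * γ j.1 2) (fun j => u j * γ j.1 1)
    (fun j => i j.1) (w * γ a₀ 2) (w * ξ₁) (i a₀ - 2) c1 c2 c3 c4 c5 c6 c7 c8
  rw [Fintype.sum_eq_add_sum_subtype_ne i a₀]
  have := hC.one_le a₀
  omega

end Pool.Agent.SBQ
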