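import Pool.Agent.SBQ.StmtsB

/-!
# SBQ, module XP: expansion of a nonnegative quartic form at a zero
-/

namespace Pool.Agent.SBQ

open MvPolynomial (eval aeval C)

namespace XP_

theorem cubic_lead (c a b d : ℝ) (h : ∀ w : ℝ, 0 ≤ w ^ 3 * c + w ^ 2 * a + w * b + d) : c = 0 := by
  by_contra hc
  have hc' : 0 < |c| := abs_pos.mpr hc
  set S : ℝ := |a| + |b| + |d| with hS
  have hS0 : 0 ≤ S := by positivity
  set t : ℝ := 1 + S / |c| with ht
  have ht1 : 1 ≤ t := by
    have : 0 ≤ S / |c| := by positivity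
    linarith
  have hct : |c| * t = |c| + S := by
    rw [ht, mul_add, mul_one, mul_div_cancel₀ _ hc'.ne']
  have ht2 : t ≤ t ^ 2 := by nlinarith
  have ht3 : 1 ≤ t ^ 2 := by nlinarith
  have hkey : S * t ^ 2 < |c| * t ^ 3 := by
    have : |c| * t ^ 3 = (|c| + S) * t ^ 2 := by rw [← hct]; ring
    rw [this]
    nlinarith
  have hb1 : |b| * t ≤ |b| * t ^ 2 := mul_le_mul_of_nonneg_left ht2 (abs_nonneg _)
  have hd1 : |d| * 1 ≤ |d| * t ^ 2 := mul_le_mul_of_nonneg_left ht3 (abs_nonneg _)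
  have hsum : |a| * t ^ 2 + |b| * t + |d| ≤ S * t ^ 2 := by
    rw [hS]; nlinarith
  rcases lt_or_gt_of_ne hc with hneg | hpos
  · have h1 := h t
    have e1 : |c| = -c := abs_of_neg hneg
    rw [e1] at hkey
    have e2 : t ^ 2 * a ≤ |a| * t ^ 2 := by
      nlinarith [le_abs_self a, sq_nonneg t]
    have e3 : t * b ≤ |b| * t := by nlinarith [le_abs_self b]
    have e4 : d ≤ |d| := le_abs_self d
    nlinarith
  · have h1 := h (-t)
    have e1 : |c| = c := abs_of_pos hpos
    rw [e1] at hkey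
    have e2 : t ^ 2 * a ≤ |a| * t ^ 2 := by
      nlinarith [le_abs_self a, sq_nonneg t]
    have e3 : (-t) * b ≤ |b| * t := by nlinarith [neg_abs_le b]
    have e4 : d ≤ |d| := le_abs_self d
    nlinarith

theorem hom_zero {n : ℕ} {P : MvPolynomial (Fin n) ℝ} {d : ℕ} (hP : P.IsHomogeneous d)
    (hd : d ≠ 0) : eval (0 : Fin n → ℝ) P = 0 := by
  have := hom_smul hP 0 0
  rw [zero_smul, zero_pow hd, zero_mul] at this
  exact this

end XP_

theorem xp_proof : Stmt_XP := by
  intro n F hF hpsd h0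
  set p : Polynomial (MvPolynomial (Fin n) ℝ) := MvPolynomial.finSuccEquiv ℝ n F with hp
  have hhom : ∀ i j : ℕ, i + j = 4 → (p.coeff i).IsHomogeneous j := fun i j h =>
    hF.finSuccEquiv_coeff_isHomogeneous i j h
  have hdeg : p.natDegree < 5 := by
    rw [hp, MvPolynomial.natDegree_finSuccEquiv]
    have h1 := MvPolynomial.degreeOf_le_totalDegree F 0
    have h2 := hF.totalDegree_le
    omega
  have hev : ∀ (w : ℝ) (v : Fin n → ℝ), eval (Fin.cons w v : Fin (n + 1) → ℝ) F =
      eval v (p.coeff 0) + eval v (p.coeff 1) * w + eval v (p.coeff 2) * w ^ 2 +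
        eval v (p.coeff 3) * w ^ 3 + eval v (p.coeff 4) * w ^ 4 := by
    intro w v
    rw [MvPolynomial.eval_eq_eval_mv_eval',
      Polynomial.eval_eq_sum_range' (lt_of_le_of_lt (Polynomial.natDegree_map_le) hdeg)]
    simp only [Finset.sum_range_succ, Finset.sum_range_zero, Polynomial.coeff_map]
    simp
  have h4 : ∀ v, eval v (p.coeff 4) = 0 := by
    have hz : eval (0 : Fin n → ℝ) (p.coeff 4) = 0 := by
      have e0 : (Pi.single 0 1 : Fin (n + 1) → ℝ) = Fin.cons 1 0 := by
        funext j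
        refine Fin.cases ?_ (fun j => ?_) j
        · simp
        · simp
      rw [e0, hev, XP_.hom_zero (hhom 0 4 rfl) (by norm_num),
        XP_.hom_zero (hhom 1 3 rfl) (by norm_num), XP_.hom_zero (hhom 2 2 rfl) (by norm_num),
        XP_.hom_zero (hhom 3 1 rfl) (by norm_num)] at h0
      linarith
    intro v
    have := hom_smul (hhom 4 0 rfl) 0 v
    rw [zero_smul, pow_zero, one_mul, hz] at this
    exact this.symm
  have h3 : ∀ v, eval v (p.coeff 3) = 0 := by
    intro v
    apply XP_.cubic_lead _ (eval v (p.coeff 2)) (eval v (p.coeff 1)) (eval v (p.coeff 0))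
    intro w
    have := hpsd (Fin.cons w v)
    rw [hev, h4] at this
    linarith
  refine ⟨p.coeff 2, C (1 / 2) * p.coeff 1, p.coeff 0, hhom 2 2 rfl, ?_, hhom 0 4 rfl, ?_⟩
  · have := (MvPolynomial.isHomogeneous_C (Fin n) (1 / 2 : ℝ)).mul (hhom 1 3 rfl)
    rwa [zero_add] at this
  · intro w v
    rw [hev, h4, h3, map_mul, MvPolynomial.eval_C]
    ring

end Pool.Agent.SBQ
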