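import Pool.Agent.SBQ.AllA
import Pool.Agent.SBQ.AC
import Pool.Agent.SBQ.BF
import Pool.Agent.SBQ.CA
import Pool.Agent.SBQ.CB
import Pool.Agent.SBQ.CL
import Pool.Agent.SBQ.CO
import Pool.Agent.SBQ.CT
import Pool.Agent.SBQ.DQ
import Pool.Agent.SBQ.EL
import Pool.Agent.SBQ.FN
import Pool.Agent.SBQ.FU
import Pool.Agent.SBQ.FZ
import Pool.Agent.SBQ.H1
import Pool.Agent.SBQ.H2
import Pool.Agent.SBQ.HF
import Pool.Agent.SBQ.HL
import Pool.Agent.SBQ.HS
import Pool.Agent.SBQ.K1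
import Pool.Agent.SBQ.K2
import Pool.Agent.SBQ.KB
import Pool.Agent.SBQ.KC
import Pool.Agent.SBQ.KD
import Pool.Agent.SBQ.KF
import Pool.Agent.SBQ.KI
import Pool.Agent.SBQ.KL
import Pool.Agent.SBQ.KM
import Pool.Agent.SBQ.KP
import Pool.Agent.SBQ.KX
import Pool.Agent.SBQ.LD
import Pool.Agent.SBQ.LG
import Pool.Agent.SBQ.LL
import Pool.Agent.SBQ.LN
import Pool.Agent.SBQ.LP
import Pool.Agent.SBQ.LS
import Pool.Agent.SBQ.MM
import Pool.Agent.SBQ.MN
import Pool.Agent.SBQ.NA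
import Pool.Agent.SBQ.NB
import Pool.Agent.SBQ.NQ
import Pool.Agent.SBQ.NZ
import Pool.Agent.SBQ.PL
import Pool.Agent.SBQ.PP
import Pool.Agent.SBQ.PQ
import Pool.Agent.SBQ.QC
import Pool.Agent.SBQ.QN
import Pool.Agent.SBQ.QX
import Pool.Agent.SBQ.R1
import Pool.Agent.SBQ.R2
import Pool.Agent.SBQ.RA
import Pool.Agent.SBQ.RB
import Pool.Agent.SBQ.RC
import Pool.Agent.SBQ.RK
import Pool.Agent.SBQ.VX
import Pool.Agent.SBQ.XP

/-!
# SBQ: assembly of part B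
-/

namespace Pool.Agent.SBQ

theorem tFN : Stmt_FN := fn_proof
theorem tCA : Stmt_CA := ca_proof
theorem tCB : Stmt_CB := cb_proof
theorem tCL : Stmt_CL := cl_proof tCA tCB
theorem tXP : Stmt_XP := xp_proof
theorem tHF : Stmt_HF := hf_proof
theorem tLD : Stmt_LD := ld_proof tHF
theorem tH2 : Stmt_H2 := h2_proof tXP tLD tCL
theorem tH1 : Stmt_H1 := h1_proof tXP tLD
theorem tHL : Stmt_HL := hl_proof tH1 tH2
theorem tR1 : Stmt_R1 := r1_proof tHL tLD
theorem tR2 : Stmt_R2 := r2_proof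
theorem tRK : Stmt_RK := rk_proof tXP tR1 tR2
theorem tK1 : Stmt_K1 := k1_proof tXP tLD tCL
theorem tK2 : Stmt_K2 := k2_proof
theorem tKL : Stmt_KL := kl_proof tRK tK1 tK2
theorem tRA : Stmt_RA := ra_proof
theorem tRB : Stmt_RB := rb_proof
theorem tRC : Stmt_RC := rc_proof tRA tRB tHF
theorem tKD : Stmt_KD := kd_proof tRA tHF
theorem tKB : Stmt_KB := kb_proof
theorem tKM : Stmt_KM := km_proof tFN
theorem tKX : Stmt_KX := kx_proof tKM
theorem tKP : Stmt_KP := kp_proof tKD tKB tRC tHF tKX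
theorem tEL : Stmt_EL := el_proof
theorem tBF : Stmt_BF := bf_proof tEL
theorem tKI : Stmt_KI := ki_proof tBF tHF
theorem tNQ : Stmt_NQ := nq_proof
theorem tNZ : Stmt_NZ := nz_proof tXP tR1 tNQ
theorem tAC : Stmt_AC := ac_proof
theorem tLP : Stmt_LP := lp_proof
theorem tKC : Stmt_KC := kc_proof
theorem tKF : Stmt_KF := kf_proof tKL tKD tKI tKP tNZ tAC tLP tKC
theorem tLS : Stmt_LS := ls_proof
theorem tLG : Stmt_LG := lg_proof
theorem tLL : Stmt_LL := ll_proof tNZ tLP tLS tLG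
theorem tDQ : Stmt_DQ := dq_proof
theorem tQC : Stmt_QC := qc_proof
theorem tQX : Stmt_QX := qx_proof tLL tDQ tQC tAX
theorem tCO : Stmt_CO := co_proof
theorem tLN : Stmt_LN := ln_proof
theorem tPP : Stmt_PP := pp_proof tXP tLN tCO tT2
theorem tPQ : Stmt_PQ := pq_proof tPP
theorem tPL : Stmt_PL := pl_proof tPQ tT2
theorem tQN : Stmt_QN := qn_proof tPL
theorem tNA : Stmt_NA := na_proof
theorem tFZ : Stmt_FZ := fz_proof
theorem tNB : Stmt_NB := nb_proof tFZ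
theorem tVX : Stmt_VX := vx_proof tXP tLN tCO tT2
theorem tCT : Stmt_CT := ct_proof tT2
theorem tHS : Stmt_HS := hs_proof tT2
theorem tFU : Stmt_FU := fu_proof tPA
theorem tMN : Stmt_MN := mn_proof tTW tCT tHS tFZ tFU
theorem tMM : Stmt_MM := mm_proof tKF tRK tQX tQN tNA tNB tVX tMN

end Pool.Agent.SBQ
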