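import Pool.Agent.SBQ.Defs

/-!
# SBQ: base lemmas
-/

namespace Pool.Agent.SBQ

open MvPolynomial (eval aeval C)

/-! ### composition with arcs -/

theorem eval_comp {n : ℕ} (γ : Fin n → U1) (F : MvPolynomial (Fin n) ℝ) (t : ℝ) :
    (comp γ F).eval t = eval (fun j => (γ j).eval t) F := by
  have h : (Polynomial.aeval t).comp (aeval γ : MvPolynomial (Fin n) ℝ →ₐ[ℝ] U1) =
      (aeval (fun j => (γ j).eval t) : MvPolynomial (Fin n) ℝ →ₐ[ℝ] ℝ) := by
    apply MvPolynomial.algHom_ext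
    intro i
    simp [Polynomial.aeval_def, Polynomial.eval₂_eq_eval_map]
  have h2 := DFunLike.congr_fun h F
  simp only [AlgHom.comp_apply] at h2
  rw [MvPolynomial.aeval_eq_eval] at h2
  rw [← h2]
  simp [comp, Polynomial.aeval_def, Polynomial.eval₂_eq_eval_map]

theorem comp_add {n : ℕ} (γ : Fin n → U1) (F G : MvPolynomial (Fin n) ℝ) :
    comp γ (F + G) = comp γ F + comp γ G := by simp [comp]
theorem comp_sub {n : ℕ} (γ : Fin n → U1) (F G : MvPolynomial (Fin n) ℝ) :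
    comp γ (F - G) = comp γ F - comp γ G := by simp [comp]
theorem comp_mul {n : ℕ} (γ : Fin n → U1) (F G : MvPolynomial (Fin n) ℝ) :
    comp γ (F * G) = comp γ F * comp γ G := by simp [comp]
theorem comp_pow {n : ℕ} (γ : Fin n → U1) (F : MvPolynomial (Fin n) ℝ) (k : ℕ) :
    comp γ (F ^ k) = comp γ F ^ k := by simp [comp]
theorem comp_C {n : ℕ} (γ : Fin n → U1) (a : ℝ) :
    comp γ (C a) = Polynomial.C a := by simp [comp, MvPolynomial.aeval_C]
theorem comp_X {n : ℕ} (γ : Fin n → U1) (j : Fin n) :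
    comp γ (MvPolynomial.X j) = γ j := by simp [comp]

theorem comp_coeff_zero {n : ℕ} (γ : Fin n → U1) (F : MvPolynomial (Fin n) ℝ) :
    (comp γ F).coeff 0 = eval (at0 γ) F := by
  rw [Polynomial.coeff_zero_eq_eval_zero, eval_comp]
  have : (fun j => (γ j).eval 0) = at0 γ := by
    funext j
    simp [at0, Polynomial.coeff_zero_eq_eval_zero]
  rw [this]

/-! ### pull back -/

theorem eval_pull {m n : ℕ} (L : (Fin n → ℝ) →ₗ[ℝ] (Fin m → ℝ)) (F : MvPolynomial (Fin m) ℝ)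
    (v : Fin n → ℝ) : eval v (pull L F) = eval (L v) F := by
  have hL : ∀ i, L v i = ∑ j, L (Pi.single j 1) i * v j := by
    intro i
    have hv : v = ∑ j, v j • (Pi.single j (1 : ℝ) : Fin n → ℝ) := by
      funext k
      simp [Finset.sum_apply, Pi.single_apply]
    conv_lhs => rw [hv]
    rw [map_sum]
    simp only [map_smul, Finset.sum_apply, Pi.smul_apply, smul_eq_mul]
    exact Finset.sum_congr rfl fun j _ => mul_comm _ _
  have h : (aeval v : MvPolynomial (Fin n) ℝ →ₐ[ℝ] ℝ).comp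
      (aeval (fun i => ∑ j, C (L (Pi.single j 1) i) * MvPolynomial.X j) :
        MvPolynomial (Fin m) ℝ →ₐ[ℝ] MvPolynomial (Fin n) ℝ) =
      (aeval (L v) : MvPolynomial (Fin m) ℝ →ₐ[ℝ] ℝ) := by
    apply MvPolynomial.algHom_ext
    intro i
    simp [hL i]
  have h2 := DFunLike.congr_fun h F
  simp only [AlgHom.comp_apply, MvPolynomial.aeval_eq_eval] at h2
  exact h2

theorem pull_hom {m n : ℕ} (L : (Fin n → ℝ) →ₗ[ℝ] (Fin m → ℝ)) {F : MvPolynomial (Fin m) ℝ}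
    {d : ℕ} (hF : F.IsHomogeneous d) : (pull L F).IsHomogeneous d := by
  have h := hF.aeval (fun i => ∑ j, C (L (Pi.single j 1) i) * MvPolynomial.X j)
    (n := 1) (fun i => MvPolynomial.IsHomogeneous.sum _ _ _ fun j _ =>
      MvPolynomial.isHomogeneous_C_mul_X _ _)
  rw [one_mul] at h
  exact h

theorem pull_add {m n : ℕ} (L : (Fin n → ℝ) →ₗ[ℝ] (Fin m → ℝ)) (F G : MvPolynomial (Fin m) ℝ) :
    pull L (F + G) = pull L F + pull L G := by simp [pull]
theorem pull_mul {m n : ℕ} (L : (Fin n → ℝ) →ₗ[ℝ] (Fin m → ℝ)) (F G : MvPolynomial (Fin m) ℝ) :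
    pull L (F * G) = pull L F * pull L G := by simp [pull]
theorem pull_pow {m n : ℕ} (L : (Fin n → ℝ) →ₗ[ℝ] (Fin m → ℝ)) (F : MvPolynomial (Fin m) ℝ)
    (k : ℕ) : pull L (F ^ k) = pull L F ^ k := by simp [pull]
theorem pull_sum {m n : ℕ} (L : (Fin n → ℝ) →ₗ[ℝ] (Fin m → ℝ)) {ι : Type*} (s : Finset ι)
    (F : ι → MvPolynomial (Fin m) ℝ) :
    pull L (∑ a ∈ s, F a) = ∑ a ∈ s, pull L (F a) := by simp [pull]

theorem comp_pull {m n : ℕ} (L : (Fin n → ℝ) →ₗ[ℝ] (Fin m → ℝ)) (F : MvPolynomial (Fin m) ℝ)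
    (γ : Fin n → U1) : comp γ (pull L F) = comp (mapArc L γ) F := by
  have h : (aeval γ : MvPolynomial (Fin n) ℝ →ₐ[ℝ] U1).comp
      (aeval (fun i => ∑ j, C (L (Pi.single j 1) i) * MvPolynomial.X j) :
        MvPolynomial (Fin m) ℝ →ₐ[ℝ] MvPolynomial (Fin n) ℝ) =
      (aeval (mapArc L γ) : MvPolynomial (Fin m) ℝ →ₐ[ℝ] U1) := by
    apply MvPolynomial.algHom_ext
    intro i
    simp [mapArc]
  exact DFunLike.congr_fun h F

theorem lin_apply {m n : ℕ} (L : (Fin n → ℝ) →ₗ[ℝ] (Fin m → ℝ)) (v : Fin n → ℝ) (i : Fin m) :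
    L v i = ∑ j, L (Pi.single j 1) i * v j := by
  have hv : v = ∑ j, v j • (Pi.single j (1 : ℝ) : Fin n → ℝ) := by
    funext k
    simp [Finset.sum_apply, Pi.single_apply]
  conv_lhs => rw [hv]
  rw [map_sum]
  simp only [map_smul, Finset.sum_apply, Pi.smul_apply, smul_eq_mul]
  exact Finset.sum_congr rfl fun j _ => mul_comm _ _

theorem at0_mapArc {m n : ℕ} (L : (Fin n → ℝ) →ₗ[ℝ] (Fin m → ℝ)) (γ : Fin n → U1) :
    at0 (mapArc L γ) = L (at0 γ) := by
  funext i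
  rw [lin_apply]
  simp [at0, mapArc, Polynomial.coeff_C_mul]

theorem vel_mapArc {m n : ℕ} (L : (Fin n → ℝ) →ₗ[ℝ] (Fin m → ℝ)) (γ : Fin n → U1) :
    vel (mapArc L γ) = L (vel γ) := by
  funext i
  rw [lin_apply]
  simp [vel, mapArc, Polynomial.coeff_C_mul]

theorem mapArc_eval {m n : ℕ} (L : (Fin n → ℝ) →ₗ[ℝ] (Fin m → ℝ)) (γ : Fin n → U1) (t : ℝ) :
    (fun i => (mapArc L γ i).eval t) = L (fun j => (γ j).eval t) := by
  funext i
  rw [lin_apply]
  simp [mapArc, Polynomial.eval_finsetSum]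

theorem Psd.pull {m n : ℕ} (L : (Fin n → ℝ) →ₗ[ℝ] (Fin m → ℝ)) {F : MvPolynomial (Fin m) ℝ}
    (hF : Psd F) : Psd (pull L F) := fun v => by
  rw [eval_pull]; exact hF _

theorem pull_pull {l m n : ℕ} (L : (Fin n → ℝ) →ₗ[ℝ] (Fin m → ℝ))
    (K : (Fin m → ℝ) →ₗ[ℝ] (Fin l → ℝ)) (F : MvPolynomial (Fin l) ℝ) :
    SBQ.pull L (SBQ.pull K F) = SBQ.pull (K.comp L) F := by
  apply MvPolynomial.funext
  intro v
  simp [eval_pull]

theorem pull_id {n : ℕ} (F : MvPolynomial (Fin n) ℝ) :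
    SBQ.pull LinearMap.id F = F := by
  apply MvPolynomial.funext
  intro v
  simp [eval_pull]

theorem Rig.pull {F : P4} (hF : Rig F) (T : (Fin 4 → ℝ) ≃ₗ[ℝ] (Fin 4 → ℝ)) :
    Rig (SBQ.pull (T : (Fin 4 → ℝ) →ₗ[ℝ] (Fin 4 → ℝ)) F) := by
  refine ⟨pull_hom _ hF.1, Psd.pull _ hF.2.1, ?_, fun G hG h => ?_⟩
  · intro h0
    apply hF.2.2.1
    apply MvPolynomial.funext
    intro v
    have := congrArg (eval (T.symm v)) h0
    simpa [eval_pull] using this
  have h1 : SBQ.pull (T.symm : (Fin 4 → ℝ) →ₗ[ℝ] (Fin 4 → ℝ)) G = 0 := by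
    apply hF.2.2.2 _ (pull_hom _ hG)
    intro v
    have := h (T.symm v)
    rw [eval_pull] at this
    simpa [eval_pull] using this
  have h2 : SBQ.pull (T : (Fin 4 → ℝ) →ₗ[ℝ] (Fin 4 → ℝ))
      (SBQ.pull (T.symm : (Fin 4 → ℝ) →ₗ[ℝ] (Fin 4 → ℝ)) G) = G := by
    rw [pull_pull]
    have : (T.symm : (Fin 4 → ℝ) →ₗ[ℝ] (Fin 4 → ℝ)).comp (T : (Fin 4 → ℝ) →ₗ[ℝ] (Fin 4 → ℝ)) =
        LinearMap.id := by
      ext v; simp
    rw [this, pull_id]
  rw [← h2, h1]
  simp [SBQ.pull]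

/-- homogeneity on the level of values -/
theorem hom_smul {n d : ℕ} {F : MvPolynomial (Fin n) ℝ} (hF : F.IsHomogeneous d) (s : ℝ)
    (v : Fin n → ℝ) : eval (s • v) F = s ^ d * eval v F := by
  rw [MvPolynomial.eval_eq', MvPolynomial.eval_eq', Finset.mul_sum]
  apply Finset.sum_congr rfl
  intro m hm
  have hdeg : m.degree = d := by
    by_contra hne
    exact (MvPolynomial.mem_support_iff.mp hm) (hF.coeff_eq_zero hne)
  have : ∏ i, (s • v) i ^ m i = s ^ d * ∏ i, v i ^ m i := by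
    simp only [Pi.smul_apply, smul_eq_mul, mul_pow, Finset.prod_mul_distrib]
    congr 1
    rw [Finset.prod_pow_eq_pow_sum]
    congr 1
    rw [← hdeg, Finsupp.degree_eq_sum]
  rw [this]; ring

/-! ### the plane chart -/

theorem eval_chart (ε : ℝ) (F : P4) (v : Fin 2 → ℝ) :
    eval v (chart ε F) = eval ![1, v 0, v 1, v 0 ^ 2 + ε * v 1 ^ 2] F := by
  have h : (aeval v : R2 →ₐ[ℝ] ℝ).comp (chart ε) =
      (aeval ![1, v 0, v 1, v 0 ^ 2 + ε * v 1 ^ 2] : P4 →ₐ[ℝ] ℝ) := by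
    apply MvPolynomial.algHom_ext
    intro i
    fin_cases i <;> simp [chart, Mq]
  have h2 := DFunLike.congr_fun h F
  simp only [AlgHom.comp_apply, MvPolynomial.aeval_eq_eval] at h2
  exact h2

theorem comp_chart (ε : ℝ) (F : P4) (γ : Fin 2 → U1) :
    comp γ (chart ε F) =
      comp ![1, γ 0, γ 1, γ 0 ^ 2 + Polynomial.C ε * γ 1 ^ 2] F := by
  have h : (aeval γ : R2 →ₐ[ℝ] U1).comp (chart ε) =
      (aeval ![1, γ 0, γ 1, γ 0 ^ 2 + Polynomial.C ε * γ 1 ^ 2] : P4 →ₐ[ℝ] U1) := by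
    apply MvPolynomial.algHom_ext
    intro i
    fin_cases i <;> simp [chart, Mq]
  exact DFunLike.congr_fun h F

theorem mem_Iw (γ : Fin 2 → U1) (i m : ℕ) (h : R2) :
    h ∈ Iw γ i m ↔ (Polynomial.X : Polynomial U1) ^ m ∣ Phi γ i h := by
  simp [Iw, Ideal.mem_comap, Ideal.mem_span_singleton]

theorem Iw_mono (γ : Fin 2 → U1) (i : ℕ) {m m' : ℕ} (hm : m ≤ m') : Iw γ i m' ≤ Iw γ i m := by
  intro h hh
  rw [mem_Iw] at hh ⊢
  exact (pow_dvd_pow _ hm).trans hh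

theorem Iw_mul (γ : Fin 2 → U1) (i : ℕ) {m m' : ℕ} {h h' : R2} (hh : h ∈ Iw γ i m)
    (hh' : h' ∈ Iw γ i m') : h * h' ∈ Iw γ i (m + m') := by
  rw [mem_Iw] at hh hh' ⊢
  rw [map_mul, pow_add]
  exact mul_dvd_mul hh hh'

/-! ### orders of univariate polynomials from inequalities -/

/-- a polynomial which is `O(t ^ m)` at `0` is divisible by `X ^ m` -/
theorem dvd_of_bound (a : U1) (m : ℕ) (K δ : ℝ) (hδ : 0 < δ)
    (h : ∀ t : ℝ, 0 < t → t < δ → |a.eval t| ≤ K * t ^ m) : (Polynomial.X : U1) ^ m ∣ a := by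
  rw [Polynomial.X_pow_dvd_iff]
  intro d
  induction d using Nat.strong_induction_on with
  | _ d ih =>
    intro hd
    have hdvd : (Polynomial.X : U1) ^ d ∣ a :=
      (Polynomial.X_pow_dvd_iff).mpr fun e he => ih e he (he.trans hd)
    obtain ⟨b, hb⟩ := hdvd
    have hcoef : a.coeff d = b.eval 0 := by
      rw [hb, Polynomial.coeff_X_pow_mul', if_pos le_rfl, Nat.sub_self,
        Polynomial.coeff_zero_eq_eval_zero]
    rw [hcoef]
    have hb2 : ∀ t : ℝ, 0 < t → t < δ → |b.eval t| ≤ K * t ^ (m - d) := by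
      intro t ht htd
      have h1 := h t ht htd
      rw [hb] at h1
      simp only [Polynomial.eval_mul, Polynomial.eval_pow, Polynomial.eval_X, abs_mul, abs_pow,
        abs_of_pos ht] at h1
      have h2 : t ^ m = t ^ d * t ^ (m - d) := by rw [← pow_add]; congr 1; omega
      rw [h2] at h1
      have h3 : (0 : ℝ) < t ^ d := pow_pos ht d
      have : t ^ d * |b.eval t| ≤ t ^ d * (K * t ^ (m - d)) := by linarith
      exact le_of_mul_le_mul_left this h3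
    have hlim1 : Filter.Tendsto (fun t : ℝ => |b.eval t|) (nhdsWithin 0 (Set.Ioi 0))
        (nhds |b.eval 0|) :=
      ((b.continuous.abs).tendsto 0).mono_left nhdsWithin_le_nhds
    have hlim2 : Filter.Tendsto (fun t : ℝ => K * t ^ (m - d)) (nhdsWithin 0 (Set.Ioi 0))
        (nhds (K * 0 ^ (m - d))) := by
      apply Filter.Tendsto.mono_left _ nhdsWithin_le_nhds
      exact (continuous_const.mul (continuous_pow _)).tendsto 0
    have hle := le_of_tendsto_of_tendsto hlim1 hlim2 (by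
      filter_upwards [Ioo_mem_nhdsGT hδ] with t ht
      exact hb2 t ht.1 ht.2)
    have h0 : (0 : ℝ) ^ (m - d) = 0 := zero_pow (by omega)
    rw [h0, mul_zero] at hle
    exact abs_eq_zero.mp (le_antisymm hle (abs_nonneg _))

/-- conversely -/
theorem bound_of_dvd (a : U1) (m : ℕ) (h : (Polynomial.X : U1) ^ m ∣ a) :
    ∃ K : ℝ, 0 ≤ K ∧ ∀ t : ℝ, |t| ≤ 1 → |a.eval t| ≤ K * |t| ^ m := by
  obtain ⟨b, rfl⟩ := h
  obtain ⟨K, hK⟩ := (isCompact_Icc (a := (-1 : ℝ)) (b := 1)).exists_bound_of_continuousOn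
    (b.continuous.continuousOn)
  refine ⟨max K 0, le_max_right _ _, fun t ht => ?_⟩
  rw [Polynomial.eval_mul, Polynomial.eval_pow, Polynomial.eval_X, abs_mul, abs_pow, mul_comm]
  apply mul_le_mul_of_nonneg_right _ (pow_nonneg (abs_nonneg t) m)
  have := hK t (by rw [Set.mem_Icc]; exact abs_le.mp ht)
  rw [Real.norm_eq_abs] at this
  exact this.trans (le_max_left _ _)

/-- `a² ≤ K b` near `0+` and `t ^ (2 m) ∣ b` imply `t ^ m ∣ a` -/
theorem dvd_of_sq_le (a b : U1) (m : ℕ) (K δ : ℝ) (hδ : 0 < δ)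
    (h : ∀ t : ℝ, 0 < t → t < δ → (a.eval t) ^ 2 ≤ K * b.eval t)
    (hb : (Polynomial.X : U1) ^ (2 * m) ∣ b) : (Polynomial.X : U1) ^ m ∣ a := by
  obtain ⟨K', hK', hb'⟩ := bound_of_dvd b _ hb
  apply dvd_of_bound a m (Real.sqrt (|K| * K')) (min δ 1) (by positivity)
  intro t ht ht2
  have h1 := h t ht (lt_of_lt_of_le ht2 (min_le_left _ _))
  have ht1 : t ≤ 1 := (lt_of_lt_of_le ht2 (min_le_right _ _)).le
  have h2 := hb' t (by rw [abs_of_pos ht]; exact ht1)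
  rw [abs_of_pos ht] at h2
  have h3 : (a.eval t) ^ 2 ≤ |K| * K' * (t ^ m) ^ 2 := by
    calc (a.eval t) ^ 2 ≤ K * b.eval t := h1
      _ ≤ |K * b.eval t| := le_abs_self _
      _ = |K| * |b.eval t| := abs_mul _ _
      _ ≤ |K| * (K' * t ^ (2 * m)) := by
          exact mul_le_mul_of_nonneg_left h2 (abs_nonneg _)
      _ = |K| * K' * (t ^ m) ^ 2 := by ring
  have h4 : |a.eval t| ≤ Real.sqrt (|K| * K' * (t ^ m) ^ 2) := Real.abs_le_sqrt h3
  rwa [Real.sqrt_mul (by positivity), Real.sqrt_sq (by positivity)] at h4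

/-- `0 ≤ a ≤ K b` near `0+` and `t ^ m ∣ b` imply `t ^ m ∣ a` -/
theorem dvd_of_le (a b : U1) (m : ℕ) (K δ : ℝ) (hδ : 0 < δ)
    (h : ∀ t : ℝ, 0 < t → t < δ → 0 ≤ a.eval t ∧ a.eval t ≤ K * b.eval t)
    (hb : (Polynomial.X : U1) ^ m ∣ b) : (Polynomial.X : U1) ^ m ∣ a := by
  obtain ⟨K', hK', hb'⟩ := bound_of_dvd b _ hb
  apply dvd_of_bound a m (|K| * K') (min δ 1) (by positivity)
  intro t ht ht2
  have h1 := h t ht (lt_of_lt_of_le ht2 (min_le_left _ _))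
  have ht1 : t ≤ 1 := (lt_of_lt_of_le ht2 (min_le_right _ _)).le
  have h2 := hb' t (by rw [abs_of_pos ht]; exact ht1)
  rw [abs_of_pos ht] at h2
  rw [abs_of_nonneg h1.1]
  calc a.eval t ≤ K * b.eval t := h1.2
    _ ≤ |K * b.eval t| := le_abs_self _
    _ = |K| * |b.eval t| := abs_mul _ _
    _ ≤ |K| * (K' * t ^ m) := mul_le_mul_of_nonneg_left h2 (abs_nonneg _)
    _ = |K| * K' * t ^ m := by ring

/-- an even order for nonnegative polynomials: `a ≥ 0` on `(-δ, δ)` and `t ^ (2 m + 1) ∣ a`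
imply `t ^ (2 m + 2) ∣ a` -/
theorem even_order (a : U1) (m : ℕ) (δ : ℝ) (hδ : 0 < δ)
    (h : ∀ t : ℝ, |t| < δ → 0 ≤ a.eval t) (ha : (Polynomial.X : U1) ^ (2 * m + 1) ∣ a) :
    (Polynomial.X : U1) ^ (2 * m + 2) ∣ a := by
  obtain ⟨b, rfl⟩ := ha
  have hb0 : b.eval 0 = 0 := by
    by_contra hne
    rcases lt_or_gt_of_ne hne with hlt | hgt
    · have hev : ∀ᶠ t in nhdsWithin (0 : ℝ) (Set.Ioi 0), b.eval t < 0 :=
        (b.continuous.tendsto 0).mono_left nhdsWithin_le_nhds |>.eventually_lt_const hlt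
      have hev2 : ∀ᶠ t in nhdsWithin (0 : ℝ) (Set.Ioi 0), t ∈ Set.Ioo 0 δ := Ioo_mem_nhdsGT hδ
      obtain ⟨t, ht1, ht2⟩ := (hev.and hev2).exists
      have := h t (by rw [abs_of_pos ht2.1]; exact ht2.2)
      simp only [Polynomial.eval_mul, Polynomial.eval_pow, Polynomial.eval_X] at this
      have hp : (0 : ℝ) < t ^ (2 * m + 1) := pow_pos ht2.1 _
      nlinarith
    · have hev : ∀ᶠ t in nhdsWithin (0 : ℝ) (Set.Iio 0), 0 < b.eval t :=
        (b.continuous.tendsto 0).mono_left nhdsWithin_le_nhds |>.eventually_const_lt hgt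
      have hev2 : ∀ᶠ t in nhdsWithin (0 : ℝ) (Set.Iio 0), t ∈ Set.Ioo (-δ) 0 :=
        Ioo_mem_nhdsLT (by linarith)
      obtain ⟨t, ht1, ht2⟩ := (hev.and hev2).exists
      have := h t (by rw [abs_of_neg ht2.2]; linarith [ht2.1])
      simp only [Polynomial.eval_mul, Polynomial.eval_pow, Polynomial.eval_X] at this
      have hp : t ^ (2 * m + 1) < 0 := Odd.pow_neg ⟨m, rfl⟩ ht2.2
      nlinarith
  have hX : (Polynomial.X : U1) ∣ b := by
    rw [Polynomial.X_dvd_iff, Polynomial.coeff_zero_eq_eval_zero]; exact hb0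
  obtain ⟨c, rfl⟩ := hX
  exact ⟨c, by ring⟩

/-! ### selection -/

/-- selection of a sub-length -/
theorem exists_sub (ι : Type) [Fintype ι] (i : ι → ℕ) (n : ℕ) (hn : n ≤ ∑ a, i a) :
    ∃ e : ι → ℕ, (∀ a, e a ≤ i a) ∧ ∑ a, e a = n := by
  classical
  induction n with
  | zero => exact ⟨fun _ => 0, fun a => Nat.zero_le _, by simp⟩
  | succ n ih =>
    obtain ⟨e, he, hs⟩ := ih (by omega)
    have : ∃ a, e a < i a := by
      by_contra hcon
      push Not at hcon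
      have : ∑ a, i a ≤ ∑ a, e a := Finset.sum_le_sum fun a _ => hcon a
      omega
    obtain ⟨a, ha⟩ := this
    refine ⟨Function.update e a (e a + 1), fun b => ?_, ?_⟩
    · by_cases hb : b = a
      · subst hb; simp; omega
      · simp [Function.update_of_ne hb, he b]
    · rw [Finset.sum_update_of_mem (Finset.mem_univ a)]
      have h2 : ∑ x, e x = e a + ∑ x ∈ Finset.univ \ {a}, e x := by
        rw [← Finset.sum_sdiff (Finset.subset_univ {a})]
        simp [add_comm]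
      omega

end Pool.Agent.SBQ
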