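import Pool.Agent.SBQ.Base

/-!
# SBQ: base lemmas, part 2 (linear algebra, quadratic forms, expansions)
-/

namespace Pool.Agent.SBQ

open MvPolynomial (eval aeval C)

/-! ### linear forms -/

theorem degree_one_single {n : ℕ} (m : Fin n →₀ ℕ) (h : m.degree = 1) :
    ∃ j, m = Finsupp.single j 1 := by
  classical
  have hne : m ≠ 0 := by rintro rfl; simp at h
  obtain ⟨j, hj⟩ := Finsupp.ne_iff.mp hne
  simp only [Finsupp.coe_zero, Pi.zero_apply] at hj
  refine ⟨j, ?_⟩
  have hle : Finsupp.single j 1 ≤ m := by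
    rw [Finsupp.single_le_iff]; omega
  have h2 : m = Finsupp.single j 1 + (m - Finsupp.single j 1) :=
    (add_tsub_cancel_of_le hle).symm
  have h3 : (m - Finsupp.single j 1).degree = 0 := by
    have := congrArg Finsupp.degree h2
    rw [map_add, Finsupp.degree_single] at this
    omega
  rw [Finsupp.degree_eq_zero_iff] at h3
  rw [h2, h3, add_zero]

theorem degree_two_single {n : ℕ} (m : Fin n →₀ ℕ) (h : m.degree = 2) :
    ∃ i j, m = Finsupp.single i 1 + Finsupp.single j 1 := by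
  classical
  have hne : m ≠ 0 := by rintro rfl; simp at h
  obtain ⟨i, hi⟩ := Finsupp.ne_iff.mp hne
  simp only [Finsupp.coe_zero, Pi.zero_apply] at hi
  have hle : Finsupp.single i 1 ≤ m := by
    rw [Finsupp.single_le_iff]; omega
  have h2 : m = Finsupp.single i 1 + (m - Finsupp.single i 1) :=
    (add_tsub_cancel_of_le hle).symm
  have h3 : (m - Finsupp.single i 1).degree = 1 := by
    have := congrArg Finsupp.degree h2
    rw [map_add, Finsupp.degree_single] at this
    omega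
  obtain ⟨j, hj⟩ := degree_one_single _ h3
  exact ⟨i, j, by rw [← hj]; exact h2⟩

/-- values of a linear form -/
theorem hom1_eval {n : ℕ} {l : MvPolynomial (Fin n) ℝ} (hl : l.IsHomogeneous 1) :
    ∃ φ : (Fin n → ℝ) →ₗ[ℝ] ℝ, ∀ v, eval v l = φ v := by
  classical
  have hadd : ∀ u v, eval (u + v) l = eval u l + eval v l := by
    intro u v
    simp only [MvPolynomial.eval_eq', ← Finset.sum_add_distrib]
    apply Finset.sum_congr rfl
    intro m hm
    have hdeg : m.degree = 1 := by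
      by_contra hne
      exact (MvPolynomial.mem_support_iff.mp hm) (hl.coeff_eq_zero hne)
    obtain ⟨j, rfl⟩ := degree_one_single m hdeg
    have h1 : ∀ w : Fin n → ℝ, ∏ i, w i ^ (Finsupp.single j 1 : Fin n →₀ ℕ) i = w j := by
      intro w
      rw [Finset.prod_eq_single j]
      · simp
      · intro b _ hb; simp [Finsupp.single_eq_of_ne hb]
      · intro hj; exact absurd (Finset.mem_univ j) hj
    rw [h1, h1, h1]; simp; ring
  exact ⟨{ toFun := fun v => eval v l
           map_add' := hadd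
           map_smul' := fun s v => by
             have := hom_smul hl s v
             rw [pow_one] at this
             simpa using this }, fun v => rfl⟩

/-- the linear form of a functional -/
theorem exists_hom1 {n : ℕ} (φ : (Fin n → ℝ) →ₗ[ℝ] ℝ) :
    ∃ l : MvPolynomial (Fin n) ℝ, l.IsHomogeneous 1 ∧ ∀ v, eval v l = φ v := by
  classical
  refine ⟨∑ j, C (φ (Pi.single j 1)) * MvPolynomial.X j,
    MvPolynomial.IsHomogeneous.sum _ _ _ fun j _ => MvPolynomial.isHomogeneous_C_mul_X _ _, ?_⟩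
  intro v
  have hv : v = ∑ j, v j • (Pi.single j (1 : ℝ) : Fin n → ℝ) := by
    funext k
    simp [Finset.sum_apply, Pi.single_apply]
  conv_rhs => rw [hv]
  rw [map_sum, map_sum]
  simp only [map_smul, smul_eq_mul, map_mul, MvPolynomial.eval_C, MvPolynomial.eval_X]
  exact Finset.sum_congr rfl fun j _ => mul_comm _ _

/-! ### quadratic forms -/

/-- a quadratic form is given by a bilinear form -/
theorem hom2_bilin {n : ℕ} {A : MvPolynomial (Fin n) ℝ} (hA : A.IsHomogeneous 2) :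
    ∃ b : (Fin n → ℝ) →ₗ[ℝ] (Fin n → ℝ) →ₗ[ℝ] ℝ, ∀ v, eval v A = b v v := by
  classical
  have hm : ∀ m ∈ A.support, ∃ b : (Fin n → ℝ) →ₗ[ℝ] (Fin n → ℝ) →ₗ[ℝ] ℝ,
      ∀ v, (MvPolynomial.coeff m A) * ∏ i, v i ^ m i = b v v := by
    intro m hm
    have hdeg : m.degree = 2 := by
      by_contra hne
      exact (MvPolynomial.mem_support_iff.mp hm) (hA.coeff_eq_zero hne)
    obtain ⟨i, j, rfl⟩ := degree_two_single m hdeg
    refine ⟨LinearMap.mk₂ ℝ (fun u v => MvPolynomial.coeff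
      (Finsupp.single i 1 + Finsupp.single j 1) A * (u i * v j)) ?_ ?_ ?_ ?_, fun v => ?_⟩
    · intro u u' v; simp; ring
    · intro s u v; simp; ring
    · intro u v v'; simp; ring
    · intro s u v; simp; ring
    · simp only [LinearMap.mk₂_apply]
      congr 1
      have h1 : ∀ k, v k ^ ((Finsupp.single i 1 + Finsupp.single j 1 : Fin n →₀ ℕ) k) =
          v k ^ ((Finsupp.single i 1 : Fin n →₀ ℕ) k) *
            v k ^ ((Finsupp.single j 1 : Fin n →₀ ℕ) k) := by
        intro k; rw [Finsupp.add_apply, pow_add]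
      simp only [h1, Finset.prod_mul_distrib]
      have h2 : ∀ j : Fin n, ∏ i, v i ^ (Finsupp.single j 1 : Fin n →₀ ℕ) i = v j := by
        intro j
        rw [Finset.prod_eq_single j]
        · simp
        · intro b _ hb; simp [Finsupp.single_eq_of_ne hb]
        · intro hj; exact absurd (Finset.mem_univ j) hj
      rw [h2, h2]
  choose! b hb using hm
  refine ⟨∑ m ∈ A.support, b m, fun v => ?_⟩
  rw [MvPolynomial.eval_eq']
  simp only [LinearMap.sum_apply]
  exact Finset.sum_congr rfl fun m hm => hb m hm v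

/-- the binomial expansion of a quadratic form -/
theorem hom2_add {n : ℕ} {A : MvPolynomial (Fin n) ℝ} (hA : A.IsHomogeneous 2) (s t : ℝ)
    (u v : Fin n → ℝ) :
    eval (s • u + t • v) A = s ^ 2 * eval u A + 2 * s * t * pol A u v + t ^ 2 * eval v A := by
  obtain ⟨b, hb⟩ := hom2_bilin hA
  simp only [pol, hb, map_add, LinearMap.add_apply, map_smul, LinearMap.smul_apply, smul_eq_mul]
  ring

theorem pol_self {n : ℕ} {A : MvPolynomial (Fin n) ℝ} (hA : A.IsHomogeneous 2)
    (v : Fin n → ℝ) : pol A v v = eval v A := by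
  obtain ⟨b, hb⟩ := hom2_bilin hA
  simp only [pol, hb, map_add, LinearMap.add_apply]
  ring

theorem pol_comm {n : ℕ} (A : MvPolynomial (Fin n) ℝ) (u v : Fin n → ℝ) :
    pol A u v = pol A v u := by
  simp only [pol, add_comm u v]; ring

/-- the polar form is bilinear: linear functional in the second variable -/
theorem pol_lin {n : ℕ} {A : MvPolynomial (Fin n) ℝ} (hA : A.IsHomogeneous 2)
    (u : Fin n → ℝ) : ∃ φ : (Fin n → ℝ) →ₗ[ℝ] ℝ, ∀ v, pol A u v = φ v := by
  obtain ⟨b, hb⟩ := hom2_bilin hA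
  refine ⟨(1 / 2 : ℝ) • (b u + b.flip u), fun v => ?_⟩
  simp only [pol, hb, map_add, LinearMap.add_apply, LinearMap.smul_apply, LinearMap.flip_apply,
    smul_eq_mul]
  ring

theorem pol_add_right {n : ℕ} {A : MvPolynomial (Fin n) ℝ} (hA : A.IsHomogeneous 2)
    (u v w : Fin n → ℝ) : pol A u (v + w) = pol A u v + pol A u w := by
  obtain ⟨φ, h⟩ := pol_lin hA u
  simp [h]

theorem pol_smul_right {n : ℕ} {A : MvPolynomial (Fin n) ℝ} (hA : A.IsHomogeneous 2)
    (s : ℝ) (u v : Fin n → ℝ) : pol A u (s • v) = s * pol A u v := by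
  obtain ⟨φ, h⟩ := pol_lin hA u
  simp [h]

/-- the polar form as a linear form -/
theorem pol_hom1 {n : ℕ} {A : MvPolynomial (Fin n) ℝ} (hA : A.IsHomogeneous 2)
    (u : Fin n → ℝ) :
    ∃ l : MvPolynomial (Fin n) ℝ, l.IsHomogeneous 1 ∧ ∀ v, eval v l = pol A u v := by
  obtain ⟨φ, hφ⟩ := pol_lin hA u
  obtain ⟨l, hl, hl2⟩ := exists_hom1 φ
  exact ⟨l, hl, fun v => by rw [hl2, hφ]⟩

/-- the Mathlib quadratic form -/
theorem exists_quadraticForm {n : ℕ} {A : MvPolynomial (Fin n) ℝ} (hA : A.IsHomogeneous 2) :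
    ∃ q : QuadraticForm ℝ (Fin n → ℝ), ∀ v, eval v A = q v := by
  obtain ⟨b, hb⟩ := hom2_bilin hA
  exact ⟨LinearMap.BilinMap.toQuadraticMap b, fun v => by rw [hb]; rfl⟩

/-- Cauchy–Schwarz for nonnegative quadratic forms -/
theorem pol_sq_le {n : ℕ} {A : MvPolynomial (Fin n) ℝ} (hA : A.IsHomogeneous 2) (hp : Psd A)
    (u v : Fin n → ℝ) : pol A u v ^ 2 ≤ eval u A * eval v A := by
  have h : ∀ s : ℝ, 0 ≤ eval v A * (s * s) + 2 * pol A u v * s + eval u A := by
    intro s
    have h1 := hp ((1 : ℝ) • u + s • v)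
    rw [hom2_add hA] at h1
    nlinarith
  have h2 := discrim_le_zero (h · )
  rw [discrim] at h2
  nlinarith

/-- null vectors of a nonnegative quadratic form are in its radical -/
theorem pol_eq_zero_of_null {n : ℕ} {A : MvPolynomial (Fin n) ℝ} (hA : A.IsHomogeneous 2)
    (hp : Psd A) {u : Fin n → ℝ} (hu : eval u A = 0) (v : Fin n → ℝ) : pol A u v = 0 := by
  have := pol_sq_le hA hp u v
  rw [hu, zero_mul] at this
  exact pow_eq_zero_iff (two_ne_zero) |>.mp (le_antisymm this (sq_nonneg _))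

/-! ### density -/

/-- a polynomial nonvanishing at one point is nonvanishing arbitrarily close to any point -/
theorem exists_ne_near {n : ℕ} (g : MvPolynomial (Fin n) ℝ) (hg : g ≠ 0) (v : Fin n → ℝ) :
    ∃ u : Fin n → ℝ, ∃ δ : ℝ, 0 < δ ∧ ∀ t : ℝ, 0 < t → t < δ → eval (v + t • u) g ≠ 0 := by
  have h1 : ∃ w, eval w g ≠ 0 := by
    by_contra hcon
    push Not at hcon
    exact hg (MvPolynomial.funext fun w => by rw [hcon w]; simp)
  obtain ⟨w, hw⟩ := h1
  refine ⟨w - v, ?_⟩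
  set p : U1 := comp (ray v (w - v)) g with hp
  have hev : ∀ t : ℝ, p.eval t = eval (v + t • (w - v)) g := by
    intro t
    rw [hp, eval_comp]
    congr 1
    apply congrArg
    funext j
    simp [ray]
    ring
  have hp0 : p ≠ 0 := by
    intro h0
    apply hw
    have := hev 1
    rw [h0] at this
    simp at this
    exact this.symm
  have hfin : (p.roots.toFinset.filter (fun t => 0 < t)).Nonempty ∨
      ¬ (p.roots.toFinset.filter (fun t => 0 < t)).Nonempty := em _
  rcases hfin with hne | hemp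
  · refine ⟨(p.roots.toFinset.filter (fun t => 0 < t)).min' hne, ?_, ?_⟩
    · have := Finset.min'_mem _ hne
      rw [Finset.mem_filter] at this
      exact this.2
    · intro t ht htd h0
      have : t ∈ p.roots.toFinset.filter (fun t => 0 < t) := by
        rw [Finset.mem_filter, Multiset.mem_toFinset, Polynomial.mem_roots hp0]
        exact ⟨by rw [Polynomial.IsRoot, hev]; exact h0, ht⟩
      exact absurd (Finset.min'_le _ _ this) (not_le.mpr htd)
  · refine ⟨1, one_pos, ?_⟩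
    intro t ht _ h0
    apply hemp
    refine ⟨t, ?_⟩
    rw [Finset.mem_filter, Multiset.mem_toFinset, Polynomial.mem_roots hp0]
    exact ⟨by rw [Polynomial.IsRoot, hev]; exact h0, ht⟩

/-- nonnegativity extends from the complement of a hypersurface -/
theorem psd_of_dense {n : ℕ} (f g : MvPolynomial (Fin n) ℝ) (hg : g ≠ 0)
    (h : ∀ v, eval v g ≠ 0 → 0 ≤ eval v f) : Psd f := by
  intro v
  obtain ⟨u, δ, hδ, hu⟩ := exists_ne_near g hg v
  have hcont : Continuous (fun t : ℝ => eval (v + t • u) f) := by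
    have : Continuous (fun t : ℝ => v + t • u) := by fun_prop
    exact (MvPolynomial.continuous_eval f).comp this
  have hlim : Filter.Tendsto (fun t : ℝ => eval (v + t • u) f) (nhdsWithin 0 (Set.Ioi 0))
      (nhds (eval v f)) := by
    have := (hcont.tendsto 0).mono_left (nhdsWithin_le_nhds (s := Set.Ioi 0))
    simpa using this
  apply ge_of_tendsto hlim
  filter_upwards [Ioo_mem_nhdsGT hδ] with t ht
  exact h _ (hu t ht.1 ht.2)

/-- same for an inequality of polynomials vanishing -/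
theorem zero_of_dense {n : ℕ} (f g : MvPolynomial (Fin n) ℝ) (hg : g ≠ 0)
    (h : ∀ v, eval v g ≠ 0 → eval v f = 0) : f = 0 := by
  have : f * g = 0 := by
    apply MvPolynomial.funext
    intro v
    rw [map_mul, map_zero]
    by_cases hv : eval v g = 0
    · rw [hv, mul_zero]
    · rw [h v hv, zero_mul]
  exact (mul_eq_zero.mp this).resolve_right hg

/-! ### expansions at a zero -/

theorem Exp.facts {n : ℕ} {F : MvPolynomial (Fin (n + 1)) ℝ} {A B D : MvPolynomial (Fin n) ℝ}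
    (h : Exp F A B D) (hF : Psd F) :
    Psd A ∧ Psd D ∧ ∀ v, (eval v B) ^ 2 ≤ eval v A * eval v D := by
  have hpos : ∀ (v : Fin n → ℝ) (w : ℝ), 0 ≤ eval v A * (w * w) + 2 * eval v B * w + eval v D := by
    intro v w
    have := hF (Fin.cons w v)
    rw [h.2.2.2] at this
    nlinarith
  have hdisc : ∀ v, (eval v B) ^ 2 ≤ eval v A * eval v D := by
    intro v
    have := discrim_le_zero (hpos v ·)
    rw [discrim] at this
    nlinarith
  have hD : Psd D := fun v => by simpa using hpos v 0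
  refine ⟨fun v => ?_, hD, hdisc⟩
  by_contra hneg
  push Not at hneg
  have h1 := hdisc v
  have h2 : eval v A * eval v D ≤ 0 := mul_nonpos_of_nonpos_of_nonneg hneg.le (hD v)
  have hB : eval v B = 0 := by nlinarith [sq_nonneg (eval v B)]
  have hAD : eval v A * eval v D = 0 := by rw [hB] at h1; nlinarith
  have hD0 : eval v D = 0 := (mul_eq_zero.mp hAD).resolve_left hneg.ne
  have := hpos v 1
  rw [hB, hD0] at this
  nlinarith

/-- the discriminant identity -/
theorem Exp.disc {n : ℕ} {F : MvPolynomial (Fin (n + 1)) ℝ} {A B D : MvPolynomial (Fin n) ℝ}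
    (h : Exp F A B D) (w : ℝ) (v : Fin n → ℝ) :
    eval v A * eval (Fin.cons w v : Fin (n + 1) → ℝ) F =
      (w * eval v A + eval v B) ^ 2 + (eval v A * eval v D - (eval v B) ^ 2) := by
  rw [h.2.2.2]; ring

theorem Exp.zero {n : ℕ} {F : MvPolynomial (Fin (n + 1)) ℝ} {A B D : MvPolynomial (Fin n) ℝ}
    (h : Exp F A B D) : eval (Pi.single 0 1 : Fin (n + 1) → ℝ) F = 0 := by
  have h0 : (Pi.single 0 1 : Fin (n + 1) → ℝ) = Fin.cons 1 0 := by
    funext j
    refine Fin.cases ?_ (fun j => ?_) j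
    · simp
    · simp
  have hz : ∀ (P : MvPolynomial (Fin n) ℝ) (d : ℕ), P.IsHomogeneous d → d ≠ 0 →
      eval (0 : Fin n → ℝ) P = 0 := by
    intro P d hP hd
    have := hom_smul hP 0 0
    rw [zero_smul, zero_pow hd, zero_mul] at this
    exact this
  rw [h0, h.2.2.2, hz A 2 h.1 (by norm_num), hz B 3 h.2.1 (by norm_num),
    hz D 4 h.2.2.1 (by norm_num)]
  ring

/-- the form `w l + m` -/
noncomputable def glue {n : ℕ} (l m : MvPolynomial (Fin n) ℝ) : MvPolynomial (Fin (n + 1)) ℝ :=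
  MvPolynomial.X 0 * MvPolynomial.rename Fin.succ l + MvPolynomial.rename Fin.succ m

theorem eval_rename_succ {n : ℕ} (w : ℝ) (v : Fin n → ℝ) (l : MvPolynomial (Fin n) ℝ) :
    eval (Fin.cons w v : Fin (n + 1) → ℝ) (MvPolynomial.rename Fin.succ l) = eval v l := by
  rw [MvPolynomial.eval_rename]
  congr 1

theorem eval_glue {n : ℕ} (l m : MvPolynomial (Fin n) ℝ) (w : ℝ) (v : Fin n → ℝ) :
    eval (Fin.cons w v : Fin (n + 1) → ℝ) (glue l m) = w * eval v l + eval v m := by
  simp [glue, eval_rename_succ]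

theorem glue_hom {n d : ℕ} {l m : MvPolynomial (Fin n) ℝ} (hl : l.IsHomogeneous d)
    (hm : m.IsHomogeneous (d + 1)) : (glue l m).IsHomogeneous (d + 1) := by
  apply MvPolynomial.IsHomogeneous.add
  · have := (MvPolynomial.isHomogeneous_X ℝ (0 : Fin (n + 1))).mul
      (hl.rename_isHomogeneous (f := Fin.succ))
    have he : 1 + d = d + 1 := add_comm _ _
    exact he ▸ this
  · exact hm.rename_isHomogeneous

theorem glue_eq_zero {n : ℕ} {l m : MvPolynomial (Fin n) ℝ} (h : glue l m = 0) :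
    l = 0 ∧ m = 0 := by
  have h1 : ∀ (w : ℝ) v, w * eval v l + eval v m = 0 := by
    intro w v
    rw [← eval_glue, h, map_zero]
  constructor
  · apply MvPolynomial.funext
    intro v
    have := h1 1 v
    have := h1 0 v
    rw [map_zero]; linarith
  · apply MvPolynomial.funext
    intro v
    have := h1 0 v
    rw [map_zero]; linarith

/-- contradiction from a square below a rigid form -/
theorem Rig.absurd {F : P4} (hF : Rig F) {l m : P3} (hl : l.IsHomogeneous 1)
    (hm : m.IsHomogeneous 2) (hne : l ≠ 0 ∨ m ≠ 0)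
    (h : ∀ (w : ℝ) (v : Fin 3 → ℝ), (w * eval v l + eval v m) ^ 2 ≤
      eval (Fin.cons w v : Fin 4 → ℝ) F) : False := by
  have h0 := hF.2.2.2 (glue l m) (glue_hom hl hm) (by
    intro v
    have := h (v 0) (Fin.tail v)
    rw [← eval_glue, Fin.cons_self_tail] at this
    exact this)
  obtain ⟨h1, h2⟩ := glue_eq_zero h0
  rcases hne with h | h
  · exact h h1
  · exact h h2

/-! ### coordinates -/

/-- a linearly independent family is the image of the first coordinate vectors -/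
theorem exists_equiv {n k : ℕ} (hk : k ≤ n) (f : Fin k → (Fin n → ℝ))
    (hf : LinearIndependent ℝ f) :
    ∃ T : (Fin n → ℝ) ≃ₗ[ℝ] (Fin n → ℝ),
      ∀ j : Fin k, T (Pi.single (Fin.castLE hk j) 1) = f j := by
  classical
  have he : LinearIndependent ℝ
      (fun j : Fin k => (Pi.single (Fin.castLE hk j) 1 : Fin n → ℝ)) := by
    have h1 := (Pi.basisFun ℝ (Fin n)).linearIndependent
    have h2 := h1.comp (Fin.castLE hk) (Fin.castLE_injective hk)
    have h3 : (⇑(Pi.basisFun ℝ (Fin n)) ∘ Fin.castLE hk) =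
        (fun j : Fin k => (Pi.single (Fin.castLE hk j) 1 : Fin n → ℝ)) := by
      funext j
      simp
    rwa [h3] at h2
  obtain ⟨T, hT⟩ := Submodule.exists_linearEquiv_restrict_eq
    ((Module.Basis.span he).equiv (Module.Basis.span hf) (Equiv.refl _))
  refine ⟨T, fun j => ?_⟩
  have h1 := hT (Module.Basis.span he j)
  rw [Module.Basis.equiv_apply, Equiv.refl_apply, Module.Basis.span_apply] at h1
  rw [Module.Basis.span_apply] at h1
  exact h1.symm

theorem exists_equiv_one {n : ℕ} (p : Fin (n + 1) → ℝ) (hp : p ≠ 0) :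
    ∃ T : (Fin (n + 1) → ℝ) ≃ₗ[ℝ] (Fin (n + 1) → ℝ), T (Pi.single 0 1) = p := by
  obtain ⟨T, hT⟩ := exists_equiv (k := 1) (n := n + 1) (by omega) ![p]
    (LinearIndependent.of_subsingleton (0 : Fin 1) (by simpa using hp))
  refine ⟨T, ?_⟩
  have := hT 0
  simpa using this

/-- block extension of a linear automorphism -/
theorem exists_block {n : ℕ} (S : (Fin n → ℝ) ≃ₗ[ℝ] (Fin n → ℝ)) :
    ∃ T : (Fin (n + 1) → ℝ) ≃ₗ[ℝ] (Fin (n + 1) → ℝ),
      ∀ (w : ℝ) (v : Fin n → ℝ), T (Fin.cons w v) = Fin.cons w (S v) := by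
  refine ⟨LinearEquiv.ofLinearMap
    { toFun := fun v => Fin.cons (v 0) (S (Fin.tail v))
      map_add' := fun u v => ?_
      map_smul' := fun s v => ?_ }
    { toFun := fun v => Fin.cons (v 0) (S.symm (Fin.tail v))
      map_add' := fun u v => ?_
      map_smul' := fun s v => ?_ } ?_ ?_, fun w v => ?_⟩
  · funext j
    refine Fin.cases ?_ (fun j => ?_) j
    · simp
    · have : Fin.tail (u + v) = Fin.tail u + Fin.tail v := rfl
      simp [this]
  · funext j
    refine Fin.cases ?_ (fun j => ?_) j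
    · simp
    · have : Fin.tail (s • v) = s • Fin.tail v := rfl
      simp [this]
  · funext j
    refine Fin.cases ?_ (fun j => ?_) j
    · simp
    · have : Fin.tail (u + v) = Fin.tail u + Fin.tail v := rfl
      simp [this]
  · funext j
    refine Fin.cases ?_ (fun j => ?_) j
    · simp
    · have : Fin.tail (s • v) = s • Fin.tail v := rfl
      simp [this]
  · apply LinearMap.ext
    intro v
    simp [Fin.cons_self_tail]
  · apply LinearMap.ext
    intro v
    simp [Fin.cons_self_tail]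
  · simp

theorem Exp.pull_block {n : ℕ} {F : MvPolynomial (Fin (n + 1)) ℝ}
    {A B D : MvPolynomial (Fin n) ℝ} (h : Exp F A B D) (S : (Fin n → ℝ) →ₗ[ℝ] (Fin n → ℝ))
    (T : (Fin (n + 1) → ℝ) →ₗ[ℝ] (Fin (n + 1) → ℝ))
    (hT : ∀ (w : ℝ) (v : Fin n → ℝ), T (Fin.cons w v) = Fin.cons w (S v)) :
    Exp (pull T F) (pull S A) (pull S B) (pull S D) := by
  refine ⟨pull_hom _ h.1, pull_hom _ h.2.1, pull_hom _ h.2.2.1, fun w v => ?_⟩
  rw [eval_pull, eval_pull, eval_pull, eval_pull, hT, h.2.2.2]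

theorem pull_ne_zero {n : ℕ} (T : (Fin n → ℝ) ≃ₗ[ℝ] (Fin n → ℝ)) {F : MvPolynomial (Fin n) ℝ}
    (hF : F ≠ 0) : pull (T : (Fin n → ℝ) →ₗ[ℝ] (Fin n → ℝ)) F ≠ 0 := by
  intro h0
  apply hF
  apply MvPolynomial.funext
  intro v
  have := congrArg (eval (T.symm v)) h0
  simpa [eval_pull] using this

theorem pull_symm_pull {n : ℕ} (T : (Fin n → ℝ) ≃ₗ[ℝ] (Fin n → ℝ))
    (F : MvPolynomial (Fin n) ℝ) :
    pull (T.symm : (Fin n → ℝ) →ₗ[ℝ] (Fin n → ℝ))
      (pull (T : (Fin n → ℝ) →ₗ[ℝ] (Fin n → ℝ)) F) = F := by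
  apply MvPolynomial.funext
  intro v
  simp [eval_pull]

theorem pull_pull_symm {n : ℕ} (T : (Fin n → ℝ) ≃ₗ[ℝ] (Fin n → ℝ))
    (F : MvPolynomial (Fin n) ℝ) :
    pull (T : (Fin n → ℝ) →ₗ[ℝ] (Fin n → ℝ))
      (pull (T.symm : (Fin n → ℝ) →ₗ[ℝ] (Fin n → ℝ)) F) = F := by
  apply MvPolynomial.funext
  intro v
  simp [eval_pull]

/-- finiteness of zeros is inherited by linear sections -/
theorem FinZ.pull {m n d : ℕ} (L : (Fin n → ℝ) →ₗ[ℝ] (Fin m → ℝ)) (hL : Function.Injective L)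
    {F : MvPolynomial (Fin m) ℝ} (hF : F.IsHomogeneous d) (hd : d ≠ 0) (h : FinZ F) :
    FinZ (SBQ.pull L F) := by
  classical
  unfold FinZ at *
  have hN : ∀ v : Fin n → ℝ, ∑ j, v j ^ 2 = 1 → 0 < ∑ j, (L v) j ^ 2 := by
    intro v hv
    have hne : L v ≠ 0 := by
      intro h0
      have : v = 0 := hL (by rw [h0, map_zero])
      rw [this] at hv
      simp at hv
    obtain ⟨j, hj⟩ := Function.ne_iff.mp hne
    have hj' : 0 < (L v) j ^ 2 := by
      have : (L v) j ≠ 0 := hj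
      positivity
    exact lt_of_lt_of_le hj' (Finset.single_le_sum (f := fun j => (L v) j ^ 2)
      (fun i _ => sq_nonneg _) (Finset.mem_univ j))
  refine Set.Finite.of_finite_image (f := fun v => (Real.sqrt (∑ j, (L v) j ^ 2))⁻¹ • L v) ?_ ?_
  · refine h.subset ?_
    rintro _ ⟨v, ⟨hv1, hv2⟩, rfl⟩
    have hpos := hN v hv2
    refine ⟨?_, ?_⟩
    · show eval ((Real.sqrt (∑ j, (L v) j ^ 2))⁻¹ • L v) F = 0
      rw [hom_smul hF, ← eval_pull, hv1, mul_zero]
    · simp only [Pi.smul_apply, smul_eq_mul, mul_pow, ← Finset.mul_sum]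
      rw [inv_pow, Real.sq_sqrt hpos.le, inv_mul_cancel₀ hpos.ne']
  · intro v hv v' hv' heq
    have hpos := hN v hv.2
    have hpos' := hN v' hv'.2
    simp only at heq
    set a := Real.sqrt (∑ j, (L v) j ^ 2) with ha
    set b := Real.sqrt (∑ j, (L v') j ^ 2) with hb
    have ha0 : 0 < a := Real.sqrt_pos.mpr hpos
    have hb0 : 0 < b := Real.sqrt_pos.mpr hpos'
    have h1 : L (a⁻¹ • v) = L (b⁻¹ • v') := by rw [map_smul, map_smul]; exact heq
    have h2 : a⁻¹ • v = b⁻¹ • v' := hL h1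
    have h3 : ∑ j, (a⁻¹ • v) j ^ 2 = ∑ j, (b⁻¹ • v') j ^ 2 := by rw [h2]
    simp only [Pi.smul_apply, smul_eq_mul, mul_pow, ← Finset.mul_sum] at h3
    rw [hv.2, hv'.2, mul_one, mul_one] at h3
    have h4 : a⁻¹ = b⁻¹ := by
      have ha1 : (0 : ℝ) ≤ a⁻¹ := (inv_pos.mpr ha0).le
      have hb1 : (0 : ℝ) ≤ b⁻¹ := (inv_pos.mpr hb0).le
      exact (pow_left_inj₀ ha1 hb1 (by norm_num)).mp h3
    rw [h4] at h2
    have h5 : b⁻¹ ≠ 0 := (inv_pos.mpr hb0).ne'
    exact smul_right_injective _ h5 h2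

theorem FinZ.of_pull {n d : ℕ} (T : (Fin n → ℝ) ≃ₗ[ℝ] (Fin n → ℝ))
    {F : MvPolynomial (Fin n) ℝ} (hF : F.IsHomogeneous d) (hd : d ≠ 0)
    (h : FinZ (SBQ.pull (T : (Fin n → ℝ) →ₗ[ℝ] (Fin n → ℝ)) F)) : FinZ F := by
  have := FinZ.pull (T.symm : (Fin n → ℝ) →ₗ[ℝ] (Fin n → ℝ)) T.symm.injective
    (pull_hom _ hF) hd h
  rwa [pull_symm_pull] at this

/-! ### arcs -/

/-- truncated inverse -/
theorem exists_trunc_inv (Y : U1) (hY : Y.coeff 0 ≠ 0) (K : ℕ) :
    ∃ u : U1, (Polynomial.X : U1) ^ K ∣ u * Y - 1 := by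
  have h1 : IsCoprime (Polynomial.X : U1) Y := by
    rw [Polynomial.irreducible_X.coprime_iff_not_dvd, Polynomial.X_dvd_iff]
    exact hY
  obtain ⟨a, b, hab⟩ := h1.pow_left (m := K)
  refine ⟨b, -a, ?_⟩
  linear_combination hab

/-- scaling an arc -/
theorem comp_smul_arc {n d : ℕ} {F : MvPolynomial (Fin n) ℝ} (hF : F.IsHomogeneous d)
    (u : U1) (γ : Fin n → U1) : comp (fun j => u * γ j) F = u ^ d * comp γ F := by
  apply Polynomial.funext
  intro t
  rw [eval_comp, Polynomial.eval_mul, Polynomial.eval_pow, eval_comp, ← hom_smul hF]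
  congr 2
  funext j
  simp

/-- congruent arcs -/
theorem comp_congr {n : ℕ} (F : MvPolynomial (Fin n) ℝ) (γ β : Fin n → U1) (K : ℕ)
    (h : ∀ j, (Polynomial.X : U1) ^ K ∣ γ j - β j) :
    (Polynomial.X : U1) ^ K ∣ comp γ F - comp β F := by
  induction F using MvPolynomial.induction_on with
  | C a => simp [comp_C]
  | add p q hp hq =>
    rw [comp_add, comp_add]
    have := dvd_add hp hq
    have h2 : comp γ p + comp γ q - (comp β p + comp β q) =
      comp γ p - comp β p + (comp γ q - comp β q) := by ring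
    rwa [h2]
  | mul_X p j hp =>
    rw [comp_mul, comp_mul, comp_X, comp_X]
    have h2 : comp γ p * γ j - comp β p * β j =
      (comp γ p - comp β p) * γ j + comp β p * (γ j - β j) := by ring
    rw [h2]
    exact dvd_add (hp.mul_right _) ((h j).mul_left _)

theorem comp_ray_eval {n : ℕ} (p u : Fin n → ℝ) (F : MvPolynomial (Fin n) ℝ) (t : ℝ) :
    (comp (ray p u) F).eval t = eval (p + t • u) F := by
  rw [eval_comp]
  congr 2
  funext j
  simp [ray]
  ring

theorem at0_ray {n : ℕ} (p u : Fin n → ℝ) : at0 (ray p u) = p := by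
  funext j; simp [at0, ray]
theorem vel_ray {n : ℕ} (p u : Fin n → ℝ) : vel (ray p u) = u := by
  funext j; simp [vel, ray]
theorem mapArc_ray {m n : ℕ} (L : (Fin n → ℝ) →ₗ[ℝ] (Fin m → ℝ)) (p u : Fin n → ℝ) :
    mapArc L (ray p u) = ray (L p) (L u) := by
  funext i
  simp only [mapArc, ray]
  rw [lin_apply L p i, lin_apply L u i]
  simp only [map_sum, map_mul, mul_add, Finset.sum_add_distrib, Finset.sum_mul]
  congr 1
  apply Finset.sum_congr rfl
  intro j _
  ring

theorem comp_ray_pull {m n : ℕ} (L : (Fin n → ℝ) →ₗ[ℝ] (Fin m → ℝ))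
    (F : MvPolynomial (Fin m) ℝ) (p u : Fin n → ℝ) :
    comp (ray p u) (pull L F) = comp (ray (L p) (L u)) F := by
  rw [comp_pull, mapArc_ray]

/-- a nonnegative form vanishes to order two at its zeros -/
theorem sq_dvd_comp {n : ℕ} {F : MvPolynomial (Fin n) ℝ} (hF : Psd F) (γ : Fin n → U1)
    (h : eval (at0 γ) F = 0) : (Polynomial.X : U1) ^ 2 ∣ comp γ F := by
  have h1 : (Polynomial.X : U1) ^ (2 * 0 + 1) ∣ comp γ F := by
    rw [mul_zero, zero_add, pow_one, Polynomial.X_dvd_iff, comp_coeff_zero, h]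
  exact even_order _ 0 1 one_pos (fun t _ => by rw [eval_comp]; exact hF _) h1

theorem mapArc_comp {l m n : ℕ} (K : (Fin m → ℝ) →ₗ[ℝ] (Fin l → ℝ))
    (L : (Fin n → ℝ) →ₗ[ℝ] (Fin m → ℝ)) (γ : Fin n → U1) :
    mapArc K (mapArc L γ) = mapArc (K.comp L) γ := by
  funext i
  apply Polynomial.funext
  intro t
  have h1 := congrFun (mapArc_eval K (mapArc L γ) t) i
  have h2 := congrFun (mapArc_eval (K.comp L) γ t) i
  rw [h1, h2, mapArc_eval L γ t]
  rfl

theorem mapArc_id {n : ℕ} (γ : Fin n → U1) : mapArc LinearMap.id γ = γ := by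
  funext i
  apply Polynomial.funext
  intro t
  exact congrFun (mapArc_eval LinearMap.id γ t) i

theorem mapArc_symm {n : ℕ} (T : (Fin n → ℝ) ≃ₗ[ℝ] (Fin n → ℝ)) (γ : Fin n → U1) :
    mapArc (T : (Fin n → ℝ) →ₗ[ℝ] (Fin n → ℝ))
      (mapArc (T.symm : (Fin n → ℝ) →ₗ[ℝ] (Fin n → ℝ)) γ) = γ := by
  rw [mapArc_comp]
  have : (T : (Fin n → ℝ) →ₗ[ℝ] (Fin n → ℝ)).comp (T.symm : (Fin n → ℝ) →ₗ[ℝ] (Fin n → ℝ)) =
      LinearMap.id := by
    ext v; simp
  rw [this, mapArc_id]

theorem li_pair_map {n m : ℕ} (L : (Fin n → ℝ) →ₗ[ℝ] (Fin m → ℝ)) (hL : Function.Injective L)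
    {u v : Fin n → ℝ} (h : LinearIndependent ℝ ![u, v]) :
    LinearIndependent ℝ ![L u, L v] := by
  have h1 := h.map' L (LinearMap.ker_eq_bot.mpr hL)
  have h2 : (⇑L ∘ ![u, v]) = ![L u, L v] := by
    funext j
    fin_cases j <;> rfl
  rwa [h2] at h1

/-- transport of configurations -/
theorem Cfg.pull {n : ℕ} {ι : Type} {F Q : MvPolynomial (Fin n) ℝ} {γ : ι → Fin n → U1}
    {i : ι → ℕ} (h : Cfg F Q γ i) (T : (Fin n → ℝ) ≃ₗ[ℝ] (Fin n → ℝ)) :
    Cfg (SBQ.pull (T : (Fin n → ℝ) →ₗ[ℝ] (Fin n → ℝ)) F)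
      (SBQ.pull (T : (Fin n → ℝ) →ₗ[ℝ] (Fin n → ℝ)) Q)
      (fun a => mapArc (T.symm : (Fin n → ℝ) →ₗ[ℝ] (Fin n → ℝ)) (γ a)) i := by
  refine ⟨h.one_le, fun a => ?_, fun a b hab => ?_, fun a => ?_, fun a => ?_⟩
  · rw [at0_mapArc, vel_mapArc]
    exact li_pair_map _ T.symm.injective (h.imm a)
  · rw [at0_mapArc, at0_mapArc]
    exact li_pair_map _ T.symm.injective (h.dist a b hab)
  · rw [comp_pull, mapArc_symm]; exact h.ordF a
  · rw [comp_pull, mapArc_symm]; exact h.ordQ a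

/-- transport of `LocalGood` -/
theorem LocalGood.map {F : P4} (T : (Fin 4 → ℝ) ≃ₗ[ℝ] (Fin 4 → ℝ)) {γ : Fin 4 → U1} {j : ℕ}
    (h : LocalGood (SBQ.pull (T : (Fin 4 → ℝ) →ₗ[ℝ] (Fin 4 → ℝ)) F) γ j) :
    LocalGood F (mapArc (T : (Fin 4 → ℝ) →ₗ[ℝ] (Fin 4 → ℝ)) γ) j := by
  intro G hG hord
  obtain ⟨K, δ, hδ, hK⟩ := h (SBQ.pull (T : (Fin 4 → ℝ) →ₗ[ℝ] (Fin 4 → ℝ)) G) (pull_hom _ hG)
    (by rw [comp_pull]; exact hord)
  have hcont : Continuous (fun v : Fin 4 → ℝ => T.symm v) :=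
    LinearMap.continuous_of_finiteDimensional (T.symm : (Fin 4 → ℝ) →ₗ[ℝ] (Fin 4 → ℝ))
  have hopen : IsOpen {v : Fin 4 → ℝ | ∀ j, |(T.symm v) j - at0 γ j| < δ} := by
    have : {v : Fin 4 → ℝ | ∀ j, |(T.symm v) j - at0 γ j| < δ} =
        ⋂ j, {v : Fin 4 → ℝ | |(T.symm v) j - at0 γ j| < δ} := by
      ext v; simp
    rw [this]
    apply isOpen_iInter_of_finite
    intro j
    exact isOpen_lt (((continuous_apply j).comp hcont).sub continuous_const).abs continuous_const
  have hmem : T (at0 γ) ∈ {v : Fin 4 → ℝ | ∀ j, |(T.symm v) j - at0 γ j| < δ} := by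
    intro j; simpa using hδ
  obtain ⟨r, hr, hball⟩ := Metric.isOpen_iff.mp hopen _ hmem
  refine ⟨K, r, hr, fun v hv => ?_⟩
  have hv2 : v ∈ Metric.ball (T (at0 γ)) r := by
    rw [Metric.mem_ball, dist_pi_lt_iff hr]
    intro j
    have := hv j
    rw [at0_mapArc] at this
    rw [Real.dist_eq]
    exact this
  have := hK (T.symm v) (hball hv2)
  simpa [eval_pull] using this

end Pool.Agent.SBQ
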