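import Mathlib

/-!
# SBQ: stubbornness of extreme nonnegative quaternary quartics (MP_cd3775_ag)

Definitions.
-/

namespace Pool.Agent.SBQ

open MvPolynomial (eval aeval C)

/-- real polynomials in four variables -/
abbrev P4 := MvPolynomial (Fin 4) ℝ
/-- real polynomials in three variables -/
abbrev P3 := MvPolynomial (Fin 3) ℝ
/-- real polynomials in two variables `y = X 0`, `z = X 1` -/
abbrev R2 := MvPolynomial (Fin 2) ℝ
/-- univariate real polynomials (in the parameter `t`) -/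
abbrev U1 := Polynomial ℝ

/-- pointwise nonnegative -/
def Psd {n : ℕ} (F : MvPolynomial (Fin n) ℝ) : Prop := ∀ v, 0 ≤ eval v F

/-- finitely many zeros on the unit sphere (that is, finitely many projective zeros, for forms) -/
def FinZ {n : ℕ} (F : MvPolynomial (Fin n) ℝ) : Prop :=
  {v : Fin n → ℝ | eval v F = 0 ∧ ∑ j, v j ^ 2 = 1}.Finite

/-- the composition `F ∘ γ` with a polynomial arc `γ` -/
noncomputable def comp {n : ℕ} (γ : Fin n → U1) (F : MvPolynomial (Fin n) ℝ) : U1 := aeval γ F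

/-- base point of an arc -/
def at0 {n : ℕ} (γ : Fin n → U1) : Fin n → ℝ := fun j => (γ j).coeff 0
/-- velocity of an arc at its base point -/
def vel {n : ℕ} (γ : Fin n → U1) : Fin n → ℝ := fun j => (γ j).coeff 1

/-- the straight arc `p + t u` -/
noncomputable def ray {n : ℕ} (p u : Fin n → ℝ) : Fin n → U1 :=
  fun j => Polynomial.C (p j) + Polynomial.C (u j) * Polynomial.X

/-- substitution of a linear map -/
noncomputable def pull {m n : ℕ} (L : (Fin n → ℝ) →ₗ[ℝ] (Fin m → ℝ))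
    (F : MvPolynomial (Fin m) ℝ) : MvPolynomial (Fin n) ℝ :=
  aeval (fun i => ∑ j, C (L (Pi.single j 1) i) * MvPolynomial.X j) F

/-- image of an arc under a linear map -/
noncomputable def mapArc {m n : ℕ} (L : (Fin n → ℝ) →ₗ[ℝ] (Fin m → ℝ)) (γ : Fin n → U1) :
    Fin m → U1 := fun i => ∑ j, Polynomial.C (L (Pi.single j 1) i) * γ j

/-- `F` is a nonzero nonnegative quartic form with no nonzero square of a quadratic form
below it -/
def Rig (F : P4) : Prop :=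
  F.IsHomogeneous 4 ∧ Psd F ∧ F ≠ 0 ∧
    ∀ G : P4, G.IsHomogeneous 2 → (∀ v, (eval v G) ^ 2 ≤ eval v F) → G = 0

/-- polar form of a quadratic form -/
noncomputable def pol {n : ℕ} (A : MvPolynomial (Fin n) ℝ) (u v : Fin n → ℝ) : ℝ :=
  (eval (u + v) A - eval u A - eval v A) / 2

/-- expansion of a quartic form at the zero `e_0 = (1,0,…,0)` -/
def Exp {n : ℕ} (F : MvPolynomial (Fin (n + 1)) ℝ) (A B D : MvPolynomial (Fin n) ℝ) : Prop :=
  A.IsHomogeneous 2 ∧ B.IsHomogeneous 3 ∧ D.IsHomogeneous 4 ∧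
    ∀ (w : ℝ) (v : Fin n → ℝ),
      eval (Fin.cons w v : Fin (n + 1) → ℝ) F = w ^ 2 * eval v A + 2 * w * eval v B + eval v D

/-- `y ^ 2 + z ^ 2` in the variables `(x, y, z) = (X 0, X 1, X 2)` -/
noncomputable def Ayz : P3 := MvPolynomial.X 1 ^ 2 + MvPolynomial.X 2 ^ 2

/-- reduction modulo `y ^ 2 + z ^ 2`: the substitution `z = i y` -/
noncomputable def rho : P3 →ₐ[ℝ] MvPolynomial (Fin 2) ℂ :=
  aeval ![MvPolynomial.X 0, MvPolynomial.X 1, C Complex.I * MvPolynomial.X 1]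

/-- the Hessian has rank at least two at every zero -/
def Rk2 (F : P4) : Prop :=
  ∀ p u u' : Fin 4 → ℝ, eval p F = 0 → LinearIndependent ℝ ![p, u, u'] →
    ∃ a b : ℝ, ¬ ((Polynomial.X : U1) ^ 3 ∣ comp (ray p (a • u + b • u')) F)

/-! ### The plane chart of a quadric `x w = y ^ 2 + ε z ^ 2` -/

/-- `M = y ^ 2 + ε z ^ 2` -/
noncomputable def Mq (ε : ℝ) : R2 := MvPolynomial.X 0 ^ 2 + C ε * MvPolynomial.X 1 ^ 2

/-- the generators `y ^ δ z ^ b M ^ c`, `δ ≤ 1` -/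
noncomputable def gen (ε : ℝ) (δ b c : ℕ) : R2 :=
  MvPolynomial.X 0 ^ δ * MvPolynomial.X 1 ^ b * Mq ε ^ c

/-- restrictions of forms of degree `N` to the chart -/
noncomputable def PN (ε : ℝ) (N : ℕ) : Submodule ℝ R2 :=
  Submodule.span ℝ {h | ∃ δ b c : ℕ, δ ≤ 1 ∧ δ + b + c ≤ N ∧ h = gen ε δ b c}

/-- `f = a M ^ 4 +` (generators of level `≤ 4` with `c ≤ 3`), `a ≠ 0` -/
def Full (ε : ℝ) (f : R2) : Prop :=
  ∃ a : ℝ, a ≠ 0 ∧
    f - C a * Mq ε ^ 4 ∈
      Submodule.span ℝ {h | ∃ δ b c : ℕ, δ ≤ 1 ∧ δ + b + c ≤ 4 ∧ c ≤ 3 ∧ h = gen ε δ b c}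

/-- dimension of the space of multiples of `c` in `PN ε N` -/
noncomputable def dc (ε : ℝ) (c : R2) (N : ℕ) : ℕ :=
  Module.finrank ℝ ↥(PN ε N ⊓ (Ideal.span {c}).restrictScalars ℝ)

/-- slope bound: `σ N ≤ dim (PN N / multiples of c) + K` -/
def SL (ε : ℝ) (c : R2) (σ : ℕ) : Prop :=
  ∃ K : ℕ, ∀ N : ℕ, σ * N + dc ε c N ≤ (N + 1) ^ 2 + K

/-- an immersed plane arc -/
def Imm (γ : Fin 2 → U1) : Prop := (γ 0).coeff 1 ≠ 0 ∨ (γ 1).coeff 1 ≠ 0

/-- `(y,z) ↦ γ(t) + u t ^ i v`, `v` = rotated velocity; the outer variable is `t`, the inner is `u` -/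
noncomputable def Phi (γ : Fin 2 → U1) (i : ℕ) : R2 →ₐ[ℝ] Polynomial U1 :=
  aeval ![(γ 0).map Polynomial.C -
      Polynomial.C (Polynomial.C ((γ 1).coeff 1) * Polynomial.X) * Polynomial.X ^ i,
    (γ 1).map Polynomial.C +
      Polynomial.C (Polynomial.C ((γ 0).coeff 1) * Polynomial.X) * Polynomial.X ^ i]

/-- functions of weighted order `≥ m` along the arc -/
noncomputable def Iw (γ : Fin 2 → U1) (i m : ℕ) : Ideal R2 :=
  Ideal.comap (Phi γ i).toRingHom (Ideal.span {(Polynomial.X : Polynomial U1) ^ m})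

/-- restriction of a form in `(x,y,z,w)` to the chart `(1, y, z, y ^ 2 + ε z ^ 2)` -/
noncomputable def chart (ε : ℝ) : P4 →ₐ[ℝ] R2 :=
  aeval ![1, MvPolynomial.X 0, MvPolynomial.X 1, Mq ε]

/-- the quadric `x w - y ^ 2 - ε z ^ 2` in the variables `(x,y,z,w) = (X 0, X 1, X 2, X 3)` -/
noncomputable def Qe (ε : ℝ) : P4 :=
  MvPolynomial.X 0 * MvPolynomial.X 3 - MvPolynomial.X 1 ^ 2 - C ε * MvPolynomial.X 2 ^ 2

/-- configuration: immersed arcs `γ a` of length `i a` in the zeros of `F`, with projectively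
distinct base points, contained (to order `i a`) in the zero set of `Q` -/
structure Cfg {n : ℕ} {ι : Type} (F Q : MvPolynomial (Fin n) ℝ) (γ : ι → Fin n → U1)
    (i : ι → ℕ) : Prop where
  one_le : ∀ a, 1 ≤ i a
  imm : ∀ a, LinearIndependent ℝ ![at0 (γ a), vel (γ a)]
  dist : ∀ a b, a ≠ b → LinearIndependent ℝ ![at0 (γ a), at0 (γ b)]
  ordF : ∀ a, (Polynomial.X : U1) ^ (2 * i a) ∣ comp (γ a) F
  ordQ : ∀ a, (Polynomial.X : U1) ^ (i a) ∣ comp (γ a) Q

/-- all quadratic forms of order `j` along `γ` are dominated by `F` near `at0 γ` -/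
def LocalGood (F : P4) (γ : Fin 4 → U1) (j : ℕ) : Prop :=
  ∀ G : P4, G.IsHomogeneous 2 → (Polynomial.X : U1) ^ j ∣ comp γ G →
    ∃ K δ : ℝ, 0 < δ ∧ ∀ v : Fin 4 → ℝ, (∀ j, |v j - at0 γ j| < δ) →
      (eval v G) ^ 2 ≤ K * eval v F

end Pool.Agent.SBQ
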