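import Pool.Agent.SBQ.StmtsB

/-!
# SBQ, module K1: a rigid form does not vanish on a plane and at another point
-/

namespace Pool.Agent.SBQ

open MvPolynomial (eval aeval C)

namespace K1_

theorem ev_ne (c : ℝ) : ∀ᶠ t in nhdsWithin (0 : ℝ) (Set.Ioi 0), c + t ≠ 0 := by
  by_cases hc : c = 0
  · filter_upwards [self_mem_nhdsWithin] with t ht
    rw [hc, zero_add]
    exact ne_of_gt ht
  · have h1 : Filter.Tendsto (fun t : ℝ => c + t) (nhdsWithin 0 (Set.Ioi 0)) (nhds (c + 0)) := by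
      have h2 : Continuous (fun t : ℝ => c + t) := by fun_prop
      exact (h2.tendsto 0).mono_left nhdsWithin_le_nhds
    rw [add_zero] at h1
    exact h1.eventually_ne hc

/-- if `v 2 * P(v)` is nonnegative then `P` vanishes on `v 2 = 0` -/
theorem vanish (P : P3) (h : ∀ v : Fin 3 → ℝ, 0 ≤ v 2 * eval v P) (v : Fin 3 → ℝ)
    (hv : v 2 = 0) : eval v P = 0 := by
  have hcont : Continuous (fun t : ℝ => eval (v + t • (Pi.single 2 1 : Fin 3 → ℝ)) P) := by
    have : Continuous (fun t : ℝ => v + t • (Pi.single 2 1 : Fin 3 → ℝ)) := by fun_prop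
    exact (MvPolynomial.continuous_eval P).comp this
  have hlim : Filter.Tendsto (fun t : ℝ => eval (v + t • (Pi.single 2 1 : Fin 3 → ℝ)) P)
      (nhds 0) (nhds (eval v P)) := by
    have := hcont.tendsto 0
    simpa using this
  have hval : ∀ t : ℝ, 0 ≤ t * eval (v + t • (Pi.single 2 1 : Fin 3 → ℝ)) P := by
    intro t
    have := h (v + t • (Pi.single 2 1 : Fin 3 → ℝ))
    have e : (v + t • (Pi.single 2 1 : Fin 3 → ℝ)) 2 = t := by simp [hv]
    rwa [e] at this
  apply le_antisymm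
  · have h1 := hlim.mono_left (nhdsWithin_le_nhds (s := Set.Iio 0))
    refine le_of_tendsto h1 ?_
    filter_upwards [self_mem_nhdsWithin] with t ht
    have ht' : t < 0 := ht
    by_contra hcon
    push Not at hcon
    have := hval t
    nlinarith
  · have h1 := hlim.mono_left (nhdsWithin_le_nhds (s := Set.Ioi 0))
    refine ge_of_tendsto h1 ?_
    filter_upwards [self_mem_nhdsWithin] with t ht
    have ht' : 0 < t := ht
    by_contra hcon
    push Not at hcon
    have := hval t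
    nlinarith

/-- nonnegativity of the biquadratic form -/
theorem nonneg (A q r : P3) (hA : A.IsHomogeneous 2) (hq : q.IsHomogeneous 2)
    (hr : r.IsHomogeneous 2)
    (h : ∀ (w : ℝ) (v : Fin 3 → ℝ), 0 ≤ w ^ 2 * eval v A + 2 * w * (v 2 * eval v q) +
      v 2 * (v 2 * eval v r)) (v : Fin 3 → ℝ) (s t : ℝ) :
    0 ≤ s ^ 2 * eval v A + 2 * s * t * eval v q + t ^ 2 * eval v r := by
  have key : ∀ (v : Fin 3 → ℝ) (t : ℝ), v 2 ≠ 0 → t ≠ 0 →
      0 ≤ s ^ 2 * eval v A + 2 * s * t * eval v q + t ^ 2 * eval v r := by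
    intro v t hv ht
    have h1 := h s ((t / v 2) • v)
    rw [hom_smul hA, hom_smul hq, hom_smul hr] at h1
    have e : ((t / v 2) • v) 2 = t := by
      simp [hv]
    rw [e] at h1
    have h2 : s ^ 2 * ((t / v 2) ^ 2 * eval v A) + 2 * s * (t * ((t / v 2) ^ 2 * eval v q)) +
        t * (t * ((t / v 2) ^ 2 * eval v r)) =
        (t / v 2) ^ 2 * (s ^ 2 * eval v A + 2 * s * t * eval v q + t ^ 2 * eval v r) := by ring
    rw [h2] at h1
    have h3 : 0 < (t / v 2) ^ 2 := by
      have : t / v 2 ≠ 0 := div_ne_zero ht hv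
      positivity
    exact nonneg_of_mul_nonneg_right h1 h3
  set e2 : Fin 3 → ℝ := Pi.single 2 1 with he2
  have hc : ∀ P : P3, Continuous (fun t : ℝ => eval (v + t • e2) P) := by
    intro P
    have : Continuous (fun t : ℝ => v + t • e2) := by fun_prop
    exact (MvPolynomial.continuous_eval P).comp this
  have hcont : Continuous (fun x : ℝ => s ^ 2 * eval (v + x • e2) A +
      2 * s * (t + x) * eval (v + x • e2) q + (t + x) ^ 2 * eval (v + x • e2) r) := by
    have h1 := hc A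
    have h2 := hc q
    have h3 := hc r
    fun_prop
  have hlim : Filter.Tendsto (fun x : ℝ => s ^ 2 * eval (v + x • e2) A +
      2 * s * (t + x) * eval (v + x • e2) q + (t + x) ^ 2 * eval (v + x • e2) r)
      (nhdsWithin 0 (Set.Ioi 0))
      (nhds (s ^ 2 * eval v A + 2 * s * t * eval v q + t ^ 2 * eval v r)) := by
    have := (hcont.tendsto 0).mono_left (nhdsWithin_le_nhds (s := Set.Ioi 0))
    simpa using this
  refine ge_of_tendsto hlim ?_
  filter_upwards [ev_ne (v 2), ev_ne t] with x hx1 hx2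
  refine key _ _ ?_ hx2
  have e : (v + x • e2) 2 = v 2 + x := by simp [he2]
  rw [e]
  exact hx1

end K1_

theorem k1_proof (hXP : Stmt_XP) (hLD : Stmt_LD) (hCL : Stmt_CL) : Stmt_K1 := by
  intro F hF he0 hplane
  obtain ⟨A, B, D, hE⟩ := hXP 3 F hF.1 hF.2.1 he0
  obtain ⟨hApsd, hDpsd, hBsq⟩ := hE.facts hF.2.1
  have hD0 : ∀ v : Fin 3 → ℝ, v 2 = 0 → eval v D = 0 := by
    intro v hv
    have h1 := hplane (v 0) (v 1)
    have h2 : (![0, v 0, v 1, 0] : Fin 4 → ℝ) = (Fin.cons 0 v : Fin 4 → ℝ) := by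
      funext j
      fin_cases j
      · rfl
      · rfl
      · rfl
      · exact hv.symm
    rw [h2, hE.2.2.2] at h1
    linarith
  have hB0 : ∀ v : Fin 3 → ℝ, v 2 = 0 → eval v B = 0 := by
    intro v hv
    have h1 := hBsq v
    rw [hD0 v hv, mul_zero] at h1
    exact pow_eq_zero_iff (two_ne_zero) |>.mp (le_antisymm h1 (sq_nonneg _))
  have hX2h : (MvPolynomial.X 2 : P3).IsHomogeneous 1 := MvPolynomial.isHomogeneous_X ℝ 2
  have hX2n : (MvPolynomial.X 2 : P3) ≠ 0 := MvPolynomial.X_ne_zero 2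
  obtain ⟨q, hq, hBq⟩ := hLD 3 (MvPolynomial.X 2) B 2 hX2h hX2n hE.2.1 (by
    intro v hv
    rw [MvPolynomial.eval_X] at hv
    exact hB0 v hv)
  obtain ⟨D1, hD1, hDD⟩ := hLD 3 (MvPolynomial.X 2) D 3 hX2h hX2n hE.2.2.1 (by
    intro v hv
    rw [MvPolynomial.eval_X] at hv
    exact hD0 v hv)
  obtain ⟨r, hr, hD1r⟩ := hLD 3 (MvPolynomial.X 2) D1 2 hX2h hX2n hD1 (by
    intro v hv
    rw [MvPolynomial.eval_X] at hv
    refine K1_.vanish D1 (fun u => ?_) v hv
    have := hDpsd u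
    rw [hDD, map_mul, MvPolynomial.eval_X] at this
    exact this)
  have hval : ∀ (w : ℝ) (v : Fin 3 → ℝ), eval (Fin.cons w v : Fin 4 → ℝ) F =
      w ^ 2 * eval v A + 2 * w * (v 2 * eval v q) + v 2 * (v 2 * eval v r) := by
    intro w v
    rw [hE.2.2.2, hBq, hDD, hD1r]
    simp only [map_mul, MvPolynomial.eval_X]
  have hPhi : ∀ (v : Fin 3 → ℝ) (s t : ℝ),
      0 ≤ s ^ 2 * eval v A + 2 * s * t * eval v q + t ^ 2 * eval v r :=
    K1_.nonneg A q r hE.1 hq hr (fun w v => by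
      rw [← hval]
      exact hF.2.1 _)
  have hne : A ≠ 0 ∨ q ≠ 0 ∨ r ≠ 0 := by
    by_contra hcon
    push Not at hcon
    obtain ⟨h1, h2, h3⟩ := hcon
    apply hF.2.2.1
    apply MvPolynomial.funext
    intro x
    have h4 := hval (x 0) (Fin.tail x)
    rw [Fin.cons_self_tail, h1, h2, h3] at h4
    rw [h4]
    simp
  obtain ⟨l, m, hl, hm, hlm, hle⟩ := hCL 3 A q r hE.1 hq hr hPhi hne
  refine Rig.absurd hF hl (m := MvPolynomial.X 2 * m) (hX2h.mul hm) ?_ ?_
  · rcases hlm with h | h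
    · exact Or.inl h
    · exact Or.inr (mul_ne_zero hX2n h)
  · intro w v
    rw [hval, map_mul, MvPolynomial.eval_X]
    have := hle v w (v 2)
    nlinarith

end Pool.Agent.SBQ
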