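import Pool.Agent.SBQ.StmtsB

/-!
# SBQ module NA: normal form of quadrics
-/

namespace Pool.Agent.SBQ

open MvPolynomial (eval aeval C)

namespace NA_

/-- Sylvester's law for a quadratic form in four variables -/
theorem sylvester (Q : P4) (hQ : Q.IsHomogeneous 2) :
    ∃ (T : (Fin 4 → ℝ) ≃ₗ[ℝ] (Fin 4 → ℝ)) (s : Fin 4 → ℝ),
      (∀ j, s j = 0 ∨ s j = 1 ∨ s j = -1) ∧ ∀ x, eval (T x) Q = ∑ j, s j * x j ^ 2 := by
  obtain ⟨q, hq⟩ := exists_quadraticForm hQ
  obtain ⟨w, ⟨e⟩⟩ := QuadraticForm.equivalent_signType_weighted_sum_squared q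
  have hn : Module.finrank ℝ (Fin 4 → ℝ) = 4 := by simp
  let r : Fin (Module.finrank ℝ (Fin 4 → ℝ)) ≃ Fin 4 := finCongr hn
  let R : (Fin (Module.finrank ℝ (Fin 4 → ℝ)) → ℝ) ≃ₗ[ℝ] (Fin 4 → ℝ) :=
    LinearEquiv.funCongrLeft ℝ ℝ r.symm
  refine ⟨(e.toLinearEquiv.trans R).symm, fun j => ((w (r.symm j) : SignType) : ℝ), ?_, ?_⟩
  · intro j
    rcases hw : w (r.symm j) with _ | _ | _
    · left; exact congrArg (fun a : SignType => (a : ℝ)) hw |>.trans (by simp)
    · right; right; exact congrArg (fun a : SignType => (a : ℝ)) hw |>.trans (by simp)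
    · right; left; exact congrArg (fun a : SignType => (a : ℝ)) hw |>.trans (by simp)
  · intro x
    have h1 : (e.toLinearEquiv.trans R).symm x = e.toLinearEquiv.symm (R.symm x) := rfl
    rw [h1, hq]
    have h2 : q (e.toLinearEquiv.symm (R.symm x)) =
        QuadraticMap.weightedSumSquares ℝ (fun i => ((w i : SignType) : ℝ)) (R.symm x) := by
      have := e.map_app (e.toLinearEquiv.symm (R.symm x))
      rw [← this]
      congr 1
      exact e.toLinearEquiv.apply_symm_apply _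
    rw [h2, QuadraticMap.weightedSumSquares_apply]
    rw [← Equiv.sum_comp r]
    apply Finset.sum_congr rfl
    intro i _
    have h3 : R.symm x i = x (r i) := rfl
    rw [h3]
    simp only [Equiv.symm_apply_apply, smul_eq_mul, pow_two]

theorem exists_fourth : ∀ i j k : Fin 4, ∃ l : Fin 4, l ≠ i ∧ l ≠ j ∧ l ≠ k := by decide

theorem exists_perm (i j k : Fin 4) (hij : i ≠ j) (hik : i ≠ k) (hjk : j ≠ k) :
    ∃ σ : Equiv.Perm (Fin 4), σ 0 = i ∧ σ 1 = j ∧ σ 2 = k := by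
  obtain ⟨l, hl1, hl2, hl3⟩ := exists_fourth i j k
  have hinj : Function.Injective ![i, j, k, l] := by
    intro a b hab
    fin_cases a <;> fin_cases b <;> simp_all
  exact ⟨Equiv.ofBijective _ (Finite.injective_iff_bijective.1 hinj), rfl, rfl, rfl⟩

/-- reindexed form -/
theorem reindexed (Q : P4) (T : (Fin 4 → ℝ) ≃ₗ[ℝ] (Fin 4 → ℝ)) (s : Fin 4 → ℝ)
    (h : ∀ x, eval (T x) Q = ∑ j, s j * x j ^ 2) (σ : Equiv.Perm (Fin 4)) :
    ∃ T' : (Fin 4 → ℝ) ≃ₗ[ℝ] (Fin 4 → ℝ), ∀ x, eval (T' x) Q = ∑ j, s (σ j) * x j ^ 2 := by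
  refine ⟨(LinearEquiv.funCongrLeft ℝ ℝ σ.symm).trans T, ?_⟩
  intro x
  have h1 : ((LinearEquiv.funCongrLeft ℝ ℝ σ.symm).trans T) x =
    T (fun j => x (σ.symm j)) := rfl
  rw [h1, h, ← Equiv.sum_comp σ]
  simp

/-- the change of coordinates -/
theorem exists_final (κ : ℝ) (hκ : κ * κ = 1) :
    ∃ T : (Fin 4 → ℝ) ≃ₗ[ℝ] (Fin 4 → ℝ), ∀ v : Fin 4 → ℝ,
      T v = ![(v 3 + κ * v 0) / 2, (v 3 - κ * v 0) / 2, v 1, v 2] := by
  refine ⟨LinearEquiv.ofLinearMap
    { toFun := fun v => ![(v 3 + κ * v 0) / 2, (v 3 - κ * v 0) / 2, v 1, v 2]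
      map_add' := fun u v => ?_
      map_smul' := fun s v => ?_ }
    { toFun := fun v => ![κ * (v 0 - v 1), v 2, v 3, v 0 + v 1]
      map_add' := fun u v => ?_
      map_smul' := fun s v => ?_ } ?_ ?_, fun v => rfl⟩
  · funext j
    fin_cases j <;> simp <;> ring
  · funext j
    fin_cases j <;> simp <;> ring
  · funext j
    fin_cases j <;> simp <;> ring
  · funext j
    fin_cases j <;> simp <;> ring
  · apply LinearMap.ext
    intro v
    funext j
    fin_cases j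
    · simp; linear_combination (v 0 - v 1) / 2 * hκ
    · simp; linear_combination (v 1 - v 0) / 2 * hκ
    · simp
    · simp
  · apply LinearMap.ext
    intro v
    funext j
    fin_cases j
    · simp; linear_combination (v 0) * hκ
    · simp
    · simp
    · simp; ring

end NA_

open NA_ in
theorem na_proof : Stmt_NA := by
  intro Q hQ hn hn' hprod
  obtain ⟨T, s, hs, hT⟩ := sylvester Q hQ
  -- an index with `s = 1`
  have hi : ∃ i, s i = 1 := by
    by_contra hcon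
    push Not at hcon
    apply hn'
    intro v
    have h1 := hT (T.symm v)
    rw [LinearEquiv.apply_symm_apply] at h1
    rw [map_neg, h1, ← Finset.sum_neg_distrib]
    apply Finset.sum_nonneg
    intro j _
    rcases hs j with h | h | h
    · rw [h]; simp
    · exact absurd h (hcon j)
    · rw [h]; nlinarith [sq_nonneg ((T.symm v) j)]
  have hj : ∃ j, s j = -1 := by
    by_contra hcon
    push Not at hcon
    apply hn
    intro v
    have h1 := hT (T.symm v)
    rw [LinearEquiv.apply_symm_apply] at h1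
    rw [h1]
    apply Finset.sum_nonneg
    intro j _
    rcases hs j with h | h | h
    · rw [h]; simp
    · rw [h]; nlinarith [sq_nonneg ((T.symm v) j)]
    · exact absurd h (hcon j)
  obtain ⟨i, hi⟩ := hi
  obtain ⟨j, hj⟩ := hj
  have hij : i ≠ j := by
    rintro rfl
    rw [hi] at hj
    norm_num at hj
  -- a third index
  have hk : ∃ k, k ≠ i ∧ k ≠ j ∧ s k ≠ 0 := by
    by_contra hcon
    push Not at hcon
    obtain ⟨φ, hφ, hφ2⟩ := exists_hom1
      (((LinearMap.proj i : (Fin 4 → ℝ) →ₗ[ℝ] ℝ) - (LinearMap.proj j : (Fin 4 → ℝ) →ₗ[ℝ] ℝ)) ∘ₗ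
        (T.symm : (Fin 4 → ℝ) →ₗ[ℝ] (Fin 4 → ℝ)))
    obtain ⟨ψ, hψ, hψ2⟩ := exists_hom1
      (((LinearMap.proj i : (Fin 4 → ℝ) →ₗ[ℝ] ℝ) + (LinearMap.proj j : (Fin 4 → ℝ) →ₗ[ℝ] ℝ)) ∘ₗ
        (T.symm : (Fin 4 → ℝ) →ₗ[ℝ] (Fin 4 → ℝ)))
    apply hprod φ ψ hφ hψ
    apply MvPolynomial.funext
    intro v
    have h1 := hT (T.symm v)
    rw [LinearEquiv.apply_symm_apply] at h1
    rw [map_mul, hφ2, hψ2, h1]
    have h2 : ∑ a, s a * (T.symm v) a ^ 2 = s i * (T.symm v) i ^ 2 + s j * (T.symm v) j ^ 2 := by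
      rw [← Finset.sum_subset (Finset.subset_univ ({i, j} : Finset (Fin 4)))]
      · rw [Finset.sum_pair hij]
      · intro a _ ha
        simp only [Finset.mem_insert, Finset.mem_singleton, not_or] at ha
        rw [hcon a ha.1 ha.2, zero_mul]
    rw [h2, hi, hj]
    simp
    ring
  obtain ⟨k, hki, hkj, hk0⟩ := hk
  obtain ⟨σ, hσ0, hσ1, hσ2⟩ := exists_perm i j k hij hki.symm hkj.symm
  obtain ⟨T', hT'⟩ := reindexed Q T s hT σ
  have hκ : (-s k) * (-s k) = 1 := by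
    rcases hs k with h | h | h
    · exact absurd h hk0
    · rw [h]; norm_num
    · rw [h]; norm_num
  obtain ⟨T'', hT''⟩ := exists_final (-s k) hκ
  refine ⟨T''.trans T', -s k, s (σ 3) * s k, ?_, ?_⟩
  · intro h
    rw [h] at hκ
    norm_num at hκ
  · apply MvPolynomial.funext
    intro v
    rw [eval_pull]
    have h1 : ((T''.trans T' : (Fin 4 → ℝ) ≃ₗ[ℝ] (Fin 4 → ℝ)) : (Fin 4 → ℝ) →ₗ[ℝ] (Fin 4 → ℝ)) v =
        T' (T'' v) := rfl
    rw [h1, hT', hT'', Fin.sum_univ_four, hσ0, hσ1, hσ2, hi, hj]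
    simp [Qe]
    linear_combination (-(s (σ 3) * v 2 ^ 2)) * hκ

end Pool.Agent.SBQ
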