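import Pool.Agent.SBQ.StmtsA

set_option autoImplicit false

/-!
# SBQ, PU: slope at least one for a nonconstant polynomial
-/

namespace Pool.Agent.SBQ.PU_

open MvPolynomial (eval aeval C)
open Pool.Agent.SBQ

noncomputable section

/-- Polynomials in one of the two variables. -/
def emb (i : Fin 2) : Polynomial ℝ →ₐ[ℝ] R2 := Polynomial.aeval (MvPolynomial.X i)

lemma emb_inj (i : Fin 2) : Function.Injective (emb i) :=
  transcendental_iff_injective.1 (MvPolynomial.transcendental_X ℝ i)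

lemma emb_deg (i k : Fin 2) (hik : k ≠ i) (p : Polynomial ℝ) :
    MvPolynomial.degreeOf k (emb i p) = 0 := by
  unfold emb
  rw [Polynomial.aeval_eq_sum_range]
  refine Nat.eq_zero_of_le_zero ((MvPolynomial.degreeOf_sum_le k _ _).trans ?_)
  refine Finset.sup_le fun j _ => ?_
  rw [MvPolynomial.smul_eq_C_mul]
  refine (MvPolynomial.degreeOf_C_mul_le _ _ _).trans ?_
  rw [MvPolynomial.degreeOf_X_pow_of_ne j hik]

lemma deg_of_dvd (i k : Fin 2) (hik : k ≠ i) (c : R2) (hc : c ≠ 0) (p : Polynomial ℝ)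
    (hp : p ≠ 0) (hd : c ∣ emb i p) : MvPolynomial.degreeOf k c = 0 := by
  obtain ⟨e, he⟩ := hd
  have h1 : emb i p ≠ 0 := fun h => hp (emb_inj i (h.trans (map_zero _).symm))
  have he0 : e ≠ 0 := by
    rintro rfl
    rw [mul_zero] at he
    exact h1 he
  have h2 := MvPolynomial.degreeOf_mul_eq (n := k) hc he0
  rw [← he, emb_deg i k hik p] at h2
  omega

lemma const_of_deg (c : R2) (h : ∀ k, MvPolynomial.degreeOf k c = 0) (hc : c ≠ 0) :
    IsUnit c := by
  have h1 : c.vars = ∅ := by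
    rw [Finset.eq_empty_iff_forall_notMem]
    intro i hi
    exact (MvPolynomial.mem_vars_iff_degreeOf_ne_zero.1 hi) (h i)
  have h2 := MvPolynomial.vars_eq_empty_iff_eq_C.1 h1
  have h3 : c.coeff 0 ≠ 0 := by
    intro h4
    rw [h4, map_zero] at h2
    exact hc h2
  rw [h2]
  exact (isUnit_iff_ne_zero.2 h3).map C

lemma exists_dir (c : R2) (hc : c ≠ 0) (hu : ¬ IsUnit c) :
    ∃ i : Fin 2, ∀ p : Polynomial ℝ, c ∣ emb i p → p = 0 := by
  by_contra hcon
  push Not at hcon
  apply hu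
  refine const_of_deg c (fun k => ?_) hc
  obtain ⟨p, hd, hp⟩ := hcon (1 - k)
  refine deg_of_dvd (1 - k) k ?_ c hc p hp hd
  fin_cases k <;> simp

lemma pow_mem (hA : Stmt_PA) (ε : ℝ) (i : Fin 2) (j : ℕ) :
    (MvPolynomial.X i : R2) ^ j ∈ PN ε j := by
  obtain ⟨hmono, hmul, hCc, h0, h1, _, _⟩ := hA ε
  have hi : (MvPolynomial.X i : R2) ∈ PN ε 1 := by
    fin_cases i
    · exact h0
    · exact h1
  induction j with
  | zero =>
    rw [pow_zero, ← map_one (C : ℝ →+* R2)]
    exact hCc 1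
  | succ j ih =>
    rw [pow_succ]
    exact hmul j 1 _ _ ih hi

end

end Pool.Agent.SBQ.PU_

namespace Pool.Agent.SBQ

open PU_

theorem pu_proof (hA : Stmt_PA) (hD : Stmt_PD) : Stmt_PU := by
  intro ε c N hc hu
  obtain ⟨hfin, hrank⟩ := hD ε N
  obtain ⟨i, hi⟩ := exists_dir c hc hu
  let Y : Submodule ℝ R2 := (Polynomial.degreeLT ℝ (N + 1)).map (emb i).toLinearMap
  have hY : Module.finrank ℝ Y = N + 1 := by
    have h1 : Module.finrank ℝ Y = Module.finrank ℝ (Polynomial.degreeLT ℝ (N + 1)) :=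
      (Submodule.equivMapOfInjective (emb i).toLinearMap (emb_inj i)
        (Polynomial.degreeLT ℝ (N + 1))).finrank_eq.symm
    rw [h1, (Polynomial.degreeLTEquiv ℝ (N + 1)).finrank_eq, Module.finrank_fin_fun]
  have hYP : Y ≤ PN ε N := by
    rintro _ ⟨p, hp, rfl⟩
    have h2 : (emb i) p = ∑ j ∈ Finset.range (p.natDegree + 1),
        p.coeff j • (MvPolynomial.X i : R2) ^ j := Polynomial.aeval_eq_sum_range _
    change (emb i) p ∈ PN ε N
    rw [h2]
    refine Submodule.sum_mem _ fun j _ => ?_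
    by_cases hj : p.coeff j = 0
    · rw [hj, zero_smul]
      exact Submodule.zero_mem _
    · refine Submodule.smul_mem _ _ ((hA ε).1 j N ?_ (pow_mem hA ε i j))
      have h3 := (Polynomial.mem_degreeLT.1 hp)
      have h4 : (j : WithBot ℕ) < ((N + 1 : ℕ) : WithBot ℕ) :=
        lt_of_le_of_lt (Polynomial.le_degree_of_ne_zero hj) h3
      exact Nat.lt_succ_iff.1 (by exact_mod_cast h4)
  let M : Submodule ℝ R2 := PN ε N ⊓ (Ideal.span {c}).restrictScalars ℝ
  have hYM : Y ⊓ M = ⊥ := by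
    rw [eq_bot_iff]
    rintro _ ⟨⟨p, _, rfl⟩, _, hp2⟩
    have h5 : c ∣ emb i p := Ideal.mem_span_singleton.1 hp2
    rw [hi p h5]
    exact map_zero _
  have : Module.Finite ℝ (PN ε N) := hfin
  have : FiniteDimensional ℝ M := Submodule.finiteDimensional_of_le inf_le_left
  have : FiniteDimensional ℝ Y := Submodule.finiteDimensional_of_le hYP
  have h6 := Submodule.finrank_sup_add_finrank_inf_eq Y M
  rw [hYM, finrank_bot, add_zero, hY] at h6
  have h7 : Module.finrank ℝ ↥(Y ⊔ M) ≤ Module.finrank ℝ ↥(PN ε N) :=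
    Submodule.finrank_mono (sup_le hYP inf_le_left)
  rw [hrank, h6] at h7
  exact h7

end Pool.Agent.SBQ
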