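import Pool.Agent.SBQ.Base

/-!
# SBQ: statements, part A (the plane theorem)
-/

namespace Pool.Agent.SBQ

open MvPolynomial (eval aeval C)

/-! ### A1. the spaces `PN` -/

def Stmt_PA : Prop := ∀ ε : ℝ,
  (∀ N N' : ℕ, N ≤ N' → PN ε N ≤ PN ε N') ∧
  (∀ (N N' : ℕ) (h h' : R2), h ∈ PN ε N → h' ∈ PN ε N' → h * h' ∈ PN ε (N + N')) ∧
  (∀ a : ℝ, (C a : R2) ∈ PN ε 0) ∧
  (MvPolynomial.X 0 : R2) ∈ PN ε 1 ∧ (MvPolynomial.X 1 : R2) ∈ PN ε 1 ∧ Mq ε ∈ PN ε 1 ∧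
  (∀ h : R2, ∃ N : ℕ, h ∈ PN ε N)

/-- the generators are linearly independent -/
def Stmt_PI : Prop := ∀ ε : ℝ,
  LinearIndependent ℝ (fun p : Fin 2 × ℕ × ℕ => gen ε (p.1 : ℕ) p.2.1 p.2.2)

def Stmt_PD : Prop := ∀ (ε : ℝ) (N : ℕ),
  Module.Finite ℝ (PN ε N) ∧ Module.finrank ℝ (PN ε N) = (N + 1) ^ 2

def Stmt_PF : Prop := ∀ (ε : ℝ) (f : R2), Full ε f →
  f ≠ 0 ∧ (∀ (N : ℕ) (e : R2), f * e ∈ PN ε (N + 4) → e ∈ PN ε N) ∧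
    (∀ e : R2, f * e ∈ PN ε 3 → e = 0)

def Stmt_PT : Prop := ∀ (ε : ℝ) (c h : R2), Psd c → ¬ IsUnit c → c ∣ h → h ∈ PN ε 1 → h ≠ 0 →
  ∃ a : ℝ, h = C a * c

def Stmt_PU : Prop := ∀ (ε : ℝ) (c : R2) (N : ℕ), c ≠ 0 → ¬ IsUnit c →
  (N + 1) + dc ε c N ≤ (N + 1) ^ 2

def Stmt_PM : Prop := ∀ (ε : ℝ) (s N : ℕ) (c c' : R2), c ∈ PN ε s → c ≠ 0 →
  dc ε (c * c') (N + s) + (N + 1) ^ 2 ≤ dc ε c (N + s) + dc ε c' N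

def Stmt_PH : Prop := ∀ (ε : ℝ) (r N : ℕ) (c h : R2), c ∣ h → h ∈ PN ε r → h ≠ 0 →
  (N + 1) ^ 2 ≤ dc ε c (N + r)

def Stmt_PG : Prop := ∀ (ε : ℝ) (f : R2), f ∈ PN ε 4 → Full ε f →
  ∀ N : ℕ, dc ε f (N + 4) = (N + 1) ^ 2

def Stmt_SM : Prop := ∀ (ε : ℝ) (c c' : R2) (σ σ' : ℕ), c ≠ 0 →
  SL ε c σ → SL ε c' σ' → SL ε (c * c') (σ + σ')

def Stmt_S8 : Prop := ∀ (ε : ℝ) (f : R2) (σ : ℕ), f ∈ PN ε 4 → Full ε f → SL ε f σ → σ ≤ 8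

/-! ### A2. arcs and weighted orders -/

def Stmt_T1 : Prop := ∀ (n : ℕ) (F : MvPolynomial (Fin n) ℝ) (γ δ : Fin n → U1) (i : ℕ),
  Psd F → (Polynomial.X : U1) ^ (2 * i) ∣ comp γ F →
  (∀ j, (Polynomial.X : U1) ^ i ∣ δ j) →
  (Polynomial.X : Polynomial U1) ^ (2 * i) ∣
    (aeval (fun j => (γ j).map Polynomial.C +
      Polynomial.C Polynomial.X * (δ j).map Polynomial.C) F : Polynomial U1)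

def Stmt_T2 : Prop := ∀ (n : ℕ) (F : MvPolynomial (Fin n) ℝ) (γ δ : Fin n → U1) (i : ℕ),
  Psd F → (Polynomial.X : U1) ^ (2 * i) ∣ comp γ F →
  (∀ j, (Polynomial.X : U1) ^ i ∣ δ j) →
  (Polynomial.X : U1) ^ (2 * i) ∣ comp (fun j => γ j + δ j) F

def Stmt_O1 : Prop := ∀ (c : R2) (γ : Fin 2 → U1) (i i' : ℕ), Psd c →
  (Polynomial.X : U1) ^ (2 * i) ∣ comp γ c → i' ≤ i → c ∈ Iw γ i' (2 * i')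

def Stmt_O2 : Prop := ∀ (f g : R2) (γ : Fin 2 → U1) (i k : ℕ),
  (∀ v, (eval v g) ^ 2 ≤ (eval v f) ^ k) → f ∈ Iw γ i (2 * i) → g ∈ Iw γ i (k * i)

def Stmt_O3 : Prop := ∀ (h : R2) (γ : Fin 2 → U1) (i : ℕ),
  (Polynomial.X : U1) ^ i ∣ comp γ h → h ∈ Iw γ i i

/-- normal form: after an automorphism of the plane `Iw γ i m` is the monomial ideal of
weighted order `≥ m`, weights `(1, i)` -/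
def Stmt_WN : Prop := ∀ (γ : Fin 2 → U1) (i m : ℕ), Imm γ → 1 ≤ i →
  ∃ θ : R2 ≃ₐ[ℝ] R2, ∀ h : R2, θ h ∈ Iw γ i m ↔ ∀ d ∈ h.support, m ≤ d 0 + i * d 1

def Stmt_W1 : Prop := ∀ (γ : Fin 2 → U1) (i m : ℕ), Imm γ → 1 ≤ i →
  Module.Finite ℝ (R2 ⧸ Iw γ i m) ∧
    Module.finrank ℝ (R2 ⧸ Iw γ i m) = ∑ a ∈ Finset.range (m + 1), (m - i * a)

def Stmt_W2 : Prop := ∀ (γ γ' : Fin 2 → U1) (i i' m m' : ℕ), 1 ≤ i → 1 ≤ i' →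
  at0 γ ≠ at0 γ' → Iw γ i m ⊔ Iw γ' i' m' = ⊤

/-- a family of immersed plane arcs with distinct base points -/
structure Fam {ι : Type} (γ : ι → Fin 2 → U1) (i : ι → ℕ) : Prop where
  one_le : ∀ a, 1 ≤ i a
  imm : ∀ a, Imm (γ a)
  dist : ∀ a b, a ≠ b → at0 (γ a) ≠ at0 (γ b)

def Stmt_W3 : Prop := ∀ (ι : Type) [Fintype ι] (γ : ι → Fin 2 → U1) (i m : ι → ℕ), Fam γ i →
  Module.Finite ℝ (R2 ⧸ (⨅ a, Iw (γ a) (i a) (m a))) ∧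
    Module.finrank ℝ (R2 ⧸ (⨅ a, Iw (γ a) (i a) (m a))) =
      ∑ a, ∑ b ∈ Finset.range (m a + 1), (m a - i a * b)

def Stmt_W4 : Prop := ∀ (ι : Type) [Fintype ι] (γ : ι → Fin 2 → U1) (i : ι → ℕ) (k : ℕ)
  (c h : R2), Fam γ i → 1 ≤ k → (∀ a, c ∈ Iw (γ a) (i a) (2 * i a)) →
  (∀ a, h ∈ Iw (γ a) (i a) (k * i a)) →
  Module.Finite ℝ (R2 ⧸ (Ideal.span {c, h} ⊔ ⨅ a, Iw (γ a) (i a) ((k + 1) * i a))) ∧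
    2 * k * ∑ a, i a ≤
      Module.finrank ℝ (R2 ⧸ (Ideal.span {c, h} ⊔ ⨅ a, Iw (γ a) (i a) ((k + 1) * i a)))

def Stmt_E1 : Prop := ∀ (ε : ℝ) (J : Submodule ℝ R2), Module.Finite ℝ (R2 ⧸ J) →
  ∃ N0 : ℕ, ∀ N, N0 ≤ N → PN ε N ⊔ J = ⊤

def Stmt_W5 : Prop := ∀ (ε : ℝ) (c h : R2) (r k : ℕ) (ι : Type) [Fintype ι]
  (γ : ι → Fin 2 → U1) (i : ι → ℕ), Prime c → h ∈ PN ε r → ¬ c ∣ h → 1 ≤ k → Fam γ i →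
  (∀ a, c ∈ Iw (γ a) (i a) (2 * i a)) → (∀ a, h ∈ Iw (γ a) (i a) (k * i a)) →
  ∃ N0 : ℕ, ∀ N, N0 ≤ N →
    dc ε c (N + r) + (N + 1) ^ 2 + 2 * k * ∑ a, i a ≤ (N + r + 1) ^ 2 + dc ε c N

def Stmt_NM : Prop := ∀ (r τ N0 : ℕ) (D : ℕ → ℕ), 1 ≤ r → (∀ N, D N ≤ (N + 1) ^ 2) →
  (∀ N, N0 ≤ N → D (N + r) + (N + 1) ^ 2 + τ ≤ (N + r + 1) ^ 2 + D N) →
  ∃ K : ℕ, ∀ N, τ * N + r * D N ≤ r * (N + 1) ^ 2 + K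

def Stmt_AX : Prop := ∀ (n : ℕ) (W : Submodule ℝ (MvPolynomial (Fin n) ℝ)) (ι : Type)
  [Fintype ι] (γ : ι → Fin n → U1) (e : ι → ℕ), Module.Finite ℝ W →
  (∑ a, e a < Module.finrank ℝ W →
    ∃ h ∈ W, h ≠ 0 ∧ ∀ a, (Polynomial.X : U1) ^ (e a) ∣ comp (γ a) h) ∧
  (∑ a, e a + 1 < Module.finrank ℝ W → ∀ c : MvPolynomial (Fin n) ℝ,
    ∃ h ∈ W, (∀ s : ℝ, h ≠ C s * c) ∧ ∀ a, (Polynomial.X : U1) ^ (e a) ∣ comp (γ a) h)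

def Stmt_SG : Prop := ∀ f c c' : R2, f = c * c' → Psd f → f ≠ 0 →
  {v : Fin 2 → ℝ | eval v f = 0}.Finite → (Psd c ∧ Psd c') ∨ (Psd (-c) ∧ Psd (-c'))

/-- slope of an irreducible nonnegative factor -/
def Stmt_FS : Prop := ∀ (ε : ℝ) (c : R2) (ι : Type) [Fintype ι] (γ : ι → Fin 2 → U1)
  (i : ι → ℕ), Irreducible c → Psd c → Fam γ i →
  (∀ a, (Polynomial.X : U1) ^ (2 * i a) ∣ comp (γ a) c) →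
  SL ε c (max 1 (min (∑ a, i a) 8))

/-- irreducibility -/
def Stmt_IR : Prop := ∀ (ε : ℝ) (f : R2) (ι : Type) [Fintype ι] (γ : ι → Fin 2 → U1)
  (i : ι → ℕ), f ∈ PN ε 4 → Full ε f → Psd f → {v : Fin 2 → ℝ | eval v f = 0}.Finite →
  Fam γ i → 9 ≤ ∑ a, i a → (∀ a, (Polynomial.X : U1) ^ (2 * i a) ∣ comp (γ a) f) →
  (∀ a, ∃ u : Fin 2 → ℝ, ¬ (Polynomial.X : U1) ^ 3 ∣ comp (ray (at0 (γ a)) u) f) →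
  Irreducible f

/-- Bezout -/
def Stmt_BZ : Prop := ∀ (ε : ℝ) (f g : R2) (ι : Type) [Fintype ι] (γ : ι → Fin 2 → U1)
  (i : ι → ℕ) (k : ℕ), f ∈ PN ε 4 → Full ε f → Prime f → Fam γ i → 9 ≤ ∑ a, i a →
  1 ≤ k → g ∈ PN ε (2 * k) → (∀ a, f ∈ Iw (γ a) (i a) (2 * i a)) →
  (∀ a, g ∈ Iw (γ a) (i a) (k * i a)) → f ∣ g

/-- the plane theorem -/
def Stmt_TW : Prop := ∀ (ε : ℝ) (f : R2) (ι : Type) [Fintype ι] (γ : ι → Fin 2 → U1)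
  (i : ι → ℕ), f ∈ PN ε 4 → Full ε f → Psd f → {v : Fin 2 → ℝ | eval v f = 0}.Finite →
  Fam γ i → 9 ≤ ∑ a, i a → (∀ a, (Polynomial.X : U1) ^ (2 * i a) ∣ comp (γ a) f) →
  (∀ a, ∃ u : Fin 2 → ℝ, ¬ (Polynomial.X : U1) ^ 3 ∣ comp (ray (at0 (γ a)) u) f) →
  ∀ (k m : ℕ) (g : Fin m → R2), Odd k → (∀ j, g j ∈ PN ε (2 * k)) →
    f ^ k ≠ ∑ j, g j ^ 2

end Pool.Agent.SBQ
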