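import Pool.Agent.SBQ.StmtsA
import Pool.Agent.SBQ.Base2

/-!
# SBQ: statements, part B (the three dimensional part)
-/

namespace Pool.Agent.SBQ

open MvPolynomial (eval aeval C)

/-! ### B1. forms below nonnegative forms -/

/-- Finsler's lemma -/
def Stmt_FN : Prop := ∀ (n : ℕ) (P Q : QuadraticForm ℝ (Fin n → ℝ)),
  (∀ v, Q v = 0 → 0 ≤ P v) → (∃ v, 0 < Q v) → (∃ v, Q v < 0) →
  ∃ lam : ℝ, ∀ v, 0 ≤ P v + lam * Q v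

/-- squares below biquadratic forms `s² A + 2 s t B + t² D`: there is a zero outside the radical -/
def Stmt_CA : Prop := ∀ (n : ℕ) (A B D : MvPolynomial (Fin n) ℝ),
  A.IsHomogeneous 2 → B.IsHomogeneous 2 → D.IsHomogeneous 2 →
  (∀ (v : Fin n → ℝ) (s t : ℝ), 0 ≤ s ^ 2 * eval v A + 2 * s * t * eval v B + t ^ 2 * eval v D) →
  (∃ (u v : Fin n → ℝ) (s t : ℝ), (s ≠ 0 ∨ t ≠ 0) ∧
    s ^ 2 * eval u A + 2 * s * t * eval u B + t ^ 2 * eval u D = 0 ∧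
    (pol A u v ≠ 0 ∨ pol B u v ≠ 0 ∨ pol D u v ≠ 0)) →
  ∃ l m : MvPolynomial (Fin n) ℝ, l.IsHomogeneous 1 ∧ m.IsHomogeneous 1 ∧ (l ≠ 0 ∨ m ≠ 0) ∧
    ∀ (v : Fin n → ℝ) (s t : ℝ), (s * eval v l + t * eval v m) ^ 2 ≤
      s ^ 2 * eval v A + 2 * s * t * eval v B + t ^ 2 * eval v D

/-- the same when all zeros are in the radical -/
def Stmt_CB : Prop := ∀ (n : ℕ) (A B D : MvPolynomial (Fin n) ℝ),
  A.IsHomogeneous 2 → B.IsHomogeneous 2 → D.IsHomogeneous 2 →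
  (∀ (v : Fin n → ℝ) (s t : ℝ), 0 ≤ s ^ 2 * eval v A + 2 * s * t * eval v B + t ^ 2 * eval v D) →
  (A ≠ 0 ∨ B ≠ 0 ∨ D ≠ 0) →
  (∀ (u v : Fin n → ℝ) (s t : ℝ), (s ≠ 0 ∨ t ≠ 0) →
    s ^ 2 * eval u A + 2 * s * t * eval u B + t ^ 2 * eval u D = 0 →
    pol A u v = 0 ∧ pol B u v = 0 ∧ pol D u v = 0) →
  ∃ l m : MvPolynomial (Fin n) ℝ, l.IsHomogeneous 1 ∧ m.IsHomogeneous 1 ∧ (l ≠ 0 ∨ m ≠ 0) ∧
    ∀ (v : Fin n → ℝ) (s t : ℝ), (s * eval v l + t * eval v m) ^ 2 ≤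
      s ^ 2 * eval v A + 2 * s * t * eval v B + t ^ 2 * eval v D

/-- both together -/
def Stmt_CL : Prop := ∀ (n : ℕ) (A B D : MvPolynomial (Fin n) ℝ),
  A.IsHomogeneous 2 → B.IsHomogeneous 2 → D.IsHomogeneous 2 →
  (∀ (v : Fin n → ℝ) (s t : ℝ), 0 ≤ s ^ 2 * eval v A + 2 * s * t * eval v B + t ^ 2 * eval v D) →
  (A ≠ 0 ∨ B ≠ 0 ∨ D ≠ 0) →
  ∃ l m : MvPolynomial (Fin n) ℝ, l.IsHomogeneous 1 ∧ m.IsHomogeneous 1 ∧ (l ≠ 0 ∨ m ≠ 0) ∧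
    ∀ (v : Fin n → ℝ) (s t : ℝ), (s * eval v l + t * eval v m) ^ 2 ≤
      s ^ 2 * eval v A + 2 * s * t * eval v B + t ^ 2 * eval v D

/-- expansion at a zero -/
def Stmt_XP : Prop := ∀ (n : ℕ) (F : MvPolynomial (Fin (n + 1)) ℝ), F.IsHomogeneous 4 → Psd F →
  eval (Pi.single 0 1 : Fin (n + 1) → ℝ) F = 0 → ∃ A B D : MvPolynomial (Fin n) ℝ, Exp F A B D

/-- real division: a form vanishing on the zeros of a nonzero linear form is divisible by it -/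
def Stmt_LD : Prop := ∀ (n : ℕ) (l P : MvPolynomial (Fin n) ℝ) (d : ℕ), l.IsHomogeneous 1 →
  l ≠ 0 → P.IsHomogeneous (d + 1) → (∀ v, eval v l = 0 → eval v P = 0) →
  ∃ P' : MvPolynomial (Fin n) ℝ, P'.IsHomogeneous d ∧ P = l * P'

/-- factors of forms are forms -/
def Stmt_HF : Prop := ∀ (n d : ℕ) (P Q : MvPolynomial (Fin n) ℝ), P * Q ≠ 0 →
  (P * Q).IsHomogeneous d → ∃ a b : ℕ, a + b = d ∧ P.IsHomogeneous a ∧ Q.IsHomogeneous b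

/-- ternary quartics: one quadratic square below, forms with two zeros -/
def Stmt_H2 : Prop := ∀ (T : P3), T.IsHomogeneous 4 → Psd T → T ≠ 0 →
  (∃ p q : Fin 3 → ℝ, LinearIndependent ℝ ![p, q] ∧ eval p T = 0 ∧ eval q T = 0) →
  ∃ G : P3, G.IsHomogeneous 2 ∧ G ≠ 0 ∧ ∀ v, (eval v G) ^ 2 ≤ eval v T

/-- ternary quartics: one quadratic square below, forms with one zero `e_0` -/
def Stmt_H1 : Prop := ∀ (T : P3), T.IsHomogeneous 4 → Psd T → T ≠ 0 →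
  (∀ v : Fin 3 → ℝ, eval v T = 0 ↔ v 1 = 0 ∧ v 2 = 0) →
  ∃ G : P3, G.IsHomogeneous 2 ∧ G ≠ 0 ∧ ∀ v, (eval v G) ^ 2 ≤ eval v T

/-- ternary quartics: one quadratic square below -/
def Stmt_HL : Prop := ∀ (T : P3), T.IsHomogeneous 4 → Psd T → T ≠ 0 →
  ∃ G : P3, G.IsHomogeneous 2 ∧ G ≠ 0 ∧ ∀ v, (eval v G) ^ 2 ≤ eval v T

/-! ### B2. Hessians and planes in the zero set -/

/-- the Hessian at a zero of a rigid form is not a square -/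
def Stmt_R1 : Prop := ∀ (F : P4) (A B D l : P3), Rig F → Exp F A B D → l.IsHomogeneous 1 →
  A ≠ l ^ 2

/-- a nonnegative ternary quadratic form vanishing on a plane is a square -/
def Stmt_R2 : Prop := ∀ (A : P3) (u v : Fin 3 → ℝ), A.IsHomogeneous 2 → Psd A →
  LinearIndependent ℝ ![u, v] → eval u A = 0 → eval v A = 0 →
  ∃ l : P3, l.IsHomogeneous 1 ∧ A = l ^ 2

def Stmt_RK : Prop := ∀ F : P4, Rig F → Rk2 F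

def Stmt_K1 : Prop := ∀ F : P4, Rig F → eval (Pi.single 0 1 : Fin 4 → ℝ) F = 0 →
  (∀ a b : ℝ, eval ![0, a, b, 0] F = 0) → False

def Stmt_K2 : Prop := ∀ F : P4, Rig F → Rk2 F → (∀ a b : ℝ, eval ![a, b, 0, 0] F = 0) →
  ∃ v : Fin 4 → ℝ, eval v F = 0 ∧ (v 2 ≠ 0 ∨ v 3 ≠ 0)

/-- a rigid form does not vanish on a plane -/
def Stmt_KL : Prop := ∀ F : P4, Rig F → ∀ p u : Fin 4 → ℝ, LinearIndependent ℝ ![p, u] →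
  ∃ a b : ℝ, eval (a • p + b • u) F ≠ 0

/-! ### B3. finiteness of the zero set -/

/-- reduction modulo `y² + z²` -/
def Stmt_RA : Prop := rho Ayz = 0 ∧ ∀ f : P3, rho f = 0 → Ayz ∣ f

/-- real lifts -/
def Stmt_RB : Prop := ∀ (m : ℕ) (e : MvPolynomial (Fin 2) ℂ), e.IsHomogeneous m →
  (MvPolynomial.coeff (Finsupp.single 0 m) e).im = 0 → ∃ c : P3, c.IsHomogeneous m ∧ rho c = e

/-- the complex reduction lemma -/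
def Stmt_RC : Prop := ∀ (χ ψ E : P3) (d k : ℕ), χ.IsHomogeneous 3 → ψ.IsHomogeneous d →
  d + k = 3 → E.IsHomogeneous (2 * k) → ¬ Ayz ∣ ψ → Ayz ∣ χ ^ 2 - ψ ^ 2 * E →
  0 ≤ eval ![1, 0, 0] E →
  ∃ c ν η : P3, c.IsHomogeneous k ∧ ν.IsHomogeneous 1 ∧ χ + Ayz * ν = ψ * c ∧
    E = c ^ 2 + Ayz * η ∧ (k = 0 → η = 0) ∧ (1 ≤ k → η.IsHomogeneous (2 * k - 2))

/-- `A D ≠ B²` -/
def Stmt_KD : Prop := ∀ (F : P4) (B D : P3), Rig F → Exp F Ayz B D → Ayz * D - B ^ 2 ≠ 0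

/-- `B = y c₁ + z c₂` -/
def Stmt_KB : Prop := ∀ (F : P4) (B D : P3), Psd F → Exp F Ayz B D →
  ∃ c₁ c₂ : P3, c₁.IsHomogeneous 2 ∧ c₂.IsHomogeneous 2 ∧
    B = MvPolynomial.X 1 * c₁ + MvPolynomial.X 2 * c₂

/-- the case of a linear `ψ` -/
def Stmt_KM : Prop := ∀ (c η : P3), c.IsHomogeneous 2 → η.IsHomogeneous 2 →
  Psd (c ^ 2 + Ayz * η) → ∃ μ : ℝ, Psd (η - 2 * C μ * c - C (μ ^ 2) * Ayz)

/-- the final contradiction -/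
def Stmt_KX : Prop := ∀ (F : P4) (B D c₁ c₂ ψ c η : P3) (d k : ℕ), Rig F → Exp F Ayz B D →
  c₁.IsHomogeneous 2 → c₂.IsHomogeneous 2 → B = MvPolynomial.X 1 * c₁ + MvPolynomial.X 2 * c₂ →
  Irreducible ψ → ψ.IsHomogeneous d → 1 ≤ d → d + k = 3 → c.IsHomogeneous k →
  MvPolynomial.X 2 * c₁ - MvPolynomial.X 1 * c₂ = ψ * c → D = c₁ ^ 2 + c₂ ^ 2 + η * ψ ^ 2 →
  (k = 0 → η = 0) → (1 ≤ k → η.IsHomogeneous (2 * k - 2)) → Psd (c ^ 2 + Ayz * η) → False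

def Stmt_KP : Prop := ∀ (F : P4) (B D ψ : P3) (d : ℕ), Rig F → Exp F Ayz B D →
  Irreducible ψ → ψ.IsHomogeneous d → ψ ^ 2 ∣ Ayz * D - B ^ 2 → ¬ FinZ ψ → False

/-- elimination -/
def Stmt_EL : Prop := ∀ (n : ℕ) (P Q : MvPolynomial (Fin (n + 1)) ℝ), Irreducible P → ¬ P ∣ Q →
  ∃ (R : MvPolynomial (Fin n) ℝ) (a b : MvPolynomial (Fin (n + 1)) ℝ), R ≠ 0 ∧
    MvPolynomial.rename Fin.succ R = a * P + b * Q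

/-- finitely many common zeros -/
def Stmt_BF : Prop := ∀ (P Q : P3) (a b : ℕ), P.IsHomogeneous a → Q.IsHomogeneous b →
  Irreducible P → ¬ P ∣ Q →
  {v : Fin 3 → ℝ | eval v P = 0 ∧ eval v Q = 0 ∧ ∑ j, v j ^ 2 = 1}.Finite

def Stmt_KI : Prop := ∀ (D : P3) (d : ℕ), D.IsHomogeneous d → Psd D → D ≠ 0 → ¬ FinZ D →
  ∃ (ψ : P3) (e : ℕ), ψ.IsHomogeneous e ∧ Irreducible ψ ∧ ψ ^ 2 ∣ D ∧ ¬ FinZ ψ

/-- normalisation of the Hessian at a zero -/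
def Stmt_NZ : Prop := ∀ (F : P4), Rig F → ∀ p : Fin 4 → ℝ, p ≠ 0 → eval p F = 0 →
  ∃ (T : (Fin 4 → ℝ) ≃ₗ[ℝ] (Fin 4 → ℝ)) (A B D : P3), T (Pi.single 0 1) = p ∧
    Exp (pull (T : (Fin 4 → ℝ) →ₗ[ℝ] (Fin 4 → ℝ)) F) A B D ∧
    ((∀ v, v ≠ 0 → 0 < eval v A) ∨ A = Ayz)

/-- normalisation of a ternary quadratic form of rank two -/
def Stmt_NQ : Prop := ∀ (A : P3), A.IsHomogeneous 2 → Psd A →
  (∀ l : P3, l.IsHomogeneous 1 → A ≠ l ^ 2) → (∃ u, u ≠ 0 ∧ eval u A = 0) →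
  ∃ S : (Fin 3 → ℝ) ≃ₗ[ℝ] (Fin 3 → ℝ), pull (S : (Fin 3 → ℝ) →ₗ[ℝ] (Fin 3 → ℝ)) A = Ayz

/-- accumulation points -/
def Stmt_AC : Prop := ∀ (F : P4), F.IsHomogeneous 4 → ¬ FinZ F →
  ∃ p : Fin 4 → ℝ, p ≠ 0 ∧ eval p F = 0 ∧ ∀ δ : ℝ, 0 < δ →
    ∃ v : Fin 4 → ℝ, eval v F = 0 ∧ LinearIndependent ℝ ![p, v] ∧ ∀ j, |v j - p j| < δ

/-- lower bound at a zero with positive definite Hessian -/
def Stmt_LP : Prop := ∀ (F : P4) (A B D : P3), Exp F A B D → (∀ v, v ≠ 0 → 0 < eval v A) →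
  ∃ c δ : ℝ, 0 < c ∧ 0 < δ ∧ ∀ v : Fin 3 → ℝ, (∀ j, |v j| < δ) →
    c * ∑ j, v j ^ 2 ≤ eval (Fin.cons 1 v : Fin 4 → ℝ) F

/-- infinitely many zeros give infinitely many zeros of the discriminant -/
def Stmt_KC : Prop := ∀ (F : P4) (A B D : P3), F.IsHomogeneous 4 → Psd F → Exp F A B D →
  (∀ p u : Fin 4 → ℝ, LinearIndependent ℝ ![p, u] → ∃ a b : ℝ, eval (a • p + b • u) F ≠ 0) →
  FinZ (A * D - B ^ 2) → FinZ F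

/-- finiteness -/
def Stmt_KF : Prop := ∀ F : P4, Rig F → FinZ F

/-! ### B4. the local structure of zeros -/

/-- one step: either the arc can be improved or `F` has a lower bound -/
def Stmt_LS : Prop := ∀ (F : P4) (B D : P3) (i : ℕ) (g : Fin 2 → U1), Psd F → Exp F Ayz B D →
  1 ≤ i → at0 g = 0 → (Polynomial.X : U1) ^ (2 * i) ∣ comp ![1, Polynomial.X, g 0, g 1] F →
  (∃ g' : Fin 2 → U1, at0 g' = 0 ∧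
    (Polynomial.X : U1) ^ (2 * (i + 1)) ∣ comp ![1, Polynomial.X, g' 0, g' 1] F) ∨
  (∃ c δ : ℝ, 0 < c ∧ 0 < δ ∧ ∀ x y z : ℝ, |x| < δ → |y| < δ → |z| < δ →
    c * ((y - (g 0).eval x) ^ 2 + (z - (g 1).eval x) ^ 2 + x ^ (2 * i)) ≤ eval ![1, x, y, z] F)

/-- the lower bound implies `LocalGood` -/
def Stmt_LG : Prop := ∀ (F : P4) (i : ℕ) (g : Fin 2 → U1) (c δ : ℝ), F.IsHomogeneous 4 →
  1 ≤ i → at0 g = 0 → 0 < c → 0 < δ →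
  (∀ x y z : ℝ, |x| < δ → |y| < δ → |z| < δ →
    c * ((y - (g 0).eval x) ^ 2 + (z - (g 1).eval x) ^ 2 + x ^ (2 * i)) ≤ eval ![1, x, y, z] F) →
  LocalGood F ![1, Polynomial.X, g 0, g 1] i

/-- arcs at zeros -/
def Stmt_LL : Prop := ∀ F : P4, Rig F → ∀ p : Fin 4 → ℝ, p ≠ 0 → eval p F = 0 →
  ∃ (γ : Fin 4 → U1) (j : ℕ), at0 γ = p ∧ LinearIndependent ℝ ![at0 γ, vel γ] ∧ 1 ≤ j ∧
    (Polynomial.X : U1) ^ (2 * j) ∣ comp γ F ∧ (9 ≤ j ∨ LocalGood F γ j)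

/-! ### B5. the quadric -/

/-- dimension of the space of quadratic forms -/
def Stmt_DQ : Prop := Module.Finite ℝ (MvPolynomial.homogeneousSubmodule (Fin 4) ℝ 2) ∧
  10 ≤ Module.finrank ℝ (MvPolynomial.homogeneousSubmodule (Fin 4) ℝ 2)

/-- patching local domination -/
def Stmt_QC : Prop := ∀ (F G : P4), F.IsHomogeneous 4 → Psd F → G.IsHomogeneous 2 →
  (∀ p : Fin 4 → ℝ, eval p F = 0 → ∑ j, p j ^ 2 = 1 → ∃ K δ : ℝ, 0 < δ ∧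
    ∀ v : Fin 4 → ℝ, (∀ j, |v j - p j| < δ) → (eval v G) ^ 2 ≤ K * eval v F) →
  ∃ K : ℝ, 0 < K ∧ ∀ v, (eval v G) ^ 2 ≤ K * eval v F

/-- existence of the quadric -/
def Stmt_QX : Prop := ∀ F : P4, Rig F → FinZ F →
  ∃ (ι : Type) (_ : Fintype ι) (Q : P4) (γ : ι → Fin 4 → U1) (i : ι → ℕ), Q ≠ 0 ∧
    Q.IsHomogeneous 2 ∧ ∑ a, i a = 9 ∧ Cfg F Q γ i

/-- the univariate core -/
def Stmt_CO : Prop := ∀ (ι : Type) [Fintype ι] (a b c : U1) (m : ℕ) (W η : ι → U1) (i : ι → ℕ)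
  (Z η₀ : U1) (e : ℕ),
  (∀ w x : ℝ, 0 ≤ w ^ 2 * a.eval x + 2 * w * b.eval x + c.eval x) →
  a * c - b ^ 2 ≠ 0 → (a * c - b ^ 2).natDegree ≤ 2 * m →
  (∀ x : ℝ, a.eval x ≠ 0 ∨ b.eval x ≠ 0 ∨ c.eval x ≠ 0) →
  (∀ j k, j ≠ k → (η j).coeff 0 ≠ (η k).coeff 0) →
  (∀ j, i j ≤ 1 ∨ (η j).coeff 1 ≠ 0) →
  (∀ j, (Polynomial.X : U1) ^ (2 * i j) ∣
    W j ^ 2 * a.comp (η j) + 2 * W j * b.comp (η j) + c.comp (η j)) →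
  (e = 0 ∨ Z.coeff 0 ≠ 0 ∧ (Polynomial.X : U1) ^ (2 * e) ∣
    Z ^ 2 * a.comp η₀ + 2 * Z * Polynomial.X * b.comp η₀ + Polynomial.X ^ 2 * c.comp η₀) →
  ∑ j, i j + e ≤ m

/-- lines and zeros -/
def Stmt_LN : Prop := ∀ (n : ℕ) (F : MvPolynomial (Fin n) ℝ), F.IsHomogeneous 4 → Psd F →
  FinZ F → ∀ p q : Fin n → ℝ, LinearIndependent ℝ ![p, q] →
  (∃ s t : ℝ, eval (s • p + t • q) F ≠ 0) ∧
  (eval p F = 0 → eval q F = 0 → ∀ s t : ℝ, s ≠ 0 → t ≠ 0 → eval (s • p + t • q) F ≠ 0) ∧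
  (eval p F = 0 → ¬ (Polynomial.X : U1) ^ 4 ∣ comp (ray q p) F)

/-- ternary quartics with finitely many zeros: total length at most four, normalised -/
def Stmt_PP : Prop := ∀ (F : P3) (ι : Type) [Fintype ι] (γ : ι → Fin 3 → U1) (i : ι → ℕ) (a₀ : ι),
  F.IsHomogeneous 4 → Psd F → FinZ F → Cfg F 0 γ i →
  (∃ u : Fin 3 → ℝ, ¬ (Polynomial.X : U1) ^ 3 ∣ comp (ray (at0 (γ a₀)) u) F) →
  (∃ r : ℝ, at0 (γ a₀) = r • (Pi.single 0 1 : Fin 3 → ℝ)) → (vel (γ a₀)) 1 ≠ 0 →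
  (∀ a, a ≠ a₀ → (at0 (γ a)) 1 ≠ 0) → ∑ a, i a ≤ 4

/-- the same without normalisation -/
def Stmt_PQ : Prop := ∀ (F : P3) (ι : Type) [Fintype ι] (γ : ι → Fin 3 → U1) (i : ι → ℕ),
  F.IsHomogeneous 4 → Psd F → FinZ F → Cfg F 0 γ i →
  (∀ a, ∃ u : Fin 3 → ℝ, ¬ (Polynomial.X : U1) ^ 3 ∣ comp (ray (at0 (γ a)) u) F) →
  ∑ a, i a ≤ 4

/-- plane sections -/
def Stmt_PL : Prop := ∀ (F l : P4) (ι : Type) [Fintype ι] (γ : ι → Fin 4 → U1) (i : ι → ℕ),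
  F.IsHomogeneous 4 → Psd F → FinZ F → Rk2 F → l.IsHomogeneous 1 → l ≠ 0 → Cfg F l γ i →
  ∑ a, i a ≤ 4

/-- the quadric is indefinite and irreducible -/
def Stmt_QN : Prop := ∀ (F Q : P4) (ι : Type) [Fintype ι] (γ : ι → Fin 4 → U1) (i : ι → ℕ),
  F.IsHomogeneous 4 → Psd F → FinZ F → Rk2 F → Q.IsHomogeneous 2 → Q ≠ 0 → Cfg F Q γ i →
  ∑ a, i a = 9 →
  ¬ Psd Q ∧ ¬ Psd (-Q) ∧ ∀ l l' : P4, l.IsHomogeneous 1 → l'.IsHomogeneous 1 → Q ≠ l * l'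

/-- normal form of quadrics -/
def Stmt_NA : Prop := ∀ Q : P4, Q.IsHomogeneous 2 → ¬ Psd Q → ¬ Psd (-Q) →
  (∀ l l' : P4, l.IsHomogeneous 1 → l'.IsHomogeneous 1 → Q ≠ l * l') →
  ∃ (T : (Fin 4 → ℝ) ≃ₗ[ℝ] (Fin 4 → ℝ)) (κ ε : ℝ), κ ≠ 0 ∧
    pull (T : (Fin 4 → ℝ) →ₗ[ℝ] (Fin 4 → ℝ)) Q = C κ * Qe ε

/-- generic normal form -/
def Stmt_NB : Prop := ∀ (F Q : P4) (S : Finset (Fin 4 → ℝ)), F.IsHomogeneous 4 → FinZ F →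
  (∃ (T : (Fin 4 → ℝ) ≃ₗ[ℝ] (Fin 4 → ℝ)) (κ ε : ℝ), κ ≠ 0 ∧
    pull (T : (Fin 4 → ℝ) →ₗ[ℝ] (Fin 4 → ℝ)) Q = C κ * Qe ε) →
  (∀ s ∈ S, s ≠ 0) →
  ∃ (T : (Fin 4 → ℝ) ≃ₗ[ℝ] (Fin 4 → ℝ)) (κ ε : ℝ), κ ≠ 0 ∧
    pull (T : (Fin 4 → ℝ) →ₗ[ℝ] (Fin 4 → ℝ)) Q = C κ * Qe ε ∧
    eval (T (Pi.single 3 1)) F ≠ 0 ∧
    ∀ s ∈ S, (T.symm s) 0 ≠ 0 ∨ (ε = 0 ∧ ∃ r : ℝ, s = r • T (Pi.single 2 1))

/-- the vertex of a cone is not in the configuration -/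
def Stmt_VX : Prop := ∀ (F : P4) (ι : Type) [Fintype ι] (γ : ι → Fin 4 → U1) (i : ι → ℕ) (a₀ : ι)
  (r : ℝ), F.IsHomogeneous 4 → Psd F → FinZ F → Rk2 F → Cfg F (Qe 0) γ i →
  at0 (γ a₀) = r • (Pi.single 2 1 : Fin 4 → ℝ) → (vel (γ a₀)) 0 ≠ 0 →
  (∀ a, a ≠ a₀ → (at0 (γ a)) 0 ≠ 0) → ∑ a, i a ≤ 8

/-! ### B6. transfer to the plane -/

def Stmt_CT : Prop := ∀ (F : P4) (ε : ℝ) (γ : Fin 4 → U1) (i : ℕ), F.IsHomogeneous 4 → Psd F →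
  1 ≤ i → LinearIndependent ℝ ![at0 γ, vel γ] → (at0 γ) 0 ≠ 0 →
  (Polynomial.X : U1) ^ (2 * i) ∣ comp γ F → (Polynomial.X : U1) ^ i ∣ comp γ (Qe ε) →
  ∃ β : Fin 2 → U1, Imm β ∧ (Polynomial.X : U1) ^ (2 * i) ∣ comp β (chart ε F) ∧
    at0 β = ![(at0 γ) 1 / (at0 γ) 0, (at0 γ) 2 / (at0 γ) 0]

def Stmt_HS : Prop := ∀ (F : P4) (ε : ℝ), F.IsHomogeneous 4 → Psd F → Rk2 F →
  ∀ v : Fin 2 → ℝ, eval v (chart ε F) = 0 →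
    ∃ u : Fin 2 → ℝ, ¬ (Polynomial.X : U1) ^ 3 ∣ comp (ray v u) (chart ε F)

def Stmt_FZ : Prop := ∀ (F : P4) (ε : ℝ), F.IsHomogeneous 4 → FinZ F →
  {v : Fin 2 → ℝ | eval v (chart ε F) = 0}.Finite

def Stmt_FU : Prop := (∀ (F : P4) (ε : ℝ) (N : ℕ), F.IsHomogeneous N → chart ε F ∈ PN ε N) ∧
  (∀ (F : P4) (ε : ℝ), F.IsHomogeneous 4 → eval (Pi.single 3 1 : Fin 4 → ℝ) F ≠ 0 →
    Full ε (chart ε F))

/-- the plane transfer: a configuration without vertex gives stubbornness -/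
def Stmt_MN : Prop := ∀ (F : P4) (ε : ℝ) (ι : Type) [Fintype ι] (γ : ι → Fin 4 → U1)
  (i : ι → ℕ), F.IsHomogeneous 4 → Psd F → FinZ F → Rk2 F → Cfg F (Qe ε) γ i →
  ∑ a, i a = 9 → eval (Pi.single 3 1 : Fin 4 → ℝ) F ≠ 0 → (∀ a, (at0 (γ a)) 0 ≠ 0) →
  ∀ (k m : ℕ) (g : Fin m → P4), Odd k → (∀ j, (g j).IsHomogeneous (2 * k)) →
    F ^ k ≠ ∑ j, g j ^ 2

/-- rigid forms are stubborn -/
def Stmt_MM : Prop := ∀ F : P4, Rig F →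
  ∀ (k m : ℕ) (g : Fin m → P4), Odd k → (∀ j, (g j).IsHomogeneous (2 * k)) →
    F ^ k ≠ ∑ j, g j ^ 2

end Pool.Agent.SBQ
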